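import Mathlib

/-!
# QD, module Cheb: powers as sums of Chebyshev polynomials (elementary, independent of the rest)

`VV n s` is `U_{2n}(t)` with `s = t²` (Chebyshev polynomial of the second kind). Put
`cb d j = (C(2d, d+j) - C(2d, d+j+1)) / 4^d`.

* `pow_eq`: `s * VV 0 = (VV 1 + VV 0) / 4` and `s * VV j = (VV (j+1) + 2 VV j + VV (j-1)) / 4` for
  `j ≥ 1` (the recursion). By Pascal's rule (twice)
  `4 cb (d+1) j = cb d (j-1) + 2 cb d j + cb d (j+1)` for `j ≥ 1` and
  `4 cb (d+1) 0 = cb d 0 + cb d 1`. Induction on `d`.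
* `cb_nonneg`: `C(2d, d+j+1) ≤ C(2d, d+j)` (unimodality, `Nat.choose_succ_right_eq` or
  `Nat.choose_le_succ_of_lt_half_left` ...).
-/

set_option autoImplicit false

noncomputable section

namespace Pool.Agent.MP_f406e2_lc_QD

/-- `U_{2n}(√s)` -/
def VV : ℕ → ℝ → ℝ
  | 0, _ => 1
  | 1, s => 4 * s - 1
  | n + 2, s => (4 * s - 2) * VV (n + 1) s - VV n s

/-- the coefficients -/
def cb (d j : ℕ) : ℝ := (((2 * d).choose (d + j) : ℝ) - (2 * d).choose (d + j + 1)) / 4 ^ d

private theorem Cheb_s0 (s : ℝ) : 4 * (s * VV 0 s) = VV 1 s + VV 0 s := by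
  simp only [VV]; ring

private theorem Cheb_sj (j : ℕ) (s : ℝ) :
    4 * (s * VV (j + 1) s) = VV (j + 2) s + 2 * VV (j + 1) s + VV j s := by
  simp only [VV]; ring

private theorem Cheb_sum (N : ℕ) (b c : ℕ → ℝ) (s : ℝ) (h1 : b (N + 1) = 0) (h2 : b (N + 2) = 0)
    (hc0 : 4 * c 0 = b 0 + b 1) (hc : ∀ j, 4 * c (j + 1) = b j + 2 * b (j + 1) + b (j + 2)) :
    4 * (s * ∑ j ∈ Finset.range (N + 1), b j * VV j s) =
      4 * ∑ j ∈ Finset.range (N + 1 + 1), c j * VV j s := by
  have e1 : 4 * ∑ j ∈ Finset.range (N + 1 + 1), c j * VV j s =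
      (b 0 + b 1) * VV 0 s +
      ∑ j ∈ Finset.range (N + 1), (b j + 2 * b (j + 1) + b (j + 2)) * VV (j + 1) s := by
    rw [Finset.sum_range_succ', mul_add, Finset.mul_sum, ← hc0, add_comm]
    congr 1
    · ring
    · apply Finset.sum_congr rfl
      intro j _
      rw [← hc j]
      ring
  have e2 : ∑ j ∈ Finset.range (N + 1), (b j + 2 * b (j + 1) + b (j + 2)) * VV (j + 1) s =
      ∑ j ∈ Finset.range (N + 1), b j * VV (j + 1) s +
      2 * ∑ j ∈ Finset.range (N + 1), b (j + 1) * VV (j + 1) s +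
      ∑ j ∈ Finset.range (N + 1), b (j + 2) * VV (j + 1) s := by
    rw [Finset.mul_sum, ← Finset.sum_add_distrib, ← Finset.sum_add_distrib]
    apply Finset.sum_congr rfl
    intro j _
    ring
  have e3 : ∑ j ∈ Finset.range (N + 1), b j * VV (j + 1) s =
      ∑ j ∈ Finset.range N, b (j + 1) * VV (j + 2) s + b 0 * VV 1 s := by
    rw [Finset.sum_range_succ']
  have e4 : ∑ j ∈ Finset.range (N + 1), b (j + 1) * VV (j + 1) s =
      ∑ j ∈ Finset.range N, b (j + 1) * VV (j + 1) s := by
    rw [Finset.sum_range_succ, h1]; ring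
  have e5 : b 1 * VV 0 s + ∑ j ∈ Finset.range (N + 1), b (j + 2) * VV (j + 1) s =
      ∑ j ∈ Finset.range N, b (j + 1) * VV j s := by
    have h3 : ∑ j ∈ Finset.range (N + 1 + 1), b (j + 1) * VV j s =
        ∑ j ∈ Finset.range (N + 1), b (j + 2) * VV (j + 1) s + b 1 * VV 0 s := by
      rw [Finset.sum_range_succ']
    have h4 : ∑ j ∈ Finset.range (N + 1 + 1), b (j + 1) * VV j s =
        ∑ j ∈ Finset.range N, b (j + 1) * VV j s := by
      rw [Finset.sum_range_succ, Finset.sum_range_succ, h1, h2]; ring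
    linarith
  have e6 : 4 * (s * ∑ j ∈ Finset.range (N + 1), b j * VV j s) =
      b 0 * (VV 1 s + VV 0 s) + ∑ j ∈ Finset.range N,
        (b (j + 1) * VV (j + 2) s + 2 * (b (j + 1) * VV (j + 1) s) + b (j + 1) * VV j s) := by
    rw [Finset.sum_range_succ', mul_add, mul_add, Finset.mul_sum, Finset.mul_sum, ← Cheb_s0,
      add_comm]
    congr 1
    · ring
    · apply Finset.sum_congr rfl
      intro j _
      have := Cheb_sj j s
      linear_combination (b (j + 1)) * this
  rw [e6, e1, e2, e3, e4, Finset.sum_add_distrib, Finset.sum_add_distrib, ← Finset.mul_sum]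
  linear_combination - e5

private theorem Cheb_pascal (n k : ℕ) : ((n + 2).choose (k + 2) : ℝ) =
    n.choose k + 2 * n.choose (k + 1) + n.choose (k + 2) := by
  have : (n + 2).choose (k + 2) = n.choose k + 2 * n.choose (k + 1) + n.choose (k + 2) := by
    rw [Nat.choose_succ_succ (n + 1), Nat.choose_succ_succ n, Nat.choose_succ_succ n]
    ring
  rw [this]
  push_cast
  ring

private theorem Cheb_mid (d : ℕ) : ((2 * d + 2).choose (d + 1) : ℝ) =
    2 * (2 * d).choose d + 2 * (2 * d).choose (d + 1) := by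
  have : (2 * d + 2).choose (d + 1) = 2 * (2 * d).choose d + 2 * (2 * d).choose (d + 1) := by
    rw [Nat.choose_succ_succ (2 * d + 1), ← Nat.choose_symm_half d, Nat.choose_succ_succ (2 * d)]
    ring
  rw [this]
  push_cast
  ring

private theorem Cheb_zero (d : ℕ) : 4 * cb (d + 1) 0 = cb d 0 + cb d 1 := by
  unfold cb
  have h1 : 2 * (d + 1) = 2 * d + 2 := by ring
  rw [h1, show d + 1 + 0 + 1 = d + 2 by ring, show d + 1 + 0 = d + 1 by ring, Cheb_mid,
    Cheb_pascal, pow_succ]
  simp only [add_zero]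
  field_simp
  ring

private theorem Cheb_succ (d j : ℕ) :
    4 * cb (d + 1) (j + 1) = cb d j + 2 * cb d (j + 1) + cb d (j + 2) := by
  unfold cb
  have h1 : 2 * (d + 1) = 2 * d + 2 := by ring
  rw [h1, show d + 1 + (j + 1) + 1 = (d + j + 1) + 2 by ring,
    show d + 1 + (j + 1) = (d + j) + 2 by ring, Cheb_pascal, Cheb_pascal, pow_succ,
    show d + (j + 1) + 1 = d + j + 2 by ring, show d + (j + 2) + 1 = d + j + 1 + 2 by ring,
    show d + (j + 1) = d + j + 1 by ring, show d + (j + 2) = d + j + 2 by ring,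
    show d + j + 1 + 1 = d + j + 2 by ring]
  field_simp
  ring

theorem pow_eq (d : ℕ) (s : ℝ) : s ^ d = ∑ j ∈ Finset.range (d + 1), cb d j * VV j s := by
  induction d with
  | zero => simp [cb, VV]
  | succ d ih =>
    have h1 := Cheb_sum d (cb d) (cb (d + 1)) s
      (by
        unfold cb
        rw [Nat.choose_eq_zero_of_lt (by omega), Nat.choose_eq_zero_of_lt (by omega)]
        simp)
      (by
        unfold cb
        rw [Nat.choose_eq_zero_of_lt (by omega), Nat.choose_eq_zero_of_lt (by omega)]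
        simp)
      (Cheb_zero d) (Cheb_succ d)
    rw [← ih] at h1
    have h2 : s * s ^ d = ∑ j ∈ Finset.range (d + 1 + 1), cb (d + 1) j * VV j s := by linarith
    rw [← h2]
    ring

theorem cb_nonneg (d j : ℕ) : 0 ≤ cb d j := by
  unfold cb
  apply div_nonneg _ (by positivity)
  rw [sub_nonneg]
  have h1 := Nat.choose_succ_right_eq (2 * d) (d + j)
  have h2 : (2 * d).choose (d + j + 1) * (d + j + 1) ≤ (2 * d).choose (d + j) * (d + j + 1) := by
    rw [h1]
    exact Nat.mul_le_mul_left _ (by omega)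
  exact_mod_cast Nat.le_of_mul_le_mul_right h2 (by omega)

end Pool.Agent.MP_f406e2_lc_QD
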