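import Mathlib
import Pool.Agent.Lib.MP_f406e2_lc_QD.Cheb

/-!
# QD, module ChebL: lower bound for a coefficient

`cb d l = C(2d, d+l) (2l+1) / ((d+l+1) 4^d)`, because
`C(2d, d+l+1) = C(2d, d+l) (d-l)/(d+l+1)`. With `d = 2 l²`:
`C(2d, d) / 4^d ≥ 1 / (2 √d)` (induction: `a_{d+1} = a_d (2d+1)/(2d+2)`, so
`4 d a_d²` increases: `(2d+1)² ≥ 4 d (d+1)`), `√d ≤ (3/2) l`, so this is `≥ 1/(3 l)`;
`C(2d, d+l)/C(2d, d) = ∏_{i=1}^{l} (d-l+i)/(d+i) ≥ (1 - l/(d+1))^l ≥ 1 - l²/(d+1) ≥ 1/2`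
(Bernoulli); `(2l+1)/(d+l+1) ≥ 3/(4 l)` (`4 l (2l+1) ≥ 3 (2l²+l+1)`). The product is
`≥ 1/(8 l²) ≥ 1/(12 l²)`. (The constant 12 leaves room: checked by computer for `l < 60`.)
-/

set_option autoImplicit false

noncomputable section

namespace Pool.Agent.MP_f406e2_lc_QD

private theorem ChebL_central (d : ℕ) (hd : 1 ≤ d) :
    ((4 : ℝ) ^ d) ^ 2 ≤ 4 * d * ((2 * d).choose d : ℝ) ^ 2 := by
  induction d, hd using Nat.le_induction with
  | base => norm_num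
  | succ d hd ih =>
    have h1 := Nat.succ_mul_centralBinom_succ d
    rw [Nat.centralBinom_eq_two_mul_choose, Nat.centralBinom_eq_two_mul_choose] at h1
    have h2 : ((d : ℝ) + 1) * ((2 * (d + 1)).choose (d + 1) : ℝ) =
        2 * (2 * d + 1) * ((2 * d).choose d : ℝ) := by exact_mod_cast h1
    set x : ℝ := ((2 * (d + 1)).choose (d + 1) : ℝ)
    set y : ℝ := ((2 * d).choose d : ℝ)
    have hd0 : (0 : ℝ) < (d : ℝ) + 1 := by positivity
    have h3 : ((d : ℝ) + 1) * (((4 : ℝ) ^ (d + 1)) ^ 2) ≤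
        ((d : ℝ) + 1) * (4 * ((d + 1 : ℕ) : ℝ) * x ^ 2) := by
      have h4 : ((d : ℝ) + 1) * (4 * ((d + 1 : ℕ) : ℝ) * x ^ 2) =
          4 * (((d : ℝ) + 1) * x) ^ 2 := by
        push_cast
        ring
      rw [h4, h2]
      have h5 : ((4 : ℝ) ^ (d + 1)) ^ 2 = 16 * ((4 : ℝ) ^ d) ^ 2 := by
        rw [pow_succ]
        ring
      rw [h5]
      have h6 : ((d : ℝ) + 1) * (16 * ((4 : ℝ) ^ d) ^ 2) ≤
          ((d : ℝ) + 1) * (16 * (4 * d * y ^ 2)) :=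
        mul_le_mul_of_nonneg_left (by linarith) hd0.le
      have h7 : 4 * (2 * (2 * (d : ℝ) + 1) * y) ^ 2 - ((d : ℝ) + 1) * (16 * (4 * d * y ^ 2)) =
          16 * y ^ 2 := by ring
      nlinarith [sq_nonneg y]
    exact le_of_mul_le_mul_left h3 hd0

private theorem ChebL_step (d i : ℕ) (hi : i ≤ d) :
    ((2 * d).choose (d + i + 1) : ℝ) * ((d : ℝ) + i + 1) =
      ((2 * d).choose (d + i) : ℝ) * ((d : ℝ) - i) := by
  have h1 := Nat.choose_succ_right_eq (2 * d) (d + i)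
  have h2 : 2 * d - (d + i) = d - i := by omega
  rw [h2] at h1
  have h3 : (((2 * d).choose (d + i + 1) * (d + i + 1) : ℕ) : ℝ) =
      (((2 * d).choose (d + i) * (d - i) : ℕ) : ℝ) := by exact_mod_cast h1
  push_cast [Nat.cast_sub hi] at h3
  exact h3

private theorem ChebL_ratio (d l : ℕ) (hl : 2 * l ≤ d + 2) (i : ℕ) (hi : i ≤ l) (hd : l ≤ d) :
    ((2 * d).choose d : ℝ) * (1 - (i : ℝ) ^ 2 / (d + 1)) ≤ ((2 * d).choose (d + i) : ℝ) := by
  induction i with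
  | zero => simp
  | succ i ih =>
    have ih := ih (by omega)
    have h1 := ChebL_step d i (by omega)
    have hd0 : (0 : ℝ) < (d : ℝ) + 1 := by positivity
    have hdi : (0 : ℝ) < (d : ℝ) + i + 1 := by positivity
    set c : ℝ := ((2 * d).choose d : ℝ) with hc
    set x : ℝ := ((2 * d).choose (d + i) : ℝ)
    have hc0 : 0 ≤ c := by positivity
    have hx0 : 0 ≤ x := by positivity
    have h2 : ((2 * d).choose (d + (i + 1)) : ℝ) = x * (((d : ℝ) - i) / ((d : ℝ) + i + 1)) := by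
      rw [← mul_div_assoc, eq_div_iff hdi.ne', ← h1]
      rfl
    have h3 : 1 - (2 * (i : ℝ) + 1) / (d + 1) ≤ ((d : ℝ) - i) / ((d : ℝ) + i + 1) := by
      rw [one_sub_div hd0.ne', div_le_div_iff₀ hd0 hdi]
      have : (0 : ℝ) ≤ i := by positivity
      nlinarith
    have h4 : (0 : ℝ) ≤ 1 - (2 * (i : ℝ) + 1) / (d + 1) := by
      rw [sub_nonneg, div_le_one hd0]
      have : (2 * i + 1 : ℕ) ≤ d + 1 := by omega
      exact_mod_cast this
    rw [h2]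
    have h5 : x * (1 - (2 * (i : ℝ) + 1) / (d + 1)) ≤
        x * (((d : ℝ) - i) / ((d : ℝ) + i + 1)) := mul_le_mul_of_nonneg_left h3 hx0
    have h6 : c * (1 - (i : ℝ) ^ 2 / (d + 1)) * (1 - (2 * (i : ℝ) + 1) / (d + 1)) ≤
        x * (1 - (2 * (i : ℝ) + 1) / (d + 1)) := mul_le_mul_of_nonneg_right ih h4
    have h7 : c * (1 - ((i + 1 : ℕ) : ℝ) ^ 2 / (d + 1)) ≤
        c * (1 - (i : ℝ) ^ 2 / (d + 1)) * (1 - (2 * (i : ℝ) + 1) / (d + 1)) := by
      rw [mul_assoc]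
      apply mul_le_mul_of_nonneg_left _ hc0
      have h8 : (1 - (i : ℝ) ^ 2 / (d + 1)) * (1 - (2 * (i : ℝ) + 1) / (d + 1)) =
          1 - ((i + 1 : ℕ) : ℝ) ^ 2 / (d + 1) +
            (i : ℝ) ^ 2 / (d + 1) * ((2 * (i : ℝ) + 1) / (d + 1)) := by
        push_cast
        ring
      rw [h8]
      have : (0 : ℝ) ≤ (i : ℝ) ^ 2 / (d + 1) * ((2 * (i : ℝ) + 1) / (d + 1)) := by positivity
      linarith
    linarith

theorem cb_lower (l : ℕ) (hl : 1 ≤ l) : 1 / (12 * (l : ℝ) ^ 2) ≤ cb (2 * l ^ 2) l := by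
  have hl2 : l ≤ l ^ 2 := by nlinarith
  obtain ⟨d, hd⟩ : ∃ d, d = 2 * l ^ 2 := ⟨_, rfl⟩
  have hdR : (d : ℝ) = 2 * (l : ℝ) ^ 2 := by
    rw [hd]
    push_cast
    ring
  rw [← hd]
  have hlR : (1 : ℝ) ≤ l := by exact_mod_cast hl
  have h1 := ChebL_central d (by omega)
  have h2 := ChebL_ratio d l (by omega) l le_rfl (by omega)
  have h3 := ChebL_step d l (by omega)
  unfold cb
  set c : ℝ := ((2 * d).choose d : ℝ)
  set x : ℝ := ((2 * d).choose (d + l) : ℝ)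
  set y : ℝ := ((2 * d).choose (d + l + 1) : ℝ)
  have hc0 : 0 ≤ c := by positivity
  have h4 : (4 : ℝ) ^ d ≤ 3 * l * c := by
    apply le_of_sq_le_sq _ (by positivity)
    rw [hdR] at h1
    nlinarith [sq_nonneg ((l : ℝ) * c)]
  have h5 : c / 2 ≤ x := by
    refine le_trans ?_ h2
    have : (l : ℝ) ^ 2 / (d + 1) ≤ 1 / 2 := by
      rw [hdR, div_le_div_iff₀ (by positivity) (by norm_num)]
      nlinarith
    nlinarith
  have hD : (0 : ℝ) < (d : ℝ) + l + 1 := by positivity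
  have h6 : x - y = x * (2 * l + 1) / ((d : ℝ) + l + 1) := by
    rw [eq_div_iff hD.ne', sub_mul, h3]
    ring
  rw [h6, div_le_div_iff₀ (by positivity) (by positivity), one_mul]
  have h7 : c / 2 * (2 * l + 1) / ((d : ℝ) + l + 1) ≤ x * (2 * l + 1) / ((d : ℝ) + l + 1) := by
    apply div_le_div_of_nonneg_right _ hD.le
    exact mul_le_mul_of_nonneg_right h5 (by positivity)
  have h8 : c / (4 * l) ≤ c / 2 * (2 * l + 1) / ((d : ℝ) + l + 1) := by
    rw [div_le_div_iff₀ (by positivity) hD, hdR]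
    have h9 : 0 ≤ c * (4 * (l : ℝ) ^ 2 + 2 * l - 2) := mul_nonneg hc0 (by nlinarith)
    nlinarith
  have h10 : 3 * l * c = c / (4 * l) * (12 * (l : ℝ) ^ 2) := by
    field_simp
    ring
  have h11 : c / (4 * l) * (12 * (l : ℝ) ^ 2) ≤
      x * (2 * l + 1) / ((d : ℝ) + l + 1) * (12 * (l : ℝ) ^ 2) :=
    mul_le_mul_of_nonneg_right (h8.trans h7) (by positivity)
  linarith

end Pool.Agent.MP_f406e2_lc_QD
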