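import Mathlib
import Pool.Agent.Lib.MP_f406e2_lc_SP.Meas

/-!
# MP_f406e2_lc QD: a Lebesgue measurable rotational 4-division of the sphere. Definitions

`h j` (`j : Fin 4`) are the half-turns about the four diagonals `u j` of the cube, `F f`
(`f` a permutation of `Fin 4`) is the isometry with `F f (u j) = u (f j)`; even `f` give the
rotations of the tetrahedral group. `wd l` is the product of the half-turns named by the word `l`.
-/

set_option autoImplicit false
set_option linter.unusedSimpArgs false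

noncomputable section

namespace Pool.Agent.MP_f406e2_lc_QD

open MeasureTheory Pool.Agent.MP_f406e2_lc_SP
open scoped InnerProductSpace

/-- the space -/
abbrev E3 : Type := EuclideanSpace ℝ (Fin 3)

/-- the sphere -/
abbrev S2 : Type := Sp 3

/-- the orthogonal group -/
abbrev O3 : Type := E3 ≃ₗᵢ[ℝ] E3

instance : MulAction O3 S2 where
  smul g x := sp g x
  one_smul _ := Subtype.ext rfl
  mul_smul _ _ _ := Subtype.ext rfl

lemma smul_coe (g : O3) (x : S2) : (g • x).1 = g x.1 := rfl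

/-- the normalised surface measure -/
def nu : Measure S2 := (sig 3 Set.univ)⁻¹ • sig 3

/-- the four diagonals -/
def u : Fin 4 → E3 := ![!₂[1, 1, 1], !₂[1, -1, -1], !₂[-1, 1, -1], !₂[-1, -1, 1]]

/-- the half-turn about the diagonal `u j` -/
def h (j : Fin 4) : O3 := (Submodule.span ℝ {u j}).reflection

lemma inner_u (i j : Fin 4) : ⟪u i, u j⟫_ℝ = if i = j then 3 else -1 := by
  have key : ∀ v w : E3, ⟪v, w⟫_ℝ = v 0 * w 0 + v 1 * w 1 + v 2 * w 2 := by
    intro v w
    rw [PiLp.inner_apply, Fin.sum_univ_three]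
    simp only [RCLike.inner_apply, conj_trivial]
    ring
  rw [key]
  fin_cases i <;> fin_cases j <;> simp [u] <;> norm_num

lemma sum_u : ∑ j, u j = 0 := by
  ext i
  fin_cases i <;> simp [u, Fin.sum_univ_four] 

lemma h_apply (j : Fin 4) (x : E3) : h j x = (2 / 3 * ⟪u j, x⟫_ℝ) • u j - x := by
  rw [h, Submodule.reflection_apply, Submodule.starProjection_singleton]
  have h1 : ‖u j‖ ^ 2 = 3 := by
    rw [← real_inner_self_eq_norm_sq, inner_u, if_pos rfl]
  simp only [RCLike.ofReal_real_eq_id, id_eq, h1]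
  rw [← Nat.cast_smul_eq_nsmul ℝ, smul_smul]
  congr 2
  push_cast
  ring

/-- the linear map of `f` -/
def Flin (f : Equiv.Perm (Fin 4)) : E3 →ₗ[ℝ] E3 :=
  (1 / 4 : ℝ) • ∑ j, (innerSL ℝ (u j)).toLinearMap.smulRight (u (f j))

lemma Flin_apply (f : Equiv.Perm (Fin 4)) (x : E3) :
    Flin f x = (1 / 4 : ℝ) • ∑ j, ⟪u j, x⟫_ℝ • u (f j) := by
  simp [Flin]

/-- the four diagonals form a tight frame -/
lemma frame (x : E3) : (1 / 4 : ℝ) • ∑ j, ⟪u j, x⟫_ℝ • u j = x := by
  ext i
  fin_cases i <;>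
    simp [u, PiLp.inner_apply, Fin.sum_univ_three, Fin.sum_univ_four] <;> ring

lemma sum_inner_u (x : E3) : ∑ j, ⟪u j, x⟫_ℝ = 0 := by
  rw [← sum_inner, sum_u, inner_zero_left]

lemma Flin_mul (f g : Equiv.Perm (Fin 4)) (x : E3) : Flin f (Flin g x) = Flin (f * g) x := by
  rw [Flin_apply, Flin_apply, Flin_apply]
  congr 1
  have h1 : ∀ j, ⟪u j, (1 / 4 : ℝ) • ∑ i, ⟪u i, x⟫_ℝ • u (g i)⟫_ℝ = ⟪u (g.symm j), x⟫_ℝ := by
    intro j
    rw [inner_smul_right, inner_sum]
    simp only [inner_smul_right, inner_u]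
    have h2 : ∀ i, ⟪u i, x⟫_ℝ * (if j = g i then (3 : ℝ) else -1) =
        (if i = g.symm j then 4 * ⟪u i, x⟫_ℝ else 0) - ⟪u i, x⟫_ℝ := by
      intro i
      by_cases hi : j = g i
      · rw [if_pos hi, if_pos (by rw [hi, Equiv.symm_apply_apply])]
        ring
      · rw [if_neg hi, if_neg (by rintro rfl; exact hi (by simp))]
        ring
    rw [Finset.sum_congr rfl fun i _ => h2 i, Finset.sum_sub_distrib, sum_inner_u,
      Finset.sum_ite_eq' Finset.univ, if_pos (Finset.mem_univ _)]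
    ring
  simp only [h1]
  rw [← Equiv.sum_comp g]
  simp

lemma Flin_u (f : Equiv.Perm (Fin 4)) (i : Fin 4) : Flin f (u i) = u (f i) := by
  have h1 : u (f i) = Flin f (u i) + (1 / 4 : ℝ) • ∑ j, u (f j) := by
    rw [Flin_apply, ← smul_add, ← Finset.sum_add_distrib]
    have h2 : ∀ j, ⟪u j, u i⟫_ℝ • u (f j) + u (f j) = if j = i then (4 : ℝ) • u (f i) else 0 := by
      intro j
      rw [inner_u]
      by_cases hj : j = i
      · rw [if_pos hj, if_pos hj, hj]
        module
      · rw [if_neg hj, if_neg hj]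
        simp
    rw [Finset.sum_congr rfl fun j _ => h2 j, Finset.sum_ite_eq' Finset.univ,
      if_pos (Finset.mem_univ _), smul_smul]
    norm_num
  rw [h1]
  have h3 : ∑ j, u (f j) = 0 := by
    rw [Equiv.sum_comp f u, sum_u]
  rw [h3]
  simp

lemma Flin_norm (f : Equiv.Perm (Fin 4)) (x : E3) : ‖Flin f x‖ = ‖x‖ := by
  have key : ∀ g : Equiv.Perm (Fin 4), ‖Flin g x‖ ^ 2 = (1 / 4 : ℝ) * ∑ j, ⟪u j, x⟫_ℝ ^ 2 := by
    intro g
    rw [← real_inner_self_eq_norm_sq]
    conv_lhs => rw [Flin_apply g x]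
    rw [inner_smul_left, inner_smul_right, sum_inner]
    have h1 : ∀ i j : Fin 4, ⟪⟪u i, x⟫_ℝ • u (g i), ⟪u j, x⟫_ℝ • u (g j)⟫_ℝ =
        (if j = i then 4 * ⟪u i, x⟫_ℝ ^ 2 else 0) - ⟪u i, x⟫_ℝ * ⟪u j, x⟫_ℝ := by
      intro i j
      rw [inner_smul_left, inner_smul_right, inner_u, conj_trivial]
      by_cases hij : j = i
      · subst hij
        rw [if_pos rfl, if_pos rfl]
        ring
      · rw [if_neg (fun h => hij (g.injective h).symm), if_neg hij]
        ring
    have h2 : ∀ i : Fin 4, ⟪⟪u i, x⟫_ℝ • u (g i), ∑ j, ⟪u j, x⟫_ℝ • u (g j)⟫_ℝ =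
        4 * ⟪u i, x⟫_ℝ ^ 2 := by
      intro i
      rw [inner_sum, Finset.sum_congr rfl fun j _ => h1 i j, Finset.sum_sub_distrib,
        Finset.sum_ite_eq', if_pos (Finset.mem_univ _), ← Finset.mul_sum, sum_inner_u]
      ring
    rw [Finset.sum_congr rfl fun i _ => h2 i, ← Finset.mul_sum]
    simp only [map_div₀, map_one, map_ofNat]
    ring
  have h1 := key f
  have h2 := key 1
  have h3 : Flin 1 x = x := by
    rw [Flin_apply]
    exact frame x
  rw [h3] at h2
  rw [← h2] at h1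
  exact (sq_eq_sq₀ (norm_nonneg _) (norm_nonneg _)).1 h1

/-- the linear equivalence of `f` -/
def Fle (f : Equiv.Perm (Fin 4)) : E3 ≃ₗ[ℝ] E3 where
  toFun := Flin f
  map_add' := (Flin f).map_add
  map_smul' := (Flin f).map_smul
  invFun := Flin f⁻¹
  left_inv x := by
    rw [Flin_mul, inv_mul_cancel, Flin_apply]
    exact frame x
  right_inv x := by
    rw [Flin_mul, mul_inv_cancel, Flin_apply]
    exact frame x

/-- the isometry of `f` -/
def Fe (f : Equiv.Perm (Fin 4)) : O3 where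
  toLinearEquiv := Fle f
  norm_map' := fun x => Flin_norm f x

lemma Fe_apply (f : Equiv.Perm (Fin 4)) (x : E3) : Fe f x = Flin f x := rfl

lemma Fe_mul (f g : Equiv.Perm (Fin 4)) : Fe (f * g) = Fe f * Fe g := by
  apply LinearIsometryEquiv.ext
  intro x
  rw [LinearIsometryEquiv.coe_mul, Function.comp_apply, Fe_apply, Fe_apply, Fe_apply, Flin_mul]

/-- the isometry which maps `u j` to `u (f j)` -/
def F : Equiv.Perm (Fin 4) →* O3 := MonoidHom.mk' Fe Fe_mul

lemma F_apply (f : Equiv.Perm (Fin 4)) (x : E3) :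
    F f x = (1 / 4 : ℝ) • ∑ j, ⟪u j, x⟫_ℝ • u (f j) := Flin_apply f x

lemma F_u (f : Equiv.Perm (Fin 4)) (i : Fin 4) : F f (u i) = u (f i) := Flin_u f i

/-- the product of the half-turns named by a word -/
def wd (l : List (Fin 4)) : O3 := (l.map h).prod

@[simp] lemma wd_nil : wd [] = 1 := rfl

@[simp] lemma wd_cons (j : Fin 4) (l : List (Fin 4)) : wd (j :: l) = h j * wd l := rfl

lemma wd_append (l m : List (Fin 4)) : wd (l ++ m) = wd l * wd m := by
  simp [wd]

/-- reduced words: adjacent letters are different -/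
def Red : List (Fin 4) → Prop
  | [] => True
  | [_] => True
  | i :: j :: l => i ≠ j ∧ Red (j :: l)

/-- the reduced words of length `n` -/
def W : ℕ → Finset (List (Fin 4))
  | 0 => {[]}
  | n + 1 => ((Finset.univ ×ˢ W n).filter fun p => p.2.head? ≠ some p.1).image
      fun p => p.1 :: p.2

/-- the tetrahedral group -/
abbrev A4 : Type := alternatingGroup (Fin 4)

/-- the double transposition which exchanges `0` and `i` -/
def rho : Fin 4 → Equiv.Perm (Fin 4) :=
  ![1, Equiv.swap 0 1 * Equiv.swap 2 3, Equiv.swap 0 2 * Equiv.swap 1 3,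
    Equiv.swap 0 3 * Equiv.swap 1 2]

/-- the 3-cycle `1 → 2 → 3 → 1` -/
def cyc : Equiv.Perm (Fin 4) := Equiv.swap 1 2 * Equiv.swap 2 3

/-- the rotation of order 6 about `u 0` -/
def r : O3 := h 0 * F cyc⁻¹

/-- the exponents -/
def kap : Fin 4 → ℕ := ![0, 1, 3, 4]

/-- the four rotations of the division -/
def gam (i : Fin 4) : O3 := F (rho i) * r ^ kap i

/-- the number of the letters `j` in `l`, mod 2 -/
def cnt (l : List (Fin 4)) (j : Fin 4) : ZMod 2 := (l.count j : ℕ)

/-- the matrix of an isometry -/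
def mat (g : O3) : Matrix (Fin 3) (Fin 3) ℝ := fun i l => g (EuclideanSpace.single l 1) i

/-- the trace of an isometry -/
def tr (g : O3) : ℝ := (mat g).trace

/-- the vector product -/
def cr (v w : E3) : E3 :=
  !₂[v 1 * w 2 - v 2 * w 1, v 2 * w 0 - v 0 * w 2, v 0 * w 1 - v 1 * w 0]

end Pool.Agent.MP_f406e2_lc_QD
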