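import Mathlib
import Pool.Agent.Lib.MP_f406e2_lc_QD.Defs

/-!
# QD, module Rel: the relations in the group

* `h_mul_self`: `h j` is an involution (from `h_apply` and `inner_u`).
* `F_h`: `F f * h j = h (f j) * F f`; use `h_apply`, `F_u` and that `F f` preserves inner products:
  `F f (h j x) = (2/3 ⟪u j, x⟫) u (f j) - F f x` and `⟪u (f j), F f x⟫ = ⟪F f (u j), F f x⟫ = ⟪u j, x⟫`.
* `wd_F`: by induction on `l`.
* `wd_reverse`, by induction with `h_mul_self`.
* `exists_red`: by induction on `l`: for `j :: l` take the reduced word `l'` of `l`; if the head of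
  `l'` is `j`, drop it (`h j * h j = 1`, the count of `j` changes by 2), otherwise take `j :: l'`.
-/

set_option autoImplicit false

noncomputable section

namespace Pool.Agent.MP_f406e2_lc_QD

open scoped InnerProductSpace

lemma h_mul_self (j : Fin 4) : h j * h j = 1 := by
  apply LinearIsometryEquiv.ext
  intro x
  rw [LinearIsometryEquiv.coe_mul, Function.comp_apply, h_apply j (h j x), h_apply j x,
    LinearIsometryEquiv.coe_one, id_eq, inner_sub_right, inner_smul_right, inner_u, if_pos rfl]
  module

lemma h_inv (j : Fin 4) : (h j)⁻¹ = h j := by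
  exact inv_eq_of_mul_eq_one_left (h_mul_self j)

lemma F_h (f : Equiv.Perm (Fin 4)) (j : Fin 4) : F f * h j = h (f j) * F f := by
  apply LinearIsometryEquiv.ext
  intro x
  have h1 : ⟪u (f j), F f x⟫_ℝ = ⟪u j, x⟫_ℝ := by
    rw [← F_u, (F f).inner_map_map]
  rw [LinearIsometryEquiv.coe_mul, LinearIsometryEquiv.coe_mul, Function.comp_apply,
    Function.comp_apply, h_apply, h_apply, map_sub, map_smul, F_u, h1]

lemma wd_F (f : Equiv.Perm (Fin 4)) (l : List (Fin 4)) :
    wd l * F f = F f * wd (l.map fun j => f⁻¹ j) := by
  induction l with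
  | nil => simp
  | cons j l ih =>
    have h1 := F_h f (f⁻¹ j)
    have h2 : f (f⁻¹ j) = j := f.apply_symm_apply j
    rw [h2] at h1
    rw [wd_cons, List.map_cons, wd_cons, mul_assoc, ih, ← mul_assoc, ← h1, mul_assoc]

lemma wd_reverse (l : List (Fin 4)) : wd l.reverse = (wd l)⁻¹ := by
  induction l with
  | nil => simp
  | cons j l ih =>
    rw [List.reverse_cons, wd_append, ih, wd_cons, wd_cons, wd_nil, mul_one, mul_inv_rev, h_inv]

lemma exists_red (l : List (Fin 4)) :
    ∃ l', Red l' ∧ wd l' = wd l ∧ ∀ j, cnt l' j = cnt l j := by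
  induction l with
  | nil => exact ⟨[], trivial, rfl, fun _ => rfl⟩
  | cons j l ih =>
    obtain ⟨l', h1, h2, h3⟩ := ih
    have hc : ∀ (m : List (Fin 4)) (i k : Fin 4),
        cnt (i :: m) k = cnt m k + (if i = k then 1 else 0) := by
      intro m i k
      unfold cnt
      rw [List.count_cons]
      by_cases hik : i = k
      · simp [hik]
      · simp [hik]
    cases l' with
    | nil =>
      refine ⟨[j], trivial, ?_, ?_⟩
      · rw [wd_cons, wd_cons, h2]
      · intro k
        rw [hc, hc, h3]
    | cons i m =>
      by_cases hij : j = i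
      · subst hij
        refine ⟨m, ?_, ?_, ?_⟩
        · cases m with
          | nil => trivial
          | cons a b => exact h1.2
        · rw [wd_cons, ← h2, wd_cons, ← mul_assoc, h_mul_self, one_mul]
        · intro k
          have h4 := h3 k
          rw [hc] at h4
          rw [hc, ← h4]
          by_cases hjk : j = k
          · rw [if_pos hjk]
            have : (1 : ZMod 2) + 1 = 0 := by decide
            rw [add_assoc, this, add_zero]
          · rw [if_neg hjk, add_zero, add_zero]
      · refine ⟨j :: i :: m, ⟨hij, h1⟩, ?_, ?_⟩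
        · rw [wd_cons, wd_cons j l, h2]
        · intro k
          rw [hc, hc l, h3]

end Pool.Agent.MP_f406e2_lc_QD
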