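import Mathlib
import Pool.Agent.Lib.MP_f406e2_lc_QD.Rel

/-!
# QD, module Det: the determinants

`mat_mul`, `mat_mulVec`: `mat` is the matrix in the standard basis.
`det_h`, `det_F`: `h j` is a half-turn: `det = 1` (from the explicit matrix: entries
`2/3 u j i * u j l - δ`). For even `f`: the determinant is a homomorphism to `ℝ`, its values on
elements of order 3 are 1 (real cube roots of unity), and every even permutation of `Fin 4` is a
product of 3-cycles (`Equiv.Perm.closure_three_cycles_eq_alternating`); or explicitly.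
`rot_comm`: let `v` be a unit vector orthogonal to `x`, `w = cr x v`. An isometry `g` of determinant
1 preserves `cr` (`g (cr a b) = cr (g a) (g b)`: for all `c`,
`⟪cr (g a) (g b), g c⟫ = det (g a, g b, g c) = det g * det (a, b, c) = ⟪cr a b, c⟫`). It fixes `x`,
so `g v = a v + b w`, `g w = g (cr x v) = cr x (g v) = a w - b v` (`cr x w = - v`). Two such
isometries commute on `x, v, w`. (Or work with `cr x ·` restricted to the plane: both maps are
`a + b (cr x ·)` on the plane.)
`mat_mem`: from `mat_det` and `mat (g) * mat (g⁻¹) = 1`, `mat g⁻¹ = (mat g)ᵀ`.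
-/

set_option autoImplicit false

noncomputable section

namespace Pool.Agent.MP_f406e2_lc_QD

open scoped InnerProductSpace

lemma mat_mulVec (g : O3) (x : E3) : (mat g).mulVec x.ofLp = (g x).ofLp := by
  have hx : x = x 0 • EuclideanSpace.single 0 (1 : ℝ) + x 1 • EuclideanSpace.single 1 (1 : ℝ)
      + x 2 • EuclideanSpace.single 2 (1 : ℝ) := by
    ext i
    fin_cases i <;> simp
  funext i
  have h1 : g x = x 0 • g (EuclideanSpace.single 0 (1 : ℝ)) +
      x 1 • g (EuclideanSpace.single 1 (1 : ℝ)) + x 2 • g (EuclideanSpace.single 2 (1 : ℝ)) := by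
    conv_lhs => rw [hx]
    rw [map_add, map_add, map_smul, map_smul, map_smul]
  rw [h1]
  simp only [Matrix.mulVec, dotProduct, Fin.sum_univ_three, mat, PiLp.add_apply,
    PiLp.smul_apply, smul_eq_mul]
  ring

lemma mat_mul (g g' : O3) : mat (g * g') = mat g * mat g' := by
  ext i l
  have h1 := congrFun (mat_mulVec g (g' (EuclideanSpace.single l 1))) i
  rw [Matrix.mul_apply]
  exact h1.symm

private lemma mat_one : mat 1 = 1 := by
  ext i l
  simp only [mat, LinearIsometryEquiv.coe_one, id_eq]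
  fin_cases i <;> fin_cases l <;> simp

private def detHom : O3 →* ℝ where
  toFun g := (mat g).det
  map_one' := by rw [mat_one, Matrix.det_one]
  map_mul' g g' := by rw [mat_mul, Matrix.det_mul]

private lemma detHom_apply (g : O3) : detHom g = (mat g).det := rfl

private lemma inner_eq (v w : E3) : ⟪v, w⟫_ℝ = v 0 * w 0 + v 1 * w 1 + v 2 * w 2 := by
  rw [PiLp.inner_apply, Fin.sum_univ_three]
  simp only [RCLike.inner_apply, conj_trivial]
  ring

lemma mat_h (j : Fin 4) : (mat (h j)).det = 1 := by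
  have h1 : ∀ i l, mat (h j) i l = 2 / 3 * u j l * u j i - (if i = l then 1 else 0) := by
    intro i l
    simp only [mat]
    rw [h_apply, inner_eq]
    fin_cases l <;> fin_cases i <;> simp
  rw [Matrix.det_fin_three]
  simp only [h1]
  fin_cases j <;> simp [u] <;> norm_num

lemma mat_F (f : Equiv.Perm (Fin 4)) (hf : f ∈ alternatingGroup (Fin 4)) :
    (mat (F f)).det = 1 := by
  have h1 : Subgroup.closure {σ : Equiv.Perm (Fin 4) | σ.IsThreeCycle} ≤
      (detHom.comp F).ker := by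
    rw [Subgroup.closure_le]
    intro σ hσ
    have h2 : σ ^ 3 = 1 := by
      have h3 := hσ.orderOf
      rw [← h3]
      exact pow_orderOf_eq_one σ
    have h4 : (detHom.comp F σ) ^ 3 = 1 := by
      rw [← map_pow, h2, map_one]
    have h5 : detHom.comp F σ = 1 := by
      have h6 : (detHom.comp F σ) ^ 3 = (1 : ℝ) ^ 3 := by rw [h4, one_pow]
      exact (Odd.strictMono_pow (by decide : Odd 3)).injective h6
    exact h5
  rw [← Equiv.Perm.closure_three_cycles_eq_alternating] at hf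
  exact h1 hf

lemma mat_wd (l : List (Fin 4)) : (mat (wd l)).det = 1 := by
  induction l with
  | nil => rw [wd_nil, mat_one, Matrix.det_one]
  | cons j l ih => rw [wd_cons, mat_mul, Matrix.det_mul, mat_h, ih, one_mul]

private lemma single_inner (l : Fin 3) (x : E3) :
    ⟪EuclideanSpace.single l (1 : ℝ), x⟫_ℝ = x l := by
  rw [inner_eq]
  fin_cases l <;> simp

private lemma mat_inv (g : O3) : mat g⁻¹ = (mat g).transpose := by
  ext i l
  rw [Matrix.transpose_apply]
  simp only [mat]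
  rw [← single_inner i, ← single_inner l (g _)]
  have h1 := g.inner_map_map (EuclideanSpace.single i (1 : ℝ))
    (g⁻¹ (EuclideanSpace.single l (1 : ℝ)))
  have h2 : g (g⁻¹ (EuclideanSpace.single l (1 : ℝ))) = EuclideanSpace.single l (1 : ℝ) :=
    g.apply_symm_apply _
  rw [h2] at h1
  rw [← h1, real_inner_comm]

lemma mat_mem (g : O3) (hg : (mat g).det = 1) :
    mat g ∈ Matrix.specialOrthogonalGroup (Fin 3) ℝ := by
  rw [Matrix.mem_specialOrthogonalGroup_iff]
  refine ⟨?_, hg⟩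
  rw [Matrix.mem_orthogonalGroup_iff, ← mat_inv, ← mat_mul, mul_inv_cancel, mat_one]

private lemma triple (g : O3) (a b c : E3) :
    ⟪cr (g a) (g b), g c⟫_ℝ = (mat g).det * ⟪cr a b, c⟫_ℝ := by
  have h1 : ∀ (y : E3) (i : Fin 3), g y i = mat g i 0 * y 0 + mat g i 1 * y 1 + mat g i 2 * y 2 := by
    intro y i
    have h2 := congrFun (mat_mulVec g y) i
    rw [← h2]
    simp only [Matrix.mulVec, dotProduct, Fin.sum_univ_three]
  rw [inner_eq, inner_eq, Matrix.det_fin_three]
  simp only [cr, h1]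
  simp only [Matrix.cons_val_zero, Matrix.cons_val_one, Matrix.cons_val]
  ring

private lemma map_cr (g : O3) (hg : (mat g).det = 1) (a b : E3) :
    g (cr a b) = cr (g a) (g b) := by
  apply ext_inner_right ℝ
  intro c
  obtain ⟨c', rfl⟩ := g.surjective c
  rw [g.inner_map_map, triple, hg, one_mul]

private lemma cr_add (x a b : E3) : cr x (a + b) = cr x a + cr x b := by
  ext i
  fin_cases i <;> simp [cr] <;> ring

private lemma cr_smul (x a : E3) (t : ℝ) : cr x (t • a) = t • cr x a := by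
  ext i
  fin_cases i <;> simp [cr] <;> ring

private lemma cr_cr (x v : E3) (hx : ⟪x, x⟫_ℝ = 1) (hv : ⟪x, v⟫_ℝ = 0) :
    cr x (cr x v) = - v := by
  rw [inner_eq] at hx hv
  ext i
  fin_cases i
  · simp [cr]
    linear_combination (x 0) * hv - (v 0) * hx
  · simp [cr]
    linear_combination (x 1) * hv - (v 1) * hx
  · simp [cr]
    linear_combination (x 2) * hv - (v 2) * hx

private lemma dec (x v y : E3) (hx : ⟪x, x⟫_ℝ = 1) (hv : ⟪x, v⟫_ℝ = 0) :
    ⟪v, v⟫_ℝ • y = (⟪v, v⟫_ℝ * ⟪x, y⟫_ℝ) • x + ⟪v, y⟫_ℝ • v + ⟪cr x v, y⟫_ℝ • cr x v := by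
  simp only [inner_eq] at hx hv ⊢
  ext i
  fin_cases i
  · simp [cr]
    linear_combination (-((v 0 * v 0 + v 1 * v 1 + v 2 * v 2) * y 0 -
      (v 0 * y 0 + v 1 * y 1 + v 2 * y 2) * v 0)) * hx +
      ((x 0 * v 0 + x 1 * v 1 + x 2 * v 2) * y 0 - (v 0 * y 0 + v 1 * y 1 + v 2 * y 2) * x 0 -
        (x 0 * y 0 + x 1 * y 1 + x 2 * y 2) * v 0) * hv
  · simp [cr]
    linear_combination (-((v 0 * v 0 + v 1 * v 1 + v 2 * v 2) * y 1 -
      (v 0 * y 0 + v 1 * y 1 + v 2 * y 2) * v 1)) * hx +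
      ((x 0 * v 0 + x 1 * v 1 + x 2 * v 2) * y 1 - (v 0 * y 0 + v 1 * y 1 + v 2 * y 2) * x 1 -
        (x 0 * y 0 + x 1 * y 1 + x 2 * y 2) * v 1) * hv
  · simp [cr]
    linear_combination (-((v 0 * v 0 + v 1 * v 1 + v 2 * v 2) * y 2 -
      (v 0 * y 0 + v 1 * y 1 + v 2 * y 2) * v 2)) * hx +
      ((x 0 * v 0 + x 1 * v 1 + x 2 * v 2) * y 2 - (v 0 * y 0 + v 1 * y 1 + v 2 * y 2) * x 2 -
        (x 0 * y 0 + x 1 * y 1 + x 2 * y 2) * v 2) * hv

private lemma exists_perp (x : E3) : ∃ v : E3, v ≠ 0 ∧ ⟪x, v⟫_ℝ = 0 := by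
  by_cases h0 : x 0 = 0 ∧ x 1 = 0
  · refine ⟨!₂[1, 0, 0], ?_, ?_⟩
    · intro h
      have h1 := congrArg (fun z : E3 => z 0) h
      simp at h1
    · rw [inner_eq]
      simp [h0.1]
  · refine ⟨!₂[-x 1, x 0, 0], ?_, ?_⟩
    · intro h
      apply h0
      have h1 := congrArg (fun z : E3 => z 0) h
      have h2 := congrArg (fun z : E3 => z 1) h
      simp at h1 h2
      exact ⟨h2, h1⟩
    · rw [inner_eq]
      simp
      ring

theorem rot_comm (g g' : O3) (hg : (mat g).det = 1) (hg' : (mat g').det = 1) (x : S2)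
    (h1 : g • x = x) (h2 : g' • x = x) : g * g' = g' * g := by
  have h3 : g x.1 = x.1 := congrArg Subtype.val h1
  have h4 : g' x.1 = x.1 := congrArg Subtype.val h2
  have hx : ⟪x.1, x.1⟫_ℝ = 1 := by
    have h5 : ‖x.1‖ = 1 := by
      simp
    rw [real_inner_self_eq_norm_sq, h5, one_pow]
  obtain ⟨v, hv0, hv⟩ := exists_perp x.1
  have hvv : ⟪v, v⟫_ℝ ≠ 0 := inner_self_ne_zero.2 hv0
  have key : ∀ k : O3, (mat k).det = 1 → k x.1 = x.1 → ∃ a b : ℝ,
      ⟪v, v⟫_ℝ • k v = a • v + b • cr x.1 v ∧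
      ⟪v, v⟫_ℝ • k (cr x.1 v) = a • cr x.1 v - b • v := by
    intro k hk hkx
    have h5 : ⟪x.1, k v⟫_ℝ = 0 := by
      have h6 := k.inner_map_map x.1 v
      rw [hkx, hv] at h6
      exact h6
    have h7 := dec x.1 v (k v) hx hv
    rw [h5, mul_zero, zero_smul, zero_add] at h7
    refine ⟨_, _, h7, ?_⟩
    rw [map_cr k hk, hkx, ← cr_smul, h7, cr_add, cr_smul, cr_smul, cr_cr x.1 v hx hv, smul_neg,
      sub_eq_add_neg]
  obtain ⟨a, b, ha, hb⟩ := key g hg h3
  obtain ⟨a', b', ha', hb'⟩ := key g' hg' h4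
  have h8 : g (g' v) = g' (g v) := by
    have h9 : ⟪v, v⟫_ℝ • ⟪v, v⟫_ℝ • g (g' v) = ⟪v, v⟫_ℝ • ⟪v, v⟫_ℝ • g' (g v) := by
      rw [← map_smul g, ha', ← map_smul g', ha, map_add, map_add, map_smul, map_smul, map_smul,
        map_smul, smul_add, smul_add, smul_comm _ a', smul_comm _ b', smul_comm _ a,
        smul_comm _ b, ha, hb, ha', hb']
      module
    exact smul_right_injective _ hvv (smul_right_injective _ hvv h9)
  have h10 : g (g' (cr x.1 v)) = g' (g (cr x.1 v)) := by
    rw [map_cr g' hg', map_cr g hg, map_cr g hg, map_cr g' hg', h3, h4, h8, h3]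
  apply LinearIsometryEquiv.ext
  intro y
  rw [LinearIsometryEquiv.coe_mul, LinearIsometryEquiv.coe_mul, Function.comp_apply,
    Function.comp_apply]
  apply smul_right_injective _ hvv
  simp only
  rw [← map_smul g, ← map_smul g', ← map_smul g', ← map_smul g, dec x.1 v y hx hv]
  simp only [map_add, map_smul, h3, h4, h8, h10]

end Pool.Agent.MP_f406e2_lc_QD
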