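import Mathlib
import Pool.Agent.Lib.MP_f406e2_lc_QD.Rel

/-!
# QD, module Faith: faithfulness

* `red_mod_three`: if `l` is reduced, nonempty, with head `i`, and `b` is not the last letter, then
  `3 ^ n • wd l (u b)` has integer coordinates which are congruent to those of `u i` mod 3
  (`n` the length). Induction on `l`. For `l = [j]`, `b ≠ j`:
  `3 h j (u b) = 2 ⟪u j, u b⟫ u j - 3 u b = - 2 u j - 3 u b`. For `j :: l`, `l` with head `i ≠ j`:
  `y = 3 ^ n • wd l (u b)` is integral, `≡ u i`, and `3 ^ (n+1) • wd (j :: l) (u b) =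
  2 ⟪u j, y⟫ u j - 3 y`, where `⟪u j, y⟫ ≡ ⟪u j, u i⟫ = -1` mod 3.
* `faithful`: if `l ≠ []` let `i` be its head and `b` a letter different from the last one; then
  `wd l (u b) = F f⁻¹ (u b) = u (f⁻¹ b)` has integer coordinates, so `3 ^ n • wd l (u b)` has
  coordinates divisible by 3, contradiction to `red_mod_three` (the coordinates of `u i` are `±1`).
  So `l = []`, and `F f = 1` gives `u (f j) = u j` for all `j`, so `f = 1` (`u` is injective by
  `inner_u`).
* `label_unique`: pass to reduced words (`exists_red`); `red_unique`.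
* `red_unique`: `F (f'⁻¹ * f) * wd l = wd l'`. Induction on the length of `l'` (or: strip common
last
  letters): if both words are nonempty with the same last letter, cancel it. Otherwise
  `wd l * wd l'.reverse = wd (l ++ l'.reverse)` and `l ++ l'.reverse` is reduced, so `faithful`
  applies to `F (f'⁻¹ * f) * wd (l ++ l'.reverse) = 1` and gives `l = l' = []`.
-/

set_option autoImplicit false

noncomputable section

namespace Pool.Agent.MP_f406e2_lc_QD

open scoped InnerProductSpace

/-- the integer coordinates of the diagonals -/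
private def Faith_iu : Fin 4 → Fin 3 → ℤ := ![![1, 1, 1], ![1, -1, -1], ![-1, 1, -1], ![-1, -1, 1]]

private lemma Faith_u (j : Fin 4) (k : Fin 3) : u j k = (Faith_iu j k : ℝ) := by
  fin_cases j <;> fin_cases k <;> simp [u, Faith_iu]

private lemma Faith_inner (v w : E3) : ⟪v, w⟫_ℝ = v 0 * w 0 + v 1 * w 1 + v 2 * w 2 := by
  rw [PiLp.inner_apply, Fin.sum_univ_three]
  simp only [RCLike.inner_apply, conj_trivial]
  ring

private lemma Faith_iu_inner : ∀ i j : Fin 4, i ≠ j →
    Faith_iu i 0 * Faith_iu j 0 + Faith_iu i 1 * Faith_iu j 1 + Faith_iu i 2 * Faith_iu j 2 =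
      -1 := by
  decide

private lemma Faith_iu_three : ∀ i : Fin 4, ¬ (3 : ℤ) ∣ Faith_iu i 0 := by
  decide

private lemma Faith_chain (l : List (Fin 4)) : Red l ↔ l.IsChain (fun a b => a ≠ b) := by
  induction l with
  | nil => simp [Red]
  | cons i l ih =>
    cases l with
    | nil => simp [Red]
    | cons j l =>
      rw [List.isChain_cons_cons, ← ih]
      rfl

/-- `3 ^ n • wd l (u b)` has integer coordinates, congruent to those of the head mod 3 -/
private lemma Faith_key (b : Fin 4) (l : List (Fin 4)) : ∀ i : Fin 4, Red (i :: l) →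
    (i :: l).getLast (List.cons_ne_nil i l) ≠ b →
    ∃ y : Fin 3 → ℤ, (∀ k, (3 : ℝ) ^ (l.length + 1) * (wd (i :: l) (u b)) k = (y k : ℝ)) ∧
      ∀ k, (3 : ℤ) ∣ y k - Faith_iu i k := by
  induction l with
  | nil =>
    intro i _ hb
    have hib : i ≠ b := by simpa using hb
    refine ⟨fun k => -2 * Faith_iu i k - 3 * Faith_iu b k, ?_, ?_⟩
    · intro k
      rw [wd_cons, wd_nil, mul_one, h_apply, inner_u, if_neg hib]
      simp only [PiLp.sub_apply, PiLp.smul_apply, smul_eq_mul, Faith_u, List.length_nil]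
      push_cast
      ring
    · intro k
      refine ⟨-Faith_iu i k - Faith_iu b k, ?_⟩
      ring
  | cons j l ih =>
    intro i hr hb
    obtain ⟨hij, hr'⟩ : i ≠ j ∧ Red (j :: l) := hr
    have hb' : (j :: l).getLast (List.cons_ne_nil j l) ≠ b := by
      rwa [List.getLast_cons (List.cons_ne_nil j l)] at hb
    obtain ⟨y, hy, hy3⟩ := ih j hr' hb'
    have hs : (3 : ℤ) ∣ 2 * (Faith_iu i 0 * y 0 + Faith_iu i 1 * y 1 + Faith_iu i 2 * y 2) - 1 := by
      obtain ⟨a0, h0⟩ := hy3 0
      obtain ⟨a1, h1⟩ := hy3 1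
      obtain ⟨a2, h2⟩ := hy3 2
      have e0 : y 0 = Faith_iu j 0 + 3 * a0 := by linarith
      have e1 : y 1 = Faith_iu j 1 + 3 * a1 := by linarith
      have e2 : y 2 = Faith_iu j 2 + 3 * a2 := by linarith
      have e3 := Faith_iu_inner i j hij
      refine ⟨2 * (Faith_iu i 0 * a0 + Faith_iu i 1 * a1 + Faith_iu i 2 * a2) - 1, ?_⟩
      rw [e0, e1, e2]
      linear_combination 2 * e3
    refine ⟨fun k => 2 * (Faith_iu i 0 * y 0 + Faith_iu i 1 * y 1 + Faith_iu i 2 * y 2) *
      Faith_iu i k - 3 * y k, ?_, ?_⟩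
    · intro k
      rw [wd_cons, LinearIsometryEquiv.coe_mul, Function.comp_apply, h_apply, Faith_inner]
      simp only [PiLp.sub_apply, PiLp.smul_apply, smul_eq_mul, Faith_u, List.length_cons]
      push_cast
      rw [← hy 0, ← hy 1, ← hy 2, ← hy k]
      ring
    · intro k
      obtain ⟨c, hc⟩ := hs
      refine ⟨c * Faith_iu i k - y k, ?_⟩
      linear_combination Faith_iu i k * hc

private lemma Faith_u_inj (i j : Fin 4) (hij : u i = u j) : i = j := by
  by_contra hne
  have h1 := inner_u i j
  rw [if_neg hne, hij, inner_u, if_pos rfl] at h1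
  norm_num at h1

private lemma Faith_other : ∀ a : Fin 4, ∃ b : Fin 4, a ≠ b := by decide

theorem faithful (f : Equiv.Perm (Fin 4)) (l : List (Fin 4)) (hl : Red l)
    (hfl : F f * wd l = 1) : f = 1 ∧ l = [] := by
  cases l with
  | nil =>
    refine ⟨?_, rfl⟩
    rw [wd_nil, mul_one] at hfl
    apply Equiv.ext
    intro j
    refine Faith_u_inj _ _ ?_
    rw [← F_u, hfl]
    rfl
  | cons i l =>
    exfalso
    obtain ⟨b, hb⟩ := Faith_other ((i :: l).getLast (List.cons_ne_nil i l))
    obtain ⟨y, hy, hy3⟩ := Faith_key b l i hl hb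
    have h1 : wd (i :: l) = F f⁻¹ := by
      rw [map_inv]
      exact eq_inv_of_mul_eq_one_right hfl
    have h2 := hy 0
    rw [h1, F_u, Faith_u] at h2
    have h3 : (3 : ℤ) ^ (l.length + 1) * Faith_iu (f⁻¹ b) 0 = y 0 := by exact_mod_cast h2
    have h4 : (3 : ℤ) ∣ y 0 := by
      rw [← h3, pow_succ]
      exact ⟨3 ^ l.length * Faith_iu (f⁻¹ b) 0, by ring⟩
    exact Faith_iu_three i ((Int.dvd_iff_dvd_of_dvd_sub (hy3 0)).1 h4)

private lemma Faith_one (f f' : Equiv.Perm (Fin 4)) (h : f'⁻¹ * f = 1) : f = f' := by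
  have := congrArg (fun g => f' * g) h
  simpa using this

private lemma Faith_append {m : List (Fin 4)} {a : Fin 4} (h : Red (m ++ [a])) : Red m := by
  rw [Faith_chain] at h ⊢
  exact h.left_of_append

private lemma Faith_red (l : List (Fin 4)) : ∀ (l' : List (Fin 4)) (f f' : Equiv.Perm (Fin 4)),
    Red l → Red l' → F f * wd l = F f' * wd l' → f = f' ∧ l = l' := by
  induction l using List.reverseRecOn with
  | nil =>
    intro l' f f' _ hl' hfl
    rw [wd_nil, mul_one] at hfl
    have h1 : F (f⁻¹ * f') * wd l' = 1 := by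
      rw [map_mul, mul_assoc, ← hfl, map_inv, inv_mul_cancel]
    obtain ⟨h2, h3⟩ := faithful _ _ hl' h1
    exact ⟨(Faith_one f' f h2).symm, h3.symm⟩
  | append_singleton m a ih =>
    intro l' f f' hl hl' hfl
    induction l' using List.reverseRecOn with
    | nil =>
      rw [wd_nil, mul_one] at hfl
      have h1 : F (f'⁻¹ * f) * wd (m ++ [a]) = 1 := by
        rw [map_mul, mul_assoc, hfl, map_inv, inv_mul_cancel]
      obtain ⟨_, h3⟩ := faithful _ _ hl h1
      simp at h3
    | append_singleton m' a' _ =>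
      by_cases haa : a = a'
      · subst haa
        have h1 : F f * wd m = F f' * wd m' := by
          rw [wd_append, wd_append, ← mul_assoc, ← mul_assoc] at hfl
          exact mul_right_cancel hfl
        obtain ⟨h2, h3⟩ := ih m' f f' (Faith_append hl) (Faith_append hl') h1
        exact ⟨h2, by rw [h3]⟩
      · exfalso
        have h1 : F (f'⁻¹ * f) * wd ((m ++ [a]) ++ (m' ++ [a']).reverse) = 1 := by
          rw [wd_append (m ++ [a]), wd_reverse, map_mul, map_inv, mul_assoc, ← mul_assoc (F f),
            hfl, mul_assoc (F f'), mul_inv_cancel, mul_one, inv_mul_cancel]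
        have h2 : Red ((m ++ [a]) ++ (m' ++ [a']).reverse) := by
          rw [Faith_chain] at hl hl' ⊢
          have h3 : ((m' ++ [a']).reverse).IsChain (fun a b : Fin 4 => a ≠ b) := by
            rw [List.isChain_reverse]
            exact hl'.imp fun _ _ h => h.symm
          refine List.isChain_append.2 ⟨hl, h3, ?_⟩
          intro x hx y hy
          simp at hx hy
          rw [← hx, ← hy]
          exact haa
        obtain ⟨_, h3⟩ := faithful _ _ h2 h1
        simp at h3

/-- the label `(f, cnt l)` is determined by the isometry -/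
theorem label_unique (f f' : Equiv.Perm (Fin 4)) (l l' : List (Fin 4))
    (hfl : F f * wd l = F f' * wd l') : f = f' ∧ ∀ j, cnt l j = cnt l' j := by
  obtain ⟨m, h1, h2, h3⟩ := exists_red l
  obtain ⟨m', h1', h2', h3'⟩ := exists_red l'
  obtain ⟨h4, h5⟩ := Faith_red m m' f f' h1 h1' (by rw [h2, h2', hfl])
  refine ⟨h4, fun j => ?_⟩
  rw [← h3 j, ← h3' j, h5]

/-- reduced words of the same isometry are equal -/
theorem red_unique (f f' : Equiv.Perm (Fin 4)) (l l' : List (Fin 4)) (hl : Red l) (hl' : Red l')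
    (hfl : F f * wd l = F f' * wd l') : f = f' ∧ l = l' := by
  exact Faith_red l l' f f' hl hl' hfl

end Pool.Agent.MP_f406e2_lc_QD
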