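import Mathlib
import Pool.Agent.Lib.MP_f406e2_lc_QD.Rel
import Pool.Agent.Lib.MP_f406e2_lc_QD.Faith
import Pool.Agent.Lib.MP_f406e2_lc_QD.Det

/-!
# QD: the modules `Rel`, `Faith`, `Det` together
-/
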