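import Mathlib
import Pool.Agent.Lib.MP_f406e2_lc_QD.Grp

/-!
# QD, module Quat: quaternions

`rot q x` is `q x q⁻` for the integer quaternion `q = a + b` and the vector `x`. The word `l` is
represented by the product `qw l` of the quaternions `qe j = u j`, of norm 3.

* `rot_mul`: polynomial identity; check the three coordinates (`ext i; fin_cases i; simp; ring`).
* `rot_qe`: compare with `h_apply` (`a = 0`, `|b|² = 3`, `b = u j`).
* `rot_unit`: `F (rho i)` is the half-turn about a coordinate axis (by `F_apply`, explicit).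
* `rot_qw`: by induction from `rot_mul` and `rot_qe`.
* `normSq_qw`: multiplicativity of `normSq`, `normSq (qe j) = 3`.
* `tr_wd`: the trace of `x ↦ (a² - |b|²) x + 2 ⟪b, x⟫ b + 2 a (b × x)` is
  `3 (a² - |b|²) + 2 |b|² = 4 a² - 3 ^ n`.
-/

set_option autoImplicit false

noncomputable section

namespace Pool.Agent.MP_f406e2_lc_QD

open scoped InnerProductSpace Quaternion

/-- the vector part -/
def imv (q : ℍ[ℤ]) : E3 := !₂[(q.imI : ℝ), (q.imJ : ℝ), (q.imK : ℝ)]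

/-- `x ↦ q x q⁻` -/
def rot (q : ℍ[ℤ]) (x : E3) : E3 :=
  ((q.re : ℝ) ^ 2 - ‖imv q‖ ^ 2) • x + (2 * ⟪imv q, x⟫_ℝ) • imv q + (2 * (q.re : ℝ)) • cr (imv q) x

/-- the quaternions of the half-turns -/
def qe : Fin 4 → ℍ[ℤ] := ![⟨0, 1, 1, 1⟩, ⟨0, 1, -1, -1⟩, ⟨0, -1, 1, -1⟩, ⟨0, -1, -1, 1⟩]

/-- the quaternion of a word -/
def qw (l : List (Fin 4)) : ℍ[ℤ] := (l.map qe).prod

/-- the unit quaternions of `rho` -/
def qu : Fin 4 → ℍ[ℤ] := ![⟨1, 0, 0, 0⟩, ⟨0, 1, 0, 0⟩, ⟨0, 0, 1, 0⟩, ⟨0, 0, 0, 1⟩]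

private lemma quat_inner (v w : E3) : ⟪v, w⟫_ℝ = v 0 * w 0 + v 1 * w 1 + v 2 * w 2 := by
  rw [PiLp.inner_apply, Fin.sum_univ_three]
  simp only [RCLike.inner_apply, conj_trivial]
  ring

private lemma quat_norm (q : ℍ[ℤ]) :
    ‖imv q‖ ^ 2 = (q.imI : ℝ) ^ 2 + (q.imJ : ℝ) ^ 2 + (q.imK : ℝ) ^ 2 := by
  rw [← real_inner_self_eq_norm_sq, quat_inner]
  simp [imv]
  ring

private lemma quat_rot0 (q : ℍ[ℤ]) (x : E3) : rot q x 0 =
    ((q.re : ℝ) ^ 2 - ((q.imI : ℝ) ^ 2 + (q.imJ : ℝ) ^ 2 + (q.imK : ℝ) ^ 2)) * x 0 +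
      2 * ((q.imI : ℝ) * x 0 + (q.imJ : ℝ) * x 1 + (q.imK : ℝ) * x 2) * (q.imI : ℝ) +
      2 * (q.re : ℝ) * ((q.imJ : ℝ) * x 2 - (q.imK : ℝ) * x 1) := by
  rw [rot, quat_norm, quat_inner]
  simp [imv, cr]

private lemma quat_rot1 (q : ℍ[ℤ]) (x : E3) : rot q x 1 =
    ((q.re : ℝ) ^ 2 - ((q.imI : ℝ) ^ 2 + (q.imJ : ℝ) ^ 2 + (q.imK : ℝ) ^ 2)) * x 1 +
      2 * ((q.imI : ℝ) * x 0 + (q.imJ : ℝ) * x 1 + (q.imK : ℝ) * x 2) * (q.imJ : ℝ) +
      2 * (q.re : ℝ) * ((q.imK : ℝ) * x 0 - (q.imI : ℝ) * x 2) := by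
  rw [rot, quat_norm, quat_inner]
  simp [imv, cr]

private lemma quat_rot2 (q : ℍ[ℤ]) (x : E3) : rot q x 2 =
    ((q.re : ℝ) ^ 2 - ((q.imI : ℝ) ^ 2 + (q.imJ : ℝ) ^ 2 + (q.imK : ℝ) ^ 2)) * x 2 +
      2 * ((q.imI : ℝ) * x 0 + (q.imJ : ℝ) * x 1 + (q.imK : ℝ) * x 2) * (q.imK : ℝ) +
      2 * (q.re : ℝ) * ((q.imI : ℝ) * x 1 - (q.imJ : ℝ) * x 0) := by
  rw [rot, quat_norm, quat_inner]
  simp [imv, cr]

private lemma quat_ext {x y : E3} (h0 : x 0 = y 0) (h1 : x 1 = y 1) (h2 : x 2 = y 2) : x = y := by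
  ext i
  fin_cases i
  · exact h0
  · exact h1
  · exact h2

lemma rot_mul (p q : ℍ[ℤ]) (x : E3) : rot (p * q) x = rot p (rot q x) := by
  apply quat_ext
  · simp only [quat_rot0, quat_rot1, quat_rot2, Quaternion.re_mul, Quaternion.imI_mul,
      Quaternion.imJ_mul, Quaternion.imK_mul]
    push_cast
    ring
  · simp only [quat_rot0, quat_rot1, quat_rot2, Quaternion.re_mul, Quaternion.imI_mul,
      Quaternion.imJ_mul, Quaternion.imK_mul]
    push_cast
    ring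
  · simp only [quat_rot0, quat_rot1, quat_rot2, Quaternion.re_mul, Quaternion.imI_mul,
      Quaternion.imJ_mul, Quaternion.imK_mul]
    push_cast
    ring

private lemma quat_qe_re (j : Fin 4) : (qe j).re = 0 := by fin_cases j <;> rfl

private lemma quat_qe_I (j : Fin 4) : (qe j).imI = ![1, 1, -1, -1] j := by fin_cases j <;> rfl

private lemma quat_qe_J (j : Fin 4) : (qe j).imJ = ![1, -1, 1, -1] j := by fin_cases j <;> rfl

private lemma quat_qe_K (j : Fin 4) : (qe j).imK = ![1, -1, -1, 1] j := by fin_cases j <;> rfl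

private lemma quat_qu_re (j : Fin 4) : (qu j).re = ![1, 0, 0, 0] j := by fin_cases j <;> rfl

private lemma quat_qu_I (j : Fin 4) : (qu j).imI = ![0, 1, 0, 0] j := by fin_cases j <;> rfl

private lemma quat_qu_J (j : Fin 4) : (qu j).imJ = ![0, 0, 1, 0] j := by fin_cases j <;> rfl

private lemma quat_qu_K (j : Fin 4) : (qu j).imK = ![0, 0, 0, 1] j := by fin_cases j <;> rfl

lemma rot_qe (j : Fin 4) (x : E3) : rot (qe j) x = (3 : ℝ) • h j x := by
  rw [h_apply, quat_inner]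
  apply quat_ext
  · rw [quat_rot0, quat_qe_re, quat_qe_I, quat_qe_J, quat_qe_K]
    fin_cases j <;> simp [u] <;> ring
  · rw [quat_rot1, quat_qe_re, quat_qe_I, quat_qe_J, quat_qe_K]
    fin_cases j <;> simp [u] <;> ring
  · rw [quat_rot2, quat_qe_re, quat_qe_I, quat_qe_J, quat_qe_K]
    fin_cases j <;> simp [u] <;> ring

/-- the permutations `rho` -/
private lemma quat_rho (i j : Fin 4) : rho i j =
    (![![0, 1, 2, 3], ![1, 0, 3, 2], ![2, 3, 0, 1], ![3, 2, 1, 0]] : Fin 4 → Fin 4 → Fin 4) i j := by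
  fin_cases i <;> fin_cases j <;> rfl

lemma rot_unit (i : Fin 4) (x : E3) : rot (qu i) x = F (rho i) x := by
  rw [F_apply, Fin.sum_univ_four]
  simp only [quat_inner, quat_rho]
  apply quat_ext
  · rw [quat_rot0, quat_qu_re, quat_qu_I, quat_qu_J, quat_qu_K]
    fin_cases i <;> simp [u] <;> ring
  · rw [quat_rot1, quat_qu_re, quat_qu_I, quat_qu_J, quat_qu_K]
    fin_cases i <;> simp [u] <;> ring
  · rw [quat_rot2, quat_qu_re, quat_qu_I, quat_qu_J, quat_qu_K]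
    fin_cases i <;> simp [u] <;> ring

private lemma quat_rot_smul (q : ℍ[ℤ]) (c : ℝ) (x : E3) : rot q (c • x) = c • rot q x := by
  apply quat_ext <;> simp only [quat_rot0, quat_rot1, quat_rot2, PiLp.smul_apply, smul_eq_mul] <;>
    ring

theorem rot_qw (l : List (Fin 4)) (x : E3) : rot (qw l) x = (3 : ℝ) ^ l.length • wd l x := by
  induction l with
  | nil =>
    apply quat_ext <;> simp [quat_rot0, quat_rot1, quat_rot2, qw]
  | cons j l ih =>
    have h1 : qw (j :: l) = qe j * qw l := rfl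
    rw [h1, rot_mul, ih, quat_rot_smul, rot_qe, smul_smul, List.length_cons, pow_succ, wd_cons,
      LinearIsometryEquiv.coe_mul, Function.comp_apply]

theorem normSq_qw (l : List (Fin 4)) : Quaternion.normSq (qw l) = 3 ^ l.length := by
  induction l with
  | nil => simp [qw]
  | cons j l ih =>
    have h1 : qw (j :: l) = qe j * qw l := rfl
    rw [h1, map_mul, ih, List.length_cons, pow_succ, mul_comm]
    congr 1
    rw [Quaternion.normSq_def', quat_qe_re, quat_qe_I, quat_qe_J, quat_qe_K]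
    fin_cases j <;> rfl

theorem tr_wd (l : List (Fin 4)) :
    (tr (wd l) + 1) / 4 = ((qw l).re : ℝ) ^ 2 / 3 ^ l.length := by
  have h1 : ∀ i : Fin 3, (3 : ℝ) ^ l.length * wd l (EuclideanSpace.single i 1) i =
      rot (qw l) (EuclideanSpace.single i 1) i := by
    intro i
    rw [rot_qw]
    simp
  have h2 : (3 : ℝ) ^ l.length * tr (wd l) =
      3 * ((qw l).re : ℝ) ^ 2 - (((qw l).imI : ℝ) ^ 2 + ((qw l).imJ : ℝ) ^ 2 +
        ((qw l).imK : ℝ) ^ 2) := by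
    have h3 : tr (wd l) = wd l (EuclideanSpace.single 0 1) 0 + wd l (EuclideanSpace.single 1 1) 1 +
        wd l (EuclideanSpace.single 2 1) 2 := by
      rw [tr, Matrix.trace, Fin.sum_univ_three]
      rfl
    rw [h3, mul_add, mul_add, h1, h1, h1, quat_rot0, quat_rot1, quat_rot2]
    simp
    ring
  have h4 : ((3 : ℝ)) ^ l.length = ((qw l).re : ℝ) ^ 2 + (((qw l).imI : ℝ) ^ 2 +
      ((qw l).imJ : ℝ) ^ 2 + ((qw l).imK : ℝ) ^ 2) := by
    have h5 := normSq_qw l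
    rw [Quaternion.normSq_def'] at h5
    have h6 : (((qw l).re ^ 2 + (qw l).imI ^ 2 + (qw l).imJ ^ 2 + (qw l).imK ^ 2 : ℤ) : ℝ) =
        ((3 ^ l.length : ℤ) : ℝ) := by rw [h5]
    push_cast at h6
    rw [← h6]
    ring
  have h7 : (0 : ℝ) < 3 ^ l.length := by positivity
  rw [div_eq_div_iff (by norm_num) h7.ne']
  linarith

end Pool.Agent.MP_f406e2_lc_QD
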