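import Mathlib

/-!
# QD, module TrH: substitutions in the forms of degree `n` (independent of the rest)

`subst M p = p (M x)`. `trH n M` is the trace of `subst M` on the forms of degree `n` in three
variables, written as the sum of the diagonal coefficients in the monomial basis.

* `subst_homog`: the images of the variables are forms of degree 1
  (`MvPolynomial.IsHomogeneous.aeval` or `..bind₁`, or by monomials).
* `subst_mul`: `subst (M * N) p = subst N (subst M p)`: check on the variables
  (`MvPolynomial.algHom_ext`): `(subst N) (∑ l, M i l X l) = ∑ l, M i l ∑ m, N l m X m`.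
* `trH_diagonal`: `subst (diagonal v)` multiplies `monomial m 1` by `∏ i, v i ^ m i`.
* `trH_map`: `subst (M.map φ) (map φ p) = map φ (subst M p)`.
-/

set_option autoImplicit false

noncomputable section

namespace Pool.Agent.MP_f406e2_lc_QD

open MvPolynomial

variable {k : Type*} [Field k]

/-- the substitution `p ↦ p (M x)` -/
def subst (M : Matrix (Fin 3) (Fin 3) k) : MvPolynomial (Fin 3) k →ₐ[k] MvPolynomial (Fin 3) k :=
  aeval fun i => ∑ l, C (M i l) * X l

/-- the exponents of degree `n` -/
def ex (n : ℕ) : Finset (Fin 3 →₀ ℕ) := Finset.finsuppAntidiag Finset.univ n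

/-- the trace of `subst M` on the forms of degree `n` -/
def trH (n : ℕ) (M : Matrix (Fin 3) (Fin 3) k) : k :=
  ∑ m ∈ ex n, coeff m (subst M (monomial m 1))

lemma subst_homog (M : Matrix (Fin 3) (Fin 3) k) (n : ℕ) (p : MvPolynomial (Fin 3) k)
    (hp : p ∈ homogeneousSubmodule (Fin 3) k n) :
    subst M p ∈ homogeneousSubmodule (Fin 3) k n := by
  rw [mem_homogeneousSubmodule] at hp ⊢
  have h1 : ∀ i : Fin 3, (∑ l, C (M i l) * X l : MvPolynomial (Fin 3) k).IsHomogeneous 1 := by
    intro i
    apply MvPolynomial.IsHomogeneous.sum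
    intro l _
    have h2 := (isHomogeneous_C (Fin 3) (M i l)).mul (isHomogeneous_X k l)
    rwa [zero_add] at h2
  have h3 := hp.aeval (fun i => ∑ l, C (M i l) * X l) h1
  rwa [one_mul] at h3

lemma subst_mul (M N : Matrix (Fin 3) (Fin 3) k) (p : MvPolynomial (Fin 3) k) :
    subst (M * N) p = subst N (subst M p) := by
  have h1 : subst (M * N) = (subst N).comp (subst M) := by
    apply MvPolynomial.algHom_ext
    intro i
    rw [AlgHom.comp_apply]
    simp only [subst, aeval_X, map_sum, map_mul, Matrix.mul_apply, MvPolynomial.aeval_C,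
      MvPolynomial.algebraMap_eq]
    simp only [Finset.sum_mul, Finset.mul_sum]
    rw [Finset.sum_comm]
    refine Finset.sum_congr rfl fun j _ => Finset.sum_congr rfl fun l _ => ?_
    ring
  rw [h1, AlgHom.comp_apply]

lemma subst_one (p : MvPolynomial (Fin 3) k) : subst (1 : Matrix (Fin 3) (Fin 3) k) p = p := by
  have h1 : subst (1 : Matrix (Fin 3) (Fin 3) k) = AlgHom.id k _ := by
    apply MvPolynomial.algHom_ext
    intro i
    simp only [subst, aeval_X, AlgHom.id_apply]
    rw [Finset.sum_eq_single i]
    · rw [Matrix.one_apply_eq, map_one, one_mul]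
    · intro l _ hl
      rw [Matrix.one_apply_ne hl.symm, map_zero, zero_mul]
    · intro h
      exact absurd (Finset.mem_univ i) h
  rw [h1, AlgHom.id_apply]

lemma eval_subst (M : Matrix (Fin 3) (Fin 3) k) (p : MvPolynomial (Fin 3) k) (x : Fin 3 → k) :
    eval x (subst M p) = eval (M.mulVec x) p := by
  have h1 : (aeval x : MvPolynomial (Fin 3) k →ₐ[k] k).comp (subst M) =
      (aeval (M.mulVec x) : MvPolynomial (Fin 3) k →ₐ[k] k) := by
    apply MvPolynomial.algHom_ext
    intro i
    simp only [subst, AlgHom.comp_apply, aeval_X, map_sum, map_mul, aeval_C, Matrix.mulVec,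
      dotProduct, Algebra.algebraMap_self_apply]
  have h2 := DFunLike.congr_fun h1 p
  rw [AlgHom.comp_apply] at h2
  rw [← MvPolynomial.coe_aeval_eq_eval, ← MvPolynomial.coe_aeval_eq_eval]
  exact h2

theorem trH_diagonal (n : ℕ) (v : Fin 3 → k) :
    trH n (Matrix.diagonal v) = ∑ m ∈ ex n, ∏ i, v i ^ m i := by
  rw [trH]
  refine Finset.sum_congr rfl fun m _ => ?_
  have h1 : ∀ i : Fin 3, (∑ l, C (Matrix.diagonal v i l) * X l : MvPolynomial (Fin 3) k) =
      C (v i) * X i := by
    intro i
    rw [Finset.sum_eq_single i]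
    · rw [Matrix.diagonal_apply_eq]
    · intro l _ hl
      rw [Matrix.diagonal_apply_ne _ hl.symm, map_zero, zero_mul]
    · intro h
      exact absurd (Finset.mem_univ i) h
  have h2 : subst (Matrix.diagonal v) (monomial m 1) = C (∏ i, v i ^ m i) * monomial m 1 := by
    simp only [subst, h1]
    rw [aeval_monomial, map_one, one_mul]
    rw [Finsupp.prod_fintype _ _ (fun i => by rw [pow_zero])]
    simp only [mul_pow, Finset.prod_mul_distrib]
    rw [map_prod]
    simp only [map_pow]
    congr 1
    rw [monomial_eq, map_one, one_mul, Finsupp.prod_fintype _ _ (fun i => by rw [pow_zero])]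
  rw [h2, coeff_C_mul, coeff_monomial, if_pos rfl, mul_one]

theorem trH_map {k' : Type*} [Field k'] (φ : k →+* k') (n : ℕ) (M : Matrix (Fin 3) (Fin 3) k) :
    trH n (M.map φ) = φ (trH n M) := by
  have h1 : ∀ p : MvPolynomial (Fin 3) k, subst (M.map φ) (map φ p) = map φ (subst M p) := by
    intro p
    induction p using MvPolynomial.induction_on with
    | C a =>
      rw [map_C]
      simp only [subst, aeval_C, algebraMap_eq, map_C]
    | add p q hp hq => rw [map_add, map_add, map_add, map_add, hp, hq]
    | mul_X p i hp =>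
      rw [map_mul, map_mul, map_mul, map_mul, hp, map_X]
      congr 1
      simp only [subst, aeval_X, map_sum, map_mul, map_C, map_X, Matrix.map_apply]
  rw [trH, trH, map_sum]
  refine Finset.sum_congr rfl fun m _ => ?_
  have h2 : (monomial m 1 : MvPolynomial (Fin 3) k') = map φ (monomial m 1) := by
    rw [map_monomial, RingHom.map_one]
  rw [h2, h1, coeff_map]

end Pool.Agent.MP_f406e2_lc_QD
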