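import Mathlib
import Pool.Agent.Lib.MP_f406e2_lc_QD.TrH

/-!
# QD, module TrHB: the trace on the forms of degree `n` (independent of the rest)

* `trace_eq`: the monomials `monomial m 1`, `m ∈ Finset.finsuppAntidiag univ n`, are a basis of
  `homogeneousSubmodule` (`MvPolynomial.homogeneousSubmodule_eq_finsupp_supported`,
  `Finsupp.supportedEquivFinsupp`, or `Basis.mk`), the coordinates are the coefficients, and
  `LinearMap.trace_eq_matrix_trace`.
* `trH_conj`: `subst (P * M * P⁻¹) = subst P⁻¹ ∘ subst M ∘ subst P` and `subst P`, `subst P⁻¹` are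
  inverse to each other on the forms of degree `n`; `LinearMap.trace_conj'` or
  `LinearMap.trace_mul_comm`.
-/

set_option autoImplicit false

noncomputable section

namespace Pool.Agent.MP_f406e2_lc_QD

open MvPolynomial

variable {k : Type*} [Field k]

private lemma TrHB_mem_ex (n : ℕ) (m : Fin 3 →₀ ℕ) : m ∈ ex n ↔ m.degree = n := by
  unfold ex
  rw [Finset.mem_finsuppAntidiag]
  constructor
  · rintro ⟨h, _⟩
    rw [← h, Finsupp.degree_eq_sum]
  · intro h
    refine ⟨?_, Finset.subset_univ _⟩
    rw [← h, Finsupp.degree_eq_sum]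

private lemma TrHB_coeff (n : ℕ) (p : homogeneousSubmodule (Fin 3) k n) (d : Fin 3 →₀ ℕ)
    (hd : d ∉ ex n) : coeff d (p : MvPolynomial (Fin 3) k) = 0 := by
  have h := (mem_homogeneousSubmodule n _).mp p.2
  refine h.coeff_eq_zero ?_
  intro h1
  exact hd ((TrHB_mem_ex n d).mpr h1)

private def TrHB_equiv (n : ℕ) :
    homogeneousSubmodule (Fin 3) k n ≃ₗ[k] (↥(ex n) → k) where
  toFun p := fun m => coeff m.1 (p : MvPolynomial (Fin 3) k)
  map_add' p q := by
    ext m
    simp
  map_smul' c p := by
    ext m
    simp
  invFun f := ⟨∑ m : ↥(ex n), monomial m.1 (f m),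
    Submodule.sum_mem _ fun m _ => (mem_homogeneousSubmodule n _).mpr
      (isHomogeneous_monomial _ ((TrHB_mem_ex n m.1).mp m.2))⟩
  left_inv p := by
    ext d
    simp only [coeff_sum, coeff_monomial]
    by_cases hd : d ∈ ex n
    · rw [Finset.sum_eq_single (⟨d, hd⟩ : ↥(ex n))]
      · simp
      · intro b _ hb
        rw [if_neg]
        intro h
        exact hb (Subtype.ext h)
      · intro h
        exact absurd (Finset.mem_univ _) h
    · rw [TrHB_coeff n p d hd]
      refine Finset.sum_eq_zero fun b _ => ?_
      rw [if_neg]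
      intro h
      exact hd (h ▸ b.2)
  right_inv f := by
    ext m
    simp only [coeff_sum, coeff_monomial]
    rw [Finset.sum_eq_single m]
    · simp
    · intro b _ hb
      rw [if_neg]
      intro h
      exact hb (Subtype.ext h)
    · intro h
      exact absurd (Finset.mem_univ _) h

private lemma TrHB_basis (n : ℕ) (m : ↥(ex n)) :
    (((Module.Basis.ofEquivFun (TrHB_equiv (k := k) n)) m : homogeneousSubmodule (Fin 3) k n) :
      MvPolynomial (Fin 3) k) = monomial m.1 1 := by
  classical
  rw [Module.Basis.coe_ofEquivFun]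
  change (∑ b : ↥(ex n), monomial b.1 ((Pi.single m (1 : k) :
    ↥(ex n) → k) b)) = monomial m.1 1
  rw [Finset.sum_eq_single m]
  · rw [Pi.single_eq_same]
  · intro b _ hb
    rw [Pi.single_eq_of_ne hb, monomial_zero]
  · intro h
    exact absurd (Finset.mem_univ _) h

theorem trace_eq (M : Matrix (Fin 3) (Fin 3) k) (n : ℕ) :
    LinearMap.trace k (homogeneousSubmodule (Fin 3) k n)
      ((subst M).toLinearMap.restrict (subst_homog M n)) = trH n M := by
  classical
  rw [LinearMap.trace_eq_matrix_trace k (Module.Basis.ofEquivFun (TrHB_equiv (k := k) n))]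
  unfold trH Matrix.trace
  rw [← Finset.sum_coe_sort (ex n)]
  refine Finset.sum_congr rfl fun m _ => ?_
  rw [Matrix.diag_apply, LinearMap.toMatrix_apply, Module.Basis.ofEquivFun_repr_apply]
  change coeff m.1 (subst M (((Module.Basis.ofEquivFun (TrHB_equiv (k := k) n)) m :
    homogeneousSubmodule (Fin 3) k n) : MvPolynomial (Fin 3) k)) = _
  rw [TrHB_basis]

theorem trH_conj (n : ℕ) (M P P' : Matrix (Fin 3) (Fin 3) k) (h1 : P * P' = 1) (h2 : P' * P = 1) :
    trH n (P * M * P') = trH n M := by
  rw [← trace_eq, ← trace_eq]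
  have h3 : (subst (P * M * P')).toLinearMap.restrict (subst_homog (P * M * P') n) =
      (subst P').toLinearMap.restrict (subst_homog P' n) *
        ((subst M).toLinearMap.restrict (subst_homog M n) *
          (subst P).toLinearMap.restrict (subst_homog P n)) := by
    refine LinearMap.ext fun p => Subtype.ext ?_
    change subst (P * M * P') p.1 = subst P' (subst M (subst P p.1))
    rw [subst_mul, subst_mul]
  have h4 : (subst P).toLinearMap.restrict (subst_homog P n) *
      (subst P').toLinearMap.restrict (subst_homog P' n) = 1 := by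
    refine LinearMap.ext fun p => Subtype.ext ?_
    change subst P (subst P' p.1) = p.1
    rw [← subst_mul, h2, subst_one]
  rw [h3, LinearMap.trace_mul_comm, mul_assoc, h4, mul_one]

end Pool.Agent.MP_f406e2_lc_QD
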