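import Mathlib
import Pool.Agent.Lib.MP_f406e2_lc_QD.TrHB
import Pool.Agent.Lib.MP_f406e2_lc_QD.Cheb
import Pool.Agent.Lib.MP_f406e2_lc_QD.Defs

/-!
# QD, module TrRot: the character of a rotation on the forms

`hh n z = ∑_{a+b+c=n} z^a (z⁻¹)^b` (`z ≠ 0`) is the trace of `diag(z, z⁻¹, 1)` on the forms of
degree `n`. 

* `hh_sub`: `hh (n+2) z - hh n z = ∑_{|m| ≤ n+2} z^m = VV (n+2) s` if `z + z⁻¹ = 4 s - 2`.
  Proof: put `e n = hh n - hh (n-2)` (`hh (-1) = hh (-2) = 0`). By the generating function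
  `∑ hh n t^n = 1/((1-zt)(1-t/z)(1-t))`, i.e. by the recursion
  `hh (n+3) = (z + z⁻¹ + 1) hh (n+2) - (z + z⁻¹ + 1) hh (n+1) + hh n`, one gets
  `e (n+2) = (z + z⁻¹) e (n+1) - e n`, `e 0 = 1`, `e 1 = z + z⁻¹ + 1`, the recursion of `VV`.
  (A convenient way: `hh n z = ∑_{c ≤ n} g (n - c)` with `g k = ∑_{a+b=k} z^a z^{-b}`, so
  `hh n - hh (n-2) = g n + g (n-1)`, and `g (k+2) = (z+z⁻¹) g (k+1) - g k`, `g 0 = 1`,
  `g 1 = z + z⁻¹`; here `g k = ∑_{a=0}^k z^a z^{-(k-a)}`.)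
* `chi_rot`: Let `b ≠ 0`, `n = b/|b|`, `v` a unit vector orthogonal to `n`, `w = n × v`. Then
  `n, v, w` is orthonormal, `n × w = -v`, and with `c = a² - |b|²`, `t = 2 a |b|` (`c² + t² = 1`)
  `g n = n`, `g v = c v + t w`, `g w = c w - t v`. So with the matrix `Q` with columns `v, w, n`
  (`Qᵀ Q = 1`) `mat g = Q R Qᵀ`, `R` the matrix with rows `(c,-t,0), (t,c,0), (0,0,1)`. Over `ℂ`:
  `R = P diag(z, z⁻¹, 1) P⁻¹` with `z = c + i t`, `P` with columns `(1,-i,0), (1,i,0), (0,0,1)`.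
  By `trH_map`, `trH_conj`, `trH_diagonal`: `trH n (mat g) = hh n z` (in `ℂ`), and
  `z + z⁻¹ = 2c = 2(2a²-1) = 4 a² - 2`. Conclude by injectivity of `ℝ → ℂ` (the case `b = 0`:
  `a² = 1`, `g = 1`, `z = 1`).
-/

set_option autoImplicit false

noncomputable section

namespace Pool.Agent.MP_f406e2_lc_QD

open scoped InnerProductSpace

private def Gs (z w : ℂ) (k : ℕ) : ℂ :=
  ∑ q ∈ Finset.HasAntidiagonal.antidiagonal k, z ^ q.1 * w ^ q.2

private lemma Gs_zero (z w : ℂ) : Gs z w 0 = 1 := by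
  simp [Gs]

private lemma Gs_succ (z w : ℂ) (k : ℕ) : Gs z w (k + 1) = w ^ (k + 1) + z * Gs z w k := by
  unfold Gs
  rw [Finset.Nat.sum_antidiagonal_succ, Finset.mul_sum]
  congr 1
  · simp
  · refine Finset.sum_congr rfl fun q _ => ?_
    ring

private lemma Gs_two (z w : ℂ) (h : z * w = 1) (k : ℕ) :
    Gs z w (k + 2) = (z + w) * Gs z w (k + 1) - Gs z w k := by
  rw [Gs_succ z w (k + 1), Gs_succ z w k]
  linear_combination (-(Gs z w k)) * h

private lemma Gs_VV (z w : ℂ) (s : ℝ) (h : z * w = 1) (hs : z + w = 4 * (s : ℂ) - 2) (n : ℕ) :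
    Gs z w (n + 1) + Gs z w n = ((VV (n + 1) s : ℝ) : ℂ) := by
  have key : ∀ n : ℕ, Gs z w (n + 1) + Gs z w n = ((VV (n + 1) s : ℝ) : ℂ) ∧
      Gs z w (n + 2) + Gs z w (n + 1) = ((VV (n + 2) s : ℝ) : ℂ) := by
    intro n
    induction n with
    | zero =>
      have h0 := Gs_zero z w
      have h1 : Gs z w (0 + 1) = z + w := by
        rw [Gs_succ, h0]
        ring
      have h2 := Gs_two z w h 0
      constructor
      · rw [h1, h0, show VV (0 + 1) s = 4 * s - 1 from rfl]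
        push_cast
        rw [hs]
        ring
      · rw [h2, h1, h0,
          show VV (0 + 2) s = (4 * s - 2) * (4 * s - 1) - 1 from rfl]
        push_cast
        rw [hs]
        ring
    | succ n ih =>
      obtain ⟨h1, h2⟩ := ih
      refine ⟨h2, ?_⟩
      have h3 : VV (n + 1 + 2) s = (4 * s - 2) * VV (n + 2) s - VV (n + 1) s := rfl
      have h4 := Gs_two z w h (n + 1)
      have h5 := Gs_two z w h n
      rw [h3]
      push_cast
      rw [← h1, ← h2, ← hs, h4]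
      linear_combination h5
  exact (key n).1

private lemma sum_ex (z w : ℂ) (n : ℕ) :
    ∑ m ∈ ex n, ∏ i, (![z, w, 1] : Fin 3 → ℂ) i ^ m i = ∑ k ∈ Finset.range (n + 1), Gs z w k := by
  have h1 : ∑ k ∈ Finset.range (n + 1), Gs z w k =
      ∑ p ∈ Finset.HasAntidiagonal.antidiagonal n, Gs z w p.1 := by
    rw [Finset.Nat.sum_antidiagonal_eq_sum_range_succ_mk]
  rw [h1]
  unfold Gs
  rw [Finset.sum_sigma']
  refine Finset.sum_bij' (fun m _ => (⟨(m 0 + m 1, m 2), (m 0, m 1)⟩ : Σ _ : ℕ × ℕ, ℕ × ℕ))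
    (fun x _ => Finsupp.equivFunOnFinite.symm ![x.2.1, x.2.2, x.1.2]) ?_ ?_ ?_ ?_ ?_
  · intro m hm
    rw [ex, Finset.mem_finsuppAntidiag] at hm
    have h2 := hm.1
    rw [Fin.sum_univ_three] at h2
    simp only [Finset.mem_sigma, Finset.HasAntidiagonal.mem_antidiagonal]
    exact ⟨h2, trivial⟩
  · intro x hx
    rw [Finset.mem_sigma, Finset.HasAntidiagonal.mem_antidiagonal,
      Finset.HasAntidiagonal.mem_antidiagonal] at hx
    rw [ex, Finset.mem_finsuppAntidiag]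
    refine ⟨?_, fun i _ => Finset.mem_univ i⟩
    rw [Fin.sum_univ_three]
    simp only [Finsupp.equivFunOnFinite_symm_apply_apply, Matrix.cons_val_zero,
      Matrix.cons_val_one, Matrix.cons_val]
    omega
  · intro m hm
    ext i
    fin_cases i <;> simp
  · intro x hx
    rw [Finset.mem_sigma, Finset.HasAntidiagonal.mem_antidiagonal,
      Finset.HasAntidiagonal.mem_antidiagonal] at hx
    obtain ⟨⟨p1, p2⟩, ⟨q1, q2⟩⟩ := x
    simp only at hx
    simp only [Finsupp.equivFunOnFinite_symm_apply_apply, Matrix.cons_val_zero,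
      Matrix.cons_val_one, Matrix.cons_val]
    obtain ⟨h3, h4⟩ := hx
    subst h4
    rfl
  · intro m hm
    simp [Fin.prod_univ_three]

private lemma mat_rot (g : O3) (a : ℝ) (b : E3)
    (hg : ∀ x, g x = (a ^ 2 - ‖b‖ ^ 2) • x + (2 * ⟪b, x⟫_ℝ) • b + (2 * a) • cr b x)
    (i l : Fin 3) :
    mat g i l = (a ^ 2 - ‖b‖ ^ 2) * (if i = l then 1 else 0) + 2 * b l * b i +
      2 * a * cr b (EuclideanSpace.single l 1) i := by
  unfold mat
  rw [hg]
  simp only [PiLp.add_apply, PiLp.smul_apply, smul_eq_mul, EuclideanSpace.inner_single_right,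
    PiLp.single_apply, one_mul]
  simp

private lemma exists_diag (M : Matrix (Fin 3) (Fin 3) ℝ) (a r n0 n1 n2 v0 v1 v2 : ℝ)
    (hab : a ^ 2 + r ^ 2 = 1)
    (hn : n0 ^ 2 + n1 ^ 2 + n2 ^ 2 = 1) (hv : v0 ^ 2 + v1 ^ 2 + v2 ^ 2 = 1)
    (hnv : n0 * v0 + n1 * v1 + n2 * v2 = 0)
    (hM : M = !![a ^ 2 - r ^ 2 + 2 * r ^ 2 * n0 ^ 2, 2 * r ^ 2 * n0 * n1 - 2 * a * r * n2,
        2 * r ^ 2 * n0 * n2 + 2 * a * r * n1;
      2 * r ^ 2 * n0 * n1 + 2 * a * r * n2, a ^ 2 - r ^ 2 + 2 * r ^ 2 * n1 ^ 2,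
        2 * r ^ 2 * n1 * n2 - 2 * a * r * n0;
      2 * r ^ 2 * n0 * n2 - 2 * a * r * n1, 2 * r ^ 2 * n1 * n2 + 2 * a * r * n0,
        a ^ 2 - r ^ 2 + 2 * r ^ 2 * n2 ^ 2]) :
    ∃ (z w : ℂ) (P P' : Matrix (Fin 3) (Fin 3) ℂ), z * w = 1 ∧
      z + w = 4 * ((a ^ 2 : ℝ) : ℂ) - 2 ∧ P * P' = 1 ∧ P' * P = 1 ∧
      M.map Complex.ofRealHom = P * Matrix.diagonal ![z, w, 1] * P' := by
  have hab' : (a : ℂ) ^ 2 + (r : ℂ) ^ 2 = 1 := by exact_mod_cast hab
  have hn' : (n0 : ℂ) ^ 2 + (n1 : ℂ) ^ 2 + (n2 : ℂ) ^ 2 = 1 := by exact_mod_cast hn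
  have hv' : (v0 : ℂ) ^ 2 + (v1 : ℂ) ^ 2 + (v2 : ℂ) ^ 2 = 1 := by exact_mod_cast hv
  have hnv' : (n0 : ℂ) * v0 + n1 * v1 + n2 * v2 = 0 := by exact_mod_cast hnv
  have hI : Complex.I ^ 2 = -1 := Complex.I_sq
  set A : ℂ := (a : ℂ) with hA
  set R : ℂ := (r : ℂ) with hR
  set N0 : ℂ := (n0 : ℂ) with hN0
  set N1 : ℂ := (n1 : ℂ) with hN1
  set N2 : ℂ := (n2 : ℂ) with hN2
  set V0 : ℂ := (v0 : ℂ) with hV0
  set V1 : ℂ := (v1 : ℂ) with hV1
  set V2 : ℂ := (v2 : ℂ) with hV2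
  set W0 : ℂ := N1 * V2 - N2 * V1 with hW0
  set W1 : ℂ := N2 * V0 - N0 * V2 with hW1
  set W2 : ℂ := N0 * V1 - N1 * V0 with hW2
  have hw : W0 ^ 2 + W1 ^ 2 + W2 ^ 2 = 1 := by
    rw [hW0, hW1, hW2]
    linear_combination (V0 ^ 2 + V1 ^ 2 + V2 ^ 2) * hn' + hv' -
      (N0 * V0 + N1 * V1 + N2 * V2) * hnv'
  have hnw : N0 * W0 + N1 * W1 + N2 * W2 = 0 := by
    rw [hW0, hW1, hW2]
    ring
  have hvw : V0 * W0 + V1 * W1 + V2 * W2 = 0 := by
    rw [hW0, hW1, hW2]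
    ring
  have hx0 : N1 * W2 - N2 * W1 = -V0 := by
    rw [hW1, hW2]
    linear_combination N0 * hnv' - V0 * hn'
  have hx1 : N2 * W0 - N0 * W2 = -V1 := by
    rw [hW0, hW2]
    linear_combination N1 * hnv' - V1 * hn'
  have hx2 : N0 * W1 - N1 * W0 = -V2 := by
    rw [hW0, hW1]
    linear_combination N2 * hnv' - V2 * hn'
  set C : ℂ := A ^ 2 - R ^ 2 with hC
  set T : ℂ := 2 * A * R with hT
  have hMap : M.map Complex.ofRealHom = !![C + 2 * R ^ 2 * N0 ^ 2, 2 * R ^ 2 * N0 * N1 - T * N2,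
        2 * R ^ 2 * N0 * N2 + T * N1;
      2 * R ^ 2 * N0 * N1 + T * N2, C + 2 * R ^ 2 * N1 ^ 2,
        2 * R ^ 2 * N1 * N2 - T * N0;
      2 * R ^ 2 * N0 * N2 - T * N1, 2 * R ^ 2 * N1 * N2 + T * N0,
        C + 2 * R ^ 2 * N2 ^ 2] := by
    rw [hM]
    ext i j
    fin_cases i <;> fin_cases j <;> simp [hC, hT, hA, hR, hN0, hN1, hN2]
  set I := Complex.I with hII
  set P : Matrix (Fin 3) (Fin 3) ℂ := !![V0 - I * W0, V0 + I * W0, N0;
    V1 - I * W1, V1 + I * W1, N1; V2 - I * W2, V2 + I * W2, N2] with hP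
  set P' : Matrix (Fin 3) (Fin 3) ℂ := !![(V0 + I * W0) / 2, (V1 + I * W1) / 2, (V2 + I * W2) / 2;
    (V0 - I * W0) / 2, (V1 - I * W1) / 2, (V2 - I * W2) / 2; N0, N1, N2] with hP'
  have hPP : P' * P = 1 := by
    rw [hP, hP']
    ext i j
    fin_cases i <;> fin_cases j <;>
      simp only [Matrix.mul_apply, Fin.sum_univ_three, Matrix.one_apply, Matrix.of_apply,
        Matrix.cons_val', Matrix.cons_val_zero, Matrix.cons_val_one, Matrix.cons_val,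
        Matrix.cons_val_fin_one, Fin.zero_eta, Fin.mk_one, Fin.reduceFinMk, Fin.isValue]
    · rw [if_pos trivial]
      linear_combination (1 / 2) * hv' + (1 / 2) * hw - (1 / 2) * (W0 ^ 2 + W1 ^ 2 + W2 ^ 2) * hI
    · rw [if_neg (by decide)]
      linear_combination (1 / 2) * hv' - (1 / 2) * hw + I * hvw +
        (1 / 2) * (W0 ^ 2 + W1 ^ 2 + W2 ^ 2) * hI
    · rw [if_neg (by decide)]
      linear_combination (1 / 2) * hnv' + (1 / 2) * I * hnw
    · rw [if_neg (by decide)]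
      linear_combination (1 / 2) * hv' - (1 / 2) * hw - I * hvw +
        (1 / 2) * (W0 ^ 2 + W1 ^ 2 + W2 ^ 2) * hI
    · rw [if_pos trivial]
      linear_combination (1 / 2) * hv' + (1 / 2) * hw - (1 / 2) * (W0 ^ 2 + W1 ^ 2 + W2 ^ 2) * hI
    · rw [if_neg (by decide)]
      linear_combination (1 / 2) * hnv' - (1 / 2) * I * hnw
    · rw [if_neg (by decide)]
      linear_combination hnv' - I * hnw
    · rw [if_neg (by decide)]
      linear_combination hnv' + I * hnw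
    · rw [if_pos trivial]
      linear_combination hn'
  have hPP2 : P * P' = 1 := mul_eq_one_comm.1 hPP
  have hMP : M.map Complex.ofRealHom * P = P * Matrix.diagonal ![C + I * T, C - I * T, 1] := by
    rw [hMap, hP]
    ext i j
    rw [Matrix.mul_diagonal]
    fin_cases i <;> fin_cases j <;>
      simp only [Matrix.mul_apply, Fin.sum_univ_three, Matrix.of_apply,
        Matrix.cons_val', Matrix.cons_val_zero, Matrix.cons_val_one, Matrix.cons_val,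
        Matrix.cons_val_fin_one, Fin.zero_eta, Fin.mk_one, Fin.reduceFinMk, Fin.isValue]
    · linear_combination 2 * R ^ 2 * N0 * hnv' - 2 * I * R ^ 2 * N0 * hnw - I * T * hx0 -
        T * hW0 + T * W0 * hI
    · linear_combination 2 * R ^ 2 * N0 * hnv' + 2 * I * R ^ 2 * N0 * hnw + I * T * hx0 -
        T * hW0 + T * W0 * hI
    · linear_combination 2 * R ^ 2 * N0 * hn' + N0 * hC + N0 * hab'
    · linear_combination 2 * R ^ 2 * N1 * hnv' - 2 * I * R ^ 2 * N1 * hnw - I * T * hx1 -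
        T * hW1 + T * W1 * hI
    · linear_combination 2 * R ^ 2 * N1 * hnv' + 2 * I * R ^ 2 * N1 * hnw + I * T * hx1 -
        T * hW1 + T * W1 * hI
    · linear_combination 2 * R ^ 2 * N1 * hn' + N1 * hC + N1 * hab'
    · linear_combination 2 * R ^ 2 * N2 * hnv' - 2 * I * R ^ 2 * N2 * hnw - I * T * hx2 -
        T * hW2 + T * W2 * hI
    · linear_combination 2 * R ^ 2 * N2 * hnv' + 2 * I * R ^ 2 * N2 * hnw + I * T * hx2 -
        T * hW2 + T * W2 * hI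
    · linear_combination 2 * R ^ 2 * N2 * hn' + N2 * hC + N2 * hab'
  have hCT : C ^ 2 + T ^ 2 = 1 := by
    rw [hC, hT]
    linear_combination (A ^ 2 + R ^ 2 + 1) * hab'
  refine ⟨C + I * T, C - I * T, P, P', ?_, ?_, hPP2, hPP, ?_⟩
  · linear_combination hCT - T ^ 2 * hI
  · push_cast
    linear_combination 2 * hC - 2 * hab'
  · rw [← hMP, Matrix.mul_assoc, hPP2, Matrix.mul_one]

private lemma exists_perp (n0 n1 n2 : ℝ) : ∃ v0 v1 v2 : ℝ, v0 ^ 2 + v1 ^ 2 + v2 ^ 2 = 1 ∧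
    n0 * v0 + n1 * v1 + n2 * v2 = 0 := by
  by_cases h : n0 ^ 2 + n1 ^ 2 = 0
  · have h0 : n0 = 0 := by nlinarith [sq_nonneg n0, sq_nonneg n1]
    exact ⟨1, 0, 0, by norm_num, by rw [h0]; ring⟩
  · have hpos : 0 < n0 ^ 2 + n1 ^ 2 := lt_of_le_of_ne (by positivity) (Ne.symm h)
    have hs : Real.sqrt (n0 ^ 2 + n1 ^ 2) ^ 2 = n0 ^ 2 + n1 ^ 2 := Real.sq_sqrt hpos.le
    refine ⟨-n1 / Real.sqrt (n0 ^ 2 + n1 ^ 2), n0 / Real.sqrt (n0 ^ 2 + n1 ^ 2), 0, ?_, ?_⟩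
    · rw [div_pow, div_pow, hs]
      field_simp
      ring
    · ring

private lemma diag_mat (g : O3) (a : ℝ) (b : E3) (hab : a ^ 2 + ‖b‖ ^ 2 = 1)
    (hg : ∀ x, g x = (a ^ 2 - ‖b‖ ^ 2) • x + (2 * ⟪b, x⟫_ℝ) • b + (2 * a) • cr b x) :
    ∃ (z w : ℂ) (P P' : Matrix (Fin 3) (Fin 3) ℂ), z * w = 1 ∧
      z + w = 4 * ((a ^ 2 : ℝ) : ℂ) - 2 ∧ P * P' = 1 ∧ P' * P = 1 ∧
      (mat g).map Complex.ofRealHom = P * Matrix.diagonal ![z, w, 1] * P' := by
  by_cases hb : b = 0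
  · have ha : a ^ 2 = 1 := by
      rw [hb, norm_zero] at hab
      linarith
    have hm : mat g = 1 := by
      ext i l
      rw [mat_rot g a b hg i l, hb]
      fin_cases i <;> fin_cases l <;> simp [cr, ha]
    refine ⟨1, 1, 1, 1, by norm_num, ?_, by simp, by simp, ?_⟩
    · rw [ha]
      push_cast
      norm_num
    · rw [hm]
      ext i l
      fin_cases i <;> fin_cases l <;> simp
  · have hr : 0 < ‖b‖ := norm_pos_iff.2 hb
    obtain ⟨v0, v1, v2, hv, hnv⟩ := exists_perp (b 0 / ‖b‖) (b 1 / ‖b‖) (b 2 / ‖b‖)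
    have hsq : b 0 ^ 2 + b 1 ^ 2 + b 2 ^ 2 = ‖b‖ ^ 2 := by
      rw [EuclideanSpace.norm_sq_eq, Fin.sum_univ_three]
      simp only [Real.norm_eq_abs, sq_abs]
    refine exists_diag (mat g) a ‖b‖ (b 0 / ‖b‖) (b 1 / ‖b‖) (b 2 / ‖b‖) v0 v1 v2 hab ?_ hv hnv ?_
    · rw [div_pow, div_pow, div_pow, ← add_div, ← add_div, hsq, div_self (by positivity)]
    · ext i l
      rw [mat_rot g a b hg i l]
      fin_cases i <;> fin_cases l <;> simp [cr] <;> field_simp <;> ring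

/-- the character of the forms of degree `n` modulo `|x|²` times the forms of degree `n - 2` -/
def chi (n : ℕ) (g : O3) : ℝ :=
  match n with
  | 0 => trH 0 (mat g)
  | 1 => trH 1 (mat g)
  | n + 2 => trH (n + 2) (mat g) - trH n (mat g)

theorem chi_rot (g : O3) (a : ℝ) (b : E3) (hab : a ^ 2 + ‖b‖ ^ 2 = 1)
    (hg : ∀ x, g x = (a ^ 2 - ‖b‖ ^ 2) • x + (2 * ⟪b, x⟫_ℝ) • b + (2 * a) • cr b x) (n : ℕ) :
    chi n g = VV n (a ^ 2) := by
  obtain ⟨z, w, P, P', hzw, hzs, hPP, hPP', hM⟩ := diag_mat g a b hab hg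
  have hS : ∀ n, ((trH n (mat g) : ℝ) : ℂ) = ∑ k ∈ Finset.range (n + 1), Gs z w k := by
    intro n
    have h1 := trH_map Complex.ofRealHom n (mat g)
    rw [hM, trH_conj n _ P P' hPP hPP', trH_diagonal, sum_ex] at h1
    exact h1.symm
  have hV := Gs_VV z w (a ^ 2) hzw hzs
  apply Complex.ofReal_injective
  match n with
  | 0 =>
    rw [show chi 0 g = trH 0 (mat g) from rfl, show VV 0 (a ^ 2) = 1 from rfl, hS]
    simp [Gs_zero]
  | 1 =>
    rw [show chi 1 g = trH 1 (mat g) from rfl, hS, ← hV 0, Finset.sum_range_succ,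
      Finset.sum_range_succ, Finset.sum_range_zero]
    ring
  | n + 2 =>
    rw [show chi (n + 2) g = trH (n + 2) (mat g) - trH n (mat g) from rfl, Complex.ofReal_sub,
      hS, hS, ← hV (n + 1), Finset.sum_range_succ _ (n + 2), Finset.sum_range_succ _ (n + 1)]
    ring

end Pool.Agent.MP_f406e2_lc_QD
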