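import Mathlib
import Pool.Agent.Lib.MP_f406e2_lc_QD.TrRot
import Pool.Agent.Lib.MP_f406e2_lc_QD.Quat

/-!
# QD, module ChiWd: the character of a word

`chi_rot` for `g = wd l` with `a = re (qw l) / √3 ^ n`, `b = imv (qw l) / √3 ^ n`
(`n` the length), by `rot_qw`, `normSq_qw`; and `tr_wd`.
-/

set_option autoImplicit false

noncomputable section

namespace Pool.Agent.MP_f406e2_lc_QD

theorem chi_wd (l : List (Fin 4)) (n : ℕ) : chi n (wd l) = VV n ((tr (wd l) + 1) / 4) := by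
  obtain ⟨r, hr, hr2⟩ : ∃ r : ℝ, 0 < r ∧ r ^ 2 = 3 ^ l.length :=
    ⟨Real.sqrt (3 ^ l.length), Real.sqrt_pos.2 (by positivity), Real.sq_sqrt (by positivity)⟩
  have hr0 := hr.ne'
  have hn : ((qw l).re : ℝ) ^ 2 + ‖imv (qw l)‖ ^ 2 = r ^ 2 := by
    have h5 := normSq_qw l
    rw [Quaternion.normSq_def'] at h5
    have h6 : (((qw l).re ^ 2 + (qw l).imI ^ 2 + (qw l).imJ ^ 2 + (qw l).imK ^ 2 : ℤ) : ℝ) =
        ((3 ^ l.length : ℤ) : ℝ) := by rw [h5]
    push_cast at h6
    rw [hr2, ← h6, ← real_inner_self_eq_norm_sq, PiLp.inner_apply, Fin.sum_univ_three]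
    simp [imv]
    ring
  have hb : ‖r⁻¹ • imv (qw l)‖ ^ 2 = ‖imv (qw l)‖ ^ 2 / r ^ 2 := by
    rw [norm_smul, mul_pow, norm_inv, Real.norm_eq_abs, abs_of_pos hr]
    field_simp
  have h1 := chi_rot (wd l) ((qw l).re / r) (r⁻¹ • imv (qw l)) (by
    rw [hb, div_pow, ← add_div, hn]
    field_simp) (fun x => ?_) n
  · rw [h1, tr_wd, div_pow, hr2]
  · have h2 := rot_qw l x
    have h3 : wd l x = (r ^ 2)⁻¹ • rot (qw l) x := by
      rw [h2, hr2, smul_smul, inv_mul_cancel₀ (by positivity), one_smul]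
    have h4 : cr (r⁻¹ • imv (qw l)) x = r⁻¹ • cr (imv (qw l)) x := by
      ext i
      fin_cases i <;> simp [cr] <;> ring
    rw [h3, hb, h4, rot, real_inner_smul_left, smul_add, smul_add, smul_smul, smul_smul,
      smul_smul, smul_smul, smul_smul]
    congr 1
    · congr 1
      · congr 1
        field_simp
      · congr 1
        field_simp
    · congr 1
      field_simp

end Pool.Agent.MP_f406e2_lc_QD
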