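import Mathlib
import Pool.Agent.Lib.MP_f406e2_lc_QD.Defs

/-!
# QD, module Meas: the measure on the sphere and the action

* `nu` is a probability measure: `sig 3 univ` is finite (`MeasureTheory.Measure.toSphere` instance)
  and not zero (`toSphere_apply_univ`, the volume of the unit ball is positive).
* invariance: `sp_preserving` of `SP.Meas`, scaled.
* `nu` is positive on nonempty open sets: there is an instance or a lemma for `toSphere`
  (`IsOpenPosMeasure`); otherwise: the cone `Ioo 0 1 • U` over a nonempty open set `U` of the sphere
  is a nonempty open set of `E3` (`toSphere_apply'`).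
* continuity of the action: `(sp g).continuous`.
-/

set_option autoImplicit false

noncomputable section

namespace Pool.Agent.MP_f406e2_lc_QD

open MeasureTheory Pool.Agent.MP_f406e2_lc_SP

private theorem Meas_ne : sig 3 Set.univ ≠ 0 := by
  have : Nontrivial (En 3) := inferInstance
  rw [Ne, Measure.measure_univ_eq_zero]
  exact Measure.toSphere_ne_zero _

private theorem Meas_apply (s : Set S2) : nu s = (sig 3 Set.univ)⁻¹ * sig 3 s := by
  change ((sig 3 Set.univ)⁻¹ • sig 3) s = _
  rw [Measure.smul_apply, smul_eq_mul]

instance instProb : IsProbabilityMeasure nu := by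
  refine ⟨?_⟩
  change ((sig 3 Set.univ)⁻¹ • sig 3) Set.univ = 1
  rw [Measure.smul_apply, smul_eq_mul, ENNReal.inv_mul_cancel Meas_ne (measure_ne_top _ _)]

instance instCont : ContinuousConstSMul O3 S2 where
  continuous_const_smul g := (sp g).continuous

theorem mp (g : O3) : MeasurePreserving (fun x : S2 => g • x) nu nu := by
  exact (sp_preserving g).smul_measure _

instance instInv : SMulInvariantMeasure O3 S2 nu := by
  exact ⟨fun g _ hs => (mp g).measure_preimage hs.nullMeasurableSet⟩

instance instOpenPos : nu.IsOpenPosMeasure := by
  refine ⟨fun U hU hne => ?_⟩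
  rw [Meas_apply]
  exact mul_ne_zero (ENNReal.inv_ne_zero.2 (measure_ne_top _ _)) (hU.measure_ne_zero _ hne)

/-- null sets of `nu` are the null sets of the surface measure -/
theorem nu_null (s : Set S2) : nu s = 0 ↔ sig 3 s = 0 := by
  rw [Meas_apply, mul_eq_zero]
  exact ⟨fun h => h.resolve_left (ENNReal.inv_ne_zero.2 (measure_ne_top _ _)), Or.inr⟩

end Pool.Agent.MP_f406e2_lc_QD
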