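import Mathlib
import Pool.Agent.Lib.MP_f406e2_lc_QD.Meas
import Pool.Agent.Lib.MP_f406e2_lc_QD.Grp

/-!
# QD, module Ops: the operators on `L²`

`UU g f = f ∘ g`. `TT` is the sum of the `UU (h j)`.

* `UU_coe`: `Lp.coeFn_compMeasurePreserving`.
* `UU_mul`: compare the functions a.e. (`mul_smul`), or on the level of
  `Lp.compMeasurePreserving`.
* `UU_inner`: `∫ f(g x) f'(x) = ∫ f(x) f'(g⁻¹ x)`: `L2.inner_def` and `(mp g⁻¹).integral_comp`, or:
  `UU g` is a linear isometry with inverse `UU g⁻¹`.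
* `TT_symm`: `(h j)⁻¹ = h j` by `h_mul_self`.
-/

set_option autoImplicit false

noncomputable section

namespace Pool.Agent.MP_f406e2_lc_QD

open MeasureTheory Polynomial
open scoped InnerProductSpace

/-- the Hilbert space -/
abbrev L2 : Type := Lp ℝ 2 nu

/-- composition with `g` -/
def UU (g : O3) : L2 →ₗᵢ[ℝ] L2 := Lp.compMeasurePreservingₗᵢ ℝ (fun x : S2 => g • x) (mp g)

/-- the sum of the four half-turns -/
def TT : L2 →L[ℝ] L2 := ∑ j, (UU (h j)).toContinuousLinearMap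

lemma UU_coe (g : O3) (f : L2) : UU g f =ᵐ[nu] fun x => f (g • x) :=
  Lp.coeFn_compMeasurePreserving f (mp g)

lemma UU_one : (UU 1).toLinearMap = LinearMap.id := by
  apply LinearMap.ext
  intro f
  apply Lp.ext
  refine (UU_coe 1 f).trans (Filter.Eventually.of_forall fun x => ?_)
  change f ((1 : O3) • x) = f x
  rw [one_smul]

lemma UU_mul (g g' : O3) (f : L2) : UU (g * g') f = UU g' (UU g f) := by
  apply Lp.ext
  have h1 := UU_coe (g * g') f
  have h2 := UU_coe g' (UU g f)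
  have h3 := (mp g').quasiMeasurePreserving.ae (UU_coe g f)
  filter_upwards [h1, h2, h3] with x hx1 hx2 hx3
  rw [hx1, hx2, hx3, mul_smul]

lemma UU_inner (g : O3) (f f' : L2) : ⟪UU g f, f'⟫_ℝ = ⟪f, UU g⁻¹ f'⟫_ℝ := by
  have h1 : UU g (UU g⁻¹ f') = f' := by
    rw [← UU_mul, inv_mul_cancel]
    exact LinearMap.congr_fun UU_one f'
  conv_lhs => rw [← h1]
  exact (UU g).inner_map_map f (UU g⁻¹ f')

lemma TT_apply (f : L2) : TT f = ∑ j, UU (h j) f := by
  simp [TT]

lemma TT_symm (f f' : L2) : ⟪TT f, f'⟫_ℝ = ⟪f, TT f'⟫_ℝ := by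
  rw [TT_apply, TT_apply, sum_inner, inner_sum]
  refine Finset.sum_congr rfl fun j _ => ?_
  rw [UU_inner, h_inv]

lemma TT_norm_le (f : L2) : ‖TT f‖ ≤ 4 * ‖f‖ := by
  rw [TT_apply]
  refine (norm_sum_le _ _).trans ?_
  simp

end Pool.Agent.MP_f406e2_lc_QD
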