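import Mathlib
import Pool.Agent.Lib.MP_f406e2_lc_QD.Grp

/-!
# QD, module Words: sums over the reduced words

* `mem_W`: induction on `n` (and the form of `Red`).
* `sum_W_succ`: `Finset.sum_image` (the map `p ↦ p.1 :: p.2` is injective), `Finset.sum_filter`,
  `Finset.sum_product_right`.
* `sum_W_rec`: for `l ∈ W n` the letters `j` different from the head give by `sum_W_succ` the sum
  over `W (n + 1)`. If `n = 0` there is no other letter. If `n ≥ 1` and `l = j :: l'` then
  `h j * wd l = wd l'`; each `l' ∈ W (n - 1)` arises from `3` letters `j` (the letters different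
  from the head of `l'`), from `4` letters if `n = 1` (`l' = []`).
-/

set_option autoImplicit false

noncomputable section

namespace Pool.Agent.MP_f406e2_lc_QD

private lemma Words_red_cons (a : Fin 4) (m : List (Fin 4)) :
    Red (a :: m) ↔ m.head? ≠ some a ∧ Red m := by
  cases m with
  | nil => simp [Red]
  | cons b t =>
    simp only [Red, List.head?_cons, ne_eq, Option.some.injEq]
    exact and_congr_left fun _ => ⟨fun hh e => hh e.symm, fun hh e => hh e.symm⟩

lemma mem_W (n : ℕ) (l : List (Fin 4)) : l ∈ W n ↔ l.length = n ∧ Red l := by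
  induction n generalizing l with
  | zero =>
    rw [W, Finset.mem_singleton]
    constructor
    · rintro rfl
      exact ⟨rfl, trivial⟩
    · rintro ⟨h1, _⟩
      exact List.length_eq_zero_iff.1 h1
  | succ n ih =>
    rw [W, Finset.mem_image]
    constructor
    · rintro ⟨⟨a, m⟩, hp, rfl⟩
      rw [Finset.mem_filter, Finset.mem_product] at hp
      obtain ⟨⟨_, hm⟩, hh⟩ := hp
      obtain ⟨h1, h2⟩ := (ih m).1 hm
      exact ⟨by simp only [List.length_cons]; simpa using h1, (Words_red_cons a m).2 ⟨hh, h2⟩⟩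
    · rintro ⟨h1, h2⟩
      cases l with
      | nil => simp at h1
      | cons a m =>
        obtain ⟨h3, h4⟩ := (Words_red_cons a m).1 h2
        refine ⟨(a, m), ?_, rfl⟩
        rw [Finset.mem_filter, Finset.mem_product]
        exact ⟨⟨Finset.mem_univ _, (ih m).2 ⟨by simpa using h1, h4⟩⟩, h3⟩

lemma sum_W_succ {M : Type*} [AddCommMonoid M] (n : ℕ) (φ : List (Fin 4) → M) :
    ∑ l ∈ W (n + 1), φ l =
      ∑ l ∈ W n, ∑ j ∈ Finset.univ.filter (fun j => l.head? ≠ some j), φ (j :: l) := by
  rw [W, Finset.sum_image, Finset.sum_filter, Finset.sum_product_right]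
  · refine Finset.sum_congr rfl fun l _ => ?_
    rw [Finset.sum_filter]
  · rintro ⟨a, m⟩ _ ⟨b, t⟩ _ he
    have he' : a :: m = b :: t := he
    rw [List.cons.injEq] at he'
    rw [he'.1, he'.2]

/-- the coefficient of the recursion -/
def rc (n : ℕ) : ℕ := if n = 0 then 4 else 3

private lemma Words_h_sq (j : Fin 4) : h j * h j = 1 := by
  apply LinearIsometryEquiv.ext
  intro x
  rw [LinearIsometryEquiv.coe_mul, Function.comp_apply, h, Submodule.reflection_reflection]
  rfl

private lemma Words_card (n : ℕ) (l : List (Fin 4)) (hl : l ∈ W n) :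
    (Finset.univ.filter (fun j : Fin 4 => l.head? ≠ some j)).card = rc n := by
  obtain ⟨h1, _⟩ := (mem_W n l).1 hl
  cases l with
  | nil =>
    simp only [List.length_nil] at h1
    subst h1
    simp [rc]
  | cons a m =>
    have hn : n ≠ 0 := by
      rintro rfl
      simp at h1
    rw [rc, if_neg hn]
    have h3 : (Finset.univ.filter (fun j : Fin 4 => (a :: m).head? ≠ some j)) =
        Finset.univ.erase a := by
      ext j
      simp [eq_comm]
    rw [h3, Finset.card_erase_of_mem (Finset.mem_univ _)]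
    simp

theorem sum_W_rec {M : Type*} [AddCommMonoid M] (n : ℕ) (φ : O3 → M) :
    ∑ l ∈ W (n + 1), ∑ j, φ (h j * wd l) =
      ∑ l ∈ W (n + 2), φ (wd l) + rc n • ∑ l ∈ W n, φ (wd l) := by
  have h1 : ∀ l : List (Fin 4), ∑ j, φ (h j * wd l) =
      ∑ j ∈ Finset.univ.filter (fun j => l.head? ≠ some j), φ (wd (j :: l)) +
      ∑ j ∈ Finset.univ.filter (fun j => ¬ l.head? ≠ some j), φ (wd (j :: l)) := by
    intro l
    rw [Finset.sum_filter_add_sum_filter_not]
    rfl
  rw [Finset.sum_congr rfl fun l _ => h1 l, Finset.sum_add_distrib,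
    ← sum_W_succ (n + 1) fun l => φ (wd l)]
  congr 1
  rw [sum_W_succ n, Finset.smul_sum]
  refine Finset.sum_congr rfl fun l hl => ?_
  rw [← Words_card n l hl, ← Finset.sum_const]
  refine Finset.sum_congr rfl fun i _ => ?_
  have h2 : (Finset.univ.filter (fun j : Fin 4 => ¬ (i :: l).head? ≠ some j)) = {i} := by
    ext j
    simp [eq_comm]
  rw [h2, Finset.sum_singleton, wd_cons, wd_cons, ← mul_assoc, Words_h_sq, one_mul]

lemma sum_W_one {M : Type*} [AddCommMonoid M] (φ : O3 → M) :
    ∑ l ∈ W 1, φ (wd l) = ∑ j, φ (h j) := by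
  rw [sum_W_succ 0]
  simp [W]

lemma sum_W_zero {M : Type*} [AddCommMonoid M] (φ : O3 → M) :
    ∑ l ∈ W 0, φ (wd l) = φ 1 := by
  simp [W]

end Pool.Agent.MP_f406e2_lc_QD
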