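import Mathlib
import Pool.Agent.Lib.MP_f406e2_lc_QD.Ops
import Pool.Agent.Lib.MP_f406e2_lc_QD.PPoly

/-!
# QD, module OpsP: polynomials in the operator

* `pp_TT`: by strong induction on `n` from the recursion of `pp` and `sum_W_rec` applied to
  `φ g = (UU g).toLinearMap` (`UU (h j * wd l) = UU (wd l) ∘ UU (h j)` by `UU_mul`, so
  `∑_l ∑_j UU (h j * wd l) = (∑_l UU (wd l)) * TT`); `sum_W_one`, `sum_W_zero`, `UU 1 = 1`.
* the other two: `Polynomial.induction_on` / `Module.End` lemmas.
-/

set_option autoImplicit false

noncomputable section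

namespace Pool.Agent.MP_f406e2_lc_QD

open MeasureTheory Polynomial
open scoped InnerProductSpace

private lemma OpsP_TT :
    (TT.toLinearMap : Module.End ℝ L2) = ∑ j, (UU (h j)).toLinearMap := by
  refine LinearMap.ext fun f => ?_
  rw [LinearMap.sum_apply]
  exact TT_apply f

theorem pp_TT (n : ℕ) :
    aeval (TT.toLinearMap : Module.End ℝ L2) (pp n) = ∑ l ∈ W n, (UU (wd l)).toLinearMap := by
  induction n using Nat.strong_induction_on with
  | _ n ih =>
    match n, ih with
    | 0, _ =>
      rw [sum_W_zero (fun g => (UU g).toLinearMap), UU_one]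
      simp only [pp, map_one]
      rfl
    | 1, _ =>
      rw [sum_W_one (fun g => (UU g).toLinearMap), ← OpsP_TT]
      simp only [pp, aeval_X]
    | n + 2, ih =>
      have h1 := ih (n + 1) (by omega)
      have h2 := ih n (by omega)
      have h3 := sum_W_rec n (fun g => ((UU g).toLinearMap : Module.End ℝ L2))
      have h4 : ∑ l ∈ W (n + 1), ∑ j, ((UU (h j * wd l)).toLinearMap : Module.End ℝ L2) =
          (∑ l ∈ W (n + 1), (UU (wd l)).toLinearMap) * (TT.toLinearMap : Module.End ℝ L2) := by
        rw [OpsP_TT, Finset.sum_mul_sum]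
        refine Finset.sum_congr rfl fun l _ => Finset.sum_congr rfl fun j _ => ?_
        refine LinearMap.ext fun f => ?_
        exact UU_mul (h j) (wd l) f
      rw [h4, ← h1, ← h2] at h3
      have h5 : pp (n + 2) = X * pp (n + 1) - C (rc n : ℝ) * pp n := rfl
      rw [h5, map_sub, mul_comm X, map_mul, map_mul, aeval_X, aeval_C, h3]
      rw [← Nat.cast_smul_eq_nsmul ℝ, Algebra.smul_def, add_sub_cancel_right]

/-- polynomials in `TT` are symmetric -/
lemma aeval_TT_symm (p : Polynomial ℝ) (f f' : L2) :
    ⟪aeval (TT.toLinearMap : Module.End ℝ L2) p f, f'⟫_ℝ =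
      ⟪f, aeval (TT.toLinearMap : Module.End ℝ L2) p f'⟫_ℝ := by
  have hs : (TT.toLinearMap : Module.End ℝ L2).IsSymmetric := fun x y => TT_symm x y
  induction p using Polynomial.induction_on' with
  | add p q hp hq =>
    rw [map_add, LinearMap.add_apply, LinearMap.add_apply, inner_add_left, inner_add_right, hp, hq]
  | monomial n a =>
    rw [aeval_monomial]
    rw [← Algebra.smul_def, LinearMap.smul_apply, LinearMap.smul_apply, real_inner_smul_left,
      real_inner_smul_right]
    congr 1
    exact (hs.pow n) f f'

lemma aeval_TT_eigen (p : Polynomial ℝ) (f : L2) (c : ℝ) (hf : TT f = c • f) :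
    aeval (TT.toLinearMap : Module.End ℝ L2) p f = p.eval c • f := by
  have hp : ∀ n : ℕ, ((TT.toLinearMap : Module.End ℝ L2) ^ n) f = c ^ n • f := by
    intro n
    induction n with
    | zero => simp
    | succ n ih =>
      rw [pow_succ', Module.End.mul_apply, ih, map_smul]
      change c ^ n • TT f = _
      rw [hf, smul_smul, pow_succ]
  induction p using Polynomial.induction_on' with
  | add p q hp hq => rw [map_add, LinearMap.add_apply, hp, hq, eval_add, add_smul]
  | monomial n a =>
    rw [aeval_monomial, ← Algebra.smul_def, LinearMap.smul_apply, hp, eval_monomial, smul_smul]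

end Pool.Agent.MP_f406e2_lc_QD
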