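import Mathlib

/-!
# QD, module LinAlg: traces of squares of symmetric operators (independent of the rest)

`trace_sq_le`: the orthogonal complement `K` of `V'` in `V` is invariant under `B` (symmetry),
`V = V' ⊕ K` orthogonally, so `tr(B²|V) = tr(B²|V') + tr(B²|K)`
(`LinearMap.trace_eq_sum_trace_restrict` for the internal direct sum, or compute all three traces
with an orthonormal basis of `V` adapted to the decomposition). For an orthonormal basis `e i` of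
`K`, `tr(B²|K) = ∑ ⟪B² e i, e i⟫ = ∑ ‖B e i‖² ≥ 0` (`LinearMap.trace_eq_sum_inner`). If `f ∈ K`,
`f ≠ 0`, `B f = β f`, take `e 0 = f/‖f‖` (or: `β²` is at most the sum, because
`β² ‖f‖² = ‖B f‖² = ∑ ⟪B f, e i⟫² = ∑ ⟪f, B e i⟫² ≤ ‖f‖² ∑ ‖B e i‖²`; no special basis needed).
-/

set_option autoImplicit false

noncomputable section

namespace Pool.Agent.MP_f406e2_lc_QD

open scoped InnerProductSpace

variable {H : Type*} [NormedAddCommGroup H] [InnerProductSpace ℝ H]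

/-- the trace of `B` on an invariant subspace -/
def trOn (V : Submodule ℝ H) (B : H →ₗ[ℝ] H) (hV : ∀ x ∈ V, B x ∈ V) : ℝ :=
  LinearMap.trace ℝ V (B.restrict hV)

private theorem LinAlg_key (V V' : Submodule ℝ H) [FiniteDimensional ℝ V] (hle : V' ≤ V)
    (B : H →ₗ[ℝ] H) (hsym : ∀ x y, ⟪B x, y⟫_ℝ = ⟪x, B y⟫_ℝ) (hV : ∀ x ∈ V, B x ∈ V)
    (hV' : ∀ x ∈ V', B x ∈ V') :
    ∃ q : Fin (Module.finrank ℝ V) → H, (∀ i, q i ∈ V') ∧
      (∀ i, ∀ x ∈ V', ⟪((stdOrthonormalBasis ℝ V i : V) : H) - q i, x⟫_ℝ = 0) ∧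
      trOn V (B * B) (fun x hx => hV _ (hV x hx)) =
        trOn V' (B * B) (fun x hx => hV' _ (hV' x hx)) +
          ∑ i, ‖B (((stdOrthonormalBasis ℝ V i : V) : H) - q i)‖ ^ 2 := by
  have : FiniteDimensional ℝ V' := Submodule.finiteDimensional_of_le hle
  let R : V →ₗ[ℝ] V := (B * B).restrict (fun x hx => hV _ (hV x hx))
  let R' : V' →ₗ[ℝ] V' := (B * B).restrict (fun x hx => hV' _ (hV' x hx))
  let P : V →ₗ[ℝ] V' := V'.orthogonalProjectionOnto.toLinearMap ∘ₗ V.subtype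
  let j : V' →ₗ[ℝ] V := Submodule.inclusion hle
  have hPj : ∀ x : V', P (j x) = x := fun x =>
    Submodule.orthogonalProjectionOnto_mem_subspace_eq_self x
  have h1 : R ∘ₗ j = j ∘ₗ R' := by
    ext x
    rfl
  have h2 : LinearMap.trace ℝ V' R' = LinearMap.trace ℝ V (R ∘ₗ j ∘ₗ P) := by
    rw [← LinearMap.comp_assoc, h1, LinearMap.comp_assoc, LinearMap.trace_comp_comm']
    congr 1
    ext x
    rw [LinearMap.comp_assoc, LinearMap.comp_apply, LinearMap.comp_apply, hPj]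
  have hperp : ∀ (v : V), ∀ x ∈ V', ⟪(v : H) - (P v : H), x⟫_ℝ = 0 := by
    intro v x hx
    exact Submodule.starProjection_inner_eq_zero (v : H) x hx
  refine ⟨fun i => (P (stdOrthonormalBasis ℝ V i) : H), fun i => (P _).2,
    fun i x hx => hperp _ x hx, ?_⟩
  change LinearMap.trace ℝ V R = LinearMap.trace ℝ V' R' + _
  rw [h2, LinearMap.trace_eq_sum_inner R (stdOrthonormalBasis ℝ V),
    LinearMap.trace_eq_sum_inner (R ∘ₗ j ∘ₗ P) (stdOrthonormalBasis ℝ V),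
    ← Finset.sum_add_distrib]
  refine Finset.sum_congr rfl fun i _ => ?_
  obtain ⟨e, he⟩ : ∃ e, e = stdOrthonormalBasis ℝ V i := ⟨_, rfl⟩
  beta_reduce
  rw [← he]
  change ⟪(e : H), B (B (e : H))⟫_ℝ = ⟪(e : H), B (B (P e : H))⟫_ℝ + ‖B ((e : H) - (P e : H))‖ ^ 2
  rw [← real_inner_self_eq_norm_sq, hsym]
  have h3 : ⟪(e : H) - (P e : H), B (B (P e : H))⟫_ℝ = 0 :=
    hperp e _ (hV' _ (hV' _ (P e).2))
  have h4 : ⟪(P e : H), B (B ((e : H) - (P e : H)))⟫_ℝ = 0 := by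
    rw [← hsym, ← hsym, real_inner_comm]
    exact hperp e _ (hV' _ (hV' _ (P e).2))
  rw [inner_sub_left, h4, sub_zero, map_sub, map_sub, inner_sub_right]
  ring

theorem trace_sq_nonneg (V V' : Submodule ℝ H) [FiniteDimensional ℝ V] (hle : V' ≤ V)
    (B : H →ₗ[ℝ] H) (hsym : ∀ x y, ⟪B x, y⟫_ℝ = ⟪x, B y⟫_ℝ) (hV : ∀ x ∈ V, B x ∈ V)
    (hV' : ∀ x ∈ V', B x ∈ V') :
    trOn V' (B * B) (fun x hx => hV' _ (hV' x hx)) ≤
      trOn V (B * B) (fun x hx => hV _ (hV x hx)) := by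
  obtain ⟨q, _, _, h⟩ := LinAlg_key V V' hle B hsym hV hV'
  rw [h]
  exact le_add_of_nonneg_right (Finset.sum_nonneg fun i _ => by positivity)

theorem trace_sq_le (V V' : Submodule ℝ H) [FiniteDimensional ℝ V] (hle : V' ≤ V)
    (B : H →ₗ[ℝ] H) (hsym : ∀ x y, ⟪B x, y⟫_ℝ = ⟪x, B y⟫_ℝ) (hV : ∀ x ∈ V, B x ∈ V)
    (hV' : ∀ x ∈ V', B x ∈ V') (f : H) (hf : f ∈ V) (hf0 : f ≠ 0)
    (hperp : ∀ x ∈ V', ⟪f, x⟫_ℝ = 0) (β : ℝ) (hβ : B f = β • f) :
    β ^ 2 + trOn V' (B * B) (fun x hx => hV' _ (hV' x hx)) ≤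
      trOn V (B * B) (fun x hx => hV _ (hV x hx)) := by
  obtain ⟨q, hq, hp, h⟩ := LinAlg_key V V' hle B hsym hV hV'
  rw [h, add_comm]
  refine add_le_add le_rfl ?_
  have hf1 : 0 < ‖f‖ ^ 2 := by
    have := norm_pos_iff.2 hf0
    positivity
  have h1 : ∀ i, (β * ⟪((stdOrthonormalBasis ℝ V i : V) : H), f⟫_ℝ) ^ 2 ≤
      ‖B (((stdOrthonormalBasis ℝ V i : V) : H) - q i)‖ ^ 2 * ‖f‖ ^ 2 := by
    intro i
    have h2 : β * ⟪((stdOrthonormalBasis ℝ V i : V) : H), f⟫_ℝ =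
        ⟪B (((stdOrthonormalBasis ℝ V i : V) : H) - q i), f⟫_ℝ := by
      rw [hsym, hβ, inner_smul_right, inner_sub_left, real_inner_comm f (q i),
        hperp _ (hq i), sub_zero]
    rw [h2, ← mul_pow, ← sq_abs]
    exact pow_le_pow_left₀ (abs_nonneg _) (abs_real_inner_le_norm _ _) 2
  have h3 : ∑ i, ⟪((stdOrthonormalBasis ℝ V i : V) : H), f⟫_ℝ ^ 2 = ‖f‖ ^ 2 := by
    have h4 := (stdOrthonormalBasis ℝ V).sum_sq_norm_inner_right (⟨f, hf⟩ : V)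
    have h5 : ‖(⟨f, hf⟩ : V)‖ = ‖f‖ := rfl
    rw [h5] at h4
    rw [← h4]
    refine Finset.sum_congr rfl fun i _ => ?_
    rw [Real.norm_eq_abs, sq_abs]
    rfl
  have h6 : β ^ 2 * ‖f‖ ^ 2 ≤
      (∑ i, ‖B (((stdOrthonormalBasis ℝ V i : V) : H) - q i)‖ ^ 2) * ‖f‖ ^ 2 := by
    rw [← h3, Finset.mul_sum, h3, Finset.sum_mul]
    refine Finset.sum_le_sum fun i _ => ?_
    rw [← mul_pow]
    exact h1 i
  exact le_of_mul_le_mul_right h6 hf1

end Pool.Agent.MP_f406e2_lc_QD
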