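import Mathlib
import Pool.Agent.Lib.MP_f406e2_lc_QD.Ops
import Pool.Agent.Lib.MP_f406e2_lc_QD.TrH

/-!
# QD, module PolyL: polynomials in `L²` of the sphere

* `toL_coe`: `ContinuousMap.coeFn_toLp`.
* `UU_toL`: both sides are the class of `x ↦ p (g x)` (`eval_subst`, `ev_apply`,
  `(mat g).mulVec x = g x`, `mat_mulVec`).
* `toL_inj`: a form which vanishes a.e. on the sphere vanishes on the sphere (continuity,
  `instOpenPos`), hence everywhere by homogeneity, hence is zero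
  (`MvPolynomial.funext`).
* `VH_le`: multiply by `X 0 ^ 2 + X 1 ^ 2 + X 2 ^ 2`, which is `1` on the sphere.
* `VH_inv`: `UU_toL`, `subst_homog`.
-/

set_option autoImplicit false

noncomputable section

namespace Pool.Agent.MP_f406e2_lc_QD

open MeasureTheory MvPolynomial Pool.Agent.MP_f406e2_lc_SP
open scoped InnerProductSpace

/-- the class of a polynomial -/
def toL : MvPolynomial (Fin 3) ℝ →ₗ[ℝ] L2 :=
  (ContinuousMap.toLp (E := ℝ) 2 nu ℝ).toLinearMap ∘ₗ (ev 3).toLinearMap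

lemma toL_coe (p : MvPolynomial (Fin 3) ℝ) : toL p =ᵐ[nu] fun x => ev 3 p x := by
  exact ContinuousMap.coeFn_toLp nu (ev 3 p)

/-- the classes of the forms of degree `n` -/
def VH (n : ℕ) : Submodule ℝ L2 := (homogeneousSubmodule (Fin 3) ℝ n).map toL

/-- the classes of the polynomials of degree at most `n` -/
def PP (n : ℕ) : Submodule ℝ L2 := (restrictTotalDegree (Fin 3) ℝ n).map toL

instance instFinVH (n : ℕ) : FiniteDimensional ℝ (VH n) := by
  have h1 : FiniteDimensional ℝ (homogeneousSubmodule (Fin 3) ℝ n) :=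
    Module.Finite.iff_fg.2 (homogeneousSubmodule_fg (σ := Fin 3) ℝ n)
  unfold VH
  infer_instance

instance instFinPP (n : ℕ) : FiniteDimensional ℝ (PP n) := by
  unfold PP
  infer_instance

lemma UU_toL (g : O3) (p : MvPolynomial (Fin 3) ℝ) : UU g (toL p) = toL (subst (mat g) p) := by
  apply Lp.ext
  filter_upwards [UU_coe g (toL p), (mp g).quasiMeasurePreserving.ae (toL_coe p),
    toL_coe (subst (mat g) p)] with x h1 h2 h3
  rw [h1, h3, h2, ev_apply, ev_apply, eval_subst]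
  have h4 := mat_mulVec g x.1
  have h5 : (fun j => x.1 j) = x.1.ofLp := rfl
  rw [h5, h4]
  rfl

/-- a form of degree `n` at a multiple -/
private lemma PolyL_smul (n : ℕ) (p : MvPolynomial (Fin 3) ℝ)
    (hp : p ∈ homogeneousSubmodule (Fin 3) ℝ n) (c : ℝ) (x : Fin 3 → ℝ) :
    eval (c • x) p = c ^ n * eval x p := by
  have hp' : p.IsHomogeneous n := hp
  rw [eval_eq, eval_eq, Finset.mul_sum]
  refine Finset.sum_congr rfl fun d hd => ?_
  have h1 : (∏ i ∈ d.support, (c • x) i ^ d i) = c ^ n * ∏ i ∈ d.support, x i ^ d i := by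
    have h2 : ∀ i, (c • x) i ^ d i = c ^ d i * x i ^ d i := by
      intro i
      rw [Pi.smul_apply, smul_eq_mul, mul_pow]
    simp only [h2]
    rw [Finset.prod_mul_distrib, Finset.prod_pow_eq_pow_sum]
    congr 2
    have h3 := hp'.degree_eq_sum_deg_support hd
    rw [h3]
  rw [h1]
  ring

lemma toL_inj (n : ℕ) (p : MvPolynomial (Fin 3) ℝ) (hp : p ∈ homogeneousSubmodule (Fin 3) ℝ n)
    (h0 : toL p = 0) : p = 0 := by
  have h1 : ev 3 p = 0 := by
    apply ContinuousMap.toLp_injective (E := ℝ) (p := 2) (𝕜 := ℝ) nu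
    rw [map_zero]
    exact h0
  have h2 : ∀ y : S2, eval (fun j => y.1 j) p = 0 := by
    intro y
    rw [← ev_apply, h1]
    rfl
  apply MvPolynomial.funext
  intro x
  rw [map_zero]
  by_cases hx : x = 0
  · have h3 := PolyL_smul n p hp 0 (EuclideanSpace.single (0 : Fin 3) (1 : ℝ)).ofLp
    have h4 := h2 ⟨EuclideanSpace.single (0 : Fin 3) (1 : ℝ), by simp⟩
    rw [zero_smul] at h3
    rw [hx, h3]
    have h5 : eval (EuclideanSpace.single (0 : Fin 3) (1 : ℝ)).ofLp p = 0 := h4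
    rw [h5, mul_zero]
  · have hne : (WithLp.toLp 2 x : E3) ≠ 0 := by
      intro h
      apply hx
      have := congrArg WithLp.ofLp h
      simpa using this
    have hn : ‖(WithLp.toLp 2 x : E3)‖ ≠ 0 := norm_ne_zero_iff.2 hne
    set c : ℝ := ‖(WithLp.toLp 2 x : E3)‖ with hc
    have h4 := h2 ⟨c⁻¹ • (WithLp.toLp 2 x : E3), by
      rw [mem_sphere_zero_iff_norm, norm_smul, norm_inv, norm_norm]
      exact inv_mul_cancel₀ hn⟩
    have h5 : eval (c⁻¹ • x) p = 0 := h4
    have h3 := PolyL_smul n p hp c (c⁻¹ • x)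
    rw [smul_smul, mul_inv_cancel₀ hn, one_smul] at h3
    rw [h3, h5, mul_zero]

lemma VH_le (n : ℕ) : VH n ≤ VH (n + 2) := by
  rintro _ ⟨p, hp, rfl⟩
  refine ⟨p * (X 0 ^ 2 + X 1 ^ 2 + X 2 ^ 2), ?_, ?_⟩
  · have h1 : p.IsHomogeneous n := hp
    have h2 : (X 0 ^ 2 + X 1 ^ 2 + X 2 ^ 2 : MvPolynomial (Fin 3) ℝ).IsHomogeneous 2 :=
      ((isHomogeneous_X_pow 0 2).add (isHomogeneous_X_pow 1 2)).add (isHomogeneous_X_pow 2 2)
    exact h1.mul h2
  · have h1 : ev 3 (p * (X 0 ^ 2 + X 1 ^ 2 + X 2 ^ 2)) = ev 3 p := by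
      ext x
      rw [ev_apply, ev_apply, map_mul]
      have h2 : eval (fun j => x.1 j) (X 0 ^ 2 + X 1 ^ 2 + X 2 ^ 2 : MvPolynomial (Fin 3) ℝ) =
          1 := by
        simp only [map_add, map_pow, eval_X]
        have h3 := x.2
        rw [mem_sphere_zero_iff_norm] at h3
        have h4 := EuclideanSpace.norm_sq_eq x.1
        rw [h3, Fin.sum_univ_three] at h4
        simp only [Real.norm_eq_abs, sq_abs] at h4
        linarith
      rw [h2, mul_one]
    show (ContinuousMap.toLp (E := ℝ) 2 nu ℝ) (ev 3 (p * (X 0 ^ 2 + X 1 ^ 2 + X 2 ^ 2))) =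
      (ContinuousMap.toLp (E := ℝ) 2 nu ℝ) (ev 3 p)
    rw [h1]

lemma VH_inv (n : ℕ) (g : O3) (f : L2) (hf : f ∈ VH n) : UU g f ∈ VH n := by
  obtain ⟨p, hp, rfl⟩ := hf
  rw [UU_toL]
  exact ⟨_, subst_homog _ n p hp, rfl⟩

end Pool.Agent.MP_f406e2_lc_QD
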