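import Mathlib
import Pool.Agent.Lib.MP_f406e2_lc_QD.PolyL
import Pool.Agent.Lib.MP_f406e2_lc_QD.TrHB
import Pool.Agent.Lib.MP_f406e2_lc_QD.LinAlg

/-!
# QD, module PolyT: traces on the forms

Transport `trace_eq` by the linear equivalence between the forms of degree `n` and `VH n` given by
`toL` (`toL_inj`, `UU_toL`); `LinearMap.trace_conj'`.
-/

set_option autoImplicit false

noncomputable section

namespace Pool.Agent.MP_f406e2_lc_QD

open MeasureTheory MvPolynomial Pool.Agent.MP_f406e2_lc_SP

/-- the forms of degree `n` and their classes -/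
private def PolyT_e (n : ℕ) : homogeneousSubmodule (Fin 3) ℝ n ≃ₗ[ℝ] VH n :=
  LinearEquiv.ofBijective
    (toL.restrict (p := homogeneousSubmodule (Fin 3) ℝ n) (q := VH n)
      (fun p hp => Submodule.mem_map_of_mem hp)) (by
    constructor
    · rw [← LinearMap.ker_eq_bot, LinearMap.ker_eq_bot']
      rintro ⟨p, hp⟩ h0
      have h1 : toL p = 0 := congrArg Subtype.val h0
      exact Subtype.ext (toL_inj n p hp h1)
    · rintro ⟨f, p, hp, rfl⟩
      exact ⟨⟨p, hp⟩, rfl⟩)

theorem trOn_UU (n : ℕ) (g : O3) :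
    trOn (VH n) (UU g).toLinearMap (fun f hf => VH_inv n g f hf) = trH n (mat g) := by
  rw [← trace_eq, ← LinearMap.trace_conj' _ (PolyT_e n), trOn]
  congr 1
  apply LinearMap.ext
  intro f
  obtain ⟨p, rfl⟩ := (PolyT_e n).surjective f
  rw [LinearEquiv.conj_apply_apply, LinearEquiv.symm_apply_apply]
  apply Subtype.ext
  exact UU_toL g p.1

end Pool.Agent.MP_f406e2_lc_QD
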