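import Mathlib
import Pool.Agent.Lib.MP_f406e2_lc_QD.PPoly

/-!
# QD, module PGrow: growth of the polynomials outside the spectrum of the tree

For `λ ≥ 79/20` put `τ = 29/10`; then `τ + 3/τ ≤ λ`, `pp 1 = λ ≥ τ`,
`pp 2 = λ² - 4 ≥ τ λ` (since `λ (λ - τ) ≥ (τ + 3/τ)(3/τ) = 3 + 9/τ² ≥ 4`), and
`pp (n+1) = λ pp n - 3 pp (n-1) ≥ (λ - 3/τ) pp n ≥ τ pp n`. For negative `λ` use
`pp n (-λ) = (-1)^n pp n (λ)`.
-/

set_option autoImplicit false

noncomputable section

namespace Pool.Agent.MP_f406e2_lc_QD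

open Polynomial

private lemma pGrow_rc (n : ℕ) : (rc (n + 1) : ℝ) = 3 := by
  simp [rc]

private lemma pGrow_step (x : ℝ) (n : ℕ) :
    (pp (n + 3)).eval x = x * (pp (n + 2)).eval x - 3 * (pp (n + 1)).eval x := by
  rw [show n + 3 = (n + 1) + 2 from rfl, pp]
  simp [pGrow_rc]

private lemma pGrow_two (x : ℝ) : (pp 2).eval x = x ^ 2 - 4 := by
  change (pp (0 + 2)).eval x = x ^ 2 - 4
  simp [pp, rc]
  ring

private lemma pGrow_pos (x : ℝ) (hx : 79 / 20 ≤ x) (n : ℕ) :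
    0 < (pp (n + 1)).eval x ∧ 29 / 10 * (pp (n + 1)).eval x ≤ (pp (n + 2)).eval x := by
  induction n with
  | zero =>
    rw [show (0 + 2 : ℕ) = 2 from rfl, pGrow_two]
    simp only [pp, eval_X]
    constructor <;> nlinarith
  | succ n ih =>
    obtain ⟨h1, h2⟩ := ih
    have h3 : 0 < (pp (n + 2)).eval x := by nlinarith
    refine ⟨h3, ?_⟩
    rw [show n + 1 + 2 = n + 3 from rfl, pGrow_step, show n + 1 + 1 = n + 2 from rfl]
    nlinarith [mul_nonneg (sub_nonneg.2 hx) h3.le]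

private lemma pGrow_real (x : ℝ) (hx : 79 / 20 ≤ x) (n : ℕ) :
    (29 / 10 : ℝ) ^ n ≤ (pp n).eval x := by
  induction n with
  | zero => simp [pp]
  | succ n ih =>
    rcases n with _ | n
    · simp only [pp, eval_X]
      linarith
    · rw [pow_succ]
      have := (pGrow_pos x hx n).2
      rw [show n + 1 + 1 = n + 2 from rfl]
      linarith

private lemma pGrow_neg (x : ℝ) (n : ℕ) :
    (pp n).eval (-x) = (-1) ^ n * (pp n).eval x ∧
    (pp (n + 1)).eval (-x) = (-1) ^ (n + 1) * (pp (n + 1)).eval x := by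
  induction n with
  | zero => simp [pp]
  | succ n ih =>
    refine ⟨ih.2, ?_⟩
    rw [show n + 1 + 1 = n + 2 from rfl, pp]
    simp only [eval_sub, eval_mul, eval_X, eval_C, ih.1, ih.2]
    ring

theorem pp_growth (x : ℝ) (hx : 79 / 20 ≤ |x|) (n : ℕ) :
    (29 / 10 : ℝ) ^ n ≤ |(pp n).eval x| := by
  rcases abs_cases x with ⟨h, _⟩ | ⟨h, _⟩
  · rw [h] at hx
    exact (pGrow_real x hx n).trans (le_abs_self _)
  · rw [h] at hx
    have h1 := (pGrow_neg (-x) n).1
    rw [neg_neg] at h1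
    rw [h1, abs_mul, abs_pow, abs_neg, abs_one, one_pow, one_mul]
    exact (pGrow_real (-x) hx n).trans (le_abs_self _)

end Pool.Agent.MP_f406e2_lc_QD
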