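import Mathlib
import Pool.Agent.Lib.MP_f406e2_lc_QD.Quat

/-!
# QD, module QInj: injectivity of the quaternions of the reduced words

* `qw_inj`: if `qw l = ± qw l'` then `rot (qw l) = rot (qw l')`, taking norms the lengths agree,
  so `wd l = wd l'`, and the reduced words are equal by `red_unique` (with `f = f' = 1`).
* `qw_im`: for a nonempty reduced word the vector part of `qw l` is not zero: otherwise
  `rot (qw l) x = a² x` and `a² = 3 ^ n`, so `wd l = 1`, contradiction to `faithful`.
-/

set_option autoImplicit false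

noncomputable section

namespace Pool.Agent.MP_f406e2_lc_QD

open scoped InnerProductSpace Quaternion

private theorem QInj_imv_neg (q : ℍ[ℤ]) : imv (-q) = - imv q := by
  ext i
  fin_cases i <;> simp [imv]

private theorem QInj_cr_neg (v w : E3) : cr (-v) w = - cr v w := by
  ext i
  fin_cases i <;> simp [cr] <;> ring

private theorem QInj_rot_neg (q : ℍ[ℤ]) (x : E3) : rot (-q) x = rot q x := by
  unfold rot
  rw [QInj_imv_neg, QInj_cr_neg, norm_neg, inner_neg_left, Quaternion.re_neg]
  push_cast
  module

private theorem QInj_wd {l l' : List (Fin 4)} (hn : l.length = l'.length)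
    (h : ∀ x, rot (qw l) x = rot (qw l') x) : wd l = wd l' := by
  apply LinearIsometryEquiv.ext
  intro x
  have h1 := h x
  rw [rot_qw, rot_qw, hn] at h1
  exact smul_right_injective E3 (pow_ne_zero _ (by norm_num : (3 : ℝ) ≠ 0)) h1

theorem qw_inj (l l' : List (Fin 4)) (hl : Red l) (hl' : Red l')
    (hq : qw l = qw l' ∨ qw l = - qw l') : l = l' := by
  have hn : l.length = l'.length := by
    have h1 : Quaternion.normSq (qw l) = Quaternion.normSq (qw l') := by
      rcases hq with h | h
      · rw [h]
      · rw [h, Quaternion.normSq_neg]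
    rw [normSq_qw, normSq_qw] at h1
    exact Int.pow_right_injective (by norm_num) h1
  have hr : ∀ x, rot (qw l) x = rot (qw l') x := by
    intro x
    rcases hq with h | h
    · rw [h]
    · rw [h, QInj_rot_neg]
  exact (red_unique 1 1 l l' hl hl' (by rw [QInj_wd hn hr])).2

theorem qw_im (l : List (Fin 4)) (hl : Red l) (hne : l ≠ []) :
    ¬ ((qw l).imI = 0 ∧ (qw l).imJ = 0 ∧ (qw l).imK = 0) := by
  rintro ⟨h1, h2, h3⟩
  have h4 := normSq_qw l
  rw [Quaternion.normSq_def', h1, h2, h3] at h4
  have h5 : ((qw l).re : ℝ) ^ 2 = 3 ^ l.length := by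
    have h6 : ((qw l).re) ^ 2 = 3 ^ l.length := by linarith
    exact_mod_cast h6
  have h6 : imv (qw l) = 0 := by
    ext i
    fin_cases i <;> simp [imv, h1, h2, h3]
  have h7 : ∀ x, rot (qw l) x = (3 : ℝ) ^ l.length • x := by
    intro x
    have h8 : cr (0 : E3) x = 0 := by
      ext i
      fin_cases i <;> simp [cr]
    unfold rot
    rw [h6, h5, h8, norm_zero, inner_zero_left]
    simp
  have h8 : wd l = 1 := by
    apply LinearIsometryEquiv.ext
    intro x
    have h9 := h7 x
    rw [rot_qw] at h9
    exact smul_right_injective E3 (pow_ne_zero _ (by norm_num : (3 : ℝ) ≠ 0)) h9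
  exact hne (faithful 1 l hl (by rw [h8, map_one, one_mul])).2

end Pool.Agent.MP_f406e2_lc_QD
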