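import Mathlib

/-!
# QD, module Circle: lattice points on a circle (elementary, independent of the rest)

A circle `x² + y² = n` (`n ≥ 1`, `R = √n`) carries at most `30 n^(1/3)` lattice points.

Proof. It is enough to bound by `5.6 n^(1/3)` the number of the points in each of the four parts
`|x| ≤ y`, `|x| ≤ -y`, `|y| ≤ x`, `|y| ≤ -x` (symmetry: the maps `(x,y) ↦ (x,-y), (y,x), (y,-x)`
...). Take `|x| ≤ y`, so `y ≥ R/√2` and `|x| ≤ R/√2`. Let `x₁ < x₂ < x₃` belong to three points of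
this part (different points have different `x`). The integer
`D = (x₂-x₁)(y₃-y₁) - (x₃-x₁)(y₂-y₁)` is not zero (three points of a circle are not collinear),
so `|D| ≥ 1`. From `(y_k-y₁)(y_k+y₁) = -(x_k-x₁)(x_k+x₁)`:
`D (y₃+y₁)(y₂+y₁) = (x₂-x₁)(x₃-x₁) [ (x₂+x₁)(y₃+y₁) - (x₃+x₁)(y₂+y₁) ]` and the bracket is
`(x₂-x₃)(y₂+y₁) + (x₂+x₁)(y₃-y₂)`, of absolute value at most
`L·2R + √2 R·L ≤ 4 R L` with `L = x₃ - x₁` (`|y₃-y₂| ≤ |x₃-x₂|` since `|x₃+x₂| ≤ y₃+y₂`), and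
`(y₃+y₁)(y₂+y₁) ≥ 2 R²`. Hence `1 ≤ |D| ≤ L² · 4RL/(2R²) = 2 L³/R`, i.e. `L³ ≥ R/2`.
So every half-open interval of length `M = (R/2)^(1/3)` contains at most two values of `x`, and
`[-R/√2, R/√2]` is covered by at most `√2 R / M + 1` of them: at most
`2 (√2 R/M + 1) = 2√2·2^(1/3) R^(2/3) + 2 ≤ 5.6 n^(1/3)` points. (Constants are generous: `30`.)
(Counting: e.g. map a point to `⌊x/M⌋`; the fibres have at most 2 elements,
`Finset.card_le_mul_card_image`.)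
-/

set_option autoImplicit false

namespace Pool.Agent.MP_f406e2_lc_QD

private theorem Circle_area {x1 y1 x2 y2 x3 y3 n : ℤ} (h1 : x1 ^ 2 + y1 ^ 2 = n)
    (h2 : x2 ^ 2 + y2 ^ 2 = n) (h3 : x3 ^ 2 + y3 ^ 2 = n) :
    4 * n * ((x2 - x1) * (y3 - y1) - (x3 - x1) * (y2 - y1)) ^ 2 =
      ((x2 - x1) ^ 2 + (y2 - y1) ^ 2) * ((x3 - x1) ^ 2 + (y3 - y1) ^ 2) *
        ((x3 - x2) ^ 2 + (y3 - y2) ^ 2) := by
  obtain ⟨D, hD⟩ : ∃ D, D = (x2 - x1) * (y3 - y1) - (x3 - x1) * (y2 - y1) := ⟨_, rfl⟩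
  obtain ⟨A, hA⟩ : ∃ A, A = (x2 - x1) ^ 2 + (y2 - y1) ^ 2 := ⟨_, rfl⟩
  obtain ⟨B, hB⟩ : ∃ B, B = (x3 - x1) ^ 2 + (y3 - y1) ^ 2 := ⟨_, rfl⟩
  have r2 : 2 * x1 * (x2 - x1) + 2 * y1 * (y2 - y1) = -A := by
    rw [hA]
    linear_combination h2 - h1
  have r3 : 2 * x1 * (x3 - x1) + 2 * y1 * (y3 - y1) = -B := by
    rw [hB]
    linear_combination h3 - h1
  have e1 : 2 * x1 * D = B * (y2 - y1) - A * (y3 - y1) := by
    rw [hD]
    linear_combination (y3 - y1) * r2 - (y2 - y1) * r3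
  have e2 : 2 * y1 * D = A * (x3 - x1) - B * (x2 - x1) := by
    rw [hD]
    linear_combination (x2 - x1) * r3 - (x3 - x1) * r2
  have e3 : 4 * n * D ^ 2 = (B * (y2 - y1) - A * (y3 - y1)) ^ 2
      + (A * (x3 - x1) - B * (x2 - x1)) ^ 2 := by
    rw [← e1, ← e2]
    linear_combination (-4 * D ^ 2) * h1
  rw [← hD, ← hA, ← hB, e3]
  have e4 : (x3 - x2) ^ 2 + (y3 - y2) ^ 2
      = A + B - 2 * ((x2 - x1) * (x3 - x1) + (y2 - y1) * (y3 - y1)) := by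
    rw [hA, hB]
    ring
  rw [e4]
  linear_combination (-(B ^ 2)) * hA + (-(A ^ 2)) * hB

private theorem Circle_slope {x1 y1 x2 y2 n : ℤ} (hn : 1 ≤ n) (h1 : x1 ^ 2 + y1 ^ 2 = n)
    (h2 : x2 ^ 2 + y2 ^ 2 = n) (a1 : |x1| ≤ y1) (a2 : |x2| ≤ y2) :
    (y2 - y1) ^ 2 ≤ (x2 - x1) ^ 2 := by
  have b1 := abs_le.1 a1
  have b2 := abs_le.1 a2
  have hy1 : 0 ≤ y1 := (abs_nonneg _).trans a1
  have hy2 : 0 ≤ y2 := (abs_nonneg _).trans a2
  have hy : 0 < y1 := by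
    rcases hy1.eq_or_lt with h | h
    · exfalso
      have hx : x1 = 0 := by
        have := b1.1
        have := b1.2
        omega
      rw [hx, ← h] at h1
      omega
    · exact h
  have hs : 0 < y2 + y1 := by omega
  have e : (y2 - y1) ^ 2 * (y2 + y1) ^ 2 = (x2 - x1) ^ 2 * (x2 + x1) ^ 2 := by
    have e0 : (y2 - y1) * (y2 + y1) = -((x2 - x1) * (x2 + x1)) := by
      linear_combination h2 - h1
    have e5 : ((y2 - y1) * (y2 + y1)) ^ 2 = (-((x2 - x1) * (x2 + x1))) ^ 2 := by rw [e0]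
    linear_combination e5
  have f : (x2 + x1) ^ 2 ≤ (y2 + y1) ^ 2 := by
    apply sq_le_sq'
    · linarith [b1.1, b2.1]
    · linarith [b1.2, b2.2]
  have g : (y2 - y1) ^ 2 * (y2 + y1) ^ 2 ≤ (x2 - x1) ^ 2 * (y2 + y1) ^ 2 := by
    rw [e]
    exact mul_le_mul_of_nonneg_left f (sq_nonneg _)
  exact le_of_mul_le_mul_right g (by positivity)

private theorem Circle_inj {x1 y1 x2 y2 n : ℤ} (h1 : x1 ^ 2 + y1 ^ 2 = n)
    (h2 : x2 ^ 2 + y2 ^ 2 = n) (a1 : |x1| ≤ y1) (a2 : |x2| ≤ y2) (hx : x1 = x2) : y1 = y2 := by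
  have hy1 : 0 ≤ y1 := (abs_nonneg _).trans a1
  have hy2 : 0 ≤ y2 := (abs_nonneg _).trans a2
  rw [hx] at h1
  have : y1 ^ 2 = y2 ^ 2 := by linarith
  exact (sq_eq_sq₀ hy1 hy2).1 this

private theorem Circle_three {x1 y1 x2 y2 x3 y3 n : ℤ} (hn : 1 ≤ n) (h1 : x1 ^ 2 + y1 ^ 2 = n)
    (h2 : x2 ^ 2 + y2 ^ 2 = n) (h3 : x3 ^ 2 + y3 ^ 2 = n) (a1 : |x1| ≤ y1) (a2 : |x2| ≤ y2)
    (a3 : |x3| ≤ y3) (h12 : x1 ≠ x2) (h13 : x1 ≠ x3) (h23 : x2 ≠ x3) :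
    4 * n ≤ 8 * ((x2 - x1) ^ 2 * (x3 - x1) ^ 2 * (x3 - x2) ^ 2) := by
  have hA := Circle_area h1 h2 h3
  have s12 := Circle_slope hn h1 h2 a1 a2
  have s13 := Circle_slope hn h1 h3 a1 a3
  have s23 := Circle_slope hn h2 h3 a2 a3
  have p12 : 0 < (x2 - x1) ^ 2 := by
    have : x2 - x1 ≠ 0 := sub_ne_zero.2 h12.symm
    positivity
  have p13 : 0 < (x3 - x1) ^ 2 := by
    have : x3 - x1 ≠ 0 := sub_ne_zero.2 h13.symm
    positivity
  have p23 : 0 < (x3 - x2) ^ 2 := by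
    have : x3 - x2 ≠ 0 := sub_ne_zero.2 h23.symm
    positivity
  obtain ⟨D, hD⟩ : ∃ D, D = (x2 - x1) * (y3 - y1) - (x3 - x1) * (y2 - y1) := ⟨_, rfl⟩
  rw [← hD] at hA
  have hpos : 0 < ((x2 - x1) ^ 2 + (y2 - y1) ^ 2) * ((x3 - x1) ^ 2 + (y3 - y1) ^ 2) *
        ((x3 - x2) ^ 2 + (y3 - y2) ^ 2) := by positivity
  have hD1 : 1 ≤ D ^ 2 := by
    have hne : D ≠ 0 := by
      intro h0
      rw [h0] at hA
      rw [← hA] at hpos
      simp at hpos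
    have : 0 < D ^ 2 := by positivity
    omega
  calc 4 * n ≤ 4 * n * D ^ 2 := by nlinarith
    _ = _ := hA
    _ ≤ (2 * (x2 - x1) ^ 2) * (2 * (x3 - x1) ^ 2) * (2 * (x3 - x2) ^ 2) := by
        apply mul_le_mul
        · apply mul_le_mul
          · linarith
          · linarith
          · positivity
          · positivity
        · linarith
        · positivity
        · positivity
    _ = 8 * ((x2 - x1) ^ 2 * (x3 - x1) ^ 2 * (x3 - x2) ^ 2) := by ring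

private theorem Circle_part {n : ℕ} (hn : 1 ≤ n) {t : ℝ} (ht : 1 ≤ t) (ht6 : t ^ 6 = n)
    (Q : Finset (ℤ × ℤ)) (hQ : ∀ p ∈ Q, p.1 ^ 2 + p.2 ^ 2 = (n : ℤ) ∧ |p.1| ≤ p.2) :
    (Q.card : ℝ) ≤ 7 * t ^ 2 := by
  have ht0 : 0 < t := by linarith
  set M : ℝ := 4 / 5 * t with hM
  have hM0 : 0 < M := by positivity
  set f : ℤ × ℤ → ℕ := fun p => ⌊((p.1 : ℝ) + t ^ 3) / M⌋₊ with hf
  have hx : ∀ p ∈ Q, 0 ≤ ((p.1 : ℝ) + t ^ 3) / M ∧ ((p.1 : ℝ) + t ^ 3) / M ≤ 5 / 2 * t ^ 2 := by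
    intro p hp
    have h := (hQ p hp).1
    have h1 : (p.1 : ℝ) ^ 2 + (p.2 : ℝ) ^ 2 = (t ^ 3) ^ 2 := by
      rw [← pow_mul]
      show (p.1 : ℝ) ^ 2 + (p.2 : ℝ) ^ 2 = t ^ 6
      rw [ht6]
      exact_mod_cast h
    have h2 : (p.1 : ℝ) ^ 2 ≤ (t ^ 3) ^ 2 := by nlinarith [sq_nonneg (p.2 : ℝ)]
    have h3 := abs_le_of_sq_le_sq' h2 (by positivity)
    constructor
    · apply div_nonneg _ hM0.le
      linarith [h3.1]
    · rw [div_le_iff₀ hM0, hM]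
      nlinarith [h3.2]
  have hfib : ∀ a ∈ Q.image f, (Q.filter fun p => f p = a).card ≤ 2 := by
    intro a _
    by_contra hcon
    push Not at hcon
    obtain ⟨p, q, r, hp, hq, hr, hpq, hpr, hqr⟩ := Finset.two_lt_card_iff.1 hcon
    rw [Finset.mem_filter] at hp hq hr
    have hclose : ∀ p q : ℤ × ℤ, p ∈ Q → q ∈ Q → f p = a → f q = a →
        ((q.1 : ℝ) - p.1) ^ 2 ≤ M ^ 2 := by
      intro p q hp hq h1 h2
      have e1 := (Nat.floor_eq_iff (hx p hp).1).1 h1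
      have e2 := (Nat.floor_eq_iff (hx q hq).1).1 h2
      have e3 : ((q.1 : ℝ) + t ^ 3) / M - ((p.1 : ℝ) + t ^ 3) / M ≤ 1 := by linarith [e1.1, e2.2]
      have e4 : -1 ≤ ((q.1 : ℝ) + t ^ 3) / M - ((p.1 : ℝ) + t ^ 3) / M := by
        linarith [e2.1, e1.2]
      have e5 : ((q.1 : ℝ) + t ^ 3) / M - ((p.1 : ℝ) + t ^ 3) / M = ((q.1 : ℝ) - p.1) / M := by
        rw [← sub_div]
        congr 1
        ring
      rw [e5] at e3 e4
      rw [div_le_iff₀ hM0] at e3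
      rw [le_div_iff₀ hM0] at e4
      apply sq_le_sq'
      · linarith
      · linarith
    obtain ⟨hp1, hp2⟩ := hQ p hp.1
    obtain ⟨hq1, hq2⟩ := hQ q hq.1
    obtain ⟨hr1, hr2⟩ := hQ r hr.1
    have n12 : p.1 ≠ q.1 := fun h => hpq (Prod.ext h (Circle_inj hp1 hq1 hp2 hq2 h))
    have n13 : p.1 ≠ r.1 := fun h => hpr (Prod.ext h (Circle_inj hp1 hr1 hp2 hr2 h))
    have n23 : q.1 ≠ r.1 := fun h => hqr (Prod.ext h (Circle_inj hq1 hr1 hq2 hr2 h))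
    have h3 := Circle_three (by exact_mod_cast hn) hp1 hq1 hr1 hp2 hq2 hr2 n12 n13 n23
    have h4 : 4 * (n : ℝ) ≤ 8 * (((q.1 : ℝ) - p.1) ^ 2 * ((r.1 : ℝ) - p.1) ^ 2 *
        ((r.1 : ℝ) - q.1) ^ 2) := by exact_mod_cast h3
    have c1 := hclose p q hp.1 hq.1 hp.2 hq.2
    have c2 := hclose p r hp.1 hr.1 hp.2 hr.2
    have c3 := hclose q r hq.1 hr.1 hq.2 hr.2
    have h5 : ((q.1 : ℝ) - p.1) ^ 2 * ((r.1 : ℝ) - p.1) ^ 2 * ((r.1 : ℝ) - q.1) ^ 2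
        ≤ M ^ 2 * M ^ 2 * M ^ 2 := by
      apply mul_le_mul
      · apply mul_le_mul c1 c2 (by positivity) (by positivity)
      · exact c3
      · positivity
      · positivity
    have h6 : M ^ 2 * M ^ 2 * M ^ 2 = 4096 / 15625 * (n : ℝ) := by
      rw [hM, ← ht6]
      ring
    rw [h6] at h5
    have hn' : (1 : ℝ) ≤ n := by exact_mod_cast hn
    nlinarith
  have hcard := Finset.card_le_mul_card_image Q 2 hfib
  have himg : (Q.image f).card ≤ ⌊5 / 2 * t ^ 2⌋₊ + 1 := by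
    have hsub : Q.image f ⊆ Finset.range (⌊5 / 2 * t ^ 2⌋₊ + 1) := by
      intro a ha
      obtain ⟨p, hp, rfl⟩ := Finset.mem_image.1 ha
      rw [Finset.mem_range, Nat.lt_succ_iff]
      exact Nat.floor_le_floor (hx p hp).2
    have := Finset.card_le_card hsub
    rwa [Finset.card_range] at this
  have h7 : (Q.card : ℝ) ≤ 2 * ((⌊5 / 2 * t ^ 2⌋₊ : ℝ) + 1) := by
    have : Q.card ≤ 2 * (⌊5 / 2 * t ^ 2⌋₊ + 1) := hcard.trans (Nat.mul_le_mul_left 2 himg)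
    exact_mod_cast this
  have h8 : (⌊5 / 2 * t ^ 2⌋₊ : ℝ) ≤ 5 / 2 * t ^ 2 := Nat.floor_le (by positivity)
  nlinarith

theorem r2_le (n : ℕ) (hn : 1 ≤ n) (P : Finset (ℤ × ℤ)) (hP : ∀ p ∈ P, p.1 ^ 2 + p.2 ^ 2 = n) :
    (P.card : ℝ) ≤ 30 * (n : ℝ) ^ (1 / 3 : ℝ) := by
  have hn' : (1 : ℝ) ≤ n := by exact_mod_cast hn
  obtain ⟨t, ht⟩ : ∃ t : ℝ, t = (n : ℝ) ^ (1 / 6 : ℝ) := ⟨_, rfl⟩
  have ht1 : 1 ≤ t := by
    rw [ht]
    exact Real.one_le_rpow hn' (by norm_num)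
  have ht6 : t ^ 6 = n := by
    rw [ht, ← Real.rpow_natCast, ← Real.rpow_mul (by positivity)]
    norm_num
  have ht2 : (n : ℝ) ^ (1 / 3 : ℝ) = t ^ 2 := by
    rw [ht, ← Real.rpow_natCast, ← Real.rpow_mul (by positivity)]
    norm_num
  have key : ∀ T : ℤ × ℤ → ℤ × ℤ, Function.Injective T →
      (∀ p, (T p).1 ^ 2 + (T p).2 ^ 2 = p.1 ^ 2 + p.2 ^ 2) →
      ((P.filter fun p => |(T p).1| ≤ (T p).2).card : ℝ) ≤ 7 * t ^ 2 := by
    intro T hT hT2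
    rw [← Finset.card_image_of_injective _ hT]
    refine Circle_part hn ht1 ht6 _ fun q hq => ?_
    obtain ⟨p, hp, rfl⟩ := Finset.mem_image.1 hq
    rw [Finset.mem_filter] at hp
    exact ⟨by rw [hT2]; exact hP p hp.1, hp.2⟩
  have k1 := key id Function.injective_id fun p => rfl
  have k2 := key (fun p => (p.1, -p.2))
    (fun p q h => by
      simp only [Prod.mk.injEq, neg_inj] at h
      exact Prod.ext h.1 h.2) (fun p => by simp)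
  have k3 := key (fun p => (p.2, p.1))
    (fun p q h => by
      simp only [Prod.mk.injEq] at h
      exact Prod.ext h.2 h.1) (fun p => by simp; ring)
  have k4 := key (fun p => (p.2, -p.1))
    (fun p q h => by
      simp only [Prod.mk.injEq, neg_inj] at h
      exact Prod.ext h.2 h.1) (fun p => by simp; ring)
  have hsub : P ⊆ (((P.filter fun p => |(id p).1| ≤ (id p).2) ∪
      (P.filter fun p => |((fun p : ℤ × ℤ => (p.1, -p.2)) p).1|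
        ≤ ((fun p : ℤ × ℤ => (p.1, -p.2)) p).2)) ∪
      (P.filter fun p => |((fun p : ℤ × ℤ => (p.2, p.1)) p).1|
        ≤ ((fun p : ℤ × ℤ => (p.2, p.1)) p).2)) ∪
      (P.filter fun p => |((fun p : ℤ × ℤ => (p.2, -p.1)) p).1|
        ≤ ((fun p : ℤ × ℤ => (p.2, -p.1)) p).2) := by
    intro p hp
    simp only [Finset.mem_union, Finset.mem_filter, hp, true_and, id]
    rcases abs_cases p.1 with ⟨h1, h1'⟩ | ⟨h1, h1'⟩ <;>
      rcases abs_cases p.2 with ⟨h2, h2'⟩ | ⟨h2, h2'⟩ <;> omega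
  have hc := Finset.card_le_card hsub
  have hc' := hc.trans ((Finset.card_union_le _ _).trans (Nat.add_le_add_right
    ((Finset.card_union_le _ _).trans (Nat.add_le_add_right (Finset.card_union_le _ _) _)) _))
  have hc2 : (P.card : ℝ) ≤ 7 * t ^ 2 + 7 * t ^ 2 + 7 * t ^ 2 + 7 * t ^ 2 := by
    have := (Nat.cast_le (α := ℝ)).2 hc'
    push_cast at this
    linarith
  rw [ht2]
  nlinarith

end Pool.Agent.MP_f406e2_lc_QD
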