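import Mathlib
import Pool.Agent.Lib.MP_f406e2_lc_QD.Circle

/-!
# QD, module Sphere: lattice points on a sphere

Fix the first coordinate `a` (`|a| ≤ √m`, at most `2 √m + 1 ≤ 3 √m` values); the points with this
coordinate lie on the circle `y² + z² = m - a²`, at most `30 m^(1/3)` of them by `r2_le` (for
`m = a²` only one point). So at most `90 m^(5/6) ≤ 100 m^(5/6)`.
(`Finset.card_le_mul_card_image` for `p ↦ p.1`.)
-/

set_option autoImplicit false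

namespace Pool.Agent.MP_f406e2_lc_QD

theorem r3_le (m : ℕ) (hm : 1 ≤ m) (P : Finset (ℤ × ℤ × ℤ))
    (hP : ∀ p ∈ P, p.1 ^ 2 + p.2.1 ^ 2 + p.2.2 ^ 2 = m) :
    (P.card : ℝ) ≤ 100 * (m : ℝ) ^ (5 / 6 : ℝ) := by
  have hm0 : (0:ℝ) < m := by exact_mod_cast hm
  have hm1 : (1:ℝ) ≤ m := by exact_mod_cast hm
  have hA1 : (1:ℝ) ≤ (m:ℝ) ^ (1 / 3 : ℝ) := Real.one_le_rpow hm1 (by norm_num)
  have hA0 : (0:ℝ) ≤ 30 * (m:ℝ) ^ (1 / 3 : ℝ) := by positivity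
  -- the fibres
  have hfib : ∀ a ∈ P.image Prod.fst, (P.filter fun p => p.1 = a).card ≤
      ⌊30 * (m:ℝ) ^ (1 / 3 : ℝ)⌋₊ := by
    intro a ha
    apply Nat.le_floor
    obtain ⟨p₀, hp₀, hpa⟩ := Finset.mem_image.1 ha
    have h0 := hP p₀ hp₀
    rw [hpa] at h0
    have hn0 : 0 ≤ (m:ℤ) - a ^ 2 := by nlinarith only [h0, sq_nonneg p₀.2.1, sq_nonneg p₀.2.2]
    obtain ⟨n, hn⟩ := Int.eq_ofNat_of_zero_le hn0
    have hinj : Set.InjOn (Prod.snd : ℤ × ℤ × ℤ → ℤ × ℤ) (P.filter fun p => p.1 = a) := by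
      intro p hp p' hp' h
      have h1 := (Finset.mem_filter.1 hp).2
      have h2 := (Finset.mem_filter.1 hp').2
      exact Prod.ext (h1.trans h2.symm) h
    have hcard := Finset.card_image_of_injOn hinj
    rw [← hcard]
    have hQ : ∀ r ∈ (P.filter fun p => p.1 = a).image (Prod.snd : ℤ × ℤ × ℤ → ℤ × ℤ),
        r.1 ^ 2 + r.2 ^ 2 = (n:ℤ) := by
      intro r hr
      obtain ⟨p, hp, hpr⟩ := Finset.mem_image.1 hr
      obtain ⟨hp1, hp2⟩ := Finset.mem_filter.1 hp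
      have h1 := hP p hp1
      rw [hp2] at h1
      rw [← hpr]
      have h2 : (n:ℤ) = (m:ℤ) - a ^ 2 := hn.symm
      rw [h2]
      linarith only [h1]
    rcases Nat.eq_zero_or_pos n with h3 | h3
    · subst h3
      have h4 : (P.filter fun p => p.1 = a).image (Prod.snd : ℤ × ℤ × ℤ → ℤ × ℤ) ⊆
          {((0:ℤ), (0:ℤ))} := by
        intro r hr
        have h5 := hQ r hr
        rw [Nat.cast_zero] at h5
        have h6 : r.1 = 0 := by
          have : r.1 ^ 2 = 0 := by linarith only [h5, sq_nonneg r.1, sq_nonneg r.2]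
          exact pow_eq_zero_iff (two_ne_zero) |>.1 this
        have h7 : r.2 = 0 := by
          have : r.2 ^ 2 = 0 := by linarith only [h5, sq_nonneg r.1, sq_nonneg r.2]
          exact pow_eq_zero_iff (two_ne_zero) |>.1 this
        exact Finset.mem_singleton.2 (Prod.ext h6 h7)
      have h8 := Finset.card_le_card h4
      rw [Finset.card_singleton] at h8
      have h9 : (((P.filter fun p => p.1 = a).image
          (Prod.snd : ℤ × ℤ × ℤ → ℤ × ℤ)).card : ℝ) ≤ 1 := by exact_mod_cast h8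
      linarith only [h9, hA1]
    · have h4 := r2_le n h3 _ hQ
      have h5 : (n:ℝ) ≤ m := by
        have h6 : (n:ℤ) ≤ m := by
          have h7 : (n:ℤ) = (m:ℤ) - a ^ 2 := hn.symm
          rw [h7]
          linarith only [sq_nonneg a]
        exact_mod_cast h6
      have h6 : (n:ℝ) ^ (1 / 3 : ℝ) ≤ (m:ℝ) ^ (1 / 3 : ℝ) :=
        Real.rpow_le_rpow (by positivity) h5 (by norm_num)
      linarith only [h4, h6]
  have hmain := Finset.card_le_mul_card_image (f := Prod.fst) P _ hfib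
  -- the first coordinates
  have himg : P.image Prod.fst ⊆ Finset.Icc (-(Nat.sqrt m : ℤ)) (Nat.sqrt m) := by
    intro a ha
    obtain ⟨p, hp, hpa⟩ := Finset.mem_image.1 ha
    have h0 := hP p hp
    rw [hpa] at h0
    have h1 : a.natAbs ^ 2 ≤ m := by
      have h2 : ((a.natAbs ^ 2 : ℕ) : ℤ) ≤ m := by
        rw [Nat.cast_pow, Int.natCast_natAbs, sq_abs]
        nlinarith only [h0, sq_nonneg p.2.1, sq_nonneg p.2.2]
      exact_mod_cast h2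
    have h3 : a.natAbs ≤ Nat.sqrt m := Nat.le_sqrt'.2 h1
    rw [Finset.mem_Icc]
    omega
  have himg2 : ((P.image Prod.fst).card : ℝ) ≤ 3 * (m:ℝ) ^ (1 / 2 : ℝ) := by
    have h1 := Finset.card_le_card himg
    rw [Int.card_Icc] at h1
    have h2 : (P.image Prod.fst).card ≤ 2 * Nat.sqrt m + 1 := by omega
    have h3 : ((P.image Prod.fst).card : ℝ) ≤ 2 * (Nat.sqrt m : ℝ) + 1 := by exact_mod_cast h2
    have h4 : (Nat.sqrt m : ℝ) ≤ √(m:ℝ) := Real.nat_sqrt_le_real_sqrt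
    have h5 : (1:ℝ) ≤ √(m:ℝ) := Real.one_le_sqrt.2 hm1
    rw [← Real.sqrt_eq_rpow]
    linarith only [h3, h4, h5]
  have hfl : (⌊30 * (m:ℝ) ^ (1 / 3 : ℝ)⌋₊ : ℝ) ≤ 30 * (m:ℝ) ^ (1 / 3 : ℝ) :=
    Nat.floor_le hA0
  have hmain' : (P.card : ℝ) ≤ (⌊30 * (m:ℝ) ^ (1 / 3 : ℝ)⌋₊ : ℝ) *
      ((P.image Prod.fst).card : ℝ) := by exact_mod_cast hmain
  have hpow : (m:ℝ) ^ (5 / 6 : ℝ) = (m:ℝ) ^ (1 / 3 : ℝ) * (m:ℝ) ^ (1 / 2 : ℝ) := by
    rw [← Real.rpow_add hm0]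
    norm_num
  have hB0 : (0:ℝ) ≤ (m:ℝ) ^ (1 / 3 : ℝ) * (m:ℝ) ^ (1 / 2 : ℝ) := by positivity
  calc (P.card : ℝ) ≤ (⌊30 * (m:ℝ) ^ (1 / 3 : ℝ)⌋₊ : ℝ) * ((P.image Prod.fst).card : ℝ) := hmain'
    _ ≤ (30 * (m:ℝ) ^ (1 / 3 : ℝ)) * (3 * (m:ℝ) ^ (1 / 2 : ℝ)) :=
        mul_le_mul hfl himg2 (by positivity) hA0
    _ = 90 * ((m:ℝ) ^ (1 / 3 : ℝ) * (m:ℝ) ^ (1 / 2 : ℝ)) := by ring
    _ ≤ 100 * (m:ℝ) ^ (5 / 6 : ℝ) := by
        rw [hpow]
        linarith only [hB0]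

end Pool.Agent.MP_f406e2_lc_QD
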