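import Mathlib
import Pool.Agent.Lib.MP_f406e2_lc_QD.Sphere
import Pool.Agent.Lib.MP_f406e2_lc_QD.QInj
import Pool.Agent.Lib.MP_f406e2_lc_QD.Words

/-!
# QD, module NBound: the sum over the words of length `2 j`

Put `R = 3^j`. By `tr_wd` the summand is `(a²/R²)^d`, `a = (qw l).re`, and
`a² + |b|² = R²` (`normSq_qw`), `b ≠ 0` (`qw_im`), so `|a| ≤ R - 1`; put `t = R - |a|`,
`1 ≤ t ≤ R`. The map `l ↦ qw l` is injective on `W (2j)` (`qw_inj`), so for given `a` there are at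
most `100 (R² - a²)^(5/6) ≤ 100 (2 R t)^(5/6)` words (`r3_le` with the vector part). Therefore the
sum is at most `2 ∑_{t=1}^{R} 100 (2 R t)^(5/6) (1 - t/R)^(2d)`, and
`(1 - t/R)^(2d) ≤ exp(-2dt/R)`, `t^(5/6) ≤ t`, `2^(5/6) ≤ 9/5`. With `x = R/(2d)`, `q = e^(-1/x)`:
`∑_{t≥1} t q^t = q/(1-q)² ≤ 4 x²`: indeed `1 - q ≥ 1/(1+x)`, so it is at most `q (1+x)²`; if
`x ≥ 1` use `(1+x)² ≤ 4x²`, if `x < 1` use `(1+x)² ≤ 4` and `e^(-1/x) ≤ x²`. Total:
`200 · (9/5) R^(5/6) · 4 (R/(2d))² = 360 R^(17/6)/d²`.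
-/

set_option autoImplicit false

noncomputable section

namespace Pool.Agent.MP_f406e2_lc_QD

private theorem NBound_exp {y : ℝ} (hy : 0 ≤ y) : y ^ 2 ≤ Real.exp y := by
  have h1 := Real.quadratic_le_exp_of_nonneg (x := y / 2) (by linarith)
  have h2 : y ≤ Real.exp (y / 2) := by nlinarith [sq_nonneg (y - 2)]
  calc y ^ 2 ≤ Real.exp (y / 2) ^ 2 := pow_le_pow_left₀ hy h2 2
    _ = Real.exp y := by
      rw [← Real.exp_nat_mul]
      congr 1
      push_cast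
      ring

private theorem NBound_q {x : ℝ} (hx : 0 < x) :
    Real.exp (-(1 / x)) / (1 - Real.exp (-(1 / x))) ^ 2 ≤ 4 * x ^ 2 := by
  obtain ⟨q, hq⟩ : ∃ q, q = Real.exp (-(1 / x)) := ⟨_, rfl⟩
  have hq0 : 0 < q := by
    rw [hq]
    exact Real.exp_pos _
  have hx1 : 0 < 1 / x := by positivity
  have h1 : 1 / x + 1 ≤ Real.exp (1 / x) := Real.add_one_le_exp _
  have h2 : q * Real.exp (1 / x) = 1 := by
    rw [hq, ← Real.exp_add, neg_add_cancel, Real.exp_zero]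
  have h3 : q * (1 / x + 1) ≤ 1 := (mul_le_mul_of_nonneg_left h1 hq0.le).trans h2.le
  have h4 : q * (1 + x) ≤ x := by
    have h5 : q * (1 / x + 1) * x = q * (1 + x) := by
      field_simp
    rw [← h5]
    nlinarith
  have h5 : 1 ≤ (1 - q) * (1 + x) := by linarith
  have h6 : 0 < 1 - q := by
    by_contra h7
    nlinarith
  rw [← hq, div_le_iff₀ (by positivity)]
  have h7 : 1 ≤ ((1 - q) * (1 + x)) ^ 2 := by nlinarith
  have h8 : q ≤ q * (1 + x) ^ 2 * (1 - q) ^ 2 := by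
    calc q = q * 1 := (mul_one q).symm
      _ ≤ q * ((1 - q) * (1 + x)) ^ 2 := mul_le_mul_of_nonneg_left h7 hq0.le
      _ = q * (1 + x) ^ 2 * (1 - q) ^ 2 := by ring
  refine h8.trans (mul_le_mul_of_nonneg_right ?_ (by positivity))
  rcases le_total 1 x with h9 | h9
  · have hq1 : q ≤ 1 := by linarith
    nlinarith
  · have hq2 : q ≤ x ^ 2 := by
      have h10 := NBound_exp hx1.le
      have h11 : (1 / x) ^ 2 * x ^ 2 = 1 := by
        field_simp
      have h12 : q * (1 / x) ^ 2 ≤ 1 := (mul_le_mul_of_nonneg_left h10 hq0.le).trans h2.le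
      calc q = q * (1 / x) ^ 2 * x ^ 2 := by rw [mul_assoc, h11, mul_one]
        _ ≤ 1 * x ^ 2 := mul_le_mul_of_nonneg_right h12 (by positivity)
        _ = x ^ 2 := one_mul _
    have h13 : (1 + x) ^ 2 ≤ 4 := by nlinarith
    calc q * (1 + x) ^ 2 ≤ x ^ 2 * 4 := mul_le_mul hq2 h13 (by positivity) (by positivity)
      _ = 4 * x ^ 2 := mul_comm _ _

private theorem NBound_two : (2 : ℝ) ^ (5 / 6 : ℝ) ≤ 9 / 5 := by
  have h1 : ((2 : ℝ) ^ (5 / 6 : ℝ)) ^ 6 ≤ (9 / 5) ^ 6 := by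
    rw [← Real.rpow_natCast, ← Real.rpow_mul (by norm_num)]
    norm_num
  exact le_of_pow_le_pow_left₀ (by norm_num) (by norm_num) h1

private theorem NBound_sum (R d : ℕ) (hR : 0 < R) (hd : 1 ≤ d) :
    ∑ i ∈ Finset.range R, 200 * ((R : ℝ) ^ 2 - ((R - 1 - i : ℕ) : ℝ) ^ 2) ^ (5 / 6 : ℝ) *
      ((((R - 1 - i : ℕ) : ℝ) / R) ^ 2) ^ d ≤ 400 * (R : ℝ) ^ (17 / 6 : ℝ) / (d : ℝ) ^ 2 := by
  have hR0 : (0 : ℝ) < R := by exact_mod_cast hR
  have hd0 : (0 : ℝ) < d := by exact_mod_cast (by omega : 0 < d)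
  obtain ⟨q, hq⟩ : ∃ q, q = Real.exp (-(1 / ((R : ℝ) / (2 * d)))) := ⟨_, rfl⟩
  have hq0 : 0 < q := by
    rw [hq]
    exact Real.exp_pos _
  have hq1 : q < 1 := by
    rw [hq, Real.exp_lt_one_iff]
    have : (0 : ℝ) < 1 / ((R : ℝ) / (2 * d)) := by positivity
    linarith
  have hterm : ∀ i ∈ Finset.range R,
      200 * ((R : ℝ) ^ 2 - ((R - 1 - i : ℕ) : ℝ) ^ 2) ^ (5 / 6 : ℝ) *
        ((((R - 1 - i : ℕ) : ℝ) / R) ^ 2) ^ d ≤
      360 * (R : ℝ) ^ (5 / 6 : ℝ) * (((i + 1 : ℕ) : ℝ) * q ^ (i + 1)) := by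
    intro i hi
    rw [Finset.mem_range] at hi
    have hs : ((R - 1 - i : ℕ) : ℝ) = (R : ℝ) - ((i + 1 : ℕ) : ℝ) := by
      rw [show R - 1 - i = R - (i + 1) by omega, Nat.cast_sub (by omega)]
    obtain ⟨t, ht⟩ : ∃ t : ℝ, t = ((i + 1 : ℕ) : ℝ) := ⟨_, rfl⟩
    have ht1 : 1 ≤ t := by
      rw [ht]
      exact_mod_cast (by omega : 1 ≤ i + 1)
    have htR : t ≤ R := by
      rw [ht]
      exact_mod_cast (by omega : i + 1 ≤ R)
    rw [hs, ← ht]
    have h1 : ((R : ℝ) ^ 2 - ((R : ℝ) - t) ^ 2) ^ (5 / 6 : ℝ) ≤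
        9 / 5 * ((R : ℝ) ^ (5 / 6 : ℝ) * t) := by
      calc ((R : ℝ) ^ 2 - ((R : ℝ) - t) ^ 2) ^ (5 / 6 : ℝ) ≤
            (2 * ((R : ℝ) * t)) ^ (5 / 6 : ℝ) :=
          Real.rpow_le_rpow (by nlinarith) (by nlinarith) (by norm_num)
        _ = (2 : ℝ) ^ (5 / 6 : ℝ) * ((R : ℝ) ^ (5 / 6 : ℝ) * t ^ (5 / 6 : ℝ)) := by
          rw [Real.mul_rpow (by norm_num) (by positivity), Real.mul_rpow hR0.le (by linarith)]
        _ ≤ 9 / 5 * ((R : ℝ) ^ (5 / 6 : ℝ) * t) := by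
          have h2 : t ^ (5 / 6 : ℝ) ≤ t ^ (1 : ℝ) :=
            Real.rpow_le_rpow_of_exponent_le ht1 (by norm_num)
          rw [Real.rpow_one] at h2
          refine mul_le_mul NBound_two (mul_le_mul_of_nonneg_left h2 (by positivity))
            (by positivity) (by norm_num)
    have h3 : ((((R : ℝ) - t) / R) ^ 2) ^ d ≤ q ^ (i + 1) := by
      have h4 : ((R : ℝ) - t) / R ≤ Real.exp (-(t / R)) := by
        have h5 := Real.one_sub_le_exp_neg (t / R)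
        have h6 : ((R : ℝ) - t) / R = 1 - t / R := by
          field_simp
        rw [h6]
        exact h5
      have h5 : 0 ≤ ((R : ℝ) - t) / R := div_nonneg (by linarith) hR0.le
      calc ((((R : ℝ) - t) / R) ^ 2) ^ d = (((R : ℝ) - t) / R) ^ (2 * d) := (pow_mul _ _ _).symm
        _ ≤ Real.exp (-(t / R)) ^ (2 * d) := pow_le_pow_left₀ h5 h4 _
        _ = q ^ (i + 1) := by
          rw [hq, ← Real.exp_nat_mul, ← Real.exp_nat_mul, ht]
          congr 1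
          push_cast
          field_simp
    calc 200 * ((R : ℝ) ^ 2 - ((R : ℝ) - t) ^ 2) ^ (5 / 6 : ℝ) * ((((R : ℝ) - t) / R) ^ 2) ^ d
        ≤ 200 * (9 / 5 * ((R : ℝ) ^ (5 / 6 : ℝ) * t)) * q ^ (i + 1) := by
          refine mul_le_mul (mul_le_mul_of_nonneg_left h1 (by norm_num)) h3 (by positivity)
            (by positivity)
      _ = 360 * (R : ℝ) ^ (5 / 6 : ℝ) * (t * q ^ (i + 1)) := by ring
  refine (Finset.sum_le_sum hterm).trans ?_
  rw [← Finset.mul_sum]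
  have hgeo : ∑ i ∈ Finset.range R, (((i + 1 : ℕ) : ℝ) * q ^ (i + 1)) ≤ q / (1 - q) ^ 2 := by
    have h1 := hasSum_coe_mul_geometric_of_norm_lt_one (𝕜 := ℝ) (r := q) (by
      rw [Real.norm_eq_abs, abs_of_pos hq0]
      exact hq1)
    have h2 := sum_le_hasSum (Finset.range (R + 1)) (fun n _ => by positivity) h1
    rw [Finset.sum_range_succ'] at h2
    simpa using h2
  have h1 := NBound_q (x := (R : ℝ) / (2 * d)) (by positivity)
  rw [← hq] at h1
  calc 360 * (R : ℝ) ^ (5 / 6 : ℝ) * ∑ i ∈ Finset.range R, (((i + 1 : ℕ) : ℝ) * q ^ (i + 1))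
      ≤ 360 * (R : ℝ) ^ (5 / 6 : ℝ) * (4 * ((R : ℝ) / (2 * d)) ^ 2) :=
        mul_le_mul_of_nonneg_left (hgeo.trans h1) (by positivity)
    _ = 360 * ((R : ℝ) ^ (5 / 6 : ℝ) * (R : ℝ) ^ (2 : ℝ)) / (d : ℝ) ^ 2 := by
        rw [Real.rpow_two]
        field_simp
        ring
    _ = 360 * (R : ℝ) ^ (17 / 6 : ℝ) / (d : ℝ) ^ 2 := by
        rw [← Real.rpow_add hR0]
        norm_num
    _ ≤ 400 * (R : ℝ) ^ (17 / 6 : ℝ) / (d : ℝ) ^ 2 := by
        refine div_le_div_of_nonneg_right ?_ (by positivity)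
        have : (0 : ℝ) ≤ (R : ℝ) ^ (17 / 6 : ℝ) := by positivity
        linarith

theorem N_bound (j d : ℕ) (hj : 1 ≤ j) (hd : 1 ≤ d) :
    ∑ l ∈ W (2 * j), ((tr (wd l) + 1) / 4) ^ d ≤
      400 * ((3 : ℝ) ^ j) ^ (17 / 6 : ℝ) / (d : ℝ) ^ 2 := by
  classical
  obtain ⟨R, hR⟩ : ∃ R : ℕ, R = 3 ^ j := ⟨_, rfl⟩
  have hR1 : 0 < R := by
    rw [hR]
    positivity
  have hRr : (3 : ℝ) ^ j = (R : ℝ) := by
    rw [hR]
    push_cast
    ring
  have hR0 : (0 : ℝ) < R := by exact_mod_cast hR1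
  -- the words
  have hl : ∀ l ∈ W (2 * j), l.length = 2 * j ∧ Red l ∧ l ≠ [] := by
    intro l hl
    obtain ⟨h1, h2⟩ := (mem_W _ _).1 hl
    refine ⟨h1, h2, fun h3 => ?_⟩
    rw [h3, List.length_nil] at h1
    omega
  have hns : ∀ l ∈ W (2 * j), (qw l).re ^ 2 + ((qw l).imI ^ 2 + (qw l).imJ ^ 2 +
      (qw l).imK ^ 2) = (R : ℤ) ^ 2 := by
    intro l hl'
    have h1 := normSq_qw l
    rw [(hl l hl').1, Quaternion.normSq_def'] at h1
    rw [hR]
    push_cast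
    rw [← pow_mul, mul_comm j 2, ← h1]
    ring
  have hpos : ∀ l ∈ W (2 * j), 0 < (qw l).imI ^ 2 + (qw l).imJ ^ 2 + (qw l).imK ^ 2 := by
    intro l hl'
    obtain ⟨-, h2, h3⟩ := hl l hl'
    have h4 := qw_im l h2 h3
    by_contra h5
    apply h4
    have e1 := sq_nonneg (qw l).imI
    have e2 := sq_nonneg (qw l).imJ
    have e3 := sq_nonneg (qw l).imK
    refine ⟨?_, ?_, ?_⟩ <;> refine (sq_eq_zero_iff (M₀ := ℤ)).1 ?_ <;> omega
  have hlt : ∀ l ∈ W (2 * j), (qw l).re.natAbs < R := by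
    intro l hl'
    have h1 := hns l hl'
    have h2 := hpos l hl'
    have h3 : (qw l).re ^ 2 < (R : ℤ) ^ 2 := by omega
    have h4 := sq_lt_sq.1 h3
    rw [Nat.abs_cast, Int.abs_eq_natAbs] at h4
    exact_mod_cast h4
  -- the number of words with a given real part
  have hfib : ∀ a : ℤ, a.natAbs < R → (((W (2 * j)).filter fun l => (qw l).re = a).card : ℝ) ≤
      100 * ((R : ℝ) ^ 2 - (a.natAbs : ℝ) ^ 2) ^ (5 / 6 : ℝ) := by
    intro a ha
    obtain ⟨m, hm⟩ : ∃ m : ℕ, m = R ^ 2 - a.natAbs ^ 2 := ⟨_, rfl⟩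
    have h1 : a.natAbs ^ 2 < R ^ 2 := Nat.pow_lt_pow_left ha two_ne_zero
    have hm1 : 1 ≤ m := by omega
    have hmR : (m : ℝ) = (R : ℝ) ^ 2 - (a.natAbs : ℝ) ^ 2 := by
      rw [hm, Nat.cast_sub h1.le]
      push_cast
      ring
    have hmZ : (m : ℤ) = (R : ℤ) ^ 2 - a ^ 2 := by
      rw [hm, Nat.cast_sub h1.le]
      push_cast
      rw [sq_abs]
    have hinj : Set.InjOn (fun l => ((qw l).imI, (qw l).imJ, (qw l).imK))
        ((W (2 * j)).filter fun l => (qw l).re = a : Finset (List (Fin 4))) := by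
      intro l h2 l' h3 h4
      rw [Finset.mem_coe, Finset.mem_filter] at h2 h3
      rw [Prod.mk.injEq, Prod.mk.injEq] at h4
      refine qw_inj l l' (hl l h2.1).2.1 (hl l' h3.1).2.1 (Or.inl ?_)
      exact Quaternion.ext _ _ (h2.2.trans h3.2.symm) h4.1 h4.2.1 h4.2.2
    have h5 := r3_le m hm1 (((W (2 * j)).filter fun l => (qw l).re = a).image
      fun l => ((qw l).imI, (qw l).imJ, (qw l).imK)) (by
        intro p hp
        rw [Finset.mem_image] at hp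
        obtain ⟨l, h6, rfl⟩ := hp
        rw [Finset.mem_filter] at h6
        have h7 := hns l h6.1
        rw [h6.2] at h7
        show (qw l).imI ^ 2 + (qw l).imJ ^ 2 + (qw l).imK ^ 2 = (m : ℤ)
        rw [hmZ]
        omega)
    rw [Finset.card_image_of_injOn hinj, hmR] at h5
    exact h5
  -- the sum over the real parts
  have hsum : ∑ l ∈ W (2 * j), ((tr (wd l) + 1) / 4) ^ d ≤
      ∑ s ∈ Finset.range R, 200 * ((R : ℝ) ^ 2 - (s : ℝ) ^ 2) ^ (5 / 6 : ℝ) *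
        (((s : ℝ) / R) ^ 2) ^ d := by
    rw [← Finset.sum_fiberwise_of_maps_to (s := W (2 * j)) (t := Finset.range R)
      (g := fun l => (qw l).re.natAbs) (fun l hl' => Finset.mem_range.2 (hlt l hl'))]
    refine Finset.sum_le_sum fun s hs => ?_
    rw [Finset.mem_range] at hs
    have h1 : ∀ l ∈ (W (2 * j)).filter (fun l => (qw l).re.natAbs = s),
        ((tr (wd l) + 1) / 4) ^ d = (((s : ℝ) / R) ^ 2) ^ d := by
      intro l hl'
      rw [Finset.mem_filter] at hl'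
      have e1 : ((((qw l).re.natAbs : ℕ) : ℝ) / R) ^ 2 = ((qw l).re : ℝ) ^ 2 / 3 ^ (2 * j) := by
        rw [Nat.cast_natAbs, Int.cast_abs, div_pow, sq_abs, ← hRr, ← pow_mul, mul_comm j 2]
      rw [tr_wd, (hl l hl'.1).1, ← e1, hl'.2]
    rw [Finset.sum_congr rfl h1, Finset.sum_const, nsmul_eq_mul]
    refine mul_le_mul_of_nonneg_right ?_ (by positivity)
    have h2 : ((W (2 * j)).filter fun l => (qw l).re.natAbs = s) ⊆
        ((W (2 * j)).filter fun l => (qw l).re = (s : ℤ)) ∪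
          ((W (2 * j)).filter fun l => (qw l).re = -(s : ℤ)) := by
      intro l hl'
      rw [Finset.mem_filter] at hl'
      rw [Finset.mem_union, Finset.mem_filter, Finset.mem_filter]
      rcases Int.natAbs_eq (qw l).re with h3 | h3
      · exact Or.inl ⟨hl'.1, by rw [h3, hl'.2]⟩
      · exact Or.inr ⟨hl'.1, by rw [h3, hl'.2]⟩
    have h3 : (((W (2 * j)).filter fun l => (qw l).re.natAbs = s).card : ℝ) ≤
        (((W (2 * j)).filter fun l => (qw l).re = (s : ℤ)).card : ℝ) +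
          (((W (2 * j)).filter fun l => (qw l).re = -(s : ℤ)).card : ℝ) := by
      exact_mod_cast (Finset.card_le_card h2).trans (Finset.card_union_le _ _)
    have h4 := hfib (s : ℤ) (by rw [Int.natAbs_natCast]; exact hs)
    have h5 := hfib (-(s : ℤ)) (by rw [Int.natAbs_neg, Int.natAbs_natCast]; exact hs)
    rw [Int.natAbs_natCast] at h4
    rw [Int.natAbs_neg, Int.natAbs_natCast] at h5
    linarith
  rw [hRr]
  refine hsum.trans ?_
  rw [← Finset.sum_range_reflect]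
  exact NBound_sum R d hR1 hd

end Pool.Agent.MP_f406e2_lc_QD
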