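import Mathlib
import Pool.Agent.Lib.MP_f406e2_lc_QD.NBound
import Pool.Agent.Lib.MP_f406e2_lc_QD.PPoly

/-!
# QD, module SBound: the weighted sum

With `d = 2 l²` and `3^(11k) ≤ l^24`, i.e. `3^(11k/6) ≤ l⁴`: by `cc_zero_le`, `cc_le`,
`N_bound` the sum is at most (the summand `m = 0`: `W 0 = {[]}`, `wd [] = 1`, `tr 1 = 3`)
`2·3^k + ∑_{m=1}^{k} 3^(k-m) · 400 · 3^(17m/6)/d² = 3^k (2 + (400/(4 l⁴)) ∑_{m=1}^{k} 3^(11m/6))
≤ 3^k (2 + (100/l⁴) · 1.2 · 3^(11k/6)) ≤ 128 · 3^k` (geometric series with ratio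
`3^(11/6) ≥ 7`: `∑_{m≤k} q^m ≤ q^k · q/(q-1) ≤ (7/6) q^k`).
-/

set_option autoImplicit false

noncomputable section

namespace Pool.Agent.MP_f406e2_lc_QD

private lemma tr_one' : tr 1 = 3 := by
  have h1 : mat 1 = 1 := by
    ext i j
    simp only [mat, LinearIsometryEquiv.coe_one, id_eq, PiLp.single_apply,
      Matrix.one_apply]
  rw [tr, h1, Matrix.trace_one]
  simp

private lemma geom {Q : ℝ} (hQ : 7 ≤ Q) (k : ℕ) :
    ∑ m ∈ Finset.range k, Q ^ (m + 1) ≤ 7 / 6 * Q ^ k := by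
  induction k with
  | zero => norm_num
  | succ k ih =>
    rw [Finset.sum_range_succ]
    have h1 : 0 < Q ^ k := by positivity
    have h2 : Q ^ (k + 1) = Q ^ k * Q := pow_succ _ _
    rw [h2]
    nlinarith

private lemma rp (m : ℕ) : ((3 : ℝ) ^ m) ^ (17 / 6 : ℝ) = 3 ^ m * ((3 : ℝ) ^ (11 / 6 : ℝ)) ^ m := by
  have h1 : (17 / 6 : ℝ) = 1 + 11 / 6 := by norm_num
  rw [h1, Real.rpow_add (by positivity), Real.rpow_one,
    ← Real.rpow_pow_comm (by norm_num : (0:ℝ) ≤ 3)]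

theorem S_bound (k l : ℕ) (hk : 1 ≤ k) (hl : 1 ≤ l) (hkl : 3 ^ (11 * k) ≤ l ^ 24) :
    ∑ m ∈ Finset.range (k + 1), cc k m * ∑ z ∈ W (2 * m), ((tr (wd z) + 1) / 4) ^ (2 * l ^ 2) ≤
      128 * 3 ^ k := by
  set Q : ℝ := (3 : ℝ) ^ (11 / 6 : ℝ) with hQ
  have hQ0 : 0 < Q := by positivity
  have hQ6 : Q ^ 6 = 3 ^ 11 := by
    rw [hQ, ← Real.rpow_natCast, ← Real.rpow_mul (by norm_num)]
    norm_num
  have hQ7 : 7 ≤ Q := by
    refine le_of_pow_le_pow_left₀ (n := 6) (by norm_num) hQ0.le ?_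
    rw [hQ6]
    norm_num
  have hl0 : (0:ℝ) < l := by exact_mod_cast hl
  have hQk : Q ^ k ≤ (l:ℝ) ^ 4 := by
    refine le_of_pow_le_pow_left₀ (n := 6) (by norm_num) (by positivity) ?_
    rw [← pow_mul, mul_comm k 6, pow_mul, hQ6, ← pow_mul, ← pow_mul]
    exact_mod_cast hkl
  rw [Finset.sum_range_succ']
  have h0 : cc k 0 * ∑ z ∈ W (2 * 0), ((tr (wd z) + 1) / 4) ^ (2 * l ^ 2) ≤ 2 * 3 ^ k := by
    have h1 : ∑ z ∈ W (2 * 0), ((tr (wd z) + 1) / 4) ^ (2 * l ^ 2) = 1 := by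
      rw [mul_zero]
      simp only [W, Finset.sum_singleton, wd_nil, tr_one']
      norm_num
    rw [h1, mul_one]
    exact cc_zero_le k hk
  have h1 : ∑ m ∈ Finset.range k, cc k (m + 1) *
      ∑ z ∈ W (2 * (m + 1)), ((tr (wd z) + 1) / 4) ^ (2 * l ^ 2) ≤
      ∑ m ∈ Finset.range k, 100 / (l:ℝ) ^ 4 * 3 ^ k * Q ^ (m + 1) := by
    refine Finset.sum_le_sum fun m hm => ?_
    have hm' := Finset.mem_range.1 hm
    have h2 := N_bound (m + 1) (2 * l ^ 2) (by omega) (by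
      have : 1 ≤ l ^ 2 := Nat.one_le_pow _ _ hl
      omega)
    have h3 := cc_le k (m + 1) (by omega) (by omega)
    have h4 := cc_nonneg k (m + 1)
    rw [rp] at h2
    have h5 : (3:ℝ) ^ (k - (m + 1)) * 3 ^ (m + 1) = 3 ^ k := by
      rw [← pow_add]
      congr 1
      omega
    calc cc k (m + 1) * ∑ z ∈ W (2 * (m + 1)), ((tr (wd z) + 1) / 4) ^ (2 * l ^ 2) ≤
          cc k (m + 1) * (400 * (3 ^ (m + 1) * Q ^ (m + 1)) / ((2 * l ^ 2 : ℕ) : ℝ) ^ 2) :=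
          mul_le_mul_of_nonneg_left h2 h4
      _ ≤ 3 ^ (k - (m + 1)) *
          (400 * (3 ^ (m + 1) * Q ^ (m + 1)) / ((2 * l ^ 2 : ℕ) : ℝ) ^ 2) := by
          apply mul_le_mul_of_nonneg_right h3
          positivity
      _ = 100 / (l:ℝ) ^ 4 * (3 ^ (k - (m + 1)) * 3 ^ (m + 1)) * Q ^ (m + 1) := by
          push_cast
          field_simp
          ring
      _ = _ := by rw [h5]
  have h2 : ∑ m ∈ Finset.range k, 100 / (l:ℝ) ^ 4 * 3 ^ k * Q ^ (m + 1) ≤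
      100 * (7 / 6) * 3 ^ k := by
    rw [← Finset.mul_sum]
    have h3 := geom hQ7 k
    calc 100 / (l:ℝ) ^ 4 * 3 ^ k * ∑ m ∈ Finset.range k, Q ^ (m + 1) ≤
        100 / (l:ℝ) ^ 4 * 3 ^ k * (7 / 6 * (l:ℝ) ^ 4) := by
          apply mul_le_mul_of_nonneg_left _ (by positivity)
          exact h3.trans (mul_le_mul_of_nonneg_left hQk (by norm_num))
      _ = _ := by field_simp
  have h3 : (0:ℝ) < 3 ^ k := by positivity
  linarith

end Pool.Agent.MP_f406e2_lc_QD
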