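import Mathlib
import Pool.Agent.Lib.MP_f406e2_lc_QD.Grp

/-!
# QD, module ConnR: rotations about an axis

For a unit vector `n` `RR n t` is the rotation about `n` by the angle `t`. All by coordinates
(`‖n‖² = n 0 ^ 2 + n 1 ^ 2 + n 2 ^ 2 = 1`), or from `cr n (cr n x) = ⟪n, x⟫ n - x`, `⟪n, cr n x⟫ = 0`.
`n1 = (0, 1, -1)/√2`, `n2 = (0, 1, 1)/√2`; `h01`: `h 0 * h 1 = RR n1 θ` with `cos θ = -7/9`,
`sin θ = ± 4√2/9` (`h 0 * h 1` is the rotation about `u 0 × u 1 ∥ (0, 1, -1)` by twice the angle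
between `u 0` and `u 1`, whose cosine is `-1/3`); check the coordinates (use `h_apply`). `h23`: the
same for `u 2 × u 3 ∥ (0, 1, 1)`. (The sign of `sin θ` is to be determined.)
-/

set_option autoImplicit false
set_option linter.unusedSimpArgs false

noncomputable section

namespace Pool.Agent.MP_f406e2_lc_QD

open scoped InnerProductSpace

/-- the rotation about the unit vector `n` by the angle `t` -/
def RR (n : E3) (t : ℝ) (x : E3) : E3 :=
  Real.cos t • x + Real.sin t • cr n x + ((1 - Real.cos t) * ⟪n, x⟫_ℝ) • n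

/-- the first axis -/
def n1 : E3 := !₂[0, 1 / √2, -1 / √2]

/-- the second axis -/
def n2 : E3 := !₂[0, 1 / √2, 1 / √2]

private lemma connR_ip (v w : E3) : ⟪v, w⟫_ℝ = v 0 * w 0 + v 1 * w 1 + v 2 * w 2 := by
  rw [PiLp.inner_apply, Fin.sum_univ_three]
  simp only [RCLike.inner_apply, conj_trivial]
  ring

private lemma connR_nsq (v : E3) : ‖v‖ ^ 2 = v 0 ^ 2 + v 1 ^ 2 + v 2 ^ 2 := by
  rw [← real_inner_self_eq_norm_sq, connR_ip]
  ring

private lemma connR_one (v : E3) (hv : v 0 ^ 2 + v 1 ^ 2 + v 2 ^ 2 = 1) : ‖v‖ = 1 := by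
  have h1 : ‖v‖ ^ 2 = 1 ^ 2 := by
    rw [connR_nsq, hv]
    norm_num
  exact (sq_eq_sq₀ (norm_nonneg _) zero_le_one).1 h1

private lemma connR_sq (n : E3) (hn : ‖n‖ = 1) : n 0 ^ 2 + n 1 ^ 2 + n 2 ^ 2 = 1 := by
  rw [← connR_nsq, hn]
  norm_num

private lemma connR_cr0 (v w : E3) : cr v w 0 = v 1 * w 2 - v 2 * w 1 := rfl

private lemma connR_cr1 (v w : E3) : cr v w 1 = v 2 * w 0 - v 0 * w 2 := rfl

private lemma connR_cr2 (v w : E3) : cr v w 2 = v 0 * w 1 - v 1 * w 0 := rfl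

private lemma connR_c (n : E3) (t : ℝ) (x : E3) (i : Fin 3) :
    RR n t x i = Real.cos t * x i + Real.sin t * cr n x i +
      ((1 - Real.cos t) * (n 0 * x 0 + n 1 * x 1 + n 2 * x 2)) * n i := by
  rw [RR, connR_ip]
  simp only [PiLp.add_apply, PiLp.smul_apply, smul_eq_mul]

private lemma connR_q : (1 / √2 : ℝ) ^ 2 = 1 / 2 := by
  rw [div_pow, one_pow, Real.sq_sqrt (by norm_num)]

private lemma connR_th : ∃ θ : ℝ, Real.cos θ = -7 / 9 ∧ Real.sin θ = 8 * (1 / √2) / 9 := by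
  refine ⟨Real.arccos (-7 / 9), Real.cos_arccos (by norm_num) (by norm_num), ?_⟩
  rw [Real.sin_arccos]
  have h1 : (1 - (-7 / 9) ^ 2 : ℝ) = (8 * (1 / √2) / 9) ^ 2 := by
    have h2 : (8 * (1 / √2) / 9 : ℝ) ^ 2 = 64 * (1 / √2) ^ 2 / 81 := by ring
    rw [h2, connR_q]
    norm_num
  rw [h1, Real.sqrt_sq (by positivity)]

private lemma connR_n1 : n1 0 = 0 ∧ n1 1 = 1 / √2 ∧ n1 2 = -(1 / √2) := by
  refine ⟨rfl, rfl, ?_⟩
  change (-1 / √2 : ℝ) = _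
  ring

private lemma connR_n2 : n2 0 = 0 ∧ n2 1 = 1 / √2 ∧ n2 2 = 1 / √2 := ⟨rfl, rfl, rfl⟩

private lemma connR_hc (j : Fin 4) (x : E3) (i : Fin 3) :
    h j x i = 2 / 3 * (u j 0 * x 0 + u j 1 * x 1 + u j 2 * x 2) * u j i - x i := by
  rw [h_apply, connR_ip]
  simp only [PiLp.sub_apply, PiLp.smul_apply, smul_eq_mul]

private lemma connR_u0 : u 0 0 = 1 ∧ u 0 1 = 1 ∧ u 0 2 = 1 := ⟨rfl, rfl, rfl⟩

private lemma connR_u1 : u 1 0 = 1 ∧ u 1 1 = -1 ∧ u 1 2 = -1 := ⟨rfl, rfl, rfl⟩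

private lemma connR_u2 : u 2 0 = -1 ∧ u 2 1 = 1 ∧ u 2 2 = -1 := ⟨rfl, rfl, rfl⟩

private lemma connR_u3 : u 3 0 = -1 ∧ u 3 1 = -1 ∧ u 3 2 = 1 := ⟨rfl, rfl, rfl⟩

lemma norm_n1 : ‖n1‖ = 1 := by
  obtain ⟨h0, h1, h2⟩ := connR_n1
  apply connR_one
  rw [h0, h1, h2, neg_sq, connR_q]
  norm_num

lemma norm_n2 : ‖n2‖ = 1 := by
  obtain ⟨h0, h1, h2⟩ := connR_n2
  apply connR_one
  rw [h0, h1, h2, connR_q]
  norm_num

lemma RR_norm (n : E3) (hn : ‖n‖ = 1) (t : ℝ) (x : E3) : ‖RR n t x‖ = ‖x‖ := by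
  have hN := connR_sq n hn
  have hcs := Real.cos_sq_add_sin_sq t
  have h1 : ‖RR n t x‖ ^ 2 = ‖x‖ ^ 2 := by
    rw [connR_nsq, connR_nsq, connR_c, connR_c, connR_c, connR_cr0, connR_cr1, connR_cr2]
    linear_combination (x 0 ^ 2 + x 1 ^ 2 + x 2 ^ 2 -
      (n 0 * x 0 + n 1 * x 1 + n 2 * x 2) ^ 2) * hcs +
      ((x 0 ^ 2 + x 1 ^ 2 + x 2 ^ 2) * Real.sin t ^ 2 +
      (n 0 * x 0 + n 1 * x 1 + n 2 * x 2) ^ 2 * (1 - Real.cos t) ^ 2) * hN
  exact (sq_eq_sq₀ (norm_nonneg _) (norm_nonneg _)).1 h1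

lemma RR_zero (n x : E3) : RR n 0 x = x := by
  simp [RR]

lemma RR_two_pi (n x : E3) : RR n (2 * Real.pi) x = x := by
  simp [RR]

lemma RR_add (n : E3) (hn : ‖n‖ = 1) (s t : ℝ) (x : E3) : RR n (s + t) x = RR n s (RR n t x) := by
  have hN := connR_sq n hn
  ext i
  rw [connR_c n (s + t), connR_c n s, Real.cos_add, Real.sin_add]
  fin_cases i
  · simp only [Fin.zero_eta, Fin.mk_one, Fin.reduceFinMk, connR_cr0, connR_cr1, connR_cr2,
      connR_c n t]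
    linear_combination (Real.sin s * Real.sin t * x 0 - (n 0 * x 0 + n 1 * x 1 + n 2 * x 2) *
      (1 - Real.cos s) * (1 - Real.cos t) * n 0) * hN
  · simp only [Fin.zero_eta, Fin.mk_one, Fin.reduceFinMk, connR_cr0, connR_cr1, connR_cr2,
      connR_c n t]
    linear_combination (Real.sin s * Real.sin t * x 1 - (n 0 * x 0 + n 1 * x 1 + n 2 * x 2) *
      (1 - Real.cos s) * (1 - Real.cos t) * n 1) * hN
  · simp only [Fin.zero_eta, Fin.mk_one, Fin.reduceFinMk, connR_cr0, connR_cr1, connR_cr2,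
      connR_c n t]
    linear_combination (Real.sin s * Real.sin t * x 2 - (n 0 * x 0 + n 1 * x 1 + n 2 * x 2) *
      (1 - Real.cos s) * (1 - Real.cos t) * n 2) * hN

lemma RR_cont (n x : E3) : Continuous fun t => RR n t x := by
  unfold RR
  exact ((Real.continuous_cos.smul continuous_const).add
    (Real.continuous_sin.smul continuous_const)).add
    (((continuous_const.sub Real.continuous_cos).mul continuous_const).smul continuous_const)

lemma RR_inner (n : E3) (hn : ‖n‖ = 1) (t : ℝ) (x : E3) : ⟪n, RR n t x⟫_ℝ = ⟪n, x⟫_ℝ := by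
  have hN := connR_sq n hn
  rw [connR_ip, connR_ip, connR_c, connR_c, connR_c, connR_cr0, connR_cr1, connR_cr2]
  linear_combination ((1 - Real.cos t) * (n 0 * x 0 + n 1 * x 1 + n 2 * x 2)) * hN

lemma h01 : ∃ θ, ∀ x, (h 0 * h 1) x = RR n1 θ x := by
  obtain ⟨θ, hc, hs⟩ := connR_th
  obtain ⟨a0, a1, a2⟩ := connR_n1
  obtain ⟨b0, b1, b2⟩ := connR_u0
  obtain ⟨c0, c1, c2⟩ := connR_u1
  have hq := connR_q
  refine ⟨θ, fun x => ?_⟩
  ext i
  rw [LinearIsometryEquiv.coe_mul, Function.comp_apply, connR_c n1 θ, hc, hs]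
  generalize (1 / √2 : ℝ) = q at *
  fin_cases i
  · simp only [Fin.zero_eta, Fin.mk_one, Fin.reduceFinMk, connR_cr0, connR_cr1, connR_cr2,
      connR_hc 0, connR_hc 1, a0, a1, a2, b0, b1, b2, c0, c1, c2]
    linear_combination (8 / 9 * (-(x 2) - x 1)) * hq
  · simp only [Fin.zero_eta, Fin.mk_one, Fin.reduceFinMk, connR_cr0, connR_cr1, connR_cr2,
      connR_hc 0, connR_hc 1, a0, a1, a2, b0, b1, b2, c0, c1, c2]
    linear_combination (8 / 9 * x 0 - 16 / 9 * x 1 + 16 / 9 * x 2) * hq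
  · simp only [Fin.zero_eta, Fin.mk_one, Fin.reduceFinMk, connR_cr0, connR_cr1, connR_cr2,
      connR_hc 0, connR_hc 1, a0, a1, a2, b0, b1, b2, c0, c1, c2]
    linear_combination (8 / 9 * x 0 + 16 / 9 * x 1 - 16 / 9 * x 2) * hq

lemma h23 : ∃ θ, ∀ x, (h 2 * h 3) x = RR n2 θ x := by
  obtain ⟨θ, hc, hs⟩ := connR_th
  obtain ⟨a0, a1, a2⟩ := connR_n2
  obtain ⟨b0, b1, b2⟩ := connR_u2
  obtain ⟨c0, c1, c2⟩ := connR_u3
  have hq := connR_q
  refine ⟨θ, fun x => ?_⟩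
  ext i
  rw [LinearIsometryEquiv.coe_mul, Function.comp_apply, connR_c n2 θ, hc, hs]
  generalize (1 / √2 : ℝ) = q at *
  fin_cases i
  · simp only [Fin.zero_eta, Fin.mk_one, Fin.reduceFinMk, connR_cr0, connR_cr1, connR_cr2,
      connR_hc 2, connR_hc 3, a0, a1, a2, b0, b1, b2, c0, c1, c2]
    linear_combination (8 / 9 * x 1 - 8 / 9 * x 2) * hq
  · simp only [Fin.zero_eta, Fin.mk_one, Fin.reduceFinMk, connR_cr0, connR_cr1, connR_cr2,
      connR_hc 2, connR_hc 3, a0, a1, a2, b0, b1, b2, c0, c1, c2]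
    linear_combination (-(8 / 9) * x 0 - 16 / 9 * x 1 - 16 / 9 * x 2) * hq
  · simp only [Fin.zero_eta, Fin.mk_one, Fin.reduceFinMk, connR_cr0, connR_cr1, connR_cr2,
      connR_hc 2, connR_hc 3, a0, a1, a2, b0, b1, b2, c0, c1, c2]
    linear_combination (8 / 9 * x 0 - 16 / 9 * x 1 - 16 / 9 * x 2) * hq

end Pool.Agent.MP_f406e2_lc_QD
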