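import Mathlib
import Pool.Agent.Lib.MP_f406e2_lc_QD.ConnR
import Pool.Agent.Lib.MP_f406e2_lc_QD.Meas

/-!
# QD, module ConnB: invariance under all rotations about an axis

The set `S` of all `t` with `φ (R t x) = φ x` for all `x` (`R t = RR n t` on the sphere) is a closed
subgroup of `ℝ`, which contains `2π` and `θ`. By `AddSubgroup.dense_or_cyclic` it is dense, hence
everything, or it is generated by some `a`; then `2π = p a`, `θ = q a` with integers `p ≠ 0`, so
`p θ = q 2π` and `g ^ p = 1` (`g x = RR n θ x`, so `g ^ k x = RR n (k θ) x`; `RR_two_pi`, `RR_add`),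
a contradiction for `p > 0`; for `p < 0` take `-p`, `-q`.
-/

set_option autoImplicit false

noncomputable section

namespace Pool.Agent.MP_f406e2_lc_QD

open scoped InnerProductSpace

/-- the rotation on the sphere -/
private def connB_R (n : E3) (hn : ‖n‖ = 1) (t : ℝ) (x : S2) : S2 :=
  ⟨RR n t x.1, by
    have h := x.2
    rw [mem_sphere_zero_iff_norm] at h ⊢
    rw [RR_norm n hn, h]⟩

private lemma connB_pow (n : E3) (hn : ‖n‖ = 1) (g : O3) (θ : ℝ) (hg : ∀ x, g x = RR n θ x)
    (k : ℕ) (x : E3) : (g ^ k) x = RR n ((k : ℝ) * θ) x := by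
  induction k with
  | zero =>
    rw [pow_zero, Nat.cast_zero, zero_mul, RR_zero]
    rfl
  | succ k ih =>
    rw [pow_succ', LinearIsometryEquiv.coe_mul, Function.comp_apply, ih, hg]
    have h1 : ((k + 1 : ℕ) : ℝ) * θ = θ + (k : ℝ) * θ := by
      push_cast
      ring
    rw [h1, RR_add n hn]

private lemma connB_two_pi (n : E3) (hn : ‖n‖ = 1) (k : ℕ) (x : E3) :
    RR n ((k : ℝ) * (2 * Real.pi)) x = x := by
  induction k with
  | zero => rw [Nat.cast_zero, zero_mul, RR_zero]
  | succ k ih =>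
    have h1 : ((k + 1 : ℕ) : ℝ) * (2 * Real.pi) = 2 * Real.pi + (k : ℝ) * (2 * Real.pi) := by
      push_cast
      ring
    rw [h1, RR_add n hn, ih, RR_two_pi]

private lemma connB_neg (n : E3) (hn : ‖n‖ = 1) (t : ℝ) (ht : ∀ x : E3, RR n t x = x) (x : E3) :
    RR n (-t) x = x := by
  conv_lhs => rw [← ht x]
  rw [← RR_add n hn, neg_add_cancel, RR_zero]

private lemma connB_int (n : E3) (hn : ‖n‖ = 1) (k : ℤ) (x : E3) :
    RR n ((k : ℝ) * (2 * Real.pi)) x = x := by
  obtain ⟨m, rfl | rfl⟩ := Int.eq_nat_or_neg k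
  · rw [Int.cast_natCast]
    exact connB_two_pi n hn m x
  · have h1 : (((-(m : ℤ) : ℤ) : ℝ)) * (2 * Real.pi) = -((m : ℝ) * (2 * Real.pi)) := by
      push_cast
      ring
    rw [h1]
    exact connB_neg n hn _ (connB_two_pi n hn m) x

/-- the periods -/
private def connB_S (φ : S2 → ℝ) (n : E3) (hn : ‖n‖ = 1) : AddSubgroup ℝ where
  carrier := {t | ∀ x, φ (connB_R n hn t x) = φ x}
  add_mem' := by
    intro s t hs ht x
    have h1 : connB_R n hn (s + t) x = connB_R n hn s (connB_R n hn t x) :=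
      Subtype.ext (RR_add n hn s t x.1)
    rw [h1, hs, ht]
  zero_mem' := by
    intro x
    have h1 : connB_R n hn 0 x = x := Subtype.ext (RR_zero n x.1)
    rw [h1]
  neg_mem' := by
    intro t ht x
    have h1 : connB_R n hn t (connB_R n hn (-t) x) = x := by
      apply Subtype.ext
      change RR n t (RR n (-t) x.1) = x.1
      rw [← RR_add n hn, add_neg_cancel, RR_zero]
    have h2 := ht (connB_R n hn (-t) x)
    rw [h1] at h2
    exact h2.symm

private lemma connB_mem (φ : S2 → ℝ) (n : E3) (hn : ‖n‖ = 1) (t : ℝ) :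
    t ∈ connB_S φ n hn ↔ ∀ x, φ (connB_R n hn t x) = φ x := Iff.rfl

private lemma connB_closed (φ : S2 → ℝ) (hc : Continuous φ) (n : E3) (hn : ‖n‖ = 1) :
    IsClosed (connB_S φ n hn : Set ℝ) := by
  have h1 : (connB_S φ n hn : Set ℝ) = ⋂ x, {t | φ (connB_R n hn t x) = φ x} := by
    ext t
    simp only [SetLike.mem_coe, connB_mem, Set.mem_iInter, Set.mem_ofPred_eq]
  rw [h1]
  refine isClosed_iInter fun x => isClosed_eq ?_ continuous_const
  refine hc.comp ?_
  exact Continuous.subtype_mk (RR_cont n x.1) _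

theorem inv_all (φ : S2 → ℝ) (hc : Continuous φ) (n : E3) (hn : ‖n‖ = 1) (g : O3) (θ : ℝ)
    (hg : ∀ x, g x = RR n θ x) (hord : ∀ k : ℕ, 0 < k → g ^ k ≠ 1) (hφ : ∀ x : S2, φ (g • x) = φ x)
    (t : ℝ) (x y : S2) (hy : y.1 = RR n t x.1) : φ y = φ x := by
  have hθ : θ ∈ connB_S φ n hn := by
    rw [connB_mem]
    intro x
    have h1 : connB_R n hn θ x = g • x := Subtype.ext (hg x.1).symm
    rw [h1, hφ]
  have hpi : 2 * Real.pi ∈ connB_S φ n hn := by
    rw [connB_mem]
    intro x
    have h1 : connB_R n hn (2 * Real.pi) x = x := Subtype.ext (RR_two_pi n x.1)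
    rw [h1]
  have hall : t ∈ connB_S φ n hn := by
    rcases (connB_S φ n hn).dense_or_cyclic with hd | ⟨a, ha⟩
    · have h1 : (connB_S φ n hn : Set ℝ) = Set.univ := by
        rw [← (connB_closed φ hc n hn).closure_eq]
        exact hd.closure_eq
      have h2 : t ∈ (connB_S φ n hn : Set ℝ) := by
        rw [h1]
        trivial
      exact h2
    · exfalso
      rw [ha, AddSubgroup.mem_closure_singleton] at hθ hpi
      obtain ⟨q, hq⟩ := hθ
      obtain ⟨p, hp⟩ := hpi
      rw [zsmul_eq_mul] at hq hp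
      have hp0 : p ≠ 0 := by
        rintro rfl
        rw [Int.cast_zero, zero_mul] at hp
        have := Real.pi_pos
        linarith
      have h1 : (p : ℝ) * θ = (q : ℝ) * (2 * Real.pi) := by
        rw [← hq, ← hp]
        ring
      have h2 : ∀ x : E3, RR n ((p : ℝ) * θ) x = x := by
        intro x
        rw [h1]
        exact connB_int n hn q x
      refine hord p.natAbs (Int.natAbs_pos.2 hp0) ?_
      apply LinearIsometryEquiv.ext
      intro x
      rw [connB_pow n hn g θ hg]
      change _ = x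
      obtain ⟨m, hm | hm⟩ := Int.eq_nat_or_neg p
      · have h3 : ((p.natAbs : ℕ) : ℝ) = (p : ℝ) := by
          rw [hm]
          simp
        rw [h3]
        exact h2 x
      · have h3 : ((p.natAbs : ℕ) : ℝ) * θ = -((p : ℝ) * θ) := by
          rw [hm]
          simp
        rw [h3]
        exact connB_neg n hn _ h2 x
  have h1 : y = connB_R n hn t x := Subtype.ext hy
  rw [h1]
  exact (connB_mem φ n hn t).1 hall x

end Pool.Agent.MP_f406e2_lc_QD
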