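import Mathlib
import Pool.Agent.Lib.MP_f406e2_lc_QD.ConnB

/-!
# QD, module Conn: invariant continuous functions are constant

Let `φ` be continuous with `φ (h i • x) = φ (h j • x)` for all `i, j, x`. Then
`φ ((h i * h j) • x) = φ x` (replace `x` by `h j • x`).

(1) `(h 0 * h 1) ^ k ≠ 1` for `k > 0` by `faithful` for the reduced word `0 1 0 1 ... 0 1`, and
`(h 2 * h 3) ^ k ≠ 1` in the same way. So by `inv_all` and `h01`, `h23` `φ` is invariant under all
`RR n1 t`, `RR n2 t`.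

(2) Put `a = (1, 0, 0)`; `a, n1, n2` are
orthonormal. Let `x` be on the sphere. Choose `t` with `⟪a, RR n1 t x⟫ = cos t ⟪a, x⟫ + sin t
⟪a, cr n1 x⟫ = 0`; the point `y = RR n1 t x` lies in the span of `n1, n2`. Choose `s` with
`⟪n1, RR n2 s y⟫ = 0`; `z = RR n2 s y` is orthogonal to `n1`. Choose `t'` with `⟪a, RR n1 t' z⟫ = 0`;
`w = RR n1 t' z` is orthogonal to `n1` (`RR_inner`) and to `a`, so `w = ± n2`, and
`RR n1 π n2 = - n2`. Hence `φ x = φ n2`.
(For `α, β` real there is `t` with `cos t α + sin t β = 0`: if `(α, β) ≠ 0` take the argument of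
`β - i α`.)
-/

set_option autoImplicit false

noncomputable section

namespace Pool.Agent.MP_f406e2_lc_QD

open scoped InnerProductSpace

/-- the alternating word `i j i j ... i j` -/
private def conn_alt (i j : Fin 4) : ℕ → List (Fin 4)
  | 0 => []
  | k + 1 => i :: j :: conn_alt i j k

private lemma conn_alt_red (i j : Fin 4) (hij : i ≠ j) : ∀ k, Red (conn_alt i j k)
  | 0 => trivial
  | 1 => ⟨hij, trivial⟩
  | k + 2 => ⟨hij, hij.symm, conn_alt_red i j hij (k + 1)⟩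

private lemma conn_alt_wd (i j : Fin 4) (k : ℕ) : wd (conn_alt i j k) = (h i * h j) ^ k := by
  induction k with
  | zero => rfl
  | succ k ih =>
    rw [pow_succ', ← ih, mul_assoc]
    rfl

private lemma conn_ord (i j : Fin 4) (hij : i ≠ j) (k : ℕ) (hk : 0 < k) :
    (h i * h j) ^ k ≠ 1 := by
  intro hh
  have h1 : F 1 * wd (conn_alt i j k) = 1 := by
    rw [map_one, one_mul, conn_alt_wd, hh]
  have h2 := (faithful 1 _ (conn_alt_red i j hij k) h1).2
  cases k with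
  | zero => exact lt_irrefl _ hk
  | succ k => exact List.cons_ne_nil _ _ h2

private lemma conn_hh (j : Fin 4) : h j * h j = 1 := by
  apply LinearIsometryEquiv.ext
  intro x
  rw [LinearIsometryEquiv.coe_mul, Function.comp_apply, h, Submodule.reflection_reflection]
  rfl

private lemma conn_inv (φ : S2 → ℝ) (hφ : ∀ i j x, φ (h i • x) = φ (h j • x)) (i j : Fin 4)
    (x : S2) : φ ((h i * h j) • x) = φ x := by
  rw [mul_smul, hφ i j (h j • x), ← mul_smul, conn_hh, one_smul]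

private lemma conn_angle (α β : ℝ) : ∃ t : ℝ, Real.cos t * α + Real.sin t * β = 0 := by
  by_cases hz : (⟨β, -α⟩ : ℂ) = 0
  · have h1 := congrArg Complex.re hz
    have h2 := congrArg Complex.im hz
    simp only [Complex.zero_re, Complex.zero_im] at h1 h2
    refine ⟨0, ?_⟩
    rw [h1, neg_eq_zero.1 h2]
    ring
  · refine ⟨Complex.arg ⟨β, -α⟩, ?_⟩
    rw [Complex.cos_arg hz, Complex.sin_arg]
    ring

private lemma conn_inner (v w : E3) : ⟪v, w⟫_ℝ = v 0 * w 0 + v 1 * w 1 + v 2 * w 2 := by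
  rw [PiLp.inner_apply, Fin.sum_univ_three]
  simp only [RCLike.inner_apply, conj_trivial]
  ring

private lemma conn_n1_n2 : ⟪n1, n2⟫_ℝ = 0 := by
  rw [conn_inner]
  simp [n1, n2]
  ring

private lemma conn_RR_zero (t : ℝ) (x : E3) :
    RR n1 t x 0 = Real.cos t * x 0 + Real.sin t * cr n1 x 0 := by
  simp [RR, n1]

private lemma conn_RR_inner (s : ℝ) (y : E3) :
    ⟪n1, RR n2 s y⟫_ℝ = Real.cos s * ⟪n1, y⟫_ℝ + Real.sin s * ⟪n1, cr n2 y⟫_ℝ := by
  rw [RR, inner_add_right, inner_add_right, inner_smul_right, inner_smul_right, inner_smul_right,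
    conn_n1_n2]
  ring

/-- a point of the sphere orthogonal to `a` and `n1` is `± n2` -/
private lemma conn_pm (w : E3) (hw : ‖w‖ = 1) (h0 : w 0 = 0) (h1 : ⟪n1, w⟫_ℝ = 0) :
    w = n2 ∨ w = -n2 := by
  have hs : (√2 : ℝ) ≠ 0 := by positivity
  have hs2 : (√2 : ℝ) ^ 2 = 2 := Real.sq_sqrt (by norm_num)
  have h2 : w 1 = w 2 := by
    rw [conn_inner] at h1
    simp [n1] at h1
    field_simp at h1
    linarith
  have h3 : w 0 * w 0 + w 1 * w 1 + w 2 * w 2 = 1 := by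
    rw [← conn_inner, real_inner_self_eq_norm_sq, hw]
    norm_num
  rw [h0, h2] at h3
  have h4 : (w 2 - 1 / √2) * (w 2 + 1 / √2) = 0 := by
    have h5 : (1 / √2 : ℝ) * (1 / √2) = 1 / 2 := by
      rw [div_mul_div_comm, Real.mul_self_sqrt (by norm_num)]
      norm_num
    nlinarith
  rcases mul_eq_zero.1 h4 with h5 | h5
  · left
    have h6 : w 2 = 1 / √2 := by linarith
    ext i
    fin_cases i
    · simpa [n2] using h0
    · simpa [n2, h2] using h6
    · simpa [n2] using h6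
  · right
    have h6 : w 2 = -(1 / √2) := by linarith
    ext i
    fin_cases i
    · simpa [n2] using h0
    · simpa [n2, h2] using h6
    · simpa [n2] using h6

theorem const_of_inv (φ : S2 → ℝ) (hc : Continuous φ)
    (hφ : ∀ i j x, φ (h i • x) = φ (h j • x)) : ∃ c, ∀ x, φ x = c := by
  obtain ⟨θ1, hθ1⟩ := h01
  obtain ⟨θ2, hθ2⟩ := h23
  have i1 := inv_all φ hc n1 norm_n1 (h 0 * h 1) θ1 hθ1 (conn_ord 0 1 (by decide))
    (conn_inv φ hφ 0 1)
  have i2 := inv_all φ hc n2 norm_n2 (h 2 * h 3) θ2 hθ2 (conn_ord 2 3 (by decide))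
    (conn_inv φ hφ 2 3)
  have hsph : ∀ (n : E3), ‖n‖ = 1 → ∀ (t : ℝ) (x : S2), RR n t x.1 ∈ Metric.sphere (0 : E3) 1 := by
    intro n hn t x
    have hx := x.2
    rw [mem_sphere_zero_iff_norm] at hx ⊢
    rw [RR_norm n hn, hx]
  let p : S2 := ⟨n2, by
    rw [mem_sphere_zero_iff_norm]
    exact norm_n2⟩
  refine ⟨φ p, fun x => ?_⟩
  obtain ⟨t, ht⟩ := conn_angle (x.1 0) (cr n1 x.1 0)
  let y : S2 := ⟨RR n1 t x.1, hsph n1 norm_n1 t x⟩
  obtain ⟨s, hs⟩ := conn_angle ⟪n1, y.1⟫_ℝ ⟪n1, cr n2 y.1⟫_ℝ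
  let z : S2 := ⟨RR n2 s y.1, hsph n2 norm_n2 s y⟩
  obtain ⟨t', ht'⟩ := conn_angle (z.1 0) (cr n1 z.1 0)
  let w : S2 := ⟨RR n1 t' z.1, hsph n1 norm_n1 t' z⟩
  have e1 : φ y = φ x := i1 t x y rfl
  have e2 : φ z = φ y := i2 s y z rfl
  have e3 : φ w = φ z := i1 t' z w rfl
  have hw : ‖w.1‖ = 1 := mem_sphere_zero_iff_norm.1 w.2
  have hw0 : w.1 0 = 0 := by
    change RR n1 t' z.1 0 = 0
    rw [conn_RR_zero, ht']
  have hw1 : ⟪n1, w.1⟫_ℝ = 0 := by
    change ⟪n1, RR n1 t' z.1⟫_ℝ = 0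
    rw [RR_inner n1 norm_n1]
    change ⟪n1, RR n2 s y.1⟫_ℝ = 0
    rw [conn_RR_inner, hs]
  have e4 : φ w = φ p := by
    rcases conn_pm w.1 hw hw0 hw1 with h1 | h1
    · have h2 : w = p := Subtype.ext h1
      rw [h2]
    · refine i1 Real.pi p w ?_
      rw [h1]
      change -n2 = RR n1 Real.pi n2
      rw [RR, conn_n1_n2, Real.cos_pi, Real.sin_pi]
      simp
  rw [← e1, ← e2, ← e3, e4]

end Pool.Agent.MP_f406e2_lc_QD
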