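import Mathlib
import Pool.Agent.Lib.MP_f406e2_lc_QD.PolyL

/-!
# QD, module PolyM: the filtration by the degree

* `VH_orth`: the antipodal map `x ↦ -x` is `-1 ∈ O3`; `UU (-1)` acts on `VH n` by `(-1)^n`
  (`LinearIsometryEquiv.neg`), and `UU (-1)` preserves the inner product. (Or directly: the
  integral of `p q`, a form of odd degree, is zero.)
* `PP_succ`: a polynomial of degree `≤ n + 1` is the sum of its homogeneous components; the
component
  of degree `i` lies in `VH i ⊆ VH n` or `VH (n+1)` by `VH_le`.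
* `PP_mono`, `PP_TT`: immediate (`UU_toL`; `subst` does not raise the degree; or by `PP_succ`,
  `PP_zero` and `VH_inv`).
* `one_mem`: constants. `TT_one`: `UU g one = one`. `norm_one`: `nu` is a probability measure.
-/

set_option autoImplicit false

noncomputable section

namespace Pool.Agent.MP_f406e2_lc_QD

open MeasureTheory MvPolynomial Pool.Agent.MP_f406e2_lc_SP
open scoped InnerProductSpace

/-- a form of degree `n` at a multiple -/
private lemma PolyM_smul (n : ℕ) (p : MvPolynomial (Fin 3) ℝ)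
    (hp : p ∈ homogeneousSubmodule (Fin 3) ℝ n) (c : ℝ) (x : Fin 3 → ℝ) :
    eval (c • x) p = c ^ n * eval x p := by
  have hp' : p.IsHomogeneous n := hp
  rw [eval_eq, eval_eq, Finset.mul_sum]
  refine Finset.sum_congr rfl fun d hd => ?_
  have h1 : (∏ i ∈ d.support, (c • x) i ^ d i) = c ^ n * ∏ i ∈ d.support, x i ^ d i := by
    have h2 : ∀ i, (c • x) i ^ d i = c ^ d i * x i ^ d i := by
      intro i
      rw [Pi.smul_apply, smul_eq_mul, mul_pow]
    simp only [h2]
    rw [Finset.prod_mul_distrib, Finset.prod_pow_eq_pow_sum]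
    congr 2
    have h3 := hp'.degree_eq_sum_deg_support hd
    rw [h3]
  rw [h1]
  ring

/-- the antipodal map on the forms of degree `n` -/
private lemma PolyM_neg (n : ℕ) (p : MvPolynomial (Fin 3) ℝ)
    (hp : p ∈ homogeneousSubmodule (Fin 3) ℝ n) :
    UU (LinearIsometryEquiv.neg ℝ) (toL p) = (-1 : ℝ) ^ n • toL p := by
  apply Lp.ext
  filter_upwards [UU_coe (LinearIsometryEquiv.neg ℝ) (toL p),
    (mp (LinearIsometryEquiv.neg ℝ)).quasiMeasurePreserving.ae (toL_coe p), toL_coe p,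
    Lp.coeFn_smul ((-1 : ℝ) ^ n) (toL p)] with x h1 h2 h3 h4
  rw [h1, h2, h4, Pi.smul_apply, h3, ev_apply, ev_apply, smul_eq_mul,
    ← PolyM_smul n p hp (-1) (fun j => x.1 j)]
  congr 1
  congr 1
  funext j
  rw [Pi.smul_apply, smul_eq_mul, neg_one_mul]
  rfl

/-- forms of lower degree -/
private lemma PolyM_le_add (i k : ℕ) : VH i ≤ VH (i + 2 * k) := by
  induction k with
  | zero => exact le_refl _
  | succ k ih =>
    refine ih.trans ?_
    have h1 := VH_le (i + 2 * k)
    have h2 : i + 2 * (k + 1) = i + 2 * k + 2 := by ring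
    rw [h2]
    exact h1

/-- forms of lower degree -/
private lemma PolyM_le_sup (n i : ℕ) (hi : i ≤ n + 1) : VH i ≤ VH n ⊔ VH (n + 1) := by
  rcases Nat.even_or_odd (n + 1 - i) with h1 | h1
  · obtain ⟨k, hk⟩ := h1
    have h2 : i + 2 * k = n + 1 := by omega
    have h3 := PolyM_le_add i k
    rw [h2] at h3
    exact h3.trans le_sup_right
  · obtain ⟨k, hk⟩ := h1
    have h2 : i + 2 * k = n := by omega
    have h3 := PolyM_le_add i k
    rw [h2] at h3
    exact h3.trans le_sup_left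

lemma VH_orth (n : ℕ) (f f' : L2) (hf : f ∈ VH n) (hf' : f' ∈ VH (n + 1)) : ⟪f, f'⟫_ℝ = 0 := by
  obtain ⟨p, hp, rfl⟩ := hf
  obtain ⟨q, hq, rfl⟩ := hf'
  have h1 := PolyM_neg n p hp
  have h2 := PolyM_neg (n + 1) q hq
  have h3 := (UU (LinearIsometryEquiv.neg ℝ)).inner_map_map (toL p) (toL q)
  rw [h1, h2, inner_smul_left, inner_smul_right, conj_trivial, pow_succ] at h3
  have h4 : ((-1 : ℝ) ^ n) * ((-1 : ℝ) ^ n) = 1 := by
    rw [← mul_pow]
    norm_num
  have h5 : (-1 : ℝ) ^ n * ((-1) ^ n * -1 * ⟪toL p, toL q⟫_ℝ) =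
      - (((-1 : ℝ) ^ n) * ((-1 : ℝ) ^ n) * ⟪toL p, toL q⟫_ℝ) := by
    ring
  rw [h5, h4] at h3
  linarith

lemma PP_zero : PP 0 = VH 0 := by
  unfold PP VH
  congr 1
  ext p
  rw [mem_restrictTotalDegree, mem_homogeneousSubmodule, Nat.le_zero,
    totalDegree_zero_iff_isHomogeneous]

lemma PP_succ (n : ℕ) : PP (n + 1) = VH n ⊔ VH (n + 1) := by
  apply le_antisymm
  · rintro _ ⟨p, hp, rfl⟩
    have hp' : p.totalDegree ≤ n + 1 := (mem_restrictTotalDegree _ _ _).1 hp
    rw [← sum_homogeneousComponent p, map_sum]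
    refine Submodule.sum_mem _ fun i hi => ?_
    rw [Finset.mem_range] at hi
    apply PolyM_le_sup n i (by omega)
    exact ⟨_, homogeneousComponent_mem i p, rfl⟩
  · apply sup_le
    · rintro _ ⟨p, hp, rfl⟩
      refine ⟨p, ?_, rfl⟩
      have h1 : p.IsHomogeneous n := hp
      exact (mem_restrictTotalDegree _ _ _).2 (h1.totalDegree_le.trans (Nat.le_succ n))
    · rintro _ ⟨p, hp, rfl⟩
      refine ⟨p, ?_, rfl⟩
      have h1 : p.IsHomogeneous (n + 1) := hp
      exact (mem_restrictTotalDegree _ _ _).2 h1.totalDegree_le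

lemma PP_mono {m n : ℕ} (hmn : m ≤ n) : PP m ≤ PP n := by
  apply Submodule.map_mono
  intro p hp
  exact (mem_restrictTotalDegree _ _ _).2 (((mem_restrictTotalDegree _ _ _).1 hp).trans hmn)

lemma VH_le_PP (n : ℕ) : VH n ≤ PP n := by
  apply Submodule.map_mono
  intro p hp
  have h1 : p.IsHomogeneous n := hp
  exact (mem_restrictTotalDegree _ _ _).2 h1.totalDegree_le

lemma PP_TT (n : ℕ) (f : L2) (hf : f ∈ PP n) : TT f ∈ PP n := by
  rw [TT_apply]
  refine Submodule.sum_mem _ fun j _ => ?_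
  cases n with
  | zero =>
    rw [PP_zero] at hf ⊢
    exact VH_inv 0 (h j) f hf
  | succ n =>
    rw [PP_succ] at hf ⊢
    obtain ⟨a, ha, b, hb, rfl⟩ := Submodule.mem_sup.1 hf
    rw [map_add]
    exact Submodule.add_mem_sup (VH_inv n (h j) a ha) (VH_inv (n + 1) (h j) b hb)

/-- the constant function 1 -/
def one : L2 := toL 1

lemma one_coe : one =ᵐ[nu] fun _ => (1 : ℝ) := by
  unfold one
  filter_upwards [toL_coe 1] with x hx
  rw [hx, map_one]
  rfl

lemma one_mem (n : ℕ) : one ∈ PP n := by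
  apply PP_mono (Nat.zero_le n)
  rw [PP_zero]
  exact ⟨1, isHomogeneous_one _ _, rfl⟩

lemma TT_one : TT one = (4 : ℝ) • one := by
  rw [TT_apply]
  have h1 : ∀ j : Fin 4, UU (h j) one = one := by
    intro j
    unfold one
    rw [UU_toL, map_one]
  rw [Finset.sum_congr rfl fun j _ => h1 j, Finset.sum_const, Finset.card_univ, Fintype.card_fin,
    ← Nat.cast_smul_eq_nsmul ℝ]
  norm_num

lemma norm_one : ‖one‖ = 1 := by
  have h1 : ‖one‖ ^ 2 = 1 := by
    rw [← real_inner_self_eq_norm_sq, MeasureTheory.L2.inner_def]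
    have h2 : (fun x : S2 => ⟪(one : S2 → ℝ) x, (one : S2 → ℝ) x⟫_ℝ) =ᵐ[nu] fun _ => (1 : ℝ) := by
      filter_upwards [one_coe] with x hx
      rw [hx]
      simp
    rw [integral_congr_ae h2]
    simp
  exact (sq_eq_sq₀ (norm_nonneg _) zero_le_one).1 (by rw [h1, one_pow])

end Pool.Agent.MP_f406e2_lc_QD
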