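import Mathlib
import Pool.Agent.Lib.MP_f406e2_lc_QD.PolyL

/-!
# QD, module PolyD: polynomials are dense

Continuous functions are dense in `L²` (`ContinuousMap.toLp_denseRange`) and polynomials are
dense in the continuous functions (`ev_dense`); every polynomial lies in `restrictTotalDegree n`
for its total degree `n`.
-/

set_option autoImplicit false

noncomputable section

namespace Pool.Agent.MP_f406e2_lc_QD

open MeasureTheory MvPolynomial Pool.Agent.MP_f406e2_lc_SP

theorem PP_dense (f : L2) (ε : ℝ) (hε : 0 < ε) : ∃ n, ∃ f' ∈ PP n, ‖f - f'‖ < ε := by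
  have h1 : DenseRange (ContinuousMap.toLp (E := ℝ) 2 nu ℝ : C(S2, ℝ) →L[ℝ] L2) :=
    ContinuousMap.toLp_denseRange ℝ nu ℝ (by norm_num)
  have h2 : DenseRange (ev 3) := by
    intro g
    have h3 : g ∈ (ev 3).range.topologicalClosure := by
      rw [ev_dense]
      trivial
    exact h3
  have h4 : DenseRange ((ContinuousMap.toLp (E := ℝ) 2 nu ℝ : C(S2, ℝ) →L[ℝ] L2) ∘ (ev 3)) :=
    h1.comp h2 (ContinuousLinearMap.continuous _)
  obtain ⟨p, hp⟩ := h4.exists_dist_lt f hε
  refine ⟨p.totalDegree, toL p, ⟨p, ?_, rfl⟩, ?_⟩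
  · exact (mem_restrictTotalDegree (Fin 3) p.totalDegree p).2 le_rfl
  · rw [← dist_eq_norm]
    exact hp

end Pool.Agent.MP_f406e2_lc_QD
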