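import Mathlib
import Pool.Agent.Lib.MP_f406e2_lc_QD.EigLarge
import Pool.Agent.Lib.MP_f406e2_lc_QD.Erg
import Pool.Agent.Lib.MP_f406e2_lc_QD.PolyD

/-!
# QD, module Gap: the spectral gap

Let `l₀` be from `eig_large`, `n₀ = l₀`. On the finite dimensional space
`PP n₀ ∩ one^⊥` the function `‖TT f‖` has a maximum `< 4` on the unit sphere (compactness, `erg`);
let `λ < 4` be larger than it and `λ ≥ 79/20`. Claim: `‖TT f‖ ≤ λ ‖f‖` for all `f ∈ PP n`,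
`f ⊥ one`, by induction on `n ≥ n₀`. Let `f ∈ PP (n+1)`, `f ⊥ one`; let `f'` be the projection to
`PP n`, `f'' = f - f'`. As `one ∈ PP n`, both are orthogonal to `one`. `TT f' ∈ PP n`, and `TT f''`
is orthogonal to `PP n` (symmetry, `PP_TT`), so `‖TT f‖² = ‖TT f'‖² + ‖TT f''‖²`. By `PP_succ`
`f'' = g + k`, `g ∈ VH n`, `k ∈ VH (n+1)`; by `VH_orth` and `f'' ⊥ PP n ⊇ VH n`: `g ⊥ g`, `g = 0`.
So `f''` lies in `E = VH (n+1) ∩ (PP n)^⊥`, which is invariant under the symmetric operator `TT`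
and finite dimensional; all elements `x` of `E` satisfy `Top (n+1) x` (`VH m ⊆ PP m ⊆ PP n`), so by
`eig_large` all eigenvalues of `TT` on `E` are `≤ 79/20` in absolute value, and
`‖TT x‖ ≤ (79/20) ‖x‖` on `E` (`LinearMap.IsSymmetric.eigenvectorBasis`).
Finally let `f ∈ L2`, `f ⊥ one`. By `PP_dense` there are `f k ∈ PP (n k)` with `f k → f`; replace
`f k` by `f k - ⟪f k, one⟫ one` (`one_mem`, `norm_one`); continuity of `TT`.
-/

set_option autoImplicit false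

noncomputable section

namespace Pool.Agent.MP_f406e2_lc_QD

open MeasureTheory
open scoped InnerProductSpace

private theorem Gap_basis {H : Type*} [NormedAddCommGroup H] [InnerProductSpace ℝ H]
    (T : H →L[ℝ] H) (hT : ∀ x y, ⟪T x, y⟫_ℝ = ⟪x, T y⟫_ℝ) (E : Submodule ℝ H)
    [FiniteDimensional ℝ E] (hE : ∀ x ∈ E, T x ∈ E) :
    ∃ (n : ℕ) (b : Fin n → H) (l : Fin n → ℝ), (∀ i, b i ∈ E ∧ b i ≠ 0 ∧ T (b i) = l i • b i) ∧
      ∀ κ : ℝ, 0 ≤ κ → (∀ i, |l i| ≤ κ) → ∀ x ∈ E, ‖T x‖ ≤ κ * ‖x‖ := by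
  obtain ⟨S, hSv⟩ : ∃ S : E →ₗ[ℝ] E, ∀ x : E, ((S x : E) : H) = T x :=
    ⟨(T : H →ₗ[ℝ] H).restrict hE, fun x => rfl⟩
  have hS : S.IsSymmetric := fun x y => by
    rw [Submodule.coe_inner, Submodule.coe_inner, hSv, hSv]
    exact hT _ _
  refine ⟨Module.finrank ℝ E, fun i => (hS.eigenvectorBasis rfl i : H),
    fun i => hS.eigenvalues rfl i, ?_, ?_⟩
  · intro i
    refine ⟨(hS.eigenvectorBasis rfl i).2, ?_, ?_⟩
    · intro h0
      have h1 : ‖hS.eigenvectorBasis rfl i‖ = 1 := (hS.eigenvectorBasis rfl).orthonormal.1 i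
      rw [show hS.eigenvectorBasis rfl i = 0 from Subtype.ext h0, norm_zero] at h1
      norm_num at h1
    · have h1 := congrArg (Subtype.val) (hS.apply_eigenvectorBasis rfl i)
      rw [hSv] at h1
      exact h1
  · intro κ hκ hl x hx
    have h1 := (hS.eigenvectorBasis rfl).sum_sq_norm_inner_right (S ⟨x, hx⟩)
    have h2 := (hS.eigenvectorBasis rfl).sum_sq_norm_inner_right ⟨x, hx⟩
    have h3 : ‖S ⟨x, hx⟩‖ ^ 2 ≤ (κ * ‖(⟨x, hx⟩ : E)‖) ^ 2 := by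
      rw [mul_pow, ← h1, ← h2, Finset.mul_sum]
      refine Finset.sum_le_sum fun i _ => ?_
      rw [← hS, hS.apply_eigenvectorBasis rfl i, inner_smul_left, norm_mul, mul_pow]
      refine mul_le_mul_of_nonneg_right ?_ (sq_nonneg _)
      have h4 := hl i
      simp only [RCLike.ofReal_real_eq_id, id_eq, conj_trivial, Real.norm_eq_abs]
      exact pow_le_pow_left₀ (abs_nonneg _) h4 2
    have h5 := (sq_le_sq₀ (norm_nonneg _) (mul_nonneg hκ (norm_nonneg _))).1 h3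
    rw [Submodule.coe_norm, hSv] at h5
    exact h5

private theorem Gap_lt {n : ℕ} (g : Fin n → ℝ) (a : ℝ) (h0 : 0 < a) (h : ∀ i, g i < a) :
    ∃ κ : ℝ, 0 ≤ κ ∧ κ < a ∧ ∀ i, g i ≤ κ := by
  rcases isEmpty_or_nonempty (Fin n) with hn | hn
  · exact ⟨0, le_rfl, h0, fun i => hn.elim i⟩
  · obtain ⟨i, -, hi⟩ := Finset.exists_max_image Finset.univ g Finset.univ_nonempty
    exact ⟨max 0 (g i), le_max_left _ _, max_lt h0 (h i),
      fun j => (hi j (Finset.mem_univ j)).trans (le_max_right _ _)⟩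

private theorem Gap_eig {H : Type*} [NormedAddCommGroup H] [InnerProductSpace ℝ H]
    (T : H →L[ℝ] H) (hT : ∀ x y, ⟪T x, y⟫_ℝ = ⟪x, T y⟫_ℝ) (E : Submodule ℝ H)
    [FiniteDimensional ℝ E] (hE : ∀ x ∈ E, T x ∈ E) (κ : ℝ) (hκ : 0 ≤ κ)
    (h : ∀ x ∈ E, x ≠ 0 → ∀ c : ℝ, T x = c • x → |c| ≤ κ) : ∀ x ∈ E, ‖T x‖ ≤ κ * ‖x‖ := by
  obtain ⟨n, b, l, hb, hx⟩ := Gap_basis T hT E hE
  exact hx κ hκ fun i => h (b i) (hb i).1 (hb i).2.1 (l i) (hb i).2.2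

private theorem Gap_str {H : Type*} [NormedAddCommGroup H] [InnerProductSpace ℝ H]
    (T : H →L[ℝ] H) (hT : ∀ x y, ⟪T x, y⟫_ℝ = ⟪x, T y⟫_ℝ) (E : Submodule ℝ H)
    [FiniteDimensional ℝ E] (hE : ∀ x ∈ E, T x ∈ E)
    (h : ∀ x ∈ E, x ≠ 0 → ‖T x‖ < 4 * ‖x‖) :
    ∃ κ : ℝ, 0 ≤ κ ∧ κ < 4 ∧ ∀ x ∈ E, ‖T x‖ ≤ κ * ‖x‖ := by
  obtain ⟨n, b, l, hb, hx⟩ := Gap_basis T hT E hE
  obtain ⟨κ, h1, h2, h3⟩ := Gap_lt (fun i => |l i|) 4 (by norm_num) fun i => by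
    have h4 := h (b i) (hb i).1 (hb i).2.1
    rw [(hb i).2.2, norm_smul, Real.norm_eq_abs] at h4
    exact lt_of_mul_lt_mul_right h4 (norm_nonneg _)
  exact ⟨κ, h1, h2, hx κ h1 h3⟩

/-- the induction step -/
private theorem Gap_step {H : Type*} [NormedAddCommGroup H] [InnerProductSpace ℝ H]
    (T : H →L[ℝ] H) (hT : ∀ x y, ⟪T x, y⟫_ℝ = ⟪x, T y⟫_ℝ) (P A B : Submodule ℝ H)
    [FiniteDimensional ℝ P] [FiniteDimensional ℝ B] (hP : ∀ x ∈ P, T x ∈ P)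
    (hB : ∀ x ∈ B, T x ∈ B) (hAP : A ≤ P) (hAB : ∀ x ∈ A, ∀ y ∈ B, ⟪x, y⟫_ℝ = 0)
    (o : H) (ho : o ∈ P) (lam : ℝ) (h0 : 0 ≤ lam)
    (hlam : ∀ x ∈ P, ⟪x, o⟫_ℝ = 0 → ‖T x‖ ≤ lam * ‖x‖)
    (heig : ∀ x ∈ B, x ∈ Pᗮ → x ≠ 0 → ∀ c : ℝ, T x = c • x → |c| ≤ lam)
    (hPB : P ≤ A ⊔ B) (f : H) (hf : f ∈ A ⊔ B) (hfo : ⟪f, o⟫_ℝ = 0) : ‖T f‖ ≤ lam * ‖f‖ := by
  obtain ⟨x, hx, y, hy, rfl⟩ : ∃ x ∈ P, ∃ y ∈ Pᗮ, x + y = f := by
    refine ⟨P.starProjection f, P.starProjection_apply_mem f, f - P.starProjection f,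
      P.sub_starProjection_mem_orthogonal f, ?_⟩
    abel
  have hyP : ∀ p ∈ P, ⟪p, y⟫_ℝ = 0 := fun p hp => hy p hp
  have hyA : y ∈ A ⊔ B := by
    have h1 := (A ⊔ B).sub_mem hf (hPB hx)
    rwa [add_sub_cancel_left] at h1
  have hyB : y ∈ B := by
    obtain ⟨g, hg, k, hk, h2⟩ := Submodule.mem_sup.1 hyA
    have h3 : ⟪g, g⟫_ℝ = 0 := by
      have h4 : ⟪g, g + k⟫_ℝ = 0 := by
        rw [h2]
        exact hyP g (hAP hg)
      rw [inner_add_right, hAB g hg k hk, add_zero] at h4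
      exact h4
    rw [inner_self_eq_zero] at h3
    rw [← h2, h3, zero_add]
    exact hk
  have hTy : ∀ p ∈ P, ⟪p, T y⟫_ℝ = 0 := fun p hp => by
    rw [← hT]
    exact hyP _ (hP p hp)
  have hxo : ⟪x, o⟫_ℝ = 0 := by
    have h1 : ⟪y, o⟫_ℝ = 0 := by
      rw [real_inner_comm]
      exact hyP o ho
    rw [inner_add_left, h1, add_zero] at hfo
    exact hfo
  have : FiniteDimensional ℝ (B ⊓ Pᗮ : Submodule ℝ H) :=
    Submodule.finiteDimensional_of_le inf_le_left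
  have hy1 : ‖T y‖ ≤ lam * ‖y‖ := by
    refine Gap_eig T hT (B ⊓ Pᗮ) (fun z hz => ⟨hB z hz.1, fun p hp => ?_⟩) lam h0
      (fun z hz => heig z hz.1 hz.2) y ⟨hyB, hy⟩
    rw [← hT]
    exact hz.2 _ (hP p hp)
  have hx1 := hlam x hx hxo
  have e1 : ‖x + y‖ ^ 2 = ‖x‖ ^ 2 + ‖y‖ ^ 2 := by
    have := norm_add_sq_eq_norm_sq_add_norm_sq_real (hyP x hx)
    simpa only [sq] using this
  have e2 : ‖T (x + y)‖ ^ 2 = ‖T x‖ ^ 2 + ‖T y‖ ^ 2 := by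
    rw [map_add]
    have := norm_add_sq_eq_norm_sq_add_norm_sq_real (hTy (T x) (hP x hx))
    simpa only [sq] using this
  have e3 : ‖T (x + y)‖ ^ 2 ≤ (lam * ‖x + y‖) ^ 2 := by
    rw [mul_pow, e1, e2, mul_add, ← mul_pow, ← mul_pow]
    exact add_le_add (pow_le_pow_left₀ (norm_nonneg _) hx1 2)
      (pow_le_pow_left₀ (norm_nonneg _) hy1 2)
  exact (sq_le_sq₀ (norm_nonneg _) (mul_nonneg h0 (norm_nonneg _))).1 e3

private theorem Gap_VH (n : ℕ) (x : L2) (hx : x ∈ VH n) : TT x ∈ VH n := by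
  rw [TT_apply]
  exact Submodule.sum_mem _ fun j _ => VH_inv n (h j) x hx

private theorem Gap_all : ∃ lam : ℝ, 0 < lam ∧ lam < 4 ∧ ∃ n₀ : ℕ, ∀ n ≥ n₀, ∀ f ∈ PP n,
    ⟪f, one⟫_ℝ = 0 → ‖TT f‖ ≤ lam * ‖f‖ := by
  obtain ⟨l₀, hl₀⟩ := eig_large
  have hfin : FiniteDimensional ℝ (PP l₀ ⊓ (ℝ ∙ one)ᗮ : Submodule ℝ L2) :=
    Submodule.finiteDimensional_of_le inf_le_left
  have hone : ∀ x : L2, x ∈ (ℝ ∙ one)ᗮ ↔ ⟪x, one⟫_ℝ = 0 := fun x => by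
    rw [Submodule.mem_orthogonal_singleton_iff_inner_left]
  obtain ⟨κ, hκ0, hκ4, hκ⟩ := Gap_str TT TT_symm (PP l₀ ⊓ (ℝ ∙ one)ᗮ)
    (fun x hx => ⟨PP_TT l₀ x hx.1, (hone _).2 (by
      rw [TT_symm, TT_one, inner_smul_right, (hone x).1 hx.2, mul_zero])⟩)
    (fun x hx hx0 => erg l₀ x hx.1 ((hone x).1 hx.2) hx0)
  have hl0 : (0 : ℝ) < max κ (79 / 20) := lt_max_of_lt_right (by norm_num)
  refine ⟨max κ (79 / 20), hl0, max_lt hκ4 (by norm_num), l₀, ?_⟩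
  intro n hn
  induction n, hn using Nat.le_induction with
  | base =>
    intro f hf hfo
    exact (hκ f ⟨hf, (hone f).2 hfo⟩).trans
      (mul_le_mul_of_nonneg_right (le_max_left _ _) (norm_nonneg _))
  | succ n hn ih =>
    intro f hf hfo
    rw [PP_succ] at hf
    refine Gap_step TT TT_symm (PP n) (VH n) (VH (n + 1)) (PP_TT n) (Gap_VH (n + 1))
      (VH_le_PP n) (fun x hx y hy => VH_orth n x y hx hy) one (one_mem n) _ hl0.le ih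
      (fun x hx hxP hx0 c hc => ?_) ?_ f hf hfo
    · refine (hl₀ (n + 1) (by omega) x hx hx0 ?_ c hc).trans (le_max_right _ _)
      intro m hm y hy
      rw [real_inner_comm]
      exact hxP y (PP_mono (by omega) (VH_le_PP m hy))
    · rw [← PP_succ]
      exact PP_mono (Nat.le_succ n)

theorem gap : ∃ lam : ℝ, 0 < lam ∧ lam < 4 ∧ ∀ f : L2, ⟪f, one⟫_ℝ = 0 → ‖TT f‖ ≤ lam * ‖f‖ := by
  obtain ⟨lam, hlam0, hlam4, n₀, hn₀⟩ := Gap_all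
  refine ⟨lam, hlam0, hlam4, fun f hf => ?_⟩
  refine le_of_forall_pos_le_add fun ε hε => ?_
  obtain ⟨n, f', hf', hd⟩ := PP_dense f (ε / 16) (by positivity)
  obtain ⟨a, ha⟩ : ∃ a : ℝ, a = ⟪f', one⟫_ℝ := ⟨_, rfl⟩
  obtain ⟨g, hg⟩ : ∃ g : L2, g = f' - a • one := ⟨_, rfl⟩
  have hgm : g ∈ PP (max n n₀) := by
    rw [hg]
    exact Submodule.sub_mem _ (PP_mono (le_max_left _ _) hf')
      (Submodule.smul_mem _ _ (one_mem _))
  have hgo : ⟪g, one⟫_ℝ = 0 := by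
    rw [hg, inner_sub_left, inner_smul_left, real_inner_self_eq_norm_sq, norm_one, ← ha]
    simp
  have ha1 : |a| ≤ ε / 16 := by
    have h1 : a = ⟪f' - f, one⟫_ℝ := by
      rw [inner_sub_left, hf, sub_zero, ha]
    rw [h1]
    refine (abs_real_inner_le_norm _ _).trans ?_
    rw [norm_one, mul_one, norm_sub_rev]
    exact hd.le
  have h1 : ‖f - g‖ ≤ ε / 8 := by
    have h2 : f - g = (f - f') + a • one := by
      rw [hg]
      abel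
    have h3 : ‖a • one‖ ≤ ε / 16 := by
      rw [norm_smul, norm_one, mul_one, Real.norm_eq_abs]
      exact ha1
    rw [h2]
    refine (norm_add_le _ _).trans ?_
    linarith
  have h2 := hn₀ _ (le_max_right n n₀) g hgm hgo
  have h3 : ‖TT f‖ ≤ ‖TT g‖ + 4 * ‖f - g‖ := by
    have h4 : TT f = TT g + TT (f - g) := by
      rw [← map_add]
      congr 1
      abel
    rw [h4]
    exact (norm_add_le _ _).trans (add_le_add_right (TT_norm_le _) _)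
  have h4 : ‖g‖ ≤ ‖f‖ + ‖f - g‖ := by
    have h5 : g = f - (f - g) := by abel
    calc ‖g‖ = ‖f - (f - g)‖ := by rw [← h5]
      _ ≤ ‖f‖ + ‖f - g‖ := norm_sub_le _ _
  have h5 : lam * ‖g‖ ≤ lam * (‖f‖ + ‖f - g‖) := mul_le_mul_of_nonneg_left h4 hlam0.le
  have h6 : lam * ‖f - g‖ ≤ 4 * ‖f - g‖ := mul_le_mul_of_nonneg_right hlam4.le (norm_nonneg _)
  rw [mul_add] at h5
  linarith

end Pool.Agent.MP_f406e2_lc_QD
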