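import Mathlib
import Pool.Agent.Lib.MP_f406e2_lc_QD.Meas

/-!
# QD, module MeasF: fixed points

`nu_fixed`: if `g ≠ 1` the fixed points of `g` in `E3` are a proper subspace `K`, of volume zero
(`Measure.addHaar_submodule`), and the cone over the fixed points on the sphere lies in `K`
(`toSphere_apply'`; `nu_null`).
-/

set_option autoImplicit false

noncomputable section

namespace Pool.Agent.MP_f406e2_lc_QD

open MeasureTheory Pool.Agent.MP_f406e2_lc_SP

open scoped Pointwise in
theorem nu_fixed (g : O3) (hg : g ≠ 1) : nu {x : S2 | g • x = x} = 0 := by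
  rw [nu_null]
  have hcl : IsClosed {x : S2 | g • x = x} :=
    isClosed_eq (continuous_const_smul g) continuous_id
  have hm : MeasurableSet {x : S2 | g • x = x} := hcl.measurableSet
  unfold sig
  rw [Measure.toSphere_apply' _ hm]
  let K : Submodule ℝ E3 :=
    { carrier := {v | g v = v}
      add_mem' := by
        intro a b ha hb
        show g (a + b) = a + b
        rw [map_add]
        have h1 : g a = a := ha
        have h2 : g b = b := hb
        rw [h1, h2]
      zero_mem' := map_zero g
      smul_mem' := by
        intro c a ha
        show g (c • a) = c • a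
        have h1 : g a = a := ha
        rw [map_smul, h1] }
  have hK : K ≠ ⊤ := by
    intro h
    apply hg
    apply LinearIsometryEquiv.ext
    intro v
    have h1 : v ∈ K := h ▸ Submodule.mem_top
    exact h1
  have h0 : (volume : Measure E3) K = 0 := Measure.addHaar_submodule volume K hK
  have hsub : (Set.Ioo (0 : ℝ) 1 • ((↑) '' {x : S2 | g • x = x}) : Set E3) ⊆ K := by
    intro v hv
    obtain ⟨c, -, w, ⟨x, hx, rfl⟩, rfl⟩ := Set.mem_smul.1 hv
    apply K.smul_mem
    show g x.1 = x.1
    rw [← smul_coe]
    exact congrArg Subtype.val hx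
  rw [measure_mono_null hsub h0, mul_zero]

end Pool.Agent.MP_f406e2_lc_QD
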