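import Mathlib
import Pool.Agent.Lib.MP_f406e2_lc_QD.MeasF

/-!
# QD, module Small: small sets with disjoint translates

For a.e. `x` the points `g • x`, `g ∈ S`, are pairwise different: if `g • x = g' • x`, `g ≠ g'`, then
`x` is fixed by `g'⁻¹ * g ≠ 1` (`nu_fixed`; finitely many pairs). If this is so at `x`, then by
continuity (Hausdorff space, finitely many pairs) `x` has an open neighbourhood `B`, which may be
taken from a countable basis (`TopologicalSpace.countableBasis S2`), with pairwise disjoint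
`g • B`, `g ∈ S`. So `P` is covered up to a null set by the countably many sets `P ∩ B`, `B` in the
basis with disjoint translates, and one of them has positive measure (`measure_biUnion_null_iff`).
-/

set_option autoImplicit false

noncomputable section

namespace Pool.Agent.MP_f406e2_lc_QD

open MeasureTheory

private theorem Small_null (S : Finset O3) :
    nu (⋃ p ∈ {p : O3 × O3 | p ∈ S ×ˢ S ∧ p.1 ≠ p.2}, {x : S2 | p.1 • x = p.2 • x}) = 0 := by
  have hc : {p : O3 × O3 | p ∈ S ×ˢ S ∧ p.1 ≠ p.2}.Countable :=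
    (S ×ˢ S).countable_toSet.mono fun p hp => hp.1
  refine (measure_biUnion_null_iff hc).2 fun p hp => ?_
  have hne : p.1 ≠ p.2 := hp.2
  have h1 : {x : S2 | p.1 • x = p.2 • x} = {x : S2 | (p.2⁻¹ * p.1) • x = x} := by
    ext x
    simp only [Set.mem_ofPred_eq, mul_smul, inv_smul_eq_iff]
  rw [h1]
  exact nu_fixed _ fun h => hne (inv_mul_eq_one.1 h).symm

private theorem Small_nbhd (S : Finset O3) (x : S2)
    (hx : ∀ g ∈ S, ∀ g' ∈ S, g ≠ g' → g • x ≠ g' • x) :
    ∃ B ∈ TopologicalSpace.countableBasis S2, x ∈ B ∧ ∀ g ∈ S, ∀ g' ∈ S, g ≠ g' →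
      Disjoint ((fun x => g • x) '' B) ((fun x => g' • x) '' B) := by
  obtain ⟨U, hU, hd⟩ := Set.Finite.t2_separation
    ((S.finite_toSet).image fun g : O3 => g • x)
  have hV : IsOpen (⋂ g ∈ S, (fun y : S2 => g • y) ⁻¹' U (g • x)) :=
    isOpen_biInter_finset fun g _ => (hU (g • x)).2.preimage (continuous_const_smul g)
  have hxV : x ∈ ⋂ g ∈ S, (fun y : S2 => g • y) ⁻¹' U (g • x) :=
    Set.mem_iInter₂.2 fun g _ => (hU (g • x)).1
  obtain ⟨B, hB, hxB, hBV⟩ :=
    (TopologicalSpace.isBasis_countableBasis S2).exists_subset_of_mem_open hxV hV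
  refine ⟨B, hB, hxB, fun g hg g' hg' hne => ?_⟩
  have h1 : Disjoint (U (g • x)) (U (g' • x)) :=
    hd (Set.mem_image_of_mem _ hg) (Set.mem_image_of_mem _ hg') (hx g hg g' hg' hne)
  refine h1.mono ?_ ?_
  · rintro _ ⟨y, hy, rfl⟩
    exact Set.mem_iInter₂.1 (hBV hy) g hg
  · rintro _ ⟨y, hy, rfl⟩
    exact Set.mem_iInter₂.1 (hBV hy) g' hg'

theorem small_set (P : Set S2) (hP : MeasurableSet P) (hpos : nu P ≠ 0) (S : Finset O3) :
    ∃ E ⊆ P, MeasurableSet E ∧ nu E ≠ 0 ∧ ∀ g ∈ S, ∀ g' ∈ S, g ≠ g' →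
      Disjoint ((fun x => g • x) '' E) ((fun x => g' • x) '' E) := by
  classical
  by_contra hcon
  push Not at hcon
  obtain ⟨T, hT⟩ : ∃ T : Set (Set S2), T = {B | B ∈ TopologicalSpace.countableBasis S2 ∧
      ∀ g ∈ S, ∀ g' ∈ S, g ≠ g' → Disjoint ((fun x => g • x) '' B) ((fun x => g' • x) '' B)} :=
    ⟨_, rfl⟩
  have hTc : T.Countable := by
    rw [hT]
    exact (TopologicalSpace.countable_countableBasis S2).mono fun B hB => hB.1
  have h0 : ∀ B ∈ T, nu (P ∩ B) = 0 := by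
    intro B hB
    rw [hT] at hB
    by_contra h1
    obtain ⟨g, hg, g', hg', hne, hnd⟩ := hcon (P ∩ B) Set.inter_subset_left
      (hP.inter (TopologicalSpace.isOpen_of_mem_countableBasis hB.1).measurableSet) h1
    exact hnd ((hB.2 g hg g' hg' hne).mono (Set.image_mono Set.inter_subset_right)
      (Set.image_mono Set.inter_subset_right))
  have h2 : nu (⋃ B ∈ T, P ∩ B) = 0 := (measure_biUnion_null_iff hTc).2 h0
  have hcov : P ⊆ (⋃ p ∈ {p : O3 × O3 | p ∈ S ×ˢ S ∧ p.1 ≠ p.2},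
      {x : S2 | p.1 • x = p.2 • x}) ∪ ⋃ B ∈ T, P ∩ B := by
    intro x hx
    by_cases h3 : ∃ g ∈ S, ∃ g' ∈ S, g ≠ g' ∧ g • x = g' • x
    · obtain ⟨g, hg, g', hg', hne, he⟩ := h3
      refine Or.inl (Set.mem_iUnion₂.2 ⟨(g, g'), ?_, he⟩)
      exact ⟨Finset.mem_product.2 ⟨hg, hg'⟩, hne⟩
    · obtain ⟨B, hB, hxB, hd⟩ := Small_nbhd S x fun g hg g' hg' hne he =>
        h3 ⟨g, hg, g', hg', hne, he⟩
      refine Or.inr (Set.mem_iUnion₂.2 ⟨B, ?_, hx, hxB⟩)
      rw [hT]
      exact ⟨hB, hd⟩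
  refine hpos (le_antisymm ?_ bot_le)
  refine (measure_mono hcov).trans ((measure_union_le _ _).trans ?_)
  rw [Small_null, h2, add_zero]

end Pool.Agent.MP_f406e2_lc_QD
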