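import Mathlib
import Pool.Agent.Lib.MP_f406e2_lc_QD.Meas
import Pool.Agent.Lib.MP_f406e2_lc_QD.Grp

/-!
# QD, module PM: measurable partial matchings and limits

A partial matching names at each point `x` of the sphere at most one of the four edges
`{x, h j • x}`, symmetrically and equivariantly under the tetrahedral group.

* `un_le`, `dd_triangle`, `dd_symm`: monotonicity of the measure.
* `pm_limit`: put `L.m x = some j` if `(M n).m x = some j` for all large `n`, else `none`. It is
  measurable, equivariant and a matching. By Borel-Cantelli (`measure_limsup_eq_zero` or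
  `measure_setOf_frequently_eq_zero`) for a.e. `x` the values `M n x` are eventually constant, and
  then `L.m x` is this constant. So `{M n ≠ L}` is contained in the union of a null set and
  `⋃ i, {M (n+i) ≠ M (n+i+1)}`.
-/

set_option autoImplicit false

noncomputable section

namespace Pool.Agent.MP_f406e2_lc_QD

open MeasureTheory

/-- measurable equivariant partial matchings -/
structure PM where
  m : S2 → Option (Fin 4)
  meas : ∀ o, MeasurableSet (m ⁻¹' {o})
  equi : ∀ f ∈ alternatingGroup (Fin 4), ∀ x, m (F f • x) = (m x).map f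
  sym : ∀ x j, m x = some j → m (h j • x) = some j

/-- the measure of the unmatched points -/
def un (M : PM) : ℝ := nu.real {x | M.m x = none}

/-- the measure of the points with different values -/
def dd (M M' : PM) : ℝ := nu.real {x | M.m x ≠ M'.m x}

lemma meas_ne (M M' : PM) : MeasurableSet {x | M.m x ≠ M'.m x} := by
  have h1 : {x | M.m x ≠ M'.m x} = ⋃ o, (M.m ⁻¹' {o}) ∩ (M'.m ⁻¹' {o})ᶜ := by
    ext x
    simp only [Set.mem_iUnion, Set.mem_inter_iff, Set.mem_preimage, Set.mem_singleton_iff,
      Set.mem_compl_iff, Set.mem_ofPred_eq]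
    constructor
    · intro hx
      exact ⟨M.m x, rfl, fun hx' => hx hx'.symm⟩
    · rintro ⟨o, ho, ho'⟩ hx
      exact ho' (hx ▸ ho)
  rw [h1]
  exact MeasurableSet.iUnion fun o => (M.meas o).inter (M'.meas o).compl

lemma dd_nonneg (M M' : PM) : 0 ≤ dd M M' := measureReal_nonneg

lemma un_nonneg (M : PM) : 0 ≤ un M := measureReal_nonneg

lemma un_le_one (M : PM) : un M ≤ 1 := by
  exact measureReal_le_one

lemma dd_self (M : PM) : dd M M = 0 := by
  simp [dd]

lemma dd_symm (M M' : PM) : dd M M' = dd M' M := by
  simp only [dd, ne_comm]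

lemma dd_triangle (M M' M'' : PM) : dd M M'' ≤ dd M M' + dd M' M'' := by
  refine le_trans (measureReal_mono ?_ (measure_ne_top _ _)) (measureReal_union_le _ _)
  intro x hx
  by_cases h1 : M.m x = M'.m x
  · exact Or.inr fun h2 => hx (h1.trans h2)
  · exact Or.inl h1

lemma un_le (M M' : PM) : un M ≤ un M' + dd M M' := by
  refine le_trans (measureReal_mono ?_ (measure_ne_top _ _)) (measureReal_union_le _ _)
  intro x hx
  by_cases h1 : M.m x = M'.m x
  · exact Or.inl (h1.symm.trans hx)
  · exact Or.inr h1

/-- the empty matching -/
def PM.empty : PM where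
  m _ := none
  meas o := by
    by_cases h : (none : Option (Fin 4)) = o
    · subst h
      simp
    · have : (fun _ : S2 => (none : Option (Fin 4))) ⁻¹' {o} = ∅ := by
        ext x
        simpa using h
      rw [this]
      exact MeasurableSet.empty
  equi _ _ _ := rfl
  sym _ _ h := by simp at h

/-- the eventual value of a sequence of partial matchings -/
private def pmLimF (M : ℕ → PM) (x : S2) : Option (Fin 4) := by
  classical
  exact if hx : ∃ j, ∀ᶠ n in Filter.atTop, (M n).m x = some j then some hx.choose else none

private lemma pmLimF_some (M : ℕ → PM) (x : S2) (j : Fin 4) :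
    pmLimF M x = some j ↔ ∀ᶠ n in Filter.atTop, (M n).m x = some j := by
  classical
  constructor
  · intro hj
    unfold pmLimF at hj
    by_cases hx : ∃ j, ∀ᶠ n in Filter.atTop, (M n).m x = some j
    · rw [dif_pos hx, Option.some_inj] at hj
      rw [← hj]
      exact hx.choose_spec
    · rw [dif_neg hx] at hj
      exact absurd hj (by simp)
  · intro hj
    have hx : ∃ j, ∀ᶠ n in Filter.atTop, (M n).m x = some j := ⟨j, hj⟩
    unfold pmLimF
    rw [dif_pos hx, Option.some_inj]
    obtain ⟨n, hn1, hn2⟩ := (hx.choose_spec.and hj).exists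
    rw [hn1] at hn2
    exact Option.some_inj.1 hn2

private lemma pmLimF_meas_some (M : ℕ → PM) (j : Fin 4) :
    MeasurableSet (pmLimF M ⁻¹' {some j}) := by
  have h1 : pmLimF M ⁻¹' {some j} = ⋃ N : ℕ, ⋂ n : ℕ, ⋂ _ : N ≤ n, (M n).m ⁻¹' {some j} := by
    ext x
    rw [Set.mem_preimage, Set.mem_singleton_iff, pmLimF_some, Filter.eventually_atTop]
    simp only [Set.mem_iUnion, Set.mem_iInter, Set.mem_preimage, Set.mem_singleton_iff]
  rw [h1]
  exact MeasurableSet.iUnion fun N => MeasurableSet.iInter fun n => MeasurableSet.iInter fun _ =>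
    (M n).meas _

/-- the limit of a sequence of partial matchings -/
private def pmLim (M : ℕ → PM) : PM where
  m := pmLimF M
  meas o := by
    cases o with
    | some j => exact pmLimF_meas_some M j
    | none =>
      have h1 : pmLimF M ⁻¹' {none} = (⋃ j, pmLimF M ⁻¹' {some j})ᶜ := by
        ext x
        simp only [Set.mem_preimage, Set.mem_singleton_iff, Set.mem_compl_iff, Set.mem_iUnion,
          not_exists]
        constructor
        · intro hx j hj
          rw [hx] at hj
          exact absurd hj (by simp)
        · intro hx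
          cases ho : pmLimF M x with
          | none => rfl
          | some j => exact absurd ho (hx j)
      rw [h1]
      exact (MeasurableSet.iUnion fun j => pmLimF_meas_some M j).compl
  equi f hf x := by
    cases ho : pmLimF M x with
    | some j =>
      rw [Option.map_some, pmLimF_some]
      filter_upwards [(pmLimF_some M x j).1 ho] with n hn
      rw [(M n).equi f hf, hn, Option.map_some]
    | none =>
      cases hl : pmLimF M (F f • x) with
      | none => rfl
      | some j =>
        exfalso
        have h1 : pmLimF M x = some (f.symm j) := by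
          rw [pmLimF_some]
          filter_upwards [(pmLimF_some M _ j).1 hl] with n hn
          rw [(M n).equi f hf] at hn
          obtain ⟨i, hi, hij⟩ := Option.map_eq_some_iff.1 hn
          rw [hi, ← hij, Equiv.symm_apply_apply]
        rw [ho] at h1
        exact absurd h1 (by simp)
  sym x j hx := by
    rw [pmLimF_some]
    filter_upwards [(pmLimF_some M x j).1 hx] with n hn
    exact (M n).sym x j hn

private lemma pmLim_some (M : ℕ → PM) (x : S2) (j : Fin 4) :
    (pmLim M).m x = some j ↔ ∀ᶠ n in Filter.atTop, (M n).m x = some j :=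
  pmLimF_some M x j

theorem pm_limit (M : ℕ → PM) (hs : Summable fun n => dd (M n) (M (n + 1))) :
    ∃ L : PM, ∀ n, dd (M n) L ≤ ∑' i, dd (M (n + i)) (M (n + i + 1)) := by
  refine ⟨pmLim M, fun n => ?_⟩
  have h1 : {x | (M n).m x ≠ (pmLim M).m x} ⊆
      ⋃ i, {x | (M (n + i)).m x ≠ (M (n + i + 1)).m x} := by
    intro x hx
    by_contra hcon
    simp only [Set.mem_iUnion, not_exists, Set.mem_ofPred_eq, not_not] at hcon
    have h2 : ∀ i, (M (n + i)).m x = (M n).m x := by
      intro i
      induction i with
      | zero => rfl
      | succ i ih => rw [← ih, ← add_assoc]; exact (hcon i).symm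
    apply hx
    cases ho : (M n).m x with
    | some j =>
      symm
      refine (pmLim_some M x j).2 ?_
      filter_upwards [Filter.eventually_ge_atTop n] with k hk
      obtain ⟨i, rfl⟩ := Nat.exists_eq_add_of_le hk
      rw [h2, ho]
    | none =>
      cases hl : (pmLim M).m x with
      | none => rfl
      | some j =>
        obtain ⟨N, hN⟩ := Filter.eventually_atTop.1 ((pmLim_some M x j).1 hl)
        have h3 := hN (n + N) (Nat.le_add_left _ _)
        rw [h2, ho] at h3
        exact absurd h3 (by simp)
  have h2 : Summable fun i => dd (M (n + i)) (M (n + i + 1)) := by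
    have := (summable_nat_add_iff n).2 hs
    refine this.congr fun i => ?_
    rw [add_comm n i]
  have h3 : nu {x | (M n).m x ≠ (pmLim M).m x} ≤
      ENNReal.ofReal (∑' i, dd (M (n + i)) (M (n + i + 1))) := by
    rw [ENNReal.ofReal_tsum_of_nonneg (fun i => dd_nonneg _ _) h2]
    refine (measure_mono h1).trans ((measure_iUnion_le _).trans (le_of_eq ?_))
    congr 1
    ext i
    rw [dd, Measure.real, ENNReal.ofReal_toReal (measure_ne_top _ _)]
  have h4 := ENNReal.toReal_mono ENNReal.ofReal_ne_top h3
  rwa [ENNReal.toReal_ofReal (tsum_nonneg fun i => dd_nonneg _ _)] at h4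

end Pool.Agent.MP_f406e2_lc_QD
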