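import Mathlib
import Pool.Agent.Lib.MP_f406e2_lc_QD.PM

/-!
# QD, module FlipP: alternating paths

`Aug M w x` says: `x` is the start of an alternating path along the letters of `w` whose first edge
is not in the matching `M` and which ends at an unmatched point. The points of the path are
`pth w t • x`, `0 ≤ t ≤ w.length`.

* `meas_Aug`: by induction on `w` (two letters at a time), continuity of the action and `M.meas`.
* `path_facts`: by induction on `w`, two letters at a time
  (`pth (j :: j' :: w) (t + 2) = pth w t * (h j' * h j)`; for odd `t` the edge in the matching at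
  `pth w t • x` is the next letter `w t`, for even `t > 0` it is the last letter `w (t-1)`, by `sym`).
* `path_letters`: adjacent letters of `w` are different. For odd `t`, `t + 1 < n`:
  `M.m (x t) = some (w t)` and `M.m (x (t+1)) = some (w t)` but the path goes on with an edge not in
  the matching (by the definition of `Aug` at `x (t+1)`: `≠ some (w (t+1))`). For even `t`:
  `M.m (x t) ≠ some (w t)`, and if `w (t+1) = w t` then `M.m (x (t+1)) = some (w t)` and `sym` gives
  `M.m (x t) = some (w t)`. (By induction, two letters at a time.)
-/

set_option autoImplicit false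

noncomputable section

namespace Pool.Agent.MP_f406e2_lc_QD

open MeasureTheory

/-- alternating paths which start with an edge outside the matching and end at an unmatched
point -/
def Aug (M : PM) : List (Fin 4) → S2 → Prop
  | [], _ => False
  | [j], x => M.m x ≠ some j ∧ M.m (h j • x) = none
  | j :: j' :: l, x => M.m x ≠ some j ∧ M.m (h j • x) = some j' ∧ Aug M l (h j' • h j • x)

/-- the isometry which leads to the point number `t` of the path -/
def pth (w : List (Fin 4)) : ℕ → O3
  | 0 => 1
  | t + 1 => h (w.getD t 0) * pth w t

private lemma FlipP_cc (M : PM) (j j' : Fin 4) (l : List (Fin 4)) (x : S2) :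
    Aug M (j :: j' :: l) x ↔
      M.m x ≠ some j ∧ M.m (h j • x) = some j' ∧ Aug M l (h j' • h j • x) := Iff.rfl

private lemma FlipP_pth (j j' : Fin 4) (l : List (Fin 4)) (t : ℕ) :
    pth (j :: j' :: l) (t + 2) = pth l t * (h j' * h j) := by
  induction t with
  | zero => simp [pth]
  | succ t ih =>
    have h1 : pth (j :: j' :: l) (t + 1 + 2) =
        h ((j :: j' :: l).getD (t + 2) 0) * pth (j :: j' :: l) (t + 2) := rfl
    have h2 : pth l (t + 1) = h (l.getD t 0) * pth l t := rfl
    rw [h1, h2, ih, mul_assoc]
    rfl

private lemma FlipP_pthx (j j' : Fin 4) (l : List (Fin 4)) (t : ℕ) (x : S2) :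
    pth (j :: j' :: l) (t + 2) • x = pth l t • h j' • h j • x := by
  rw [FlipP_pth, mul_smul, mul_smul]

lemma meas_Aug (M : PM) (w : List (Fin 4)) : MeasurableSet {x | Aug M w x} := by
  induction w using List.twoStepInduction with
  | nil => exact MeasurableSet.empty
  | singleton j =>
    have h1 : {x | Aug M [j] x} = (M.m ⁻¹' {some j})ᶜ ∩
        (fun x : S2 => h j • x) ⁻¹' (M.m ⁻¹' {none}) := rfl
    rw [h1]
    exact (M.meas _).compl.inter ((mp (h j)).measurable (M.meas _))
  | cons_cons j j' l ih =>
    have h1 : {x | Aug M (j :: j' :: l) x} = (M.m ⁻¹' {some j})ᶜ ∩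
        ((fun x : S2 => h j • x) ⁻¹' (M.m ⁻¹' {some j'}) ∩
          (fun x : S2 => h j • x) ⁻¹' ((fun x : S2 => h j' • x) ⁻¹' {x | Aug M l x})) := rfl
    rw [h1]
    exact (M.meas _).compl.inter (((mp (h j)).measurable (M.meas _)).inter
      ((mp (h j)).measurable ((mp (h j')).measurable ih)))

lemma path_odd (M : PM) (w : List (Fin 4)) (x : S2) (hx : Aug M w x) : Odd w.length := by
  induction w using List.twoStepInduction generalizing x with
  | nil => exact absurd hx id
  | singleton j => exact odd_one
  | cons_cons j j' l ih =>
    have h1 := ih _ hx.2.2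
    rw [List.length_cons, List.length_cons, add_assoc]
    exact h1.add_even even_two

lemma path_end (M : PM) (w : List (Fin 4)) (x : S2) (hx : Aug M w x) :
    M.m (pth w w.length • x) = none := by
  induction w using List.twoStepInduction generalizing x with
  | nil => exact absurd hx id
  | singleton j =>
    have h1 : pth [j] [j].length = h j := by
      change h j * 1 = h j
      rw [mul_one]
    rw [h1]
    exact hx.2
  | cons_cons j j' l ih =>
    have h1 := ih _ hx.2.2
    rw [List.length_cons, List.length_cons, add_assoc]
    change M.m (pth (j :: j' :: l) (l.length + 2) • x) = none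
    rw [FlipP_pthx]
    exact h1

theorem path_facts (M : PM) (w : List (Fin 4)) (x : S2) (hx : Aug M w x) (t : ℕ)
    (h0 : 0 < t) (ht : t < w.length) :
    M.m (pth w t • x) = some (w.getD (if Odd t then t else t - 1) 0) := by
  induction w using List.twoStepInduction generalizing x t with
  | nil => exact absurd hx id
  | singleton j => simp at ht; omega
  | cons_cons j j' l ih =>
    obtain ⟨h1, h2, h3⟩ := hx
    match t, h0, ht with
    | 1, _, _ =>
      have e1 : pth (j :: j' :: l) 1 = h j := by
        change h j * 1 = h j
        rw [mul_one]
      rw [e1, h2, if_pos odd_one]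
      rfl
    | 2, _, _ =>
      have e1 : pth (j :: j' :: l) 2 • x = h j' • h j • x := by
        have := FlipP_pthx j j' l 0 x
        rw [this]
        change (1 : O3) • _ = _
        rw [one_smul]
      rw [e1, if_neg (by decide), M.sym _ _ h2]
      rfl
    | t + 3, _, ht =>
      have e1 : pth (j :: j' :: l) (t + 3) • x = pth l (t + 1) • h j' • h j • x :=
        FlipP_pthx j j' l (t + 1) x
      rw [e1, ih _ h3 (t + 1) (Nat.succ_pos _) (by
        simp only [List.length_cons] at ht
        omega)]
      by_cases ho : Odd (t + 1)
      · have ho' : Odd (t + 3) := by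
          have := ho.add_even even_two
          rwa [add_assoc] at this
        rw [if_pos ho, if_pos ho']
        rfl
      · have ho' : ¬ Odd (t + 3) := by
          intro h4
          apply ho
          rw [Nat.odd_iff] at h4 ⊢
          omega
        rw [if_neg ho, if_neg ho']
        have ht0 : 0 < t := by
          rcases Nat.eq_zero_or_pos t with rfl | h4
          · exact absurd odd_one ho
          · exact h4
        obtain ⟨s, rfl⟩ := Nat.exists_eq_add_of_lt ht0
        simp

private lemma FlipP_start (M : PM) (w : List (Fin 4)) (x : S2) (hx : Aug M w x) :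
    M.m x ≠ some (w.getD 0 0) := by
  match w, hx with
  | [j], hx => exact hx.1
  | j :: j' :: l, hx => exact hx.1

theorem path_letters (M : PM) (w : List (Fin 4)) (x : S2) (hx : Aug M w x) (t : ℕ)
    (ht : t + 1 < w.length) : w.getD t 0 ≠ w.getD (t + 1) 0 := by
  induction w using List.twoStepInduction generalizing x t with
  | nil => exact absurd hx id
  | singleton j => simp at ht
  | cons_cons j j' l ih =>
    obtain ⟨h1, h2, h3⟩ := hx
    match t, ht with
    | 0, _ =>
      intro he
      have he' : j = j' := he
      subst he'
      apply h1
      have h4 := M.sym _ _ h2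
      rwa [smul_smul, h_mul_self, one_smul] at h4
    | 1, _ =>
      intro he
      have he' : j' = l.getD 0 0 := he
      refine FlipP_start M l _ h3 ?_
      rw [← he']
      exact M.sym _ _ h2
    | t + 2, ht =>
      exact ih _ h3 t (by
        simp only [List.length_cons] at ht
        omega)

end Pool.Agent.MP_f406e2_lc_QD
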