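import Mathlib
import Pool.Agent.Lib.MP_f406e2_lc_QD.FlipP

/-!
# QD, module Alt: the points reachable by alternating paths

`EE M k`: the points at the end of an alternating path of even length `≤ 2k` from an unmatched
point (the first edge is not in the matching). `OO M k`: odd length `≤ 2k+1`.

* `EE_mono`, `OO_mono`: by induction.
* `nbr`: if `M.m x ≠ some j` this is the definition (`h j • h j • x = x`). If `M.m x = some j`,
  then `x` is not unmatched, so `k ≥ 1` and `x` is in the second set of `EE M k`, with the letter
  `j`: `h j • x ∈ OO M (k-1) ⊆ OO M k`.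
-/

set_option autoImplicit false

noncomputable section

namespace Pool.Agent.MP_f406e2_lc_QD

open MeasureTheory

/-- the points which are joined by an edge outside the matching to a point of `E` -/
def out (M : PM) (E : Set S2) : Set S2 := {x | ∃ j, h j • x ∈ E ∧ M.m (h j • x) ≠ some j}

/-- reachable by an even alternating path -/
def EE (M : PM) : ℕ → Set S2
  | 0 => {x | M.m x = none}
  | k + 1 => {x | M.m x = none} ∪ {x | ∃ j, M.m x = some j ∧ h j • x ∈ out M (EE M k)}

/-- reachable by an odd alternating path -/
def OO (M : PM) (k : ℕ) : Set S2 := out M (EE M k)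

private lemma out_mono (M : PM) {E E' : Set S2} (hE : E ⊆ E') : out M E ⊆ out M E' := by
  rintro x ⟨j, h1, h2⟩
  exact ⟨j, hE h1, h2⟩

private lemma EE_succ (M : PM) (k : ℕ) : EE M k ⊆ EE M (k + 1) := by
  induction k with
  | zero =>
    intro x hx
    exact Or.inl hx
  | succ k ih =>
    rintro x (hx | ⟨j, h1, h2⟩)
    · exact Or.inl hx
    · exact Or.inr ⟨j, h1, out_mono M ih h2⟩

lemma EE_mono (M : PM) {k l : ℕ} (hkl : k ≤ l) : EE M k ⊆ EE M l :=
  monotone_nat_of_le_succ (f := fun k => EE M k) (EE_succ M) hkl

lemma OO_mono (M : PM) {k l : ℕ} (hkl : k ≤ l) : OO M k ⊆ OO M l :=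
  out_mono M (EE_mono M hkl)

private lemma meas_out (M : PM) {E : Set S2} (hE : MeasurableSet E) : MeasurableSet (out M E) := by
  have h1 : out M E = ⋃ j, (fun x : S2 => h j • x) ⁻¹' (E ∩ (M.m ⁻¹' {some j})ᶜ) := by
    ext x
    simp [out]
  rw [h1]
  apply MeasurableSet.iUnion
  intro j
  exact (continuous_const_smul (h j)).measurable (hE.inter (M.meas (some j)).compl)

lemma meas_EE (M : PM) (k : ℕ) : MeasurableSet (EE M k) := by
  induction k with
  | zero => exact M.meas none
  | succ k ih =>
    apply MeasurableSet.union (M.meas none)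
    have h1 : {x | ∃ j, M.m x = some j ∧ h j • x ∈ out M (EE M k)} =
        ⋃ j, (M.m ⁻¹' {some j} ∩ (fun x : S2 => h j • x) ⁻¹' (out M (EE M k))) := by
      ext x
      simp
    rw [h1]
    apply MeasurableSet.iUnion
    intro j
    exact (M.meas (some j)).inter ((continuous_const_smul (h j)).measurable (meas_out M ih))

lemma meas_OO (M : PM) (k : ℕ) : MeasurableSet (OO M k) := meas_out M (meas_EE M k)

lemma nbr (M : PM) (k : ℕ) (x : S2) (hx : x ∈ EE M k) (j : Fin 4) : h j • x ∈ OO M k := by
  by_cases hj : M.m x = some j
  · cases k with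
    | zero =>
      have : M.m x = none := hx
      rw [this] at hj
      exact absurd hj (by simp)
    | succ k =>
      rcases hx with hx | ⟨j', h1, h2⟩
      · have : M.m x = none := hx
        rw [this] at hj
        exact absurd hj (by simp)
      · have : j' = j := by
          rw [hj] at h1
          exact (Option.some.inj h1).symm
        subst this
        exact OO_mono M (Nat.le_succ k) h2
  · refine ⟨j, ?_, ?_⟩
    · rw [smul_smul, h_mul_self, one_smul]
      exact hx
    · rw [smul_smul, h_mul_self, one_smul]
      exact hj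

end Pool.Agent.MP_f406e2_lc_QD
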