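import Mathlib
import Pool.Agent.Lib.MP_f406e2_lc_QD.Alt

/-!
# QD, module AltM: the matching maps odd points to even points

`EE M (k+1)` contains the disjoint union over `j` of the sets
`{x | M.m x = some j ∧ h j • x ∈ OO M k}` = preimage of `OO M k ∩ {M.m = some j}` under `h j` (by
`sym`), of total measure `nu (OO M k \ {M.m = none})` (`mp`). Unmatched points are in `EE M k`, so
`OO M k ∩ {M.m = none}` is a null set by `hno`.
-/

set_option autoImplicit false

noncomputable section

namespace Pool.Agent.MP_f406e2_lc_QD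

open MeasureTheory

theorem meas_step (M : PM) (k : ℕ) (hno : nu (EE M k ∩ OO M k) = 0) :
    nu.real (OO M k) ≤ nu.real (EE M (k + 1)) := by
  -- the pieces of the odd points
  have hpre : ∀ j : Fin 4, (fun x : S2 => h j • x) ⁻¹' (OO M k ∩ M.m ⁻¹' {some j}) =
      {x | M.m x = some j ∧ h j • x ∈ OO M k} := by
    intro j
    ext x
    constructor
    · rintro ⟨h1, h2⟩
      have h3 := M.sym (h j • x) j h2
      rw [smul_smul, h_mul_self, one_smul] at h3
      exact ⟨h3, h1⟩
    · rintro ⟨h1, h2⟩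
      exact ⟨h2, M.sym x j h1⟩
  have hm : ∀ j : Fin 4, MeasurableSet (OO M k ∩ M.m ⁻¹' {some j}) := fun j =>
    (meas_OO M k).inter (M.meas (some j))
  have hmeas : ∀ j : Fin 4, nu {x | M.m x = some j ∧ h j • x ∈ OO M k} =
      nu (OO M k ∩ M.m ⁻¹' {some j}) := by
    intro j
    rw [← hpre j]
    exact (mp (h j)).measure_preimage (hm j).nullMeasurableSet
  have hm' : ∀ j : Fin 4, MeasurableSet {x | M.m x = some j ∧ h j • x ∈ OO M k} := by
    intro j
    rw [← hpre j]
    exact (mp (h j)).measurable (hm j)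
  -- the odd points
  have hO : nu (OO M k) ≤ ∑ j : Fin 4, nu (OO M k ∩ M.m ⁻¹' {some j}) := by
    have hsub : OO M k ⊆ (EE M k ∩ OO M k) ∪ ⋃ j : Fin 4, (OO M k ∩ M.m ⁻¹' {some j}) := by
      intro x hx
      cases hmx : M.m x with
      | none =>
        left
        refine ⟨EE_mono M (Nat.zero_le k) ?_, hx⟩
        exact hmx
      | some j =>
        right
        exact Set.mem_iUnion.mpr ⟨j, hx, hmx⟩
    calc nu (OO M k) ≤ nu ((EE M k ∩ OO M k) ∪ ⋃ j : Fin 4, (OO M k ∩ M.m ⁻¹' {some j})) :=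
          measure_mono hsub
      _ ≤ nu (EE M k ∩ OO M k) + nu (⋃ j : Fin 4, (OO M k ∩ M.m ⁻¹' {some j})) :=
          measure_union_le _ _
      _ ≤ 0 + ∑ j : Fin 4, nu (OO M k ∩ M.m ⁻¹' {some j}) := by
          rw [hno]
          gcongr
          exact measure_iUnion_fintype_le _ _
      _ = _ := zero_add _
  have hdis : Pairwise (Function.onFun Disjoint
      fun j : Fin 4 => {x | M.m x = some j ∧ h j • x ∈ OO M k}) := by
    intro i j hij
    rw [Function.onFun, Set.disjoint_left]
    rintro x ⟨h1, -⟩ ⟨h2, -⟩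
    rw [h1] at h2
    exact hij (Option.some.inj h2)
  have hE : ∑ j : Fin 4, nu (OO M k ∩ M.m ⁻¹' {some j}) ≤ nu (EE M (k + 1)) := by
    rw [← Finset.sum_congr rfl fun j _ => hmeas j]
    have h1 := measure_iUnion (μ := nu) hdis hm'
    rw [tsum_fintype] at h1
    rw [← h1]
    apply measure_mono
    intro x hx
    obtain ⟨j, h2, h3⟩ := Set.mem_iUnion.mp hx
    exact Or.inr ⟨j, h2, h3⟩
  rw [measureReal_def, measureReal_def]
  exact ENNReal.toReal_mono (measure_ne_top _ _) (hO.trans hE)

end Pool.Agent.MP_f406e2_lc_QD
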