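import Mathlib
import Pool.Agent.Lib.MP_f406e2_lc_QD.Alt

/-!
# QD, module AltN: no augmenting paths

* `aug_of_OO`: if `x ∈ OO M k` there is `w` of length `≤ 2k+1` with `Aug M w x`. Induction on `k`:
  `z = h j • x ∈ EE M k`, `M.m z ≠ some j`, hence `M.m x ≠ some j` (`sym`). If `M.m z = none` take
  `w = [j]`. Otherwise `k ≥ 1`, `M.m z = some i`, `y = h i • z ∈ OO M (k-1)`; take `w = j :: i :: w'`
  with `Aug M w' y`.
* `aug_back`: if `x ∈ EE M k` and `Aug M w x`, then there are words `v, w'` with `v.length ≤ 2 k`,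
  `w'.length ≤ w.length + 2 k`, such that for `a = wd v • x`: `M.m a = none` and `Aug M w' a`.
  Induction on `k`: if `M.m x = none` nothing to do. Otherwise
  `M.m x = some j`, `y = h j • x ∈ OO M (k-1)`, `z = h i • y ∈ EE M (k-1)`, `M.m z ≠ some i`; then
  `Aug M (i :: j :: w) z` (`M.m y = some j` by `sym`).
* `alt_null`: `x ∈ EE M k ∩ OO M k` gives by the two facts an augmenting path of length `≤ 4k+1`
  from a point `a = wd v • x`; so `EE M k ∩ OO M k` is contained in the finite (countable) union over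
  the words `v, w'` of length `≤ 2k`, `≤ 4k+1` of the preimages under `wd v` of the sets
  `{a | M.m a = none ∧ Aug M w' a}`, which are null (`mp`).
-/

set_option autoImplicit false

noncomputable section

namespace Pool.Agent.MP_f406e2_lc_QD

open MeasureTheory

private theorem AltN_aug_of_OO (M : PM) : ∀ (k : ℕ) (x : S2), x ∈ OO M k →
    ∃ w : List (Fin 4), w.length ≤ 2 * k + 1 ∧ Aug M w x := by
  intro k
  induction k with
  | zero =>
    rintro x ⟨j, hz, hne⟩
    have hz' : M.m (h j • x) = none := hz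
    refine ⟨[j], by simp, ?_, hz'⟩
    intro hx
    exact hne (M.sym x j hx)
  | succ k ih =>
    rintro x ⟨j, hz, hne⟩
    have hx : M.m x ≠ some j := fun hx => hne (M.sym x j hx)
    rcases hz with hz | ⟨i, hi, hz⟩
    · exact ⟨[j], by simp, hx, hz⟩
    · obtain ⟨w, hw, haug⟩ := ih _ hz
      exact ⟨j :: i :: w, by simp only [List.length_cons]; omega, hx, hi, haug⟩

private theorem AltN_hh (j : Fin 4) (x : S2) : h j • h j • x = x := by
  rw [smul_smul, h_mul_self, one_smul]

private theorem AltN_aug_back (M : PM) : ∀ (k : ℕ) (x : S2) (w : List (Fin 4)), x ∈ EE M k →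
    Aug M w x → ∃ v w' : List (Fin 4), w'.length ≤ w.length + 2 * k ∧
      M.m (wd v • x) = none ∧ Aug M w' (wd v • x) := by
  intro k
  induction k with
  | zero =>
    intro x w hx haug
    refine ⟨[], w, by omega, ?_, ?_⟩
    · rw [wd_nil, one_smul]; exact hx
    · rw [wd_nil, one_smul]; exact haug
  | succ k ih =>
    intro x w hx haug
    rcases hx with hx | ⟨j, hj, i, hz, hne⟩
    · refine ⟨[], w, by omega, ?_, ?_⟩
      · rw [wd_nil, one_smul]; exact hx
      · rw [wd_nil, one_smul]; exact haug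
    · have hA : Aug M (i :: j :: w) (h i • h j • x) := by
        refine ⟨hne, ?_, ?_⟩
        · rw [AltN_hh]; exact M.sym x j hj
        · rw [AltN_hh, AltN_hh]; exact haug
      obtain ⟨v, w', hw', hm, hA'⟩ := ih _ _ hz hA
      have e : wd (v ++ [i, j]) • x = wd v • h i • h j • x := by
        rw [wd_append, wd_cons, wd_cons, wd_nil, mul_one, mul_smul, mul_smul]
      refine ⟨v ++ [i, j], w', ?_, ?_, ?_⟩
      · simp only [List.length_cons] at hw'; omega
      · rw [e]; exact hm
      · rw [e]; exact hA'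

theorem alt_null (M : PM) (k : ℕ)
    (hno : ∀ w : List (Fin 4), w.length ≤ 4 * k + 1 → nu {x | M.m x = none ∧ Aug M w x} = 0) :
    nu (EE M k ∩ OO M k) = 0 := by
  have hsub : EE M k ∩ OO M k ⊆ ⋃ (v : List (Fin 4))
      (w : {w : List (Fin 4) // w.length ≤ 4 * k + 1}),
      (fun x : S2 => wd v • x) ⁻¹' {x | M.m x = none ∧ Aug M w.1 x} := by
    rintro x ⟨hE, hO⟩
    obtain ⟨w, hw, hA⟩ := AltN_aug_of_OO M k x hO
    obtain ⟨v, w', hw', hm, hA'⟩ := AltN_aug_back M k x w hE hA
    simp only [Set.mem_iUnion]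
    exact ⟨v, ⟨w', by omega⟩, hm, hA'⟩
  refine measure_mono_null hsub (measure_iUnion_null fun v => measure_iUnion_null fun w => ?_)
  exact (mp (wd v)).quasiMeasurePreserving.preimage_null (hno w.1 w.2)

end Pool.Agent.MP_f406e2_lc_QD
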