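import Mathlib
import Pool.Agent.Lib.MP_f406e2_lc_QD.PolyM

/-!
# QD, module Mixing: mixing

Apply the hypothesis to `g = 1_O - nu O`, and pair with `f = 1_E - nu E` (`indicatorConstLp`, `one`):
`⟪f, TT g⟫ = ∑_j nu (E ∩ {h j • x ∈ O}) - 4 nu E nu O`, `‖f‖² = nu E (1 - nu E)`,
`‖g‖² = nu O (1 - nu O)`.
-/

set_option autoImplicit false

noncomputable section

namespace Pool.Agent.MP_f406e2_lc_QD

open MeasureTheory
open scoped InnerProductSpace

/-- the mixing property with constant `lam < 4` -/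
def Mix (lam : ℝ) : Prop :=
  0 < lam ∧ lam < 4 ∧ ∀ E O : Set S2, MeasurableSet E → MeasurableSet O →
    |∑ j, nu.real (E ∩ {x | h j • x ∈ O}) - 4 * nu.real E * nu.real O| ≤
      lam * √(nu.real E * (1 - nu.real E) * (nu.real O * (1 - nu.real O)))

/-- the indicator function -/
private def mixInd (E : Set S2) (hE : MeasurableSet E) : L2 :=
  indicatorConstLp 2 hE (measure_ne_top nu E) (1 : ℝ)

private lemma mixInd_coe (E : Set S2) (hE : MeasurableSet E) :
    mixInd E hE =ᵐ[nu] E.indicator fun _ => (1 : ℝ) := indicatorConstLp_coeFn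

private lemma mixInd_inner (E : Set S2) (hE : MeasurableSet E) (f : L2) :
    ⟪mixInd E hE, f⟫_ℝ = ∫ x in E, f x ∂nu :=
  L2.inner_indicatorConstLp_one hE (measure_ne_top nu E) f

private lemma mixInd_one (E : Set S2) (hE : MeasurableSet E) :
    ⟪mixInd E hE, one⟫_ℝ = nu.real E := by
  rw [mixInd_inner, setIntegral_congr_ae (g := fun _ => (1 : ℝ)) hE
    (one_coe.mono fun x hx _ => hx)]
  simp

private lemma mixInd_self (E : Set S2) (hE : MeasurableSet E) :
    ⟪mixInd E hE, mixInd E hE⟫_ℝ = nu.real E := by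
  rw [mixInd_inner, setIntegral_congr_ae (g := fun _ => (1 : ℝ)) hE
    ((mixInd_coe E hE).mono fun x hx hxE => by rw [hx, Set.indicator_of_mem hxE])]
  simp

private lemma mixOne_self : ⟪one, one⟫_ℝ = 1 := by
  rw [real_inner_self_eq_norm_sq, norm_one]
  norm_num

private lemma mixInd_UU (E O : Set S2) (hE : MeasurableSet E) (hO : MeasurableSet O) (g : O3) :
    ⟪mixInd E hE, UU g (mixInd O hO)⟫_ℝ = nu.real (E ∩ {x | g • x ∈ O}) := by
  have hm : MeasurableSet {x : S2 | g • x ∈ O} := (mp g).measurable hO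
  have h1 : UU g (mixInd O hO) =ᵐ[nu] {x : S2 | g • x ∈ O}.indicator fun _ => (1 : ℝ) := by
    have h2 : (fun x => (mixInd O hO) (g • x)) =ᵐ[nu]
        fun x => O.indicator (fun _ => (1 : ℝ)) (g • x) :=
      (mp g).quasiMeasurePreserving.ae_eq_comp (mixInd_coe O hO)
    refine (UU_coe g _).trans (h2.trans (Filter.Eventually.of_forall fun x => ?_))
    by_cases hx : g • x ∈ O
    · simp [Set.indicator, hx]
    · simp [Set.indicator, hx]
  rw [mixInd_inner, setIntegral_congr_ae hE (h1.mono fun x hx _ => hx),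
    setIntegral_indicator hm]
  simp

theorem mixing_of_gap (lam : ℝ) (h0 : 0 < lam) (h4 : lam < 4)
    (hgap : ∀ f : L2, ⟪f, one⟫_ℝ = 0 → ‖TT f‖ ≤ lam * ‖f‖) : Mix lam := by
  refine ⟨h0, h4, fun E O hE hO => ?_⟩
  have nrm : ∀ (A : Set S2) (hA : MeasurableSet A),
      ‖mixInd A hA - nu.real A • one‖ ^ 2 = nu.real A * (1 - nu.real A) := by
    intro A hA
    rw [← real_inner_self_eq_norm_sq, inner_sub_left, inner_sub_right, inner_sub_right,
      inner_smul_left, inner_smul_right, inner_smul_left, inner_smul_right, mixInd_self,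
      mixInd_one, real_inner_comm, mixInd_one, mixOne_self]
    simp only [conj_trivial]
    ring
  have hg : ⟪mixInd O hO - nu.real O • one, one⟫_ℝ = 0 := by
    rw [inner_sub_left, inner_smul_left, mixInd_one, mixOne_self]
    simp
  have h1 := hgap _ hg
  have key : ⟪mixInd E hE - nu.real E • one, TT (mixInd O hO - nu.real O • one)⟫_ℝ =
      ∑ j, nu.real (E ∩ {x | h j • x ∈ O}) - 4 * nu.real E * nu.real O := by
    have e1 : ⟪mixInd E hE, TT (mixInd O hO)⟫_ℝ = ∑ j, nu.real (E ∩ {x | h j • x ∈ O}) := by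
      rw [TT_apply, inner_sum]
      exact Finset.sum_congr rfl fun j _ => mixInd_UU E O hE hO (h j)
    have e2 : ⟪one, TT (mixInd O hO)⟫_ℝ = 4 * nu.real O := by
      rw [← TT_symm, TT_one, inner_smul_left, real_inner_comm, mixInd_one]
      simp
    rw [map_sub, map_smul, TT_one, inner_sub_left, inner_sub_right, inner_sub_right, e1,
      inner_smul_left, inner_smul_left, e2]
    simp only [inner_smul_right, mixInd_one, mixOne_self, conj_trivial]
    ring
  rw [← key]
  refine (abs_real_inner_le_norm _ _).trans ?_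
  have h2 : √(nu.real E * (1 - nu.real E) * (nu.real O * (1 - nu.real O))) =
      ‖mixInd E hE - nu.real E • one‖ * ‖mixInd O hO - nu.real O • one‖ := by
    rw [← nrm E hE, ← nrm O hO, ← mul_pow, Real.sqrt_sq (by positivity)]
  rw [h2]
  calc ‖mixInd E hE - nu.real E • one‖ * ‖TT (mixInd O hO - nu.real O • one)‖
      ≤ ‖mixInd E hE - nu.real E • one‖ * (lam * ‖mixInd O hO - nu.real O • one‖) :=
        mul_le_mul_of_nonneg_left h1 (norm_nonneg _)
    _ = lam * (‖mixInd E hE - nu.real E • one‖ * ‖mixInd O hO - nu.real O • one‖) := by ring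

end Pool.Agent.MP_f406e2_lc_QD
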