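import Mathlib
import Pool.Agent.Lib.MP_f406e2_lc_QD.Quat

/-!
# QD, module NotBoth: the key fact on the exceptional orbits

* `cr_eq_zero`: if `rot q x = N • x` with `N = normSq q`, then `b × x = 0`: the equation is
  `2 |b|² x = 2 ⟪b, x⟫ b + 2 a (b × x)`; take the inner product with `b × x`:
  `0 = 2 a |b × x|²`, so `b × x = 0` or `a = 0`; if `a = 0` then `|b|² x = ⟪b, x⟫ b`, hence again
  `b × x = 0` (also if `b = 0`).
* `not_both`: if `F (rho i) * wd l` and `F (rho i') * wd l'` fix the same point `x` of the sphere,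
  `i ≠ i'` different from `0`, contradiction. The first isometry is represented by
  `p = qu i * qw l`, the second one by `p' = qu i' * qw l'` (`rot` up to the factor `3 ^ n`:
  `rot_mul`, `rot_unit`, `rot_qw`; `normSq p = 3 ^ n`), so the vector parts `b, b'` of `p, p'`
  satisfy `b × x = 0 = b' × x`, so `b × b' = 0` (both are multiples of `x ≠ 0`). Mod 2:
  `qw l` is `≡ 1` or `≡ i + j + k` (according to the parity of the length; i.e. the parities of its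
  four coordinates are `(1,0,0,0)` or `(0,1,1,1)`), so for `i = 1` the parities of `b` are
  `(1,0,0)` or `(0,1,1)` (`i (i+j+k) = -1 + k - j`), for `i = 2`: `(0,1,0)` or `(1,0,1)`, for `i = 3`:
  `(0,0,1)` or `(1,1,0)`. In all cases `b × b'` (an integer vector) is not `≡ 0` mod 2.
-/

set_option autoImplicit false

noncomputable section

namespace Pool.Agent.MP_f406e2_lc_QD

open scoped InnerProductSpace Quaternion

private lemma nb_inner (v w : E3) : ⟪v, w⟫_ℝ = v 0 * w 0 + v 1 * w 1 + v 2 * w 2 := by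
  rw [PiLp.inner_apply, Fin.sum_univ_three]
  simp only [RCLike.inner_apply, conj_trivial]
  ring

private lemma nb_norm (v : E3) : ‖v‖ ^ 2 = v 0 ^ 2 + v 1 ^ 2 + v 2 ^ 2 := by
  rw [← real_inner_self_eq_norm_sq, nb_inner]
  ring

private lemma nb_rot (q : ℍ[ℤ]) (x : E3) (i : Fin 3) : rot q x i =
    ((q.re : ℝ) ^ 2 - ((q.imI : ℝ) ^ 2 + (q.imJ : ℝ) ^ 2 + (q.imK : ℝ) ^ 2)) * x i +
      2 * ((q.imI : ℝ) * x 0 + (q.imJ : ℝ) * x 1 + (q.imK : ℝ) * x 2) * imv q i +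
      2 * (q.re : ℝ) * cr (imv q) x i := by
  rw [rot, nb_norm, nb_inner]
  simp [imv]

private lemma nb_alg (a b0 b1 b2 x0 x1 x2 : ℝ)
    (e0 : (b0 * x0 + b1 * x1 + b2 * x2) * b0 + a * (b1 * x2 - b2 * x1) =
      (b0 ^ 2 + b1 ^ 2 + b2 ^ 2) * x0)
    (e1 : (b0 * x0 + b1 * x1 + b2 * x2) * b1 + a * (b2 * x0 - b0 * x2) =
      (b0 ^ 2 + b1 ^ 2 + b2 ^ 2) * x1)
    (e2 : (b0 * x0 + b1 * x1 + b2 * x2) * b2 + a * (b0 * x1 - b1 * x0) =
      (b0 ^ 2 + b1 ^ 2 + b2 ^ 2) * x2) :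
    b1 * x2 - b2 * x1 = 0 ∧ b2 * x0 - b0 * x2 = 0 ∧ b0 * x1 - b1 * x0 = 0 := by
  have h1 : a * ((b1 * x2 - b2 * x1) ^ 2 + (b2 * x0 - b0 * x2) ^ 2 +
      (b0 * x1 - b1 * x0) ^ 2) = 0 := by
    linear_combination (b1 * x2 - b2 * x1) * e0 + (b2 * x0 - b0 * x2) * e1 +
      (b0 * x1 - b1 * x0) * e2
  rcases mul_eq_zero.1 h1 with ha | hc
  · subst ha
    by_cases hb : b0 ^ 2 + b1 ^ 2 + b2 ^ 2 = 0
    · have hb0 : b0 = 0 := by nlinarith [sq_nonneg b0, sq_nonneg b1, sq_nonneg b2]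
      have hb1 : b1 = 0 := by nlinarith [sq_nonneg b0, sq_nonneg b1, sq_nonneg b2]
      have hb2 : b2 = 0 := by nlinarith [sq_nonneg b0, sq_nonneg b1, sq_nonneg b2]
      subst hb0 hb1 hb2
      simp
    · refine ⟨?_, ?_, ?_⟩
      · refine (mul_eq_zero.1
          (?_ : (b0 ^ 2 + b1 ^ 2 + b2 ^ 2) * (b1 * x2 - b2 * x1) = 0)).resolve_left hb
        linear_combination b2 * e1 - b1 * e2
      · refine (mul_eq_zero.1
          (?_ : (b0 ^ 2 + b1 ^ 2 + b2 ^ 2) * (b2 * x0 - b0 * x2) = 0)).resolve_left hb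
        linear_combination b0 * e2 - b2 * e0
      · refine (mul_eq_zero.1
          (?_ : (b0 ^ 2 + b1 ^ 2 + b2 ^ 2) * (b0 * x1 - b1 * x0) = 0)).resolve_left hb
        linear_combination b1 * e0 - b0 * e1
  · refine ⟨?_, ?_, ?_⟩
    · nlinarith [sq_nonneg (b1 * x2 - b2 * x1), sq_nonneg (b2 * x0 - b0 * x2),
        sq_nonneg (b0 * x1 - b1 * x0)]
    · nlinarith [sq_nonneg (b1 * x2 - b2 * x1), sq_nonneg (b2 * x0 - b0 * x2),
        sq_nonneg (b0 * x1 - b1 * x0)]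
    · nlinarith [sq_nonneg (b1 * x2 - b2 * x1), sq_nonneg (b2 * x0 - b0 * x2),
        sq_nonneg (b0 * x1 - b1 * x0)]

lemma cr_eq_zero (q : ℍ[ℤ]) (x : E3) (hx : rot q x = ((Quaternion.normSq q : ℤ) : ℝ) • x) :
    cr (imv q) x = 0 := by
  have hN : ((Quaternion.normSq q : ℤ) : ℝ) =
      (q.re : ℝ) ^ 2 + (q.imI : ℝ) ^ 2 + (q.imJ : ℝ) ^ 2 + (q.imK : ℝ) ^ 2 := by
    rw [Quaternion.normSq_def']
    push_cast
    ring
  have h0 := congrArg (fun v : E3 => v 0) hx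
  have h1 := congrArg (fun v : E3 => v 1) hx
  have h2 := congrArg (fun v : E3 => v 2) hx
  simp only [nb_rot, hN, PiLp.smul_apply, smul_eq_mul] at h0 h1 h2
  simp only [imv, cr] at h0 h1 h2
  simp at h0 h1 h2
  obtain ⟨c0, c1, c2⟩ := nb_alg (q.re : ℝ) (q.imI : ℝ) (q.imJ : ℝ) (q.imK : ℝ) (x 0) (x 1) (x 2)
    (by linear_combination h0 / 2) (by linear_combination h1 / 2) (by linear_combination h2 / 2)
  ext i
  fin_cases i
  · simpa [cr, imv] using c0
  · simpa [cr, imv] using c1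
  · simpa [cr, imv] using c2

private lemma nb_par (l : List (Fin 4)) :
    (((qw l).re : ZMod 2) = 1 ∧ ((qw l).imI : ZMod 2) = 0 ∧ ((qw l).imJ : ZMod 2) = 0 ∧
      ((qw l).imK : ZMod 2) = 0) ∨
    (((qw l).re : ZMod 2) = 0 ∧ ((qw l).imI : ZMod 2) = 1 ∧ ((qw l).imJ : ZMod 2) = 1 ∧
      ((qw l).imK : ZMod 2) = 1) := by
  induction l with
  | nil => left; simp [qw]
  | cons j l ih =>
    have h1 : qw (j :: l) = qe j * qw l := rfl
    have e0 : ((qe j).re : ZMod 2) = 0 := by fin_cases j <;> rfl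
    have e1 : ((qe j).imI : ZMod 2) = 1 := by fin_cases j <;> rfl
    have e2 : ((qe j).imJ : ZMod 2) = 1 := by fin_cases j <;> rfl
    have e3 : ((qe j).imK : ZMod 2) = 1 := by fin_cases j <;> rfl
    rw [h1, Quaternion.re_mul, Quaternion.imI_mul, Quaternion.imJ_mul, Quaternion.imK_mul]
    push_cast
    rw [e0, e1, e2, e3]
    rcases ih with ⟨a, b, c, d⟩ | ⟨a, b, c, d⟩
    · right
      rw [a, b, c, d]
      decide
    · left
      rw [a, b, c, d]
      decide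

/-- the parities of the vector part of `qu i * qw l` -/
private def nbv (i : Fin 4) (e : Bool) (k : Fin 3) : ZMod 2 :=
  (if k.succ = i then 1 else 0) + (if e then 1 else 0)

private lemma nb_vec (i : Fin 4) (l : List (Fin 4)) : ∃ e : Bool,
    ((qu i * qw l).imI : ZMod 2) = nbv i e 0 ∧ ((qu i * qw l).imJ : ZMod 2) = nbv i e 1 ∧
      ((qu i * qw l).imK : ZMod 2) = nbv i e 2 := by
  have e0 : ((qu i).re : ZMod 2) = if i = 0 then 1 else 0 := by fin_cases i <;> rfl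
  have e1 : ((qu i).imI : ZMod 2) = if i = 1 then 1 else 0 := by fin_cases i <;> rfl
  have e2 : ((qu i).imJ : ZMod 2) = if i = 2 then 1 else 0 := by fin_cases i <;> rfl
  have e3 : ((qu i).imK : ZMod 2) = if i = 3 then 1 else 0 := by fin_cases i <;> rfl
  rw [Quaternion.imI_mul, Quaternion.imJ_mul, Quaternion.imK_mul]
  push_cast
  rw [e0, e1, e2, e3]
  rcases nb_par l with ⟨a, b, c, d⟩ | ⟨a, b, c, d⟩
  · refine ⟨false, ?_⟩
    rw [a, b, c, d]
    revert i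
    decide
  · refine ⟨true, ?_⟩
    rw [a, b, c, d]
    revert i
    decide

private lemma nb_comb : ∀ (i i' : Fin 4) (e e' : Bool), i ≠ 0 → i' ≠ 0 → i ≠ i' →
    ¬(nbv i e 1 * nbv i' e' 2 - nbv i e 2 * nbv i' e' 1 = 0 ∧
      nbv i e 2 * nbv i' e' 0 - nbv i e 0 * nbv i' e' 2 = 0 ∧
      nbv i e 0 * nbv i' e' 1 - nbv i e 1 * nbv i' e' 0 = 0) := by
  decide

private lemma nb_smul (q : ℍ[ℤ]) (c : ℝ) (x : E3) : rot q (c • x) = c • rot q x := by
  ext i
  simp only [nb_rot, cr, PiLp.smul_apply, smul_eq_mul]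
  fin_cases i <;> simp <;> ring

private lemma nb_cr (i : Fin 4) (l : List (Fin 4)) (x : S2) (h1 : (F (rho i) * wd l) • x = x) :
    cr (imv (qu i * qw l)) x.1 = 0 := by
  apply cr_eq_zero
  have h2 : F (rho i) (wd l x.1) = x.1 := by
    have h3 := congrArg Subtype.val h1
    rw [smul_coe, LinearIsometryEquiv.coe_mul, Function.comp_apply] at h3
    exact h3
  have h4 : Quaternion.normSq (qu i) = 1 := by
    rw [Quaternion.normSq_def']
    fin_cases i <;> rfl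
  rw [rot_mul, rot_qw, nb_smul, rot_unit, h2, map_mul, h4, one_mul, normSq_qw]
  push_cast
  rfl

theorem not_both (i i' : Fin 4) (hi : i ≠ 0) (hi' : i' ≠ 0) (hii : i ≠ i')
    (l l' : List (Fin 4)) (x : S2) (h1 : (F (rho i) * wd l) • x = x)
    (h2 : (F (rho i') * wd l') • x = x) : False := by
  have c1 := nb_cr i l x h1
  have c2 := nb_cr i' l' x h2
  obtain ⟨e, v0, v1, v2⟩ := nb_vec i l
  obtain ⟨e', w0, w1, w2⟩ := nb_vec i' l'
  set p := qu i * qw l with hp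
  set p' := qu i' * qw l' with hp'
  have hx : (x.1 0) ^ 2 + (x.1 1) ^ 2 + (x.1 2) ^ 2 = 1 := by
    rw [← nb_norm]
    have h3 : ‖x.1‖ = 1 := by simp
    rw [h3]
    norm_num
  have a0 : (p.imJ : ℝ) * x.1 2 - p.imK * x.1 1 = 0 := by
    simpa [cr, imv] using congrArg (fun v : E3 => v 0) c1
  have a1 : (p.imK : ℝ) * x.1 0 - p.imI * x.1 2 = 0 := by
    simpa [cr, imv] using congrArg (fun v : E3 => v 1) c1
  have a2 : (p.imI : ℝ) * x.1 1 - p.imJ * x.1 0 = 0 := by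
    simpa [cr, imv] using congrArg (fun v : E3 => v 2) c1
  have b0 : (p'.imJ : ℝ) * x.1 2 - p'.imK * x.1 1 = 0 := by
    simpa [cr, imv] using congrArg (fun v : E3 => v 0) c2
  have b1 : (p'.imK : ℝ) * x.1 0 - p'.imI * x.1 2 = 0 := by
    simpa [cr, imv] using congrArg (fun v : E3 => v 1) c2
  have b2 : (p'.imI : ℝ) * x.1 1 - p'.imJ * x.1 0 = 0 := by
    simpa [cr, imv] using congrArg (fun v : E3 => v 2) c2
  have r0 : (p.imJ : ℝ) * p'.imK - p.imK * p'.imJ = 0 := by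
    linear_combination (-((p.imJ : ℝ) * p'.imK - p.imK * p'.imJ)) * hx
      - ((p.imI : ℝ) * x.1 0 + p.imJ * x.1 1 + p.imK * x.1 2) * b0
      + (x.1 2 * a0 - x.1 0 * a2) * p'.imK - (x.1 0 * a1 - x.1 1 * a0) * p'.imJ
  have r1 : (p.imK : ℝ) * p'.imI - p.imI * p'.imK = 0 := by
    linear_combination (-((p.imK : ℝ) * p'.imI - p.imI * p'.imK)) * hx
      - ((p.imI : ℝ) * x.1 0 + p.imJ * x.1 1 + p.imK * x.1 2) * b1
      + (x.1 0 * a1 - x.1 1 * a0) * p'.imI - (x.1 1 * a2 - x.1 2 * a1) * p'.imK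
  have r2 : (p.imI : ℝ) * p'.imJ - p.imJ * p'.imI = 0 := by
    linear_combination (-((p.imI : ℝ) * p'.imJ - p.imJ * p'.imI)) * hx
      - ((p.imI : ℝ) * x.1 0 + p.imJ * x.1 1 + p.imK * x.1 2) * b2
      + (x.1 1 * a2 - x.1 2 * a1) * p'.imJ - (x.1 2 * a0 - x.1 0 * a2) * p'.imI
  have z : ∀ a b c d : ℤ, (a : ℝ) * b - c * d = 0 → (a : ZMod 2) * b - c * d = 0 := by
    intro a b c d h
    have h4 : a * b - c * d = 0 := by exact_mod_cast h
    exact_mod_cast congrArg (Int.cast : ℤ → ZMod 2) h4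
  refine nb_comb i i' e e' hi hi' hii ⟨?_, ?_, ?_⟩
  · rw [← v1, ← v2, ← w1, ← w2]
    exact z _ _ _ _ r0
  · rw [← v0, ← v2, ← w0, ← w2]
    exact z _ _ _ _ r1
  · rw [← v0, ← v1, ← w0, ← w1]
    exact z _ _ _ _ r2

end Pool.Agent.MP_f406e2_lc_QD
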