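import Mathlib
import Pool.Agent.Lib.MP_f406e2_lc_QD.Defs

/-!
# QD, module Tables: finite checks (decidable statements on permutations of four letters)

All statements are finite: `decide` (or `decide +kernel`) after bringing them to a decidable form;
`Equiv.Perm (Fin 4)` has 24 elements. Split the statements if `decide` is too
slow (e.g. treat `f` in the alternating group as one of the 12 products `rho a * cyc ^ b`).

`sub_cases`: a set `I` of even permutations, closed under products and inverses, containing `1`,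
which fixes no letter and does not contain two of the three double transpositions, is
`{1, rho i}` for some `i ≠ 0`. Proof: if `I` contains an element `f` of order 3, which fixes `j`,
take `g ∈ I` with `g j ≠ j`; then `c = f * g * f⁻¹ * g⁻¹` and `f * c * f⁻¹` are two different double
transpositions in `I` (finite check `comm_check`). Otherwise `I ⊆ {1, rho 1, rho 2, rho 3}`, and if
`I = {1}` it fixes `0`.
-/

set_option autoImplicit false

noncomputable section

namespace Pool.Agent.MP_f406e2_lc_QD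

lemma rho_mem (i : Fin 4) : rho i ∈ alternatingGroup (Fin 4) := by
  rw [Equiv.Perm.mem_alternatingGroup]
  revert i
  decide

lemma cyc_mem : cyc ∈ alternatingGroup (Fin 4) := by
  rw [Equiv.Perm.mem_alternatingGroup]
  decide

lemma rho_sq (i : Fin 4) : rho i * rho i = 1 := by
  revert i
  decide

lemma rho_zero (i : Fin 4) : rho i 0 = i := by
  revert i
  decide

lemma rho_self (i : Fin 4) : rho i i = 0 := by
  revert i
  decide

lemma cyc_zero : cyc 0 = 0 := by
  decide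

lemma Tables_comm : ∀ f : Equiv.Perm (Fin 4), Equiv.Perm.sign f = 1 →
    ∀ g : Equiv.Perm (Fin 4), Equiv.Perm.sign g = 1 → ∀ j : Fin 4, f j = j → f ≠ 1 → g j ≠ j →
    ∃ i i' : Fin 4, i ≠ 0 ∧ i' ≠ 0 ∧ i ≠ i' ∧ f * g * f⁻¹ * g⁻¹ = rho i ∧
      f * (f * g * f⁻¹ * g⁻¹) * f⁻¹ = rho i' := by
  decide +kernel

lemma Tables_free : ∀ f : Equiv.Perm (Fin 4), Equiv.Perm.sign f = 1 → (∀ j, f j ≠ j) →
    ∃ i : Fin 4, i ≠ 0 ∧ f = rho i := by
  decide +kernel

theorem comm_check (f g : Equiv.Perm (Fin 4)) (hf : f ∈ alternatingGroup (Fin 4))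
    (hg : g ∈ alternatingGroup (Fin 4)) (j : Fin 4) (hfj : f j = j) (hf1 : f ≠ 1)
    (hgj : g j ≠ j) :
    ∃ i i' : Fin 4, i ≠ 0 ∧ i' ≠ 0 ∧ i ≠ i' ∧ f * g * f⁻¹ * g⁻¹ = rho i ∧
      f * (f * g * f⁻¹ * g⁻¹) * f⁻¹ = rho i' :=
  Tables_comm f (Equiv.Perm.mem_alternatingGroup.1 hf) g (Equiv.Perm.mem_alternatingGroup.1 hg) j
    hfj hf1 hgj

theorem sub_cases (I : Set (Equiv.Perm (Fin 4))) (hI : I ⊆ alternatingGroup (Fin 4))
    (h1 : (1 : Equiv.Perm (Fin 4)) ∈ I) (hmul : ∀ f ∈ I, ∀ g ∈ I, f * g ∈ I)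
    (hinv : ∀ f ∈ I, f⁻¹ ∈ I)
    (hno : ∀ i i' : Fin 4, i ≠ 0 → i' ≠ 0 → i ≠ i' → rho i ∈ I → rho i' ∈ I → False) :
    (∃ j, ∀ f ∈ I, f j = j) ∨ ∃ i : Fin 4, i ≠ 0 ∧ rho i ∈ I ∧ ∀ f ∈ I, f = 1 ∨ f = rho i := by
  by_cases hA : ∃ f ∈ I, f ≠ 1 ∧ ∃ j, f j = j
  · obtain ⟨f, hf, hf1, j, hfj⟩ := hA
    left
    refine ⟨j, fun g hg => ?_⟩
    by_contra hgj
    obtain ⟨i, i', hi, hi', hii, hc, hd⟩ := comm_check f g (hI hf) (hI hg) j hfj hf1 hgj
    have hcI : f * g * f⁻¹ * g⁻¹ ∈ I := hmul _ (hmul _ (hmul _ hf _ hg) _ (hinv _ hf)) _ (hinv _ hg)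
    have hdI : f * (f * g * f⁻¹ * g⁻¹) * f⁻¹ ∈ I := hmul _ (hmul _ hf _ hcI) _ (hinv _ hf)
    rw [hc] at hcI
    rw [hd] at hdI
    exact hno i i' hi hi' hii hcI hdI
  · push Not at hA
    by_cases hB : ∃ f ∈ I, f ≠ 1
    · obtain ⟨f, hf, hf1⟩ := hB
      right
      obtain ⟨i, hi, rfl⟩ := Tables_free f (Equiv.Perm.mem_alternatingGroup.1 (hI hf)) (hA f hf hf1)
      refine ⟨i, hi, hf, fun g hg => ?_⟩
      by_cases hg1 : g = 1
      · exact Or.inl hg1
      · obtain ⟨i', hi', rfl⟩ := Tables_free g (Equiv.Perm.mem_alternatingGroup.1 (hI hg))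
          (hA g hg hg1)
        by_cases hii : i' = i
        · right
          rw [hii]
        · exact (hno i' i hi' hi hii hg hf).elim
    · push Not at hB
      left
      refine ⟨0, fun f hf => ?_⟩
      rw [hB f hf]
      rfl

end Pool.Agent.MP_f406e2_lc_QD
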