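import Mathlib
import Pool.Agent.Lib.MP_f406e2_lc_QD.Tables

/-!
# QD, module OrbF: the exact solution on the level of labels (finite)

`Lab` are the labels `(f, v)` of the isometries `F f * wd l`, `v = cnt l`; `lmul` is their
multiplication, `lgam i` the effect of the left multiplication by `(gam i)⁻¹`. Finite statements
(24 * 16 labels); the three cases were checked by computer. `decide` / `decide +kernel` (possibly
after splitting), or the proofs:

(A) `D (f, v) := f j = 0`. The first component of `lgam i (f, v)` is `cyc ^ kap i * rho i * f`, and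
`cyc 0 = 0`, so `D` holds iff `rho i (f j) = 0` iff `f j = i`.

(B) Let `g` be an even permutation with `g * rho a * g⁻¹ = rho 1` and
`D (f, v) := (f * g⁻¹, ∑ j, v j) ∈ tabB`. `tabB` is invariant under right multiplication by `rho 1`,
and for all even `f` and all `e : ZMod 2` there is exactly one `i` with
`(cyc ^ kap i * (rho i * f), kap i + e) ∈ tabB`; `∑ (v + δ) = ∑ v + 1`.

(C) `v₀` has odd sum, so of the two sums `v₀ 0 + v₀ a`, `v₀ c + v₀ (rho a c)` (`c ≠ 0, a`) exactly one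
is `1`. Call the letters of this pair `p, p'` and those of the other pair `q, q'` (`rho a` exchanges
`p, p'` and `q, q'`). Put `s v = v p + v p'`, `m v = q` if `s v = 0`, `m v = q'` if `s v = 1`, and
`D (f, v) := f (m v) = 0`. Invariance: under `(1, v')` with `v' (rho a j) = v' j`:
`s (v + v') = s v`. Under `(rho a, v₀)`: the new label is `(f * rho a, v ∘ rho a + v₀)`, `s` changes
by one, `m` changes from `q` to `q'` or back, and `rho a` undoes this. Exactly one `i`:
`lgam i (f, v) = lr^[kap i] (rho i * f, v)` with `lr (f, v) = (cyc * f, v + δ_{f⁻¹ 0})`. Claim: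
`D (lr (f, v)) ↔ D (f, v)`: if `f (m v) = 0`, then
`f⁻¹ 0 = m v ∈ {q, q'}` and `s v` does not change, so `m v` does not change, and `cyc 0 = 0`;
conversely if `(cyc * f) (m v') = 0` with `v' = v + δ_{f⁻¹ 0}`, then `m v' = f⁻¹ 0 ∈ {q, q'}`, so
`s v' = s v` again. So `D (lgam i (f, v)) ↔ rho i (f (m v)) = 0 ↔ f (m v) = i`.
-/

set_option autoImplicit false

noncomputable section

namespace Pool.Agent.MP_f406e2_lc_QD

/-- labels -/
abbrev Lab : Type := Equiv.Perm (Fin 4) × (Fin 4 → ZMod 2)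

/-- the product of labels -/
def lmul (p q : Lab) : Lab := (p.1 * q.1, fun j => p.2 (q.1 j) + q.2 j)

/-- the effect of `r⁻¹` on labels -/
def lr (p : Lab) : Lab := (cyc * p.1, p.2 + Pi.single (p.1⁻¹ 0) 1)

/-- the effect of `(gam i)⁻¹` on labels -/
def lgam (i : Fin 4) (p : Lab) : Lab := lr^[kap i] (rho i * p.1, p.2)

/-- the table of the exceptional orbits -/
def tabB : List (Equiv.Perm (Fin 4) × ZMod 2) :=
  [(1, 0), (cyc, 0), (cyc * cyc, 1), (rho 1, 0), (rho 2 * cyc, 0), (rho 3 * (cyc * cyc), 1)]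

lemma lmul_assoc (p q s : Lab) : lmul (lmul p q) s = lmul p (lmul q s) := by
  refine Prod.ext ?_ ?_
  · simp only [lmul, mul_assoc]
  · funext j
    simp only [lmul, Equiv.Perm.mul_apply, add_assoc]

lemma OrbF_rho_iff (i j : Fin 4) : rho i j = 0 ↔ j = i := by
  revert i j
  decide

lemma OrbF_cyc_iff (j : Fin 4) : cyc j = 0 ↔ j = 0 := by
  revert j
  decide

lemma OrbF_lr_fst (n : ℕ) (p : Lab) : (lr^[n] p).1 = cyc ^ n * p.1 := by
  induction n generalizing p with
  | zero => simp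
  | succ n ih => rw [Function.iterate_succ_apply', pow_succ', mul_assoc, ← ih, lr]

lemma OrbF_lr_sum (n : ℕ) (p : Lab) : ∑ j, (lr^[n] p).2 j = (n : ZMod 2) + ∑ j, p.2 j := by
  induction n generalizing p with
  | zero => simp
  | succ n ih =>
    rw [Function.iterate_succ_apply', lr]
    simp only [Pi.add_apply, Finset.sum_add_distrib, ih, Finset.sum_pi_single', Finset.mem_univ,
      if_true, Nat.cast_succ]
    ring

theorem case_A (j : Fin 4) (i : Fin 4) (p : Lab) : (lgam i p).1 j = 0 ↔ p.1 j = i := by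
  have h1 : ∀ n (q : Lab), (lr^[n] q).1 j = 0 ↔ q.1 j = 0 := by
    intro n
    induction n with
    | zero => intro q; rfl
    | succ n ih =>
      intro q
      rw [Function.iterate_succ_apply', lr, Equiv.Perm.mul_apply, OrbF_cyc_iff, ih]
  rw [lgam, h1, Equiv.Perm.mul_apply, OrbF_rho_iff]

lemma OrbF_conj : ∀ a : Fin 4, a ≠ 0 → ∃ g : Equiv.Perm (Fin 4), Equiv.Perm.sign g = 1 ∧
    rho a * g⁻¹ = g⁻¹ * rho 1 := by
  decide +kernel

lemma OrbF_tab : ∀ f : Equiv.Perm (Fin 4), ∀ e : ZMod 2,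
    ((f * rho 1, e) ∈ tabB ↔ (f, e) ∈ tabB) := by
  decide +kernel

lemma OrbF_card : ∀ f : Equiv.Perm (Fin 4), Equiv.Perm.sign f = 1 → ∀ e : ZMod 2,
    (Finset.univ.filter fun i : Fin 4 =>
      (cyc ^ kap i * (rho i * f), (kap i : ZMod 2) + e) ∈ tabB).card = 1 := by
  decide +kernel

lemma OrbF_one (f : Equiv.Perm (Fin 4)) (hf : Equiv.Perm.sign f = 1) (e : ZMod 2) :
    ∃ i : Fin 4, ((cyc ^ kap i * (rho i * f), (kap i : ZMod 2) + e) ∈ tabB) ∧
      ∀ i' : Fin 4, ((cyc ^ kap i' * (rho i' * f), (kap i' : ZMod 2) + e) ∈ tabB) → i' = i := by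
  obtain ⟨i, hi⟩ := Finset.card_eq_one.1 (OrbF_card f hf e)
  have h1 : ∀ j, j ∈ (Finset.univ.filter fun i : Fin 4 =>
      (cyc ^ kap i * (rho i * f), (kap i : ZMod 2) + e) ∈ tabB) ↔ j = i := by
    intro j
    rw [hi, Finset.mem_singleton]
  simp only [Finset.mem_filter, Finset.mem_univ, true_and] at h1
  exact ⟨i, (h1 i).2 rfl, fun i' hi' => (h1 i').1 hi'⟩

theorem case_B (a : Fin 4) (ha : a ≠ 0) : ∃ D : Lab → Prop,
    (∀ v' : Fin 4 → ZMod 2, ∑ j, v' j = 0 → ∀ p,
      (D (lmul p (1, v')) ↔ D p) ∧ (D (lmul p (rho a, v')) ↔ D p)) ∧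
    ∀ f ∈ alternatingGroup (Fin 4), ∀ v, ∃! i : Fin 4, D (lgam i (f, v)) := by
  obtain ⟨g, hg, hga⟩ := OrbF_conj a ha
  refine ⟨fun p => (p.1 * g⁻¹, ∑ j, p.2 j) ∈ tabB, ?_, ?_⟩
  · intro v' hv' p
    constructor
    · simp only [lmul, mul_one, Finset.sum_add_distrib, hv', add_zero, Equiv.Perm.coe_one, id_eq]
    · have h1 : ∑ j, (p.2 (rho a j) + v' j) = ∑ j, p.2 j := by
        rw [Finset.sum_add_distrib, hv', add_zero, Equiv.sum_comp (rho a) p.2]
      simp only [lmul, h1]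
      rw [mul_assoc, hga, ← mul_assoc, OrbF_tab]
  · intro f hf v
    have hfg : Equiv.Perm.sign (f * g⁻¹) = 1 := by
      rw [Equiv.Perm.sign_mul, Equiv.Perm.sign_inv, hg, Equiv.Perm.mem_alternatingGroup.1 hf,
        mul_one]
    obtain ⟨i, hi, hu⟩ := OrbF_one (f * g⁻¹) hfg (∑ j, v j)
    have key : ∀ i : Fin 4, (((lgam i (f, v)).1 * g⁻¹, ∑ j, (lgam i (f, v)).2 j) ∈ tabB ↔
        (cyc ^ kap i * (rho i * (f * g⁻¹)), (kap i : ZMod 2) + ∑ j, v j) ∈ tabB) := by
      intro i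
      rw [lgam, OrbF_lr_fst, OrbF_lr_sum, mul_assoc, mul_assoc]
    exact ⟨i, (key i).2 hi, fun i' hi' => hu i' ((key i').1 hi')⟩

lemma OrbF_pairs : ∀ a : Fin 4, a ≠ 0 → ∀ v : Fin 4 → ZMod 2, ∑ j, v j = 1 →
    ∃ p q : Fin 4, p ≠ q ∧ p ≠ rho a q ∧ rho a p ≠ q ∧ rho a p ≠ rho a q ∧
      v p + v (rho a p) = 1 := by
  decide +kernel

theorem case_C (a : Fin 4) (ha : a ≠ 0) (v₀ : Fin 4 → ZMod 2) (hv₀ : ∑ j, v₀ j = 1) :
    ∃ D : Lab → Prop,
    (∀ v' : Fin 4 → ZMod 2, (∀ j, v' (rho a j) = v' j) → ∀ p, (D (lmul p (1, v')) ↔ D p)) ∧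
    (∀ p, (D (lmul p (rho a, v₀)) ↔ D p)) ∧
    ∀ f ∈ alternatingGroup (Fin 4), ∀ v, ∃! i : Fin 4, D (lgam i (f, v)) := by
  obtain ⟨p, q, h1, h2, h3, h4, h5⟩ := OrbF_pairs a ha v₀ hv₀
  have hrr : ∀ j, rho a (rho a j) = j := by
    intro j
    rw [← Equiv.Perm.mul_apply, rho_sq, Equiv.Perm.one_apply]
  have h2x : ∀ x : ZMod 2, x + x = 0 := by decide
  let m : (Fin 4 → ZMod 2) → Fin 4 := fun v => if v p + v (rho a p) = 0 then q else rho a q
  have hm : ∀ v w : Fin 4 → ZMod 2, v p + v (rho a p) = w p + w (rho a p) → m v = m w := by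
    intro v w hvw
    simp only [m, hvw]
  let D : Lab → Prop := fun x => x.1 (m x.2) = 0
  have hlr : ∀ x : Lab, D (lr x) ↔ D x := by
    rintro ⟨f, v⟩
    simp only [D, lr, Equiv.Perm.mul_apply, OrbF_cyc_iff]
    by_cases hc : f⁻¹ 0 = q ∨ f⁻¹ 0 = rho a q
    · rw [hm (v + Pi.single (f⁻¹ 0) 1) v]
      have e1 : p ≠ f⁻¹ 0 := by
        rcases hc with hc | hc
        · rw [hc]; exact h1
        · rw [hc]; exact h2
      have e2 : rho a p ≠ f⁻¹ 0 := by
        rcases hc with hc | hc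
        · rw [hc]; exact h3
        · rw [hc]; exact h4
      simp only [Pi.add_apply, Pi.single_eq_of_ne e1, Pi.single_eq_of_ne e2, add_zero]
    · have key : ∀ w : Fin 4 → ZMod 2, ¬ f (m w) = 0 := by
        intro w hw
        apply hc
        have e3 : f⁻¹ 0 = m w := by
          rw [← hw, Equiv.Perm.inv_def, Equiv.symm_apply_apply]
        rw [e3]
        simp only [m]
        split_ifs
        · exact Or.inl rfl
        · exact Or.inr rfl
      exact ⟨fun h => (key _ h).elim, fun h => (key _ h).elim⟩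
  refine ⟨D, ?_, ?_, ?_⟩
  · rintro v' hv' ⟨f, v⟩
    simp only [D, lmul, mul_one, Equiv.Perm.coe_one, id_eq]
    rw [hm (fun j => v j + v' j) v]
    simp only [hv']
    rw [add_add_add_comm, h2x, add_zero]
  · rintro ⟨f, v⟩
    simp only [D, lmul, Equiv.Perm.mul_apply]
    have e1 : rho a (m fun j => v (rho a j) + v₀ j) = m v := by
      simp only [m, hrr]
      have e2 : v (rho a p) + v₀ p + (v p + v₀ (rho a p)) = (v p + v (rho a p)) + 1 := by
        rw [← h5]
        ring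
      rw [e2]
      have e3 : ∀ x : ZMod 2, x + 1 = 0 ↔ ¬ x = 0 := by decide
      by_cases hx : v p + v (rho a p) = 0
      · rw [if_pos hx, if_neg (by rw [e3]; exact fun h => h hx), hrr]
      · rw [if_neg hx, if_pos ((e3 _).2 hx)]
    rw [e1]
  · intro f _ v
    have hit : ∀ n (x : Lab), D (lr^[n] x) ↔ D x := by
      intro n
      induction n with
      | zero => intro x; rfl
      | succ n ih =>
        intro x
        rw [Function.iterate_succ_apply', hlr, ih]
    have key : ∀ i : Fin 4, D (lgam i (f, v)) ↔ f (m v) = i := by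
      intro i
      rw [lgam, hit]
      simp only [D, Equiv.Perm.mul_apply, OrbF_rho_iff]
    exact ⟨f (m v), (key _).2 rfl, fun i hi => ((key i).1 hi).symm⟩

end Pool.Agent.MP_f406e2_lc_QD
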