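import Mathlib
import Pool.Agent.Lib.MP_f406e2_lc_QD.OrbF
import Pool.Agent.Lib.MP_f406e2_lc_QD.Grp

/-!
# QD, module OrbL: labels of isometries

* `label_mul`: `wd l * F f' = F f' * wd (map f'⁻¹ l)` (`wd_F`), and the number of the letters `j` in
  `map f'⁻¹ l ++ l'` is `cnt l (f' j) + cnt l' j`.
* `label_inv`: `(F f * wd l)⁻¹ = wd l.reverse * F f⁻¹` (`wd_reverse`), `wd_F`.
* `label_gam`: `(gam i)⁻¹ = r⁻¹ ^ kap i * F (rho i)` (`rho_sq`), `r⁻¹ = F cyc * h 0` (`h_mul_self`),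
  `r⁻¹ * (F f * wd l) = F (cyc * f) * (h (f⁻¹ 0) * wd l)` (`F_h`); induction on the exponent.
* `mem_orb`: if `(F f * wd l) • x = (F f' * wd l') • x` then `(F f * wd l)⁻¹ * (F f' * wd l')` fixes
  `x` and is of the form `F f'' * wd l''` (`label_inv`, `label_mul`), and its label times the label
  of `F f * wd l` is the label of `F f' * wd l'` by `label_unique`.
-/

set_option autoImplicit false

noncomputable section

namespace Pool.Agent.MP_f406e2_lc_QD

lemma OrbL_cnt_map (f : Equiv.Perm (Fin 4)) (l : List (Fin 4)) (j : Fin 4) :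
    cnt (l.map fun j => f⁻¹ j) j = cnt l (f j) := by
  have h1 := List.count_map_of_injective l (fun j => f⁻¹ j) (f⁻¹).injective (f j)
  have h2 : f⁻¹ (f j) = j := f.symm_apply_apply j
  simp only [h2] at h1
  rw [cnt, cnt, h1]

lemma OrbL_cnt_append (l l' : List (Fin 4)) (j : Fin 4) :
    cnt (l ++ l') j = cnt l j + cnt l' j := by
  rw [cnt, cnt, cnt, List.count_append, Nat.cast_add]

lemma OrbL_cnt_cons (i : Fin 4) (l : List (Fin 4)) :
    cnt (i :: l) = cnt l + Pi.single i 1 := by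
  funext j
  rw [Pi.add_apply, cnt, cnt, List.count_cons]
  by_cases hij : i = j
  · subst hij
    simp
  · rw [Pi.single_eq_of_ne (fun h => hij h.symm)]
    simp [hij]

lemma label_mul (f f' : Equiv.Perm (Fin 4)) (l l' : List (Fin 4)) :
    ∃ l'', (F f * wd l) * (F f' * wd l') = F (f * f') * wd l'' ∧
      (f * f', cnt l'') = lmul (f, cnt l) (f', cnt l') := by
  refine ⟨(l.map fun j => f'⁻¹ j) ++ l', ?_, ?_⟩
  · rw [wd_append, map_mul, mul_assoc, ← mul_assoc (wd l), wd_F]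
    simp only [mul_assoc]
  · refine Prod.ext rfl ?_
    funext j
    simp only [lmul, OrbL_cnt_append, OrbL_cnt_map]

lemma label_inv (f : Equiv.Perm (Fin 4)) (l : List (Fin 4)) :
    ∃ l', (F f * wd l)⁻¹ = F f⁻¹ * wd l' := by
  refine ⟨l.reverse.map fun j => f⁻¹⁻¹ j, ?_⟩
  rw [mul_inv_rev, ← wd_reverse, ← map_inv, wd_F]

lemma OrbL_r_inv (f : Equiv.Perm (Fin 4)) (l : List (Fin 4)) :
    r⁻¹ * (F f * wd l) = F (cyc * f) * wd (f⁻¹ 0 :: l) := by
  have h1 := F_h f (f⁻¹ 0)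
  have h2 : f (f⁻¹ 0) = 0 := f.apply_symm_apply 0
  rw [h2] at h1
  have h3 : r⁻¹ = F cyc * h 0 := by
    rw [r, mul_inv_rev, h_inv, ← map_inv, inv_inv]
  rw [h3, map_mul, wd_cons, mul_assoc, mul_assoc, ← mul_assoc (h 0), ← h1, mul_assoc]

lemma OrbL_pow (n : ℕ) (f : Equiv.Perm (Fin 4)) (l : List (Fin 4)) :
    ∃ f' l', r⁻¹ ^ n * (F f * wd l) = F f' * wd l' ∧ (f', cnt l') = lr^[n] (f, cnt l) ∧
      (f ∈ alternatingGroup (Fin 4) → f' ∈ alternatingGroup (Fin 4)) := by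
  induction n with
  | zero => exact ⟨f, l, by rw [pow_zero, one_mul], rfl, id⟩
  | succ n ih =>
    obtain ⟨f', l', h1, h2, h3⟩ := ih
    refine ⟨cyc * f', f'⁻¹ 0 :: l', ?_, ?_, ?_⟩
    · rw [pow_succ', mul_assoc, h1, OrbL_r_inv]
    · rw [Function.iterate_succ_apply', ← h2, lr, OrbL_cnt_cons]
    · intro hf
      exact mul_mem cyc_mem (h3 hf)

lemma label_gam (i : Fin 4) (f : Equiv.Perm (Fin 4)) (l : List (Fin 4)) :
    ∃ f' l', (gam i)⁻¹ * (F f * wd l) = F f' * wd l' ∧ (f', cnt l') = lgam i (f, cnt l) ∧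
      (f ∈ alternatingGroup (Fin 4) → f' ∈ alternatingGroup (Fin 4)) := by
  obtain ⟨f', l', h1, h2, h3⟩ := OrbL_pow (kap i) (rho i * f) l
  have h4 : (F (rho i))⁻¹ = F (rho i) := by
    rw [← map_inv, inv_eq_of_mul_eq_one_left (rho_sq i)]
  refine ⟨f', l', ?_, h2, fun hf => h3 (mul_mem (rho_mem i) hf)⟩
  rw [← h1, gam, mul_inv_rev, ← inv_pow, h4, map_mul]
  simp only [mul_assoc]

/-- the solution with label set `D` on the orbit of `x` -/
def sol (x : S2) (D : Lab → Prop) : Set S2 :=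
  {y | ∃ f ∈ alternatingGroup (Fin 4), ∃ l, y = (F f * wd l) • x ∧ D (f, cnt l)}

/-- `D` is invariant under the labels of the stabiliser of `x` -/
def Inv (x : S2) (D : Lab → Prop) : Prop :=
  ∀ f' ∈ alternatingGroup (Fin 4), ∀ l', (F f' * wd l') • x = x → ∀ p : Lab,
    (D (lmul p (f', cnt l')) ↔ D p)

lemma mem_orb (x : S2) (D : Lab → Prop) (hD : Inv x D) (f : Equiv.Perm (Fin 4))
    (hf : f ∈ alternatingGroup (Fin 4)) (l : List (Fin 4)) :
    (F f * wd l) • x ∈ sol x D ↔ D (f, cnt l) := by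
  constructor
  · rintro ⟨f1, hf1, l1, h1, h2⟩
    obtain ⟨l2, h3⟩ := label_inv f l
    obtain ⟨l3, h4, -⟩ := label_mul f⁻¹ f1 l2 l1
    rw [← h3] at h4
    have h5 : (F (f⁻¹ * f1) * wd l3) • x = x := by
      rw [← h4, mul_smul, ← h1, inv_smul_smul]
    have h6 := hD (f⁻¹ * f1) (mul_mem (inv_mem hf) hf1) l3 h5 (f, cnt l)
    obtain ⟨l4, h7, h8⟩ := label_mul f (f⁻¹ * f1) l l3
    rw [← h4, mul_inv_cancel_left, mul_inv_cancel_left] at h7
    obtain ⟨-, h9⟩ := label_unique f1 f1 l1 l4 h7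
    rw [mul_inv_cancel_left] at h8
    have h10 : cnt l4 = cnt l1 := by
      funext j
      exact (h9 j).symm
    rw [← h8, h10] at h6
    exact h6.1 h2
  · intro h1
    exact ⟨f, hf, l, rfl, h1⟩

end Pool.Agent.MP_f406e2_lc_QD
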