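import Mathlib
import Pool.Agent.Lib.MP_f406e2_lc_QD.OrbL
import Pool.Agent.Lib.MP_f406e2_lc_QD.NotBoth

/-!
# QD, module OrbS: stabilisers

* `stab_cases`: `stI x` satisfies the hypotheses of `sub_cases` (`label_mul`, `label_inv`); `hno` is
  `not_both`.
* `stab_comm`: `rot_comm` (the determinants are 1 by `mat_mul`, `mat_F`, `mat_wd`); so the two
  products of the isometries are equal and `label_mul`, `label_unique` give the claim.
-/

set_option autoImplicit false

noncomputable section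

namespace Pool.Agent.MP_f406e2_lc_QD

/-- the first components of the stabiliser -/
def stI (x : S2) : Set (Equiv.Perm (Fin 4)) :=
  {f | f ∈ alternatingGroup (Fin 4) ∧ ∃ l, (F f * wd l) • x = x}

theorem stab_cases (x : S2) :
    (∃ j, ∀ f ∈ stI x, f j = j) ∨
      ∃ a : Fin 4, a ≠ 0 ∧ rho a ∈ stI x ∧ ∀ f ∈ stI x, f = 1 ∨ f = rho a := by
  refine sub_cases (stI x) (fun f hf => hf.1) ?_ ?_ ?_ ?_
  · refine ⟨one_mem _, [], ?_⟩
    rw [map_one, wd_nil, one_mul, one_smul]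
  · rintro f ⟨hf, l, hl⟩ g ⟨hg, l', hl'⟩
    obtain ⟨l'', h1, -⟩ := label_mul f g l l'
    refine ⟨mul_mem hf hg, l'', ?_⟩
    rw [← h1, mul_smul, hl', hl]
  · rintro f ⟨hf, l, hl⟩
    obtain ⟨l', h1⟩ := label_inv f l
    refine ⟨inv_mem hf, l', ?_⟩
    rw [← h1, inv_smul_eq_iff, hl]
  · rintro i i' hi hi' hii ⟨-, l, hl⟩ ⟨-, l', hl'⟩
    exact not_both i i' hi hi' hii l l' x hl hl'

/-- labels of the stabiliser commute -/
theorem stab_comm (x : S2) (f f' : Equiv.Perm (Fin 4)) (l l' : List (Fin 4))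
    (hf : f ∈ alternatingGroup (Fin 4)) (hf' : f' ∈ alternatingGroup (Fin 4))
    (h1 : (F f * wd l) • x = x) (h2 : (F f' * wd l') • x = x) :
    lmul (f, cnt l) (f', cnt l') = lmul (f', cnt l') (f, cnt l) := by
  have hd : ∀ g : Equiv.Perm (Fin 4), g ∈ alternatingGroup (Fin 4) → ∀ m : List (Fin 4),
      (mat (F g * wd m)).det = 1 := by
    intro g hg m
    rw [mat_mul, Matrix.det_mul, mat_F g hg, mat_wd, one_mul]
  have hc := rot_comm _ _ (hd f hf l) (hd f' hf' l') x h1 h2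
  obtain ⟨m, e1, e2⟩ := label_mul f f' l l'
  obtain ⟨m', e3, e4⟩ := label_mul f' f l' l
  rw [e1, e3] at hc
  obtain ⟨e5, e6⟩ := label_unique _ _ _ _ hc
  rw [← e2, ← e4]
  exact Prod.ext e5 (funext e6)

end Pool.Agent.MP_f406e2_lc_QD
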