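import Mathlib
import Pool.Agent.Lib.MP_f406e2_lc_QD.OrbS

/-!
# QD, module Orbit: the exact solution on every orbit

`good_D`: by `stab_cases` there are the following cases.

(A) There is `j` with `f j = j` for all `f ∈ stI x`: `D (f, v) := f j = 0`; invariance is clear,
`case_A`.

(B) `stI x = {1, rho a}`, and all `l` with `(F f * wd l) • x = x`, `f` even, satisfy
`∑ j, cnt l j = 0`: `case_B`.

(C) `stI x = {1, rho a}` and some `(F f₀ * wd l₀) • x = x`, `f₀` even, has `∑ j, cnt l₀ j ≠ 0`, i.e.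
`= 1`. Take any `(F (rho a) * wd l₁) • x = x`. For `(1, v)` in the stabiliser `stab_comm` with
`(rho a, cnt l₁)` gives `v (rho a j) = v j` for all `j`; in particular `∑ v = 0`. So `f₀ = rho a`.
Take `D` from `case_C` for `v₀ = cnt l₀`. For `(1, v')` in the stabiliser `v'` is symmetric, so `D` is
invariant. For `(rho a, v')` in the stabiliser `stab_comm` with `(rho a, v₀)` gives
`v' (rho a j) + v₀ j = v₀ (rho a j) + v' j`, so `w = v' - v₀` satisfies `w (rho a j) = w j`, and
`(rho a, v') = lmul (rho a, v₀) (1, w)`; by `lmul_assoc` `D` is invariant.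

`exact_orbit`: `A = sol x D`; `(gam i)⁻¹ • ((F f * wd l) • x) = (F f' * wd l') • x` with
`(f', cnt l') = lgam i (f, cnt l)` (`label_gam`), so by `mem_orb` it lies in `A` iff
`D (lgam i (f, cnt l))`.
-/

set_option autoImplicit false

noncomputable section

namespace Pool.Agent.MP_f406e2_lc_QD

private theorem Orbit_sum (a : Fin 4) (ha : a ≠ 0) (v : Fin 4 → ZMod 2)
    (hv : ∀ j, v (rho a j) = v j) : ∑ j, v j = 0 := by
  have h2 : ∀ z : ZMod 2, z + z = 0 := by decide
  rw [Fin.sum_univ_four]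
  fin_cases a
  · exact absurd rfl ha
  · have h0 : v 1 = v 0 := by
      have := hv 0
      rwa [show rho (⟨1, by omega⟩ : Fin 4) 0 = 1 by decide] at this
    have h3 : v 3 = v 2 := by
      have := hv 2
      rwa [show rho (⟨1, by omega⟩ : Fin 4) 2 = 3 by decide] at this
    rw [h0, h3, h2, zero_add, h2]
  · have h0 : v 2 = v 0 := by
      have := hv 0
      rwa [show rho (⟨2, by omega⟩ : Fin 4) 0 = 2 by decide] at this
    have h3 : v 3 = v 1 := by
      have := hv 1
      rwa [show rho (⟨2, by omega⟩ : Fin 4) 1 = 3 by decide] at this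
    rw [h0, h3, add_right_comm (v 0) (v 1) (v 0), h2, zero_add, h2]
  · have h0 : v 3 = v 0 := by
      have := hv 0
      rwa [show rho (⟨3, by omega⟩ : Fin 4) 0 = 3 by decide] at this
    have h3 : v 2 = v 1 := by
      have := hv 1
      rwa [show rho (⟨3, by omega⟩ : Fin 4) 1 = 2 by decide] at this
    rw [h0, h3, add_assoc (v 0) (v 1) (v 1), h2, add_zero, h2]

theorem good_D (x : S2) : ∃ D : Lab → Prop, Inv x D ∧
    ∀ f ∈ alternatingGroup (Fin 4), ∀ v, ∃! i : Fin 4, D (lgam i (f, v)) := by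
  rcases stab_cases x with ⟨j, hj⟩ | ⟨a, ha, hra, hst⟩
  · refine ⟨fun p => p.1 j = 0, ?_, ?_⟩
    · intro f' hf' l' hx p
      have h1 : f' j = j := hj f' ⟨hf', l', hx⟩
      show (p.1 * f') j = 0 ↔ p.1 j = 0
      rw [Equiv.Perm.mul_apply, h1]
    · intro f _ v
      refine ⟨f j, (case_A j (f j) (f, v)).2 rfl, ?_⟩
      intro i hi
      exact ((case_A j i (f, v)).1 hi).symm
  · by_cases hB : ∀ f ∈ alternatingGroup (Fin 4), ∀ l, (F f * wd l) • x = x →
        ∑ j, cnt l j = 0
    · obtain ⟨D, h1, h2⟩ := case_B a ha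
      refine ⟨D, ?_, h2⟩
      intro f' hf' l' hx p
      have h3 := h1 (cnt l') (hB f' hf' l' hx) p
      rcases hst f' ⟨hf', l', hx⟩ with h4 | h4
      · rw [h4]
        exact h3.1
      · rw [h4]
        exact h3.2
    · push Not at hB
      obtain ⟨f₀, hf₀, l₀, hx₀, hs₀⟩ := hB
      obtain ⟨hra1, l₁, hx₁⟩ := hra
      have hsym : ∀ l, (F 1 * wd l) • x = x → ∀ j, cnt l (rho a j) = cnt l j := by
        intro l hl j
        have h4 := stab_comm x 1 (rho a) l l₁ (one_mem _) hra1 hl hx₁
        have h5 := congrFun (congrArg Prod.snd h4) j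
        simp only [lmul, Equiv.Perm.one_apply] at h5
        rw [add_comm (cnt l₁ j)] at h5
        exact add_right_cancel h5
      have hf₀a : f₀ = rho a := by
        rcases hst f₀ ⟨hf₀, l₀, hx₀⟩ with h4 | h4
        · exfalso
          rw [h4] at hx₀
          exact hs₀ (Orbit_sum a ha _ (hsym l₀ hx₀))
        · exact h4
      have hs₁ : ∑ j, cnt l₀ j = 1 := by
        have hz : ∀ z : ZMod 2, z ≠ 0 → z = 1 := by decide
        exact hz _ hs₀
      rw [hf₀a] at hx₀
      obtain ⟨D, h1, h2, h3⟩ := case_C a ha (cnt l₀) hs₁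
      refine ⟨D, ?_, h3⟩
      intro f' hf' l' hx p
      rcases hst f' ⟨hf', l', hx⟩ with h4 | h4
      · rw [h4]
        rw [h4] at hx
        exact h1 (cnt l') (hsym l' hx) p
      · rw [h4]
        rw [h4] at hx
        have h5 := stab_comm x (rho a) (rho a) l' l₀ hra1 hra1 hx hx₀
        have h6 : ∀ j, cnt l' (rho a j) + cnt l₀ j = cnt l₀ (rho a j) + cnt l' j := fun j =>
          congrFun (congrArg Prod.snd h5) j
        have h7 : ((rho a, cnt l') : Lab) =
            lmul (rho a, cnt l₀) (1, fun j => cnt l' j - cnt l₀ j) := by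
          apply Prod.ext
          · exact (mul_one _).symm
          · funext j
            show cnt l' j = cnt l₀ ((1 : Equiv.Perm (Fin 4)) j) + (cnt l' j - cnt l₀ j)
            rw [Equiv.Perm.one_apply]
            ring
        rw [h7, ← lmul_assoc]
        refine (h1 _ ?_ _).trans (h2 p)
        intro j
        show cnt l' (rho a j) - cnt l₀ (rho a j) = cnt l' j - cnt l₀ j
        rw [sub_eq_sub_iff_add_eq_add, h6 j, add_comm]

/-- **The exact solution on every orbit.** -/
theorem exact_orbit (x : S2) : ∃ A : Set S2, ∀ f ∈ alternatingGroup (Fin 4), ∀ l,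
    ∃! i : Fin 4, (gam i)⁻¹ • ((F f * wd l) • x) ∈ A := by
  obtain ⟨D, hD, hu⟩ := good_D x
  refine ⟨sol x D, fun f hf l => ?_⟩
  have key : ∀ i : Fin 4, (gam i)⁻¹ • ((F f * wd l) • x) ∈ sol x D ↔ D (lgam i (f, cnt l)) := by
    intro i
    obtain ⟨f', l', h1, h2, h3⟩ := label_gam i f l
    rw [smul_smul, h1, mem_orb x D hD f' (h3 hf) l', h2]
  obtain ⟨i, hi, hui⟩ := hu f hf (cnt l)
  exact ⟨i, (key i).2 hi, fun i' hi' => hui i' ((key i').1 hi')⟩

end Pool.Agent.MP_f406e2_lc_QD
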