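import Mathlib
import Pool.Agent.Lib.MP_f406e2_lc_QD.FlipP

/-!
# QD, module FlipR: the points of a path without repetitions are generically different

`pth w t = wd ((w.take t).reverse)` for `t ≤ w.length`, and the word `(w.take t).reverse` is reduced,
as adjacent letters of `w` are different; `red_unique`.
-/

set_option autoImplicit false

noncomputable section

namespace Pool.Agent.MP_f406e2_lc_QD

private lemma FlipR_take (w : List (Fin 4)) (t : ℕ) (ht : t < w.length) :
    (w.take (t + 1)).reverse = w.getD t 0 :: (w.take t).reverse := by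
  rw [List.take_add_one, List.reverse_append, List.getElem?_eq_getElem ht,
    List.getD_eq_getElem _ _ ht]
  rfl

private lemma FlipR_pth (w : List (Fin 4)) (t : ℕ) (ht : t ≤ w.length) :
    pth w t = wd ((w.take t).reverse) := by
  induction t with
  | zero => simp [pth]
  | succ t ih =>
    rw [FlipR_take w t ht, wd_cons, ← ih (Nat.le_of_succ_le ht)]
    rfl

private lemma FlipR_red (w : List (Fin 4))
    (hw : ∀ t, t + 1 < w.length → w.getD t 0 ≠ w.getD (t + 1) 0)
    (t : ℕ) (ht : t ≤ w.length) : Red ((w.take t).reverse) := by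
  induction t with
  | zero => simp [Red]
  | succ t ih =>
    rw [FlipR_take w t ht]
    cases t with
    | zero => simp [Red]
    | succ t =>
      have h1 := ih (Nat.le_of_succ_le ht)
      rw [FlipR_take w t (Nat.lt_of_succ_lt ht)] at h1 ⊢
      exact ⟨fun h => hw t ht h.symm, h1⟩

theorem pth_inj (w : List (Fin 4)) (hw : ∀ t, t + 1 < w.length → w.getD t 0 ≠ w.getD (t + 1) 0)
    (f f' : Equiv.Perm (Fin 4)) (t t' : ℕ) (ht : t ≤ w.length) (ht' : t' ≤ w.length)
    (hft : F f * pth w t = F f' * pth w t') : f = f' ∧ t = t' := by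
  rw [FlipR_pth w t ht, FlipR_pth w t' ht'] at hft
  obtain ⟨h1, h2⟩ := red_unique f f' _ _ (FlipR_red w hw t ht) (FlipR_red w hw t' ht') hft
  refine ⟨h1, ?_⟩
  have h3 := congrArg List.length h2
  rwa [List.length_reverse, List.length_reverse, List.length_take_of_le ht,
    List.length_take_of_le ht'] at h3

end Pool.Agent.MP_f406e2_lc_QD
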