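import Mathlib
import Pool.Agent.Lib.MP_f406e2_lc_QD.AltN
import Pool.Agent.Lib.MP_f406e2_lc_QD.AltM
import Pool.Agent.Lib.MP_f406e2_lc_QD.Mixing

/-!
# QD, module Growth: matchings without short augmenting paths are almost perfect

`odds`: let all neighbours of `E` lie in `O` (`h j • x ∈ O` for `x ∈ E`), `α = nu E`, `β = nu O`. In
`Mix` every term `nu (E ∩ {x | h j • x ∈ O})` is `α`, so
`4 α (1 - β) ≤ lam √(α (1-α) β (1-β))`; squaring, and dividing by `α (1-β)` (if it is `0` the
claim is clear): `16 α (1 - β) ≤ lam² (1 - α) β`.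

`decay`: put `e i = nu (EE M i)`, `o i = nu (OO M i)`, `ρ = 16/lam² > 1`. For `i ≤ k` we have
`EE M i ∩ OO M i ⊆ EE M k ∩ OO M k`, a null set by `alt_null`, so `e i + o i ≤ 1`. By `odds` (with
`nbr`) `ρ e i (1 - o i) ≤ (1 - e i) o i`, and `o i ≤ e (i+1)` for `i < k` by `meas_step`. If `e 0 =
0`
the claim is clear. Otherwise all `e i > 0` (`EE_mono`). If `o i = 1`, then `e i = 0`, impossible;
so `o i < 1` and `e i < 1` by the inequality (`ρ e i (1 - o i) > 0`). With the odds
`a i = e i/(1 - e i)`, `b i = o i/(1 - o i)`: `ρ a i ≤ b i`, `b i ≤ a (i+1)`, so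
`ρ^k e 0 ≤ ρ^k a 0 ≤ a k`. Finally `a k ≤ 1`: as `ρ > 1`, `b k ≥ a k`, so `o k ≥ e k`, and
`e k + o k ≤ 1` gives `e k ≤ 1/2`.
-/

set_option autoImplicit false

noncomputable section

namespace Pool.Agent.MP_f406e2_lc_QD

open MeasureTheory

theorem odds (lam : ℝ) (hmix : Mix lam) (E O : Set S2) (hE : MeasurableSet E)
    (hO : MeasurableSet O) (hn : ∀ x ∈ E, ∀ j, h j • x ∈ O) :
    16 * nu.real E * (1 - nu.real O) ≤ lam ^ 2 * ((1 - nu.real E) * nu.real O) := by
  obtain ⟨h0, -, hm⟩ := hmix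
  have h1 := hm E O hE hO
  have hEE : ∀ j : Fin 4, E ∩ {x | h j • x ∈ O} = E := fun j =>
    Set.inter_eq_left.2 fun x hx => hn x hx j
  simp only [hEE, Finset.sum_const, Finset.card_univ, Fintype.card_fin, nsmul_eq_mul] at h1
  set a : ℝ := nu.real E with ha
  set b : ℝ := nu.real O with hb
  have ha0 : 0 ≤ a := measureReal_nonneg
  have hb0 : 0 ≤ b := measureReal_nonneg
  have ha1 : a ≤ 1 := measureReal_le_one
  have hb1 : b ≤ 1 := measureReal_le_one
  have hS : 0 ≤ a * (1 - a) * (b * (1 - b)) :=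
    mul_nonneg (mul_nonneg ha0 (by linarith)) (mul_nonneg hb0 (by linarith))
  have h2 : 4 * a * (1 - b) ≤ lam * √(a * (1 - a) * (b * (1 - b))) := by
    refine le_trans (le_trans (le_of_eq ?_) (le_abs_self _)) h1
    push_cast
    ring
  have h3 : (4 * a * (1 - b)) ^ 2 ≤ lam ^ 2 * (a * (1 - a) * (b * (1 - b))) := by
    have h4 : 0 ≤ 4 * a * (1 - b) := mul_nonneg (by linarith) (by linarith)
    calc (4 * a * (1 - b)) ^ 2 ≤ (lam * √(a * (1 - a) * (b * (1 - b)))) ^ 2 :=
          pow_le_pow_left₀ h4 h2 2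
      _ = lam ^ 2 * (a * (1 - a) * (b * (1 - b))) := by
          rw [mul_pow, Real.sq_sqrt hS]
  rcases (mul_nonneg ha0 (by linarith : (0 : ℝ) ≤ 1 - b)).lt_or_eq with h4 | h4
  · have h5 : (16 * a * (1 - b)) * (a * (1 - b)) ≤ (lam ^ 2 * ((1 - a) * b)) * (a * (1 - b)) := by
      calc (16 * a * (1 - b)) * (a * (1 - b)) = (4 * a * (1 - b)) ^ 2 := by ring
        _ ≤ lam ^ 2 * (a * (1 - a) * (b * (1 - b))) := h3
        _ = (lam ^ 2 * ((1 - a) * b)) * (a * (1 - b)) := by ring
    exact le_of_mul_le_mul_right h5 h4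
  · have h5 : 16 * a * (1 - b) = 0 := by
      rw [mul_assoc, ← h4, mul_zero]
    rw [h5]
    exact mul_nonneg (sq_nonneg _) (mul_nonneg (by linarith) hb0)

theorem decay (lam : ℝ) (hmix : Mix lam) (M : PM) (k : ℕ)
    (hno : ∀ w : List (Fin 4), w.length ≤ 4 * k + 1 → nu {x | M.m x = none ∧ Aug M w x} = 0) :
    un M ≤ (lam ^ 2 / 16) ^ k := by
  have hnull := alt_null M k hno
  have hlam0 := hmix.1
  have hlam4 := hmix.2.1
  set e : ℕ → ℝ := fun i => nu.real (EE M i) with he
  set o : ℕ → ℝ := fun i => nu.real (OO M i) with ho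
  have hun : un M = e 0 := rfl
  have hi : ∀ i ≤ k, nu (EE M i ∩ OO M i) = 0 := fun i hik =>
    measure_mono_null (Set.inter_subset_inter (EE_mono M hik) (OO_mono M hik)) hnull
  have hsum : ∀ i ≤ k, e i + o i ≤ 1 := by
    intro i hik
    have h1 : nu.real (EE M i ∪ OO M i) + nu.real (EE M i ∩ OO M i) = e i + o i :=
      measureReal_union_add_inter (meas_OO M i)
    have h2 : nu.real (EE M i ∩ OO M i) = 0 := by
      rw [Measure.real, hi i hik, ENNReal.toReal_zero]
    have h3 : nu.real (EE M i ∪ OO M i) ≤ 1 := measureReal_le_one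
    linarith
  have hodd : ∀ i, 16 * e i * (1 - o i) ≤ lam ^ 2 * ((1 - e i) * o i) := fun i =>
    odds lam hmix (EE M i) (OO M i) (meas_EE M i) (meas_OO M i) fun x hx j => nbr M i x hx j
  have hstep : ∀ i ≤ k, o i ≤ e (i + 1) := fun i hik => meas_step M i (hi i hik)
  have he0 : ∀ i, 0 ≤ e i := fun i => measureReal_nonneg
  have ho0 : ∀ i, 0 ≤ o i := fun i => measureReal_nonneg
  have hl2 : 0 < lam ^ 2 := by positivity
  rw [hun]
  rcases (he0 0).lt_or_eq with hpos | hz
  swap
  · rw [← hz]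
    positivity
  have hep : ∀ i, 0 < e i := by
    intro i
    refine lt_of_lt_of_le hpos ?_
    exact measureReal_mono (EE_mono M (Nat.zero_le i))
  have ho1 : ∀ i ≤ k, o i < 1 := fun i hik => by
    have := hsum i hik
    have := hep i
    linarith
  have hop : ∀ i ≤ k, 0 < o i := by
    intro i hik
    rcases (ho0 i).lt_or_eq with h1 | h1
    · exact h1
    · have h2 := hodd i
      rw [← h1, mul_zero, mul_zero] at h2
      have h3 := hep i
      linarith
  have he1 : ∀ i ≤ k, e i < 1 := fun i hik => by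
    have := hsum i hik
    have := hop i hik
    linarith
  have hba : ∀ i ≤ k, 16 / lam ^ 2 * (e i / (1 - e i)) ≤ o i / (1 - o i) := by
    intro i hik
    have h1 : 0 < 1 - e i := by linarith [he1 i hik]
    have h2 : 0 < 1 - o i := by linarith [ho1 i hik]
    rw [div_mul_div_comm, div_le_div_iff₀ (by positivity) h2]
    have h3 := hodd i
    calc 16 * e i * (1 - o i) ≤ lam ^ 2 * ((1 - e i) * o i) := h3
      _ = o i * (lam ^ 2 * (1 - e i)) := by ring
  have hind : ∀ i ≤ k, (16 / lam ^ 2) ^ i * e 0 ≤ e i / (1 - e i) := by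
    intro i
    induction i with
    | zero =>
      intro hik
      have h1 : 0 < 1 - e 0 := by linarith [he1 0 hik]
      rw [pow_zero, one_mul, le_div_iff₀ h1]
      nlinarith [he0 0]
    | succ i ih =>
      intro hik
      have h0 := ih (by omega)
      have h1 := hba i (by omega)
      have h2 : 0 < 1 - e (i + 1) := by linarith [he1 (i + 1) hik]
      have h3 : 0 < 1 - o i := by linarith [ho1 i (by omega)]
      have h4 : o i / (1 - o i) ≤ e (i + 1) / (1 - e (i + 1)) := by
        rw [div_le_div_iff₀ h3 h2]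
        have h5 := hstep i (by omega)
        nlinarith
      calc (16 / lam ^ 2) ^ (i + 1) * e 0 = 16 / lam ^ 2 * ((16 / lam ^ 2) ^ i * e 0) := by
            rw [pow_succ]
            ring
        _ ≤ 16 / lam ^ 2 * (e i / (1 - e i)) := by
            apply mul_le_mul_of_nonneg_left h0
            positivity
        _ ≤ o i / (1 - o i) := h1
        _ ≤ _ := h4
  have hk1 : e k / (1 - e k) ≤ 1 := by
    have h1 : 0 < 1 - e k := by linarith [he1 k le_rfl]
    have h2 : 0 < 1 - o k := by linarith [ho1 k le_rfl]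
    have h3 := hba k le_rfl
    have h4 : 1 ≤ 16 / lam ^ 2 := by
      rw [le_div_iff₀ hl2]
      nlinarith
    have h5 : e k / (1 - e k) ≤ o k / (1 - o k) := by
      refine le_trans ?_ h3
      have h6 : 0 ≤ e k / (1 - e k) := div_nonneg (he0 k) h1.le
      nlinarith
    rw [div_le_div_iff₀ h1 h2] at h5
    have h7 := hsum k le_rfl
    rw [div_le_one h1]
    nlinarith
  have hfin := (hind k le_rfl).trans hk1
  have h1 : (lam ^ 2 / 16) ^ k * (16 / lam ^ 2) ^ k = 1 := by
    rw [← mul_pow]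
    have : lam ^ 2 / 16 * (16 / lam ^ 2) = 1 := by
      field_simp
    rw [this, one_pow]
  calc e 0 = (lam ^ 2 / 16) ^ k * ((16 / lam ^ 2) ^ k * e 0) := by
        rw [← mul_assoc, h1, one_mul]
    _ ≤ (lam ^ 2 / 16) ^ k * 1 := by
        apply mul_le_mul_of_nonneg_left hfin
        positivity
    _ = (lam ^ 2 / 16) ^ k := mul_one _

end Pool.Agent.MP_f406e2_lc_QD
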