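import Mathlib
import Pool.Agent.Lib.MP_f406e2_lc_QD.Growth
import Pool.Agent.Lib.MP_f406e2_lc_QD.Flip
import Pool.Agent.Lib.MP_f406e2_lc_QD.Ekeland

/-!
# QD, module Perfect: the measurable perfect matching

`improve`: apply `ekeland` to `M₀` with `ε = 1/(4k+2)`; the resulting `M` has
`un M ≤ un M' + ε dd M M'` for all `M'`. If for some `w` of length `n ≤ 4k+1` the set
`{M.m x = none ∧ Aug M w x}` is not null, then `flip` gives `M'` with `un M' < un M` and
`un M' + 2/(n+1) dd M M' ≤ un M`, `2/(n+1) ≥ 2 ε`. Hence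
`un M ≤ un M' + ε dd M M' ≤ un M - ε dd M M'`, so `dd M M' = 0` and `un M ≤ un M' < un M`,
contradiction. So `decay` applies. And `dd M₀ M ≤ (4k+2) un M₀`.

`perfect`: `M 0 = PM.empty`, `M (k+1)` from `M k` by `improve` with `k + 1`. With `c = lam²/16 < 1`:
`un (M k) ≤ c^k`, `dd (M k) (M (k+1)) ≤ (4k+6) c^k`, summable. Let `L` be the limit (`pm_limit`);
`un L ≤ un (M k) + dd (M k) L → 0` (`un_le`, tails of a convergent series).
-/

set_option autoImplicit false

noncomputable section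

namespace Pool.Agent.MP_f406e2_lc_QD

open MeasureTheory

theorem improve (lam : ℝ) (hmix : Mix lam) (M₀ : PM) (k : ℕ) :
    ∃ M : PM, dd M₀ M ≤ (4 * k + 2) * un M₀ ∧ un M ≤ (lam ^ 2 / 16) ^ k := by
  have hK : (0 : ℝ) < 4 * k + 2 := by positivity
  obtain ⟨M, h1, h2⟩ := ekeland M₀ (1 / (4 * k + 2)) (by positivity)
  refine ⟨M, ?_, ?_⟩
  · have h3 : 1 / (4 * (k : ℝ) + 2) * dd M₀ M ≤ un M₀ := by
      have := un_nonneg M
      linarith
    have h4 : dd M₀ M = (4 * (k : ℝ) + 2) * (1 / (4 * (k : ℝ) + 2) * dd M₀ M) := by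
      field_simp
    rw [h4]
    exact mul_le_mul_of_nonneg_left h3 hK.le
  · refine decay lam hmix M k fun w hw => ?_
    by_contra hpos
    obtain ⟨M', h3, h4⟩ := flip M w hpos
    have h5 := h2 M'
    have hd := dd_nonneg M M'
    have hw' : (w.length : ℝ) + 1 ≤ 4 * k + 2 := by
      have : (w.length : ℝ) ≤ ((4 * k + 1 : ℕ) : ℝ) := by exact_mod_cast hw
      push_cast at this
      linarith
    have hw0 : (0 : ℝ) < (w.length : ℝ) + 1 := by positivity
    have h6 : 1 / (4 * (k : ℝ) + 2) ≤ 1 / ((w.length : ℝ) + 1) :=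
      one_div_le_one_div_of_le hw0 hw'
    have h7 : 2 / ((w.length : ℝ) + 1) * dd M M' =
        1 / ((w.length : ℝ) + 1) * dd M M' + 1 / ((w.length : ℝ) + 1) * dd M M' := by ring
    have h8 : 1 / (4 * (k : ℝ) + 2) * dd M M' ≤ 1 / ((w.length : ℝ) + 1) * dd M M' :=
      mul_le_mul_of_nonneg_right h6 hd
    have h9 : 0 ≤ 1 / (4 * (k : ℝ) + 2) * dd M M' := by positivity
    have h10 : 1 / (4 * (k : ℝ) + 2) * dd M M' = 0 := by linarith
    linarith

/-- the sequence of matchings -/
private def perfectSeq (lam : ℝ) (hmix : Mix lam) : ℕ → PM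
  | 0 => PM.empty
  | k + 1 => (improve lam hmix (perfectSeq lam hmix k) (k + 1)).choose

theorem perfect (lam : ℝ) (hmix : Mix lam) : ∃ M : PM, nu {x | M.m x = none} = 0 := by
  set c : ℝ := lam ^ 2 / 16 with hc
  have hc0 : 0 ≤ c := by positivity
  have hc1 : c < 1 := by
    have h0 := hmix.1
    have h4 := hmix.2.1
    rw [hc]
    nlinarith
  set M : ℕ → PM := perfectSeq lam hmix with hM
  have hspec : ∀ k, dd (M k) (M (k + 1)) ≤ (4 * ((k + 1 : ℕ) : ℝ) + 2) * un (M k) ∧
      un (M (k + 1)) ≤ c ^ (k + 1) := fun k =>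
    (improve lam hmix (perfectSeq lam hmix k) (k + 1)).choose_spec
  have hun : ∀ k, un (M k) ≤ c ^ k := by
    intro k
    cases k with
    | zero => simpa using un_le_one (M 0)
    | succ k => exact (hspec k).2
  have hdd : ∀ k, dd (M k) (M (k + 1)) ≤ (4 * (k : ℝ) + 6) * c ^ k := by
    intro k
    refine (hspec k).1.trans ?_
    have h1 : (4 * ((k + 1 : ℕ) : ℝ) + 2) = 4 * (k : ℝ) + 6 := by
      push_cast
      ring
    rw [h1]
    exact mul_le_mul_of_nonneg_left (hun k) (by positivity)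
  have hnc : ‖c‖ < 1 := by rwa [Real.norm_of_nonneg hc0]
  have hsum : Summable fun k : ℕ => (4 * (k : ℝ) + 6) * c ^ k := by
    have h1 : Summable fun k : ℕ => (k : ℝ) ^ 1 * c ^ k :=
      summable_pow_mul_geometric_of_norm_lt_one 1 hnc
    have h2 : Summable fun k : ℕ => c ^ k := summable_geometric_of_norm_lt_one hnc
    refine ((h1.mul_left 4).add (h2.mul_left 6)).congr fun k => ?_
    ring
  have hs : Summable fun k => dd (M k) (M (k + 1)) :=
    Summable.of_nonneg_of_le (fun k => dd_nonneg _ _) hdd hsum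
  obtain ⟨L, hL⟩ := pm_limit M hs
  have hlim : Filter.Tendsto
      (fun n => c ^ n + ∑' i, dd (M (n + i)) (M (n + i + 1))) Filter.atTop (nhds 0) := by
    have h1 : Filter.Tendsto (fun n : ℕ => c ^ n) Filter.atTop (nhds 0) :=
      tendsto_pow_atTop_nhds_zero_of_lt_one hc0 hc1
    have h2 : Filter.Tendsto (fun n => ∑' i, dd (M (n + i)) (M (n + i + 1)))
        Filter.atTop (nhds 0) := by
      have h3 := tendsto_sum_nat_add fun k => dd (M k) (M (k + 1))
      refine h3.congr fun n => ?_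
      refine tsum_congr fun i => ?_
      rw [add_comm i n]
    simpa using h1.add h2
  have hle : un L ≤ 0 := by
    refine ge_of_tendsto' hlim fun n => ?_
    have h1 := un_le L (M n)
    have h2 := hL n
    have h3 := hun n
    rw [dd_symm] at h1
    linarith
  have h0 : un L = 0 := le_antisymm hle (un_nonneg L)
  exact ⟨L, (measureReal_eq_zero_iff (measure_ne_top _ _)).1 h0⟩

end Pool.Agent.MP_f406e2_lc_QD
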