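import Mathlib
import Pool.Agent.Lib.MP_f406e2_lc_QD.Gap
import Pool.Agent.Lib.MP_f406e2_lc_QD.Mixing
import Pool.Agent.Lib.MP_f406e2_lc_QD.Perfect
import Pool.Agent.Lib.MP_f406e2_lc_QD.Orbit

/-!
# QD, module Final: the division
-/

set_option autoImplicit false

noncomputable section

namespace Pool.Agent.MP_f406e2_lc_QD

open MeasureTheory

/-- the countable group -/
def Gam : Set O3 := {g | ∃ f ∈ alternatingGroup (Fin 4), ∃ l, g = F f * wd l}

lemma Gam_countable : Gam.Countable := by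
  have h1 : Gam ⊆ Set.range fun p : Equiv.Perm (Fin 4) × List (Fin 4) => F p.1 * wd p.2 := by
    rintro g ⟨f, _, l, rfl⟩
    exact ⟨(f, l), rfl⟩
  exact (Set.countable_range _).mono h1

lemma Gam_one : (1 : O3) ∈ Gam := ⟨1, Subgroup.one_mem _, [], by simp⟩

lemma Gam_mul {g g' : O3} (hg : g ∈ Gam) (hg' : g' ∈ Gam) : g * g' ∈ Gam := by
  obtain ⟨f, hf, l, rfl⟩ := hg
  obtain ⟨f', hf', l', rfl⟩ := hg'
  obtain ⟨l'', h1, _⟩ := label_mul f f' l l'
  exact ⟨f * f', mul_mem hf hf', l'', h1⟩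

lemma Gam_inv {g : O3} (hg : g ∈ Gam) : g⁻¹ ∈ Gam := by
  obtain ⟨f, hf, l, rfl⟩ := hg
  obtain ⟨l', h1⟩ := label_inv f l
  exact ⟨f⁻¹, inv_mem hf, l', h1⟩

lemma Gam_F {f : Equiv.Perm (Fin 4)} (hf : f ∈ alternatingGroup (Fin 4)) : F f ∈ Gam :=
  ⟨f, hf, [], by simp⟩

lemma Gam_h (j : Fin 4) : h j ∈ Gam := ⟨1, Subgroup.one_mem _, [j], by simp⟩

lemma Gam_pow {g : O3} (hg : g ∈ Gam) (n : ℕ) : g ^ n ∈ Gam := by
  induction n with
  | zero => rw [pow_zero]; exact Gam_one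
  | succ n ih => rw [pow_succ]; exact Gam_mul ih hg

lemma Gam_gam (i : Fin 4) : gam i ∈ Gam :=
  Gam_mul (Gam_F (rho_mem i)) (Gam_pow (Gam_mul (Gam_h 0) (Gam_F (inv_mem cyc_mem))) _)

lemma Gam_det {g : O3} (hg : g ∈ Gam) : (mat g).det = 1 := by
  obtain ⟨f, hf, l, rfl⟩ := hg
  rw [mat_mul, Matrix.det_mul, mat_F f hf, mat_wd, one_mul]

lemma r_inv : r⁻¹ = F cyc * h 0 := by
  rw [r, mul_inv_rev, h_inv, ← map_inv, inv_inv]

lemma smul_h (j : Fin 4) (x : S2) : h j • h j • x = x := by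
  rw [← mul_smul, h_mul_self, one_smul]

lemma M_r (M : PM) (y : S2) : M.m (r⁻¹ • y) = some 0 ↔ M.m y = some 0 := by
  rw [r_inv, mul_smul, M.equi cyc cyc_mem]
  constructor
  · intro h1
    cases h2 : M.m (h 0 • y) with
    | none => rw [h2] at h1; simp at h1
    | some a =>
      rw [h2, Option.map_some, Option.some_inj] at h1
      have h3 : a = 0 := by
        apply cyc.injective
        rw [h1, cyc_zero]
      have h4 := M.sym (h 0 • y) 0 (by rw [h2, h3])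
      rwa [smul_h] at h4
  · intro h1
    rw [M.sym y 0 h1, Option.map_some, cyc_zero]

lemma M_rpow (M : PM) (k : ℕ) (y : S2) : M.m ((r ^ k)⁻¹ • y) = some 0 ↔ M.m y = some 0 := by
  induction k with
  | zero => simp
  | succ k ih =>
    rw [pow_succ, mul_inv_rev, mul_smul, M_r, ih]

lemma M_gam (M : PM) (i : Fin 4) (y : S2) : M.m ((gam i)⁻¹ • y) = some 0 ↔ M.m y = some i := by
  have h1 : (F (rho i))⁻¹ = F (rho i) := by
    rw [← map_inv, inv_eq_of_mul_eq_one_left (rho_sq i)]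
  rw [gam, mul_inv_rev, mul_smul, M_rpow, h1, M.equi (rho i) (rho_mem i)]
  constructor
  · intro h2
    cases h3 : M.m y with
    | none => rw [h3] at h2; simp at h2
    | some a =>
      rw [h3, Option.map_some, Option.some_inj] at h2
      congr 1
      apply (rho i).injective
      rw [h2, rho_self]
  · intro h2
    rw [h2, Option.map_some, rho_self]

theorem ae_part : ∃ A B : Set S2, MeasurableSet A ∧ nu B = 0 ∧
    ∀ x ∉ B, ∃! i : Fin 4, (gam i)⁻¹ • x ∈ A := by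
  obtain ⟨lam, h0, h4, hgap⟩ := gap
  obtain ⟨M, hM⟩ := perfect lam (mixing_of_gap lam h0 h4 hgap)
  refine ⟨M.m ⁻¹' {some 0}, {x | M.m x = none}, M.meas _, hM, fun x hx => ?_⟩
  obtain ⟨i, hi⟩ := Option.ne_none_iff_exists'.1 hx
  refine ⟨i, (M_gam M i x).2 hi, fun j hj => ?_⟩
  have h1 := (M_gam M j x).1 hj
  rw [hi, Option.some_inj] at h1
  exact h1.symm

/-- points in the same orbit -/
def orbS : Setoid S2 where
  r x y := ∃ g ∈ Gam, y = g • x
  iseqv := {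
    refl := fun x => ⟨1, Gam_one, (one_smul _ x).symm⟩
    symm := by
      rintro x y ⟨g, hg, rfl⟩
      exact ⟨g⁻¹, Gam_inv hg, (inv_smul_smul g x).symm⟩
    trans := by
      rintro x y z ⟨g, hg, rfl⟩ ⟨g', hg', rfl⟩
      exact ⟨g' * g, Gam_mul hg' hg, (mul_smul g' g x).symm⟩ }

/-- a representative of the orbit -/
def rep (x : S2) : S2 := (Quotient.mk orbS x).out

lemma rep_rel (x : S2) : ∃ g ∈ Gam, x = g • rep x :=
  Quotient.exact (s := orbS) (Quotient.out_eq (Quotient.mk orbS x))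

lemma rep_smul (g : O3) (hg : g ∈ Gam) (x : S2) : rep (g • x) = rep x := by
  have h1 : Quotient.mk orbS (g • x) = Quotient.mk orbS x :=
    (Quotient.sound (s := orbS) ⟨g, hg, rfl⟩).symm
  rw [rep, rep, h1]

theorem exact_part : ∃ A : Set S2, ∀ x, ∃! i : Fin 4, (gam i)⁻¹ • x ∈ A := by
  choose A hA using exact_orbit
  refine ⟨{y | y ∈ A (rep y)}, fun x => ?_⟩
  obtain ⟨g, ⟨f, hf, l, rfl⟩, hx⟩ := rep_rel x
  have h1 : ∀ i, (gam i)⁻¹ • x ∈ {y | y ∈ A (rep y)} ↔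
      (gam i)⁻¹ • ((F f * wd l) • rep x) ∈ A (rep x) := by
    intro i
    rw [Set.mem_ofPred_eq, rep_smul _ (Gam_inv (Gam_gam i))]
    rw [← hx]
  simp only [h1]
  exact hA (rep x) f hf l

theorem main : ∃ A : Set S2, NullMeasurableSet A nu ∧ ∀ x, ∃! i : Fin 4, (gam i)⁻¹ • x ∈ A := by
  obtain ⟨A₁, B, hA₁, hB, h1⟩ := ae_part
  obtain ⟨A₂, h2⟩ := exact_part
  set N : Set S2 := ⋃ g ∈ Gam, (fun x : S2 => g • x) ⁻¹' B with hN
  have hN0 : nu N = 0 := by
    rw [hN, measure_biUnion_null_iff Gam_countable]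
    intro g _
    exact (mp g).quasiMeasurePreserving.preimage_null hB
  have hNinv : ∀ g ∈ Gam, ∀ x, g • x ∈ N ↔ x ∈ N := by
    have key : ∀ g ∈ Gam, ∀ x, x ∈ N → g • x ∈ N := by
      intro g hg x hx
      rw [hN, Set.mem_iUnion₂] at hx ⊢
      obtain ⟨g', hg', hx'⟩ := hx
      refine ⟨g' * g⁻¹, Gam_mul hg' (Gam_inv hg), ?_⟩
      change (g' * g⁻¹) • g • x ∈ B
      rw [mul_smul, inv_smul_smul]
      exact hx'
    intro g hg x
    refine ⟨fun hx => ?_, key g hg x⟩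
    have h3 := key g⁻¹ (Gam_inv hg) _ hx
    rwa [inv_smul_smul] at h3
  have hBN : B ⊆ N := by
    intro x hx
    rw [hN, Set.mem_iUnion₂]
    exact ⟨1, Gam_one, by
      change (1 : O3) • x ∈ B
      rwa [one_smul]⟩
  refine ⟨(A₁ \ N) ∪ (A₂ ∩ N), ?_, fun x => ?_⟩
  · have h3 : (A₁ \ N ∪ A₂ ∩ N : Set S2) =ᵐ[nu] A₁ := by
      have h4 : ∀ᵐ x ∂nu, x ∉ N := measure_eq_zero_iff_ae_notMem.1 hN0
      filter_upwards [h4] with x hx
      apply propext
      constructor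
      · rintro (h5 | h5)
        · exact h5.1
        · exact absurd h5.2 hx
      · intro h5
        exact Or.inl ⟨h5, hx⟩
    exact (hA₁.nullMeasurableSet).congr h3.symm
  · by_cases hx : x ∈ N
    · have h3 : ∀ i, (gam i)⁻¹ • x ∈ A₁ \ N ∪ A₂ ∩ N ↔ (gam i)⁻¹ • x ∈ A₂ := by
        intro i
        have h4 : (gam i)⁻¹ • x ∈ N := (hNinv _ (Gam_inv (Gam_gam i)) x).2 hx
        constructor
        · rintro (h5 | h5)
          · exact absurd h4 h5.2
          · exact h5.1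
        · intro h5
          exact Or.inr ⟨h5, h4⟩
      simp only [h3]
      exact h2 x
    · have h3 : ∀ i, (gam i)⁻¹ • x ∈ A₁ \ N ∪ A₂ ∩ N ↔ (gam i)⁻¹ • x ∈ A₁ := by
        intro i
        have h4 : (gam i)⁻¹ • x ∉ N := fun h5 => hx ((hNinv _ (Gam_inv (Gam_gam i)) x).1 h5)
        constructor
        · rintro (h5 | h5)
          · exact h5.1
          · exact absurd h5.2 h4
        · intro h5
          exact Or.inl ⟨h5, h4⟩
      simp only [h3]
      exact h1 x fun h4 => hx (hBN h4)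

end Pool.Agent.MP_f406e2_lc_QD
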